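/-
MP_8a4e59_co, part P (primes in arithmetic progressions to moduli `e^L`, `L^43 ≤ log X ≤ e^(L/8)`,
with one possible exceptional character): definitions and statements (helper8).
Every docstring contains a complete proof.
-/
import Mathlib
import Pool.Agent.Lib.MP_89da58_nt.Defs

set_option autoImplicit false

open Complex MeasureTheory Filter Topology
open scoped Interval
open ArithmeticFunction (vonMangoldt)
open Pool.Agent.MP89da58 (tri)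

namespace Pool.Agent.MP8a4e59.P

/-! ### Definitions -/

/-- Weighted sum `∑ f(n) tri (lam log (n/X))`, `tri u = max 0 (1 - |u|)`. -/
noncomputable def wS (f : ℕ → ℂ) (lam X : ℝ) : ℂ :=
  ∑ n ∈ Finset.Icc 1 ⌊3 * X⌋₊, f n * ((tri (lam * Real.log (n / X)) : ℝ) : ℂ)

/-- Laplace transform of the tent. -/
noncomputable def Kt (z : ℂ) : ℂ := (dslope (fun z => exp (z / 2) - exp (-(z / 2))) 0 z) ^ 2

/-- `(s-1) ζ(s)`, an entire function. -/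
noncomputable def Zf (s : ℂ) : ℂ := if s = 1 then 1 else (s - 1) * riemannZeta s

/-- The zero free region. -/
def InR (L : ℝ) (s : ℂ) : Prop := |s.re - 1| ≤ (L ^ 41)⁻¹ ∧ |s.im| ≤ Real.exp L

/-- `β` is an exceptional zero of the primitive quadratic character `χ` modulo `q` at level `L`. -/
structure Exc (L : ℝ) (q : ℕ) [NeZero q] (χ : DirichletCharacter ℂ q) (β : ℝ) : Prop where
  q2 : 2 ≤ q
  qL : (q : ℝ) ≤ Real.exp L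
  prim : χ.IsPrimitive
  quad : χ ^ 2 = 1
  ne : χ ≠ 1
  lo : 1 - (L ^ 6)⁻¹ ≤ β
  hi : β < 1
  zero : χ.LFunction β = 0

/-! ### Perron's formula with the tent -/

/-- [8a P01] Kernel. Proof: `F z = e^(z/2) - e^(-z/2)` is entire, `F 0 = 0`, so `dslope F 0` is entire,
equal to `F z / z` for `z ≠ 0` and to `F' 0 = 1` at `0`. Integration by parts (twice) for `z ≠ 0`:
`∫_{-1}^1 (1-|u|) e^(zu) du = (e^z + e^(-z) - 2)/z² = (F z/z)²`; for `z = 0` both sides are `1`.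
The first bound follows from the integral representation (`∫ tri = 1`, `|e^(zu)| ≤ e^|Re z|`), the
second from `|F z| ≤ 2 e^(|Re z|/2)`. -/
def S_kt : Prop := Differentiable ℂ Kt ∧
  (∀ z : ℂ, Kt z = ∫ u in (-1 : ℝ)..1, ((tri u : ℝ) : ℂ) * exp (z * u)) ∧
  (∀ z : ℂ, ‖Kt z‖ ≤ Real.exp |z.re|) ∧ (∀ z : ℂ, ‖Kt z‖ * ‖z‖ ^ 2 ≤ 4 * Real.exp |z.re|)

/-- [8a P02] Fourier inversion. Proof: `f v = tri (lam v) e^(cv)` is continuous with compact support;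
`𝓕 f w = ∫ e^(-2πiwv) f(v) dv = Kt ((c - 2πiw)/lam)/lam` (P01, substitution `u = lam v`); it is
continuous and, by the bounds in P01, `O(min(1, w^(-2)))`, hence integrable.
`Continuous.fourierInv_fourier_eq` (or `MeasureTheory.Integrable.fourierInv_fourier_eq`) and the
substitution `t = -2πw`. -/
def S_inv : Prop := ∀ c lam v : ℝ, 0 < lam →
  Integrable (fun t : ℝ => exp (-((c + t * I) * v)) * (Kt ((c + t * I) / lam) / lam)) ∧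
  ((tri (lam * v) : ℝ) : ℂ) = (1 / (2 * Real.pi) : ℝ) *
    ∫ t : ℝ, exp (-((c + t * I) * v)) * (Kt ((c + t * I) / lam) / lam)

/-- [8a P03] Perron's formula. Proof: the terms with `n > 3X` have weight `0`
(`lam log (n/X) ≥ 1`); for the others P02 with `v = log (n/X)`,
`e^(-(c+it)v) = X^(c+it) n^(-(c+it))`. Interchange of sum and integral: `∑ |f n| n^(-c) < ∞` and
`∫ |Kt(..)/lam| < ∞` (`hasSum_integral_of_summable_integral_norm`). The index `0` does not occur on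
either side (`LSeries.term f s 0 = 0`). -/
def S_perron : Prop := ∀ (f : ℕ → ℂ) (c lam X : ℝ), 0 < c → 1 ≤ lam → 0 < X → LSeriesSummable f c →
  Integrable (fun t : ℝ => LSeries f (c + t * I) * ((X : ℂ) ^ ((c : ℂ) + t * I) *
    (Kt ((c + t * I) / lam) / lam))) ∧
  wS f lam X = (1 / (2 * Real.pi) : ℝ) * ∫ t : ℝ, LSeries f (c + t * I) *
    ((X : ℂ) ^ ((c : ℂ) + t * I) * (Kt ((c + t * I) / lam) / lam))

/-- [8a P04] Shifting the contour. Proof: split the integral of P03 at `|t| ≤ H`; on `|t| > H` use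
`|Kt((c+it)/lam)/lam| ≤ 4 lam e²/t²` (as `c ≤ 2`), which gives `≤ (1/2π) M X^c 8 e² lam / H`. On
`|t| ≤ H` the integrand is `G(s) X^s Kt(s/lam)/lam` on the right edge of the rectangle; it is
differentiable there (P01), so (`integral_boundary_rect_eq_zero_of_differentiableOn`) the integral is
the one over the left edge plus those over the horizontal edges. Left edge:
`|Kt(s/lam)/lam| ≤ e² min(1/lam, 4 lam/t²)`, whose integral is at most `8 e²`: contribution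
`≤ (1/2π) 8 e² B X^σ ≤ 20 B X^σ`. Horizontal edges (length `≤ 3/2`, `|s| ≥ H`, `|X^s| ≤ X^c`):
`≤ (1/2π) 2 (3/2) 4 e² lam B X^c/H²`. -/
def S_shift : Prop := ∀ (f : ℕ → ℂ) (G : ℂ → ℂ) (σ c H lam X B M : ℝ), 1 / 2 ≤ σ → σ ≤ c → c ≤ 2 →
  1 ≤ H → 1 ≤ lam → 1 ≤ X → 0 ≤ B → 0 ≤ M → LSeriesSummable f c →
  (∀ s : ℂ, σ ≤ s.re → s.re ≤ c → |s.im| ≤ H → DifferentiableAt ℂ G s ∧ ‖G s‖ ≤ B) →
  (∀ t : ℝ, |t| ≤ H → G (c + t * I) = LSeries f (c + t * I)) →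
  (∀ t : ℝ, ‖LSeries f (c + t * I)‖ ≤ M) →
  ‖wS f lam X‖ ≤ 20 * B * X ^ σ + 20 * B * X ^ c * lam / H ^ 2 + 20 * M * X ^ c * lam / H

/-! ### Upper bounds near the line `Re s = 1` -/

/-- [8a P05] Zeta function. Proof. `Zf` is entire (`differentiableAt_riemannZeta`,
`riemannZeta_residue_one` and the removable singularity theorem), `dslope Zf 1 s = ζ s - 1/(s-1)` for
`s ≠ 1`. For `Re s > 1` and integers `M ≥ 1` (Abel summation, e.g. `LSeries_eq_mul_integral` or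
`sum_mul_eq_sub_integral_mul`): `ζ s = ∑_{n ≤ M} n^(-s) + M^(1-s)/(s-1) - s ∫_M^∞ {x} x^(-s-1) dx`
(up to the boundary term, which is `0` as `{M} = 0`). Both sides are analytic in `Re s > 0`,
`s ≠ 1` (differentiability of the integral: as a Mellin transform, compare `differentiableAt_D` in
Lib/MP_0da313_nt/BV/Series.lean), so the formula holds there (`AnalyticOnNhd.eqOn_of_preconnected_of_eventuallyEq`;
to avoid the puncture multiply by `s - 1`). Take `M = ⌈e^L⌉`. `|n^(-s)| ≤ n^(-1) n^(1/L) ≤ 9/n` for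
`n ≤ M`, the sum is `≤ 9 (1 + log M) ≤ 27 L`; the integral term is at most
`|s| M^(-Re s)/Re s ≤ C M^(1/L) ≤ C'`;
`|M^(1-s) - 1| ≤ |s-1| log M max(1, M^(1 - Re s)) ≤ 9 |s-1| (L+1)`. The point `s = 1` by continuity. -/
def S_zup : Prop := Differentiable ℂ Zf ∧ ∃ C : ℝ, 1 ≤ C ∧ ∀ (L : ℝ) (s : ℂ), 2 ≤ L →
  1 - L⁻¹ ≤ s.re → s.re ≤ 3 → |s.im| ≤ Real.exp L → ‖dslope Zf 1 s‖ ≤ C * L

/-- [8a P06] Non-principal characters. Proof. `S(x) = ∑_{n ≤ x} χ n` satisfies `|S x| ≤ q`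
(`LFunction_eq_integral` and `norm_SS` in Lib/MP_0da313_nt/BV/Series.lean:
`L(s,χ) = s ∫_1^∞ S(x) x^(-s-1) dx` for `Re s > 0`). Splitting the integral at an integer `M` and Abel
summation on `[1,M]`: `L(s,χ) = ∑_{n ≤ M} χ n n^(-s) - S(M) M^(-s) + s ∫_M^∞ S(x) x^(-s-1) dx`. Take
`M = ⌈e^L⌉`: the sum is at most `∑_{n ≤ M} 9/n ≤ 27 L`, the other terms are at most
`q M^(-Re s) (1 + |s|/Re s) ≤ C q (|s| + 1) e^(-L) e ≤ C'`. -/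
def S_lup : Prop := ∃ C : ℝ, 1 ≤ C ∧ ∀ (q : ℕ) [NeZero q] (χ : DirichletCharacter ℂ q) (L : ℝ) (s : ℂ),
  χ ≠ 1 → 2 ≤ L → 1 - L⁻¹ ≤ s.re → s.re ≤ 3 → q * (|s.im| + 3) ≤ Real.exp L →
  ‖χ.LFunction s‖ ≤ C * L

/-- [8a P07] Derivatives (P05, P06 and Cauchy's estimate
`Complex.norm_deriv_le_of_forall_mem_sphere_norm_le` on the circle of radius `1/(2L)` around `s`,
which is contained in `Re ≥ 1 - 1/L`, `|Im| ≤ |Im s| + 1`). -/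
def S_dup : Prop := ∃ C : ℝ, 1 ≤ C ∧
  (∀ (q : ℕ) [NeZero q] (χ : DirichletCharacter ℂ q) (L : ℝ) (s : ℂ),
    χ ≠ 1 → 2 ≤ L → 1 - (2 * L)⁻¹ ≤ s.re → s.re ≤ 2 → q * (|s.im| + 4) ≤ Real.exp L →
    ‖deriv χ.LFunction s‖ ≤ C * L ^ 2) ∧
  (∀ (L : ℝ) (s : ℂ), 2 ≤ L → 1 - (2 * L)⁻¹ ≤ s.re → s.re ≤ 2 → |s.im| + 1 ≤ Real.exp L →
    ‖deriv (dslope Zf 1) s‖ ≤ C * L ^ 2)

/-! ### Lower bounds -/

/-- [8a P08] The 3-4-1 inequality, quantitative. Proof: `DirichletCharacter.norm_LFunction_product_ge_one`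
(or the version for `LSeries`) at `x = δ`, `y = t`, with `|L(1+δ, 1)| ≤ ζ(1+δ) ≤ 3/δ`:
`1 ≤ (3/δ)³ u⁴ M`, `u = |L(1+δ+it,χ)|`, so `u ≥ 1/(216 M⁴)`. On the segment from `σ + it` to
`1 + δ + it` (length `≤ 3δ/2`) the derivative is at most `M` and the function is differentiable
(`χ ≠ 1` or `t ≠ 0`), so `|L(σ+it,χ)| ≥ 1/(216 M⁴) - (3/2) δ M = 1/(216 M⁴) - 1/(288 M⁴) = 1/(864 M⁴)`. -/
def S_341 : Prop := ∀ (q : ℕ) [NeZero q] (χ : DirichletCharacter ℂ q) (M t δ : ℝ), 1 ≤ M →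
  (χ ≠ 1 ∨ t ≠ 0) → δ = 1 / (432 * M ^ 5) →
  (∀ σ : ℝ, 1 - δ / 2 ≤ σ → σ ≤ 1 + δ → ‖deriv χ.LFunction (σ + t * I)‖ ≤ M) →
  ‖(χ ^ 2).LFunction (1 + δ + 2 * t * I)‖ ≤ M →
  ∀ σ : ℝ, 1 - δ / 2 ≤ σ → σ ≤ 1 + δ → 1 / (864 * M ^ 4) ≤ ‖χ.LFunction (σ + t * I)‖

/-- [8a P09] Complex characters. Proof: P08 with `M = C (4L)²`, where `C` is the larger of the
constants of P06, P07: for `L ≥ L0`, `q (2|t| + 5) ≤ e^(4L)` if `|t| ≤ e^L`, `q ≤ e^L`; the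
hypotheses of P08 follow from P07 and from P06 for `χ²`. `δ/2 ≥ L^(-41)` for large `L`, so the
segment contains the point; `|L'/L| ≤ C (4L)² 864 M⁴ ≤ L^36`. -/
def S_cplx : Prop := ∃ L0 : ℝ, ∀ L : ℝ, L0 ≤ L → ∀ (q : ℕ) [NeZero q] (χ : DirichletCharacter ℂ q),
  (q : ℝ) ≤ Real.exp L → χ ^ 2 ≠ 1 → ∀ s : ℂ, InR L s →
  χ.LFunction s ≠ 0 ∧ ‖deriv χ.LFunction s / χ.LFunction s‖ ≤ L ^ 36

/-- [8a P10] Real characters away from the real axis. For `χ² = 1`, `χ ≠ 1`, `L^(-k) ≤ |t|`,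
`k ≤ 8` and `C1 ≥ 1`: P08 with `M = C L^(max k 2)`; `|L(1+δ+2it, χ²)| ≤ C(1 + log(q(1+|s|))) + 2/|s-1|`
(`norm_LTriv_le` in Lib/MP_89da58_nt/S/CharBound.lean). Here `τ = c L^(-8)` for any fixed `c > 0`:
`M = C' L^8`, `δ/2 ≥ L^(-41)` and `864 M⁴ C (4L)² ≤ L^35` for large `L`. -/
def S_realt : Prop := ∀ c : ℝ, 0 < c → ∃ L0 : ℝ, ∀ L : ℝ, L0 ≤ L → ∀ (q : ℕ) [NeZero q]
  (χ : DirichletCharacter ℂ q), (q : ℝ) ≤ Real.exp L → χ ^ 2 = 1 → χ ≠ 1 → ∀ s : ℂ, InR L s →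
  c * (L ^ 8)⁻¹ ≤ |s.im| →
  χ.LFunction s ≠ 0 ∧ ‖deriv χ.LFunction s / χ.LFunction s‖ ≤ L ^ 35

/-- [8a P11] Real characters without exceptional zero. Proof: `L(σ,χ)` is real for real `σ`, positive
at `1` (`L1_pos`, `LFunction_im` in Lib/MP_0da313_nt/BV), without zero in `[1-L^(-6), 1)`, so
non-negative at `β = 1 - L^(-6)`. `main_ineq` (Lib/MP_0da313_nt/BV/Siegel1.lean) with
`y = ⌈e^(4L)⌉`: `y^(1-β) ≤ 2` etc., hence `1 ≤ 3 L^6 (L(1,χ) + e^(-3L)) + small`, so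
`L(1,χ) ≥ c1 L^(-6)`. With `|L'| ≤ C (2L)²` (P07), `|L(s,χ)| ≥ c1 L^(-6)/2` for
`|s-1| ≤ 2 c L^(-8)` for a suitable `c`. For `|Im s| ≥ c L^(-8)` use P10. -/
def S_real : Prop := ∃ L0 : ℝ, ∀ L : ℝ, L0 ≤ L → ∀ (q : ℕ) [NeZero q] (χ : DirichletCharacter ℂ q),
  (q : ℝ) ≤ Real.exp L → χ.IsPrimitive → χ ^ 2 = 1 → χ ≠ 1 → (¬ ∃ β : ℝ, Exc L q χ β) →
  ∀ s : ℂ, InR L s → χ.LFunction s ≠ 0 ∧ ‖deriv χ.LFunction s / χ.LFunction s‖ ≤ L ^ 36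

/-- [8a P12] The exceptional character. `H = dslope L(·,χ) β` is entire, `L(s,χ) = (s-β) H s`. Proof.
On the circle `|z - 1| = 1/(4L)` (levels as in P06 with `2L`), `|z - β| ≥ 1/(8L)`, so
`|H z| ≤ C L²` there and (maximum principle) inside, so `|H'| ≤ C L³` for `|z-1| ≤ 1/(8L)` (Cauchy).
At `1 + δ`, `δ = L^(-6)`: `L(1+δ,χ) ζ(1+δ) ≥ 1` (Euler product, or the first coefficient of
`ζ L` with non-negative coefficients; or `four_product`-type argument), so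
`|H(1+δ)| ≥ (δ/3)/(2δ) = 1/6`. Hence `|H s| ≥ 1/12` for `|s-1| ≤ 2 L^(-4)`. For `s ∈ InR` with
`|Im s| ≥ L^(-4)` use P10 and `H'/H = L'/L - 1/(s-β)`, `|s-β| ≥ L^(-4)`. -/
def S_exc : Prop := ∃ L0 : ℝ, ∀ L : ℝ, L0 ≤ L → ∀ (q : ℕ) [NeZero q] (χ : DirichletCharacter ℂ q)
  (β : ℝ), Exc L q χ β →
  (∀ s : ℂ, ‖s - 1‖ ≤ (L ^ 4)⁻¹ → dslope χ.LFunction β s ≠ 0) ∧
  (∀ s : ℂ, InR L s → dslope χ.LFunction β s ≠ 0 ∧
    ‖deriv (dslope χ.LFunction β) s / dslope χ.LFunction β s‖ ≤ L ^ 36)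

/-- [8a P13] Repulsion. Proof: suppose `χ₁`, `χ₂` are different. `x = 1 + L^(-6)`. By `four_product`
(Lib/MP_89da58_nt/S/Lower.lean) `1 ≤ ζ(x) |L(x,χ₁)| |L(x,χ₂)| |L(x,χ₁χ₂)|`; `χ₁χ₂` modulo `q₁q₂` is
non-principal (`eq_of_product_eq_one` in Page.lean), so by P06 `|L(x,χ₁χ₂)| ≤ C L`; `ζ(x) ≤ 3 L^6`;
`|L(x,χ_i)| = |L(x,χ_i) - L(β_i,χ_i)| ≤ 2 L^(-6) C L²`. The product is `O(L^(6 + 1 + 2(2-6)))
= O(1/L) < 1`, a contradiction. Equality of the zeros: P12 (first claim). -/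
def S_rep : Prop := ∃ L0 : ℝ, ∀ L : ℝ, L0 ≤ L → ∀ (q₁ q₂ : ℕ) [NeZero q₁] [NeZero q₂]
  (χ₁ : DirichletCharacter ℂ q₁) (χ₂ : DirichletCharacter ℂ q₂) (β₁ β₂ : ℝ),
  Exc L q₁ χ₁ β₁ → Exc L q₂ χ₂ β₂ →
  (⟨q₁, χ₁⟩ : Σ r, DirichletCharacter ℂ r) = ⟨q₂, χ₂⟩ ∧ β₁ = β₂

/-- [8a P14] The zeta function. Proof: `Zf 1 = 1` and continuity: `|Zf s| ≥ 1/2` for `|s-1| ≤ c0`.
For `|Im s| ≥ c0/2` P08 with `q = 1`, `χ = 1` (`LFunction_modOne_eq`), `M = C' (4L)²` (P05, P07: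
`ζ = dslope Zf 1 + 1/(s-1)`), so `|ζ s| ≥ c L^(-8)`, `|Zf s| ≥ c' L^(-8)`; and
`Zf'/Zf = ζ'/ζ + 1/(s-1)`. Near `1`: `|Zf'| ≤ C` by continuity on a compact set. The last claim
is P05. -/
def S_zeta : Prop := ∃ L0 : ℝ, ∀ L : ℝ, L0 ≤ L → ∀ s : ℂ, InR L s →
  Zf s ≠ 0 ∧ ‖deriv Zf s / Zf s‖ ≤ L ^ 36 ∧ ‖dslope Zf 1 s‖ ≤ L ^ 2

/-- [8a P15] Siegel. Proof: `siegel (ε/2)` (Lib/MP_0da313_nt/BV/Siegel2.lean) gives
`L(1,χ) ≥ c q^(-ε/2) ≥ c e^(-εL/2)`, and `L(1,χ) = L(1,χ) - L(β,χ) ≤ (1-β) C (2L)²` by P07. -/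
def S_siegel : Prop := ∀ ε : ℝ, 0 < ε → ∃ L0 : ℝ, ∀ L : ℝ, L0 ≤ L → ∀ (q : ℕ) [NeZero q]
  (χ : DirichletCharacter ℂ q) (β : ℝ), Exc L q χ β → Real.exp (-(ε * L)) ≤ 1 - β

/-! ### Sums over primes -/

/-- Range of `X` at level `L`. -/
def Rng (L lam X : ℝ) : Prop :=
  0 < X ∧ L ^ 43 ≤ Real.log X ∧ Real.log X ≤ Real.exp (L / 8) ∧ 1 ≤ lam ∧ lam ≤ Real.exp (L / 8)

/-- [8a P16] Non-exceptional characters. Proof: P04 with `f n = Λ n χ n`, `G = -L'/L`,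
`c = 1 + 1/log X`, `σ = 1 - L^(-41)`, `H = e^L`, `B = L^36`,
`M = ∑ Λ n n^(-c) ≤ 3 log X` (`-ζ'/ζ(c) ≤ 1/(c-1) + C`); `LSeries (Λ χ) = -L'/L`
(`DirichletCharacter.LSeries_twist_vonMangoldt_eq`). `X^σ = X e^(-L^(-41) log X) ≤ X e^(-L²)`,
`X^c = e X`. Total `≤ X (20 L^36 e^(-L²) + 20 L^36 e e^(L/8-2L) + 60 e e^(L/8 + L/8 - L)) ≤ X e^(-L/2)`
for large `L`. -/
def S_psichi : Prop := ∃ L0 : ℝ, ∀ L : ℝ, L0 ≤ L → ∀ (q : ℕ) [NeZero q] (χ : DirichletCharacter ℂ q),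
  (q : ℝ) ≤ Real.exp L → χ.IsPrimitive → χ ≠ 1 → (¬ ∃ β : ℝ, Exc L q χ β) → ∀ lam X : ℝ,
  Rng L lam X → ‖wS (fun n => (vonMangoldt n : ℂ) * χ n) lam X‖ ≤ X * Real.exp (-(L / 2))

/-- [8a P17] The principal character. Proof: as P16 with `f n = Λ n - 1`,
`G s = -(Zf' s/Zf s) - dslope Zf 1 s`: for `s ≠ 1`, `-ζ'/ζ = 1/(s-1) - Zf'/Zf` and
`ζ = 1/(s-1) + dslope Zf 1`. -/
def S_psione : Prop := ∃ L0 : ℝ, ∀ L : ℝ, L0 ≤ L → ∀ lam X : ℝ, Rng L lam X →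
  ‖wS (fun n => (vonMangoldt n : ℂ) - 1) lam X‖ ≤ X * Real.exp (-(L / 2))

/-- [8a P18] The exceptional character. Proof: as P16 with `f n = Λ n χ n + n^(β-1)`,
`G s = -(H' s/H s) + dslope Zf 1 (s + 1 - β)`, `H = dslope L(·,χ) β`: `-L'/L = -1/(s-β) - H'/H` and
`∑ n^(β-1) n^(-s) = ζ(s+1-β) = 1/(s-β) + dslope Zf 1 (s+1-β)`; the last function is bounded by
P05 (`Re (s+1-β) ≥ Re s ≥ 1 - L^(-41)`). -/
def S_psiexc : Prop := ∃ L0 : ℝ, ∀ L : ℝ, L0 ≤ L → ∀ (q : ℕ) [NeZero q] (χ : DirichletCharacter ℂ q)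
  (β : ℝ), Exc L q χ β → ∀ lam X : ℝ, Rng L lam X →
  ‖wS (fun n => (vonMangoldt n : ℂ) * χ n + (((n : ℝ) ^ (β - 1) : ℝ) : ℂ)) lam X‖ ≤
    X * Real.exp (-(L / 2))

/-- Main term: `1 - χ₁(a) n^(β₁-1)` if `q₁ ∣ q` and the exceptional character exists. -/
noncomputable def mt (e : Prop) [Decidable e] (q₁ : ℕ) (χ₁ : DirichletCharacter ℂ q₁) (β₁ : ℝ)
    (q : ℕ) (a : ℤ) (n : ℕ) : ℝ :=
  1 - if e ∧ q₁ ∣ q then (χ₁ (a : ZMod q₁)).re * (n : ℝ) ^ (β₁ - 1) else 0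

end Pool.Agent.MP8a4e59.P
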