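/-
MP_8a4e59_co, part P: progressions (helper8). Every docstring contains a complete proof.
-/
import Pool.Agent.Lib.MP_8a4e59_co.P.Stm

set_option autoImplicit false

open Complex
open ArithmeticFunction (vonMangoldt)
open Pool.Agent.MP89da58 (tri)

namespace Pool.Agent.MP8a4e59.P

/-- Secondary main term: `χ₁(a) n^(β₁-1)` if `q₁ ∣ q`. -/
noncomputable def thE (q₁ : ℕ) (χ₁ : DirichletCharacter ℂ q₁) (β₁ : ℝ) (q : ℕ) (a : ℤ) (n : ℕ) : ℝ :=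
  if q₁ ∣ q then (χ₁ (a : ZMod q₁)).re * (n : ℝ) ^ (β₁ - 1) else 0

/-- Primes in progressions, tent weights, secondary main term `th`. -/
def ApW (L : ℝ) (th : ℕ → ℤ → ℕ → ℝ) : Prop :=
  ∀ (q : ℕ) [NeZero q] (a : ℤ) (lam X : ℝ), (q : ℝ) ≤ Real.exp L → IsCoprime a (q : ℤ) →
    Rng L lam X →
    ‖wS (fun n => if (n : ZMod q) = (a : ZMod q) then (vonMangoldt n : ℂ) else 0) lam X -
      (1 / (Nat.totient q : ℂ)) * wS (fun n => ((1 - th q a n : ℝ) : ℂ)) lam X‖ ≤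
      X * Real.exp (-(L / 3))

/-- Primes in progressions, sharp intervals `(y, z]` in `[1, N]`, secondary main term `th`. -/
def ApS (L : ℝ) (th : ℕ → ℤ → ℕ → ℝ) : Prop :=
  ∀ (N q : ℕ) [NeZero q] (a : ℤ) (y z : ℕ), L ^ 44 ≤ Real.log N → Real.log N ≤ Real.exp (L / 100) →
    (q : ℝ) ≤ Real.exp L → IsCoprime a (q : ℤ) → y ≤ z → z ≤ N →
    |(∑ n ∈ Finset.Ioc y z, if (n : ZMod q) = (a : ZMod q) then vonMangoldt n else 0) -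
      (1 / (Nat.totient q : ℝ)) * ∑ n ∈ Finset.Ioc y z, (1 - th q a n)| ≤ N * Real.exp (-(L / 40))

/-- [8a P19] Progressions, tent weights. Proof. Orthogonality of characters modulo `q`:
`wS (1_{n = a} Λ) = (1/φ(q)) ∑_χ conj χ(a) wS (Λ χ)`. Let `χ` be induced by the primitive `χ*` modulo
`d ∣ q` (`DirichletCharacter.primitiveCharacter`); `χ n = χ* n` unless `(n,q) > 1`, and
`∑_{n ≤ 3X, (n,q) > 1} Λ n ≤ ∑_{p ∣ q} log (3X) ≤ 2 L log (3X) ≤ X e^(-L/2)` (`X ≥ exp (L^43)`; compare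
`psiChiL_sub_le` in Lib/MP_0da313_nt/BV/BvL.lean). If `χ* = 1` modulo `1` P17 gives
`wS Λ = wS 1 + O(X e^(-L/2))`. If `χ*` is the exceptional character `χ₁` (this happens for exactly one
`χ` if `q₁ ∣ q` and for none otherwise) P18 gives `wS (Λ χ₁) = - wS (n^(β₁-1)) + O(X e^(-L/2))`, and
`conj χ(a) = χ₁(a)` is real. For all other `χ` P16 (no exceptional zero by P13) gives `O(X e^(-L/2))`.
Total error `≤ 2 X e^(-L/2) ≤ X e^(-L/3)`. -/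
def S_ap : Prop := ∃ L0 : ℝ, ∀ L : ℝ, L0 ≤ L →
  ((¬ ∃ (q₁ : ℕ) (_ : NeZero q₁) (χ₁ : DirichletCharacter ℂ q₁) (β₁ : ℝ), Exc L q₁ χ₁ β₁) →
    ApW L (fun _ _ _ => 0)) ∧
  (∀ (q₁ : ℕ) [NeZero q₁] (χ₁ : DirichletCharacter ℂ q₁) (β₁ : ℝ), Exc L q₁ χ₁ β₁ →
    ApW L (thE q₁ χ₁ β₁))

/-- [8a P20] From tent weights to sharp intervals, for any `th` with `|th| ≤ 1`. Proof. `lam = e^(L/10)`,
`X_j = e^(j/lam)` for integers `j`: `∑_j tri (lam log (n/X_j)) = ∑_j tri (lam log n - j) = 1` for every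
`n ≥ 1`. Let `y' = max (y, N e^(-L/20))`. Let `J` be the set of `j` with `y' e^(1/lam) ≤ X_j ≤ z e^(-1/lam)`
(then the tent lives in `(y', z]`); `∑_{j ∈ J} tri(..) ∈ [0,1]` and it equals `1` for
`y' e^(3/lam) ≤ n ≤ z e^(-3/lam)`, and is `0` outside `(y',z]`. `|J| ≤ lam (L/20 + 1)`; for `j ∈ J`,
`log X_j ≥ log N - L ≥ L^43` and `≤ log N ≤ e^(L/8)`, so `ApW` applies, total error
`≤ 2 lam L N e^(-L/3)`. The remaining `n` (`y < n ≤ y'`, `y' < n ≤ y' e^(3/lam)`,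
`z e^(-3/lam) ≤ n ≤ z`) are at most `N e^(-L/20) + 12 N/lam + 4` many, each contributes at most
`log N + 2 ≤ 2 e^(L/100)` on either side. Sum `≤ N e^(-L/40)` (`N ≥ exp (L^44)`). -/
def S_sharp : Prop := ∃ L0 : ℝ, ∀ L : ℝ, L0 ≤ L → ∀ th : ℕ → ℤ → ℕ → ℝ,
  (∀ q a n, |th q a n| ≤ 1) → ApW L th → ApS L th

/-- [8a P21] Final theorem of part P. Proof: P19, P20, P15 (`|thE| ≤ 1` as `n^(β₁-1) ≤ 1` for `n ≥ 1`,
and for `n = 0` the power is `0`). -/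
def S_main : Prop := ∀ ε : ℝ, 0 < ε → ∃ L0 : ℝ, ∀ L : ℝ, L0 ≤ L →
  ((¬ ∃ (q₁ : ℕ) (_ : NeZero q₁) (χ₁ : DirichletCharacter ℂ q₁) (β₁ : ℝ), Exc L q₁ χ₁ β₁) ∧
    ApS L (fun _ _ _ => 0)) ∨
  ∃ (q₁ : ℕ) (_ : NeZero q₁) (χ₁ : DirichletCharacter ℂ q₁) (β₁ : ℝ), Exc L q₁ χ₁ β₁ ∧
    Real.exp (-(ε * L)) ≤ 1 - β₁ ∧ ApS L (thE q₁ χ₁ β₁)

end Pool.Agent.MP8a4e59.P
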