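/-
MP_8a4e59_co, part P: from `P.S_main` to the interface statement `APP.S_P1` (helper8).
Every docstring contains a complete proof.
-/
import Pool.Agent.Lib.MP_8a4e59_co.P.Stm2
import Pool.Agent.Lib.MP_8a4e59_co.IfaceB

set_option autoImplicit false

open Complex
open ArithmeticFunction (vonMangoldt)

namespace Pool.Agent.MP8a4e59.P

/-- [8a P22] The gap. Proof. Let `(q, χ, β)` be exceptional at level `L` (large). With
`L' = log (4q) + 2` one has `L' ≤ 2L`, so on the real segment `[β, 1]` (`1 - β ≤ L^(-6) ≤ 1/(2L')`)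
P07 at level `L'` gives `|L'(σ,χ)| ≤ C L'^2`; hence `L(1,χ) ≤ (1-β) C (log (4q) + 2)^2` (mean value
inequality as in P15.lean, `p15_mvt`). `siegel (1/4)` (Lib/MP_0da313_nt/BV/Siegel2.lean) gives
`L(1,χ) ≥ c q^(-1/4)`, and `C (log (4q) + 2)^2 ≤ C' q^(1/4)` for all `q ≥ 1`. So
`1 - β ≥ c2 q^(-1/2)` with a constant `c2 > 0`. If `c2 q^(1/2) ≥ 1`, this is `≥ 1/q`. Otherwise
`q^(-1/2) > c2` and `1 - β > c2^2`, impossible if `L^(-6) ≤ c2^2`, i.e. for large `L`. -/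
def S_gap : Prop := ∃ L0 : ℝ, ∀ L : ℝ, L0 ≤ L → ∀ (q : ℕ) [NeZero q] (χ : DirichletCharacter ℂ q)
  (β : ℝ), Exc L q χ β → 1 / (q : ℝ) ≤ 1 - β

/-- [8a P23] Power sum. Proof: `n^(β-1) ≤ ∫_{n-1}^n t^(β-1) dt` and `n^(β-1) ≥ ∫_n^{n+1} t^(β-1) dt`
(or induction on `y` with `n^(β-1) ≤ (n^β - (n-1)^β)/β` and `≥ ((n+1)^β - n^β)/β`): the sum is at most
`y^β/β` and at least `((y+1)^β - 1)/β ≥ y^β/β - 2`. -/
def S_pow : Prop := ∀ (β : ℝ) (y : ℕ), 1 / 2 < β → β < 1 →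
  |(∑ n ∈ Finset.Ioc 0 y, (n : ℝ) ^ (β - 1)) - (y : ℝ) ^ β / β| ≤ 2

/-- [8a P24] `APP.S_P1` from P21, P22, P23. Proof. Given `c`, put `L2 = log log N`,
`L = 100 L2^(c+1)` (`N` large, so `L2 ≥ 1` and `L` is large): `L ≥ 100 L2`, so
`log N = e^L2 ≤ e^(L/100)`; `L^44 ≤ e^L2 = log N` for large `N` (polynomial against exponential in
`L2`); `XX c N = e^(L2^c) ≤ e^L`; `e^(-L/40) ≤ e^(-2 L2^c) e^(-1/2) .. ≤ (1/XX c N) / 2`.
Apply P21 with `ε = 1` at level `L`. First case (no exceptional character): `ApS L 0` with the interval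
`(0, y]` is `NoExc`: the main term is `(1/φ(q)) ∑_{n ≤ y} 1 = y/φ(q)`; `n ≡ b [MOD q]` iff
`(n : ZMod q) = b`. Second case `(q₁, χ₁, β₁)`: if `q₁ > XX c N`, then no `q ≤ XX c N` (`q ≥ 1`) is
divisible by `q₁`, so `thE = 0` for these `q` and again `NoExc` holds. If `q₁ ≤ XX c N`: `APP.Exc` with
`β = β₁`, `χ n = (χ₁ n).re`: the values are `0, ±1` since `χ₁^2 = 1` (`χ₁ n = 0` iff `n` is not a
unit modulo `q₁`, otherwise `(χ₁ n)^2 = 1`), so `χ₁ n` is real, which gives `vals`, `supp`, `mul`, `per`;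
`β₁ ≥ 1 - L^(-6) > 1/2`; `gap` is P22; `main`: the main term is
`(1/φ(q)) (y - χ b ∑_{n ≤ y} n^(β₁-1))`, use P23; the extra error `2` is `≤ N/(2 XX c N)` for large
`N`; `other`: `thE = 0`. -/
def S_fin : Prop := S_main → S_gap → S_pow → Pool.Agent.APP.S_P1

end Pool.Agent.MP8a4e59.P
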