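/-
MP_8a4e59_co, part P2-P5: the statements `APP.S_Pa`, `APP.S_Pb` (helper8).
Every docstring contains a complete proof.
-/
import Pool.Agent.Lib.MP_8a4e59_co.IfaceB
import Pool.Agent.Lib.MP_8a4e59_co.P.Stm3

set_option autoImplicit false

open Finset ArithmeticFunction

namespace Pool.Agent.APP.Q

/-! ### Definitions -/

/-- A (possibly trivial) exceptional character: `χ = 0`, `q₁ = 1` is allowed. -/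
structure Chi (q₁ : ℕ) (β : ℝ) (χ : ℕ → ℝ) : Prop where
  one_le : 1 ≤ q₁
  half_lt : 1 / 2 < β
  lt_one : β < 1
  abs_le : ∀ n, |χ n| ≤ 1
  per : ∀ m n, m ≡ n [MOD q₁] → χ m = χ n

/-- `om(n) = χ(n) n^(β-1)`; note `|om| ≤ 1` (also at `n = 0`, where the power is `0`). -/
noncomputable def omf (β : ℝ) (χ : ℕ → ℝ) (n : ℕ) : ℝ := χ n * (n : ℝ) ^ (β - 1)

/-- Primes in progressions to moduli divisible by `q₁`. -/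
def Hyp (X : ℝ) (N q₁ : ℕ) (β : ℝ) (χ : ℕ → ℝ) : Prop :=
  ∀ q b y : ℕ, 1 ≤ q → (q : ℝ) ≤ X → b.Coprime q → y ≤ N → q₁ ∣ q →
    |∑ n ∈ (Finset.Icc 1 y).filter (fun n => n ≡ b [MOD q]), vonMangoldt n -
      (∑ n ∈ Finset.Icc 1 y, (1 - χ b * (n : ℝ) ^ (β - 1))) / q.totient| ≤ N / X

/-- `Dec` with arbitrary finite index types, `A` = bound for the type I mass, `B` = bound for the type II
mass, `Cf` = bound for the type II coefficients, `e` = error. -/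
def DecT (δ : ℝ) (N q₀ : ℕ) (X V A B Cf e : ℝ) (g : ℤ → ℂ) : Prop :=
  ∃ (ι κ : Type) (_ : Fintype ι) (_ : Fintype κ) (m : ι → ℕ) (lam : ι → ℝ) (w : ι → ℤ → ℂ)
    (M : κ → ℕ) (mu : κ → ℝ) (a b : κ → ℕ → ℂ) (err : ℤ → ℂ),
    (∀ i, 1 ≤ m i ∧ (m i : ℝ) ≤ X ∧ 0 ≤ lam i ∧ TypeI δ N q₀ (m i) (w i)) ∧
    (∑ i, lam i / m i ≤ A) ∧ (∀ j, 0 ≤ mu j) ∧ (∑ j, mu j ≤ B) ∧
    (∀ j, V ≤ M j ∧ (M j) ^ 2 ≤ 4 * N ∧ (∀ k, ‖a j k‖ ≤ Cf) ∧ (∀ k, ‖b j k‖ ≤ Cf)) ∧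
    (∑ n ∈ Finset.Icc (1 : ℤ) N, ‖err n‖ ≤ e * N) ∧
    (∀ n ∈ Finset.Icc (1 : ℤ) N, g n = ∑ i, (lam i : ℂ) * w i n +
      (if δ * N ≤ (n : ℝ) then ∑ j, (mu j : ℂ) * typeII (M j) (a j) (b j) n else 0) + err n)

/-- The primes `≤ Q`. -/
noncomputable def prQ (Q : ℝ) : Finset ℕ := (Finset.Icc 1 ⌊Q⌋₊).filter Nat.Prime

/-- `∏_{p ≤ Q, p ∤ q} (1 - 1/p)` -/
noncomputable def Vq (Q : ℝ) (q : ℕ) : ℝ := ∏ p ∈ (prQ Q).filter (fun p => ¬ p ∣ q), (1 - 1 / (p : ℝ))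

open Classical in
/-- The `Λ` part of `gg`. -/
noncomputable def gL (δ : ℝ) (N : ℕ) (n : ℤ) : ℂ :=
  if 1 ≤ n ∧ δ * N ≤ n ∧ n ≤ N then ((vonMangoldt n.toNat / (Real.log N) ^ 2 : ℝ) : ℂ) else 0

open Classical in
/-- The rough part of `gg`. -/
noncomputable def gR (δ Q : ℝ) (N : ℕ) (om : ℕ → ℝ) (n : ℤ) : ℂ :=
  if 1 ≤ n ∧ δ * N ≤ n ∧ n ≤ N then
    ((-(CQ Q * (if rough Q n then 1 else 0) * (1 - om n.toNat)) / (Real.log N) ^ 2 : ℝ) : ℂ) else 0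

/-- `c_m = ∑_{bc = m, b, c ≤ V} μ(b) Λ(c)` -/
noncomputable def cV (V : ℝ) (m : ℕ) : ℝ :=
  ∑ x ∈ m.divisorsAntidiagonal, if (x.1 : ℝ) ≤ V ∧ (x.2 : ℝ) ≤ V then
    (moebius x.1 : ℝ) * vonMangoldt x.2 else 0

/-- `h(k) = ∑_{c ∣ k, c > V} Λ(c)` -/
noncomputable def hV (V : ℝ) (k : ℕ) : ℝ := ∑ c ∈ k.divisors, if V < (c : ℝ) then vonMangoldt c else 0

/-- Type I part of Vaughan's identity. -/
noncomputable def vI (V : ℝ) (n : ℕ) : ℝ :=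
  ∑ b ∈ n.divisors, (if (b : ℝ) ≤ V then (moebius b : ℝ) * Real.log ((n : ℝ) / b) else 0) -
    ∑ m ∈ n.divisors, cV V m

/-- Type II part of Vaughan's identity. -/
noncomputable def vII (V : ℝ) (n : ℕ) : ℝ :=
  ∑ b ∈ n.divisors, (if V < (b : ℝ) then (moebius b : ℝ) * hV V (n / b) else 0)

open Classical in
/-- restriction of `f n / (log N)²` to `[δN, N]` -/
noncomputable def rst (δ : ℝ) (N : ℕ) (f : ℕ → ℝ) (n : ℤ) : ℂ :=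
  if 1 ≤ n ∧ δ * N ≤ n ∧ n ≤ N then ((f n.toNat / (Real.log N) ^ 2 : ℝ) : ℂ) else 0

/-! ### Combinatorics of the sieve -/

/-- [8a Q01] Bonferroni. Proof. `E_k(P) = ∏_P (1 - x) - ∑_{S ⊆ P, |S| ≤ k} (-1)^|S| ∏_S x`,
`e_k(P) = ∑_{|S| = k} ∏_S x`. Claim: `0 ≤ (-1)^(k+1) E_k(P) ≤ e_{k+1}(P)`; by induction on `P` (for all
`k`): `E_k(P ∪ {p}) = E_k(P) - x_p E_{k-1}(P)` for `k ≥ 1` and `E_0(P ∪ {p}) = E_0(P) - x_p ∏_P (1-x)`,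
`e_{k+1}(P ∪ {p}) = e_{k+1}(P) + x_p e_k(P)`. -/
def S_bon : Prop := ∀ (P : Finset ℕ) (x : ℕ → ℝ) (k : ℕ), (∀ p ∈ P, 0 ≤ x p ∧ x p ≤ 1) →
  |∏ p ∈ P, (1 - x p) - ∑ S ∈ P.powerset.filter (fun S => S.card ≤ k),
    (-1 : ℝ) ^ S.card * ∏ p ∈ S, x p| ≤ ∑ S ∈ P.powersetCard (k + 1), ∏ p ∈ S, x p

/-- [8a Q02] Truncation. Proof. `e_j = ∑_{S ⊆ P, |S| = j} ∏ 1/p` satisfies `(j+1) e_{j+1} ≤ e_1 e_j`, so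
`e_j ≤ e_1^j / j! ≤ (e e_1 / j)^j`; here `e_1 = ∑_{p ≤ Q} 1/p ≤ ∑_{n ≤ Q} 1/n ≤ 1 + log Q` and
`j = k + 1 ≥ 8 (1 + log Q) ≥ e^2 e_1` (`e^2 < 8`), so `e_j ≤ e^(-j)`. Second claim: the map
`S ↦ ∏ S` is injective on sets of primes, with values in `[1, Q^(k+1)]`. Third claim:
`∑_{S ⊆ P} ∏ 1/p = ∏ (1 + 1/p) ≤ ∏ (1 - 1/p)⁻¹`. Fourth claim: `mertens` in
Lib/MP_0da313_nt/MT/Mertens.lean (with `T = ⌊Q⌋`). -/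
def S_tru : Prop := ∀ (Q : ℝ) (k : ℕ), 2 ≤ Q →
  (8 * (1 + Real.log Q) ≤ k →
    ∑ S ∈ (prQ Q).powersetCard (k + 1), ∏ p ∈ S, (1 / (p : ℝ)) ≤ Real.exp (-k)) ∧
  ((((prQ Q).powerset.filter (fun S => S.card ≤ k + 1)).card : ℝ) ≤ Q ^ (k + 1)) ∧
  (∑ S ∈ (prQ Q).powerset, ∏ p ∈ S, (1 / (p : ℝ)) ≤ CQ Q) ∧
  CQ Q ≤ 1000 * Real.log Q

/-- [8a Q03] Rough numbers in progressions, with a monotone weight. Proof. `P` = primes `≤ Q` not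
dividing `q`. For `n ≡ b (q)` no prime dividing `q` divides `n`, so `n` is rough iff no `p ∈ P` divides
`n`. Q01 with `x_p = 1[p ∣ n]` (`∏_S x_p = 1[∏ S ∣ n]`): the left sum is
`∑_{|S| ≤ k} (-1)^|S| ∑_{n ≡ b (q), ∏S ∣ n} f(n)` up to `∑_{|S| = k+1} ∑_{n ≡ b (q), ∏S ∣ n} f(n)`. For `e`
coprime to `q` the conditions `n ≡ b (q)`, `e ∣ n` are one class modulo `m = qe`, and for a monotone
`f` with values in `[0,1]`: `|m ∑_{n ∈ (u,v], n in the class} f(n) - F| ≤ m`, `F = ∑_{(u,v]} f`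
(compare `f(n_j)` with the values on `(n_j, n_{j+1}]` and `(n_{j-1}, n_j]`). So the sum is
`(F/q) ∑_{|S| ≤ k} (-1)^|S|/∏S + O(#{S : |S| ≤ k+1}) + O((F/q) e_{k+1})`, and by Q01 with `x_p = 1/p`
the first sum is `∏_P (1-1/p) + O(e_{k+1})`. Use Q02 (`P ⊆ prQ Q`, so `e_{k+1}(P) ≤ e^(-k)`). -/
def S_fund : Prop := ∀ (f : ℕ → ℝ) (Q : ℝ) (q b k u v : ℕ), 2 ≤ Q → 1 ≤ q → b.Coprime q → u ≤ v →
  8 * (1 + Real.log Q) ≤ k →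
  (∀ m n, 1 ≤ m → m ≤ n → f n ≤ f m) → (∀ n, 1 ≤ n → 0 ≤ f n ∧ f n ≤ 1) →
  open Classical in
  |∑ n ∈ (Finset.Ioc u v).filter (fun n => n ≡ b [MOD q] ∧ rough Q n), f n -
    (∑ n ∈ Finset.Ioc u v, f n) / q * Vq Q q| ≤
    2 * ((∑ n ∈ Finset.Ioc u v, f n) / q) * Real.exp (-k) + 2 * Q ^ (k + 1)

/-- [8a Q04] Euler's function. Proof. `CQ Q * Vq Q q = ∏_{p ≤ Q, p ∣ q} (1-1/p)⁻¹` and
`q/φ(q) = ∏_{p ∣ q} (1-1/p)⁻¹`, so `CQ Q * Vq Q q / q = (1/φ(q)) ∏_{p ∣ q, p > Q} (1 - 1/p)` and the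
difference is between `0` and `(1/φ(q)) ∑_{p ∣ q, p > Q} 1/p ≤ (1/φ(q)) ω(q)/Q`. Finally
`q/φ(q) = ∏_{p ∣ q} p/(p-1) ≤ ω(q) + 1` (the `i`-th prime factor is at least `i + 1`) and
`ω(q) ≤ log q/log 2`. -/
def S_tot : Prop := ∀ (Q : ℝ) (q : ℕ), 2 ≤ Q → 1 ≤ q →
  |1 / (q.totient : ℝ) - CQ Q * Vq Q q / q| ≤ 4 * (1 + Real.log q) ^ 2 / (q * Q)

/-! ### Decompositions -/

/-- [8a Q05] Calculus of decompositions. Proof: `Fintype.equivFin`; `Sum` types. -/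
def S_dec : Prop :=
  (∀ (δ : ℝ) (N q₀ : ℕ) (X V A B Cf e epsr : ℝ) (g : ℤ → ℂ), DecT δ N q₀ X V A B Cf e g →
    A ≤ 1 / δ → B ≤ 1 / δ → Cf ≤ 1 / δ → e ≤ epsr → Dec δ N q₀ X V epsr g) ∧
  (∀ (δ : ℝ) (N q₀ : ℕ) (X X' X'' V V' V'' A A' B B' Cf e e' : ℝ) (g g' h : ℤ → ℂ),
    DecT δ N q₀ X V A B Cf e g → DecT δ N q₀ X' V' A' B' Cf e' g' → (∀ n, h n = g n + g' n) →
    X ≤ X'' → X' ≤ X'' → V'' ≤ V → V'' ≤ V' →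
    DecT δ N q₀ X'' V'' (A + A') (B + B') Cf (e + e') h)

/-- [8a Q06a] Vaughan's identity. Proof: `vaughan` in Lib/MP_89da58_nt/LargeArith.lean with `U = ⌊V⌋`
(associativity and commutativity of the Dirichlet product move `ζ` from `μ_{>V}` to `Λ_{>V}`); for
`n > V` the term `trunc U Λ n` vanishes. `|c_m| ≤ ∑_{c ∣ m} Λ c = log m`, `c_m = 0` for `m > V²`;
`0 ≤ h(k) ≤ log k`, and `h(k) = 0` for `k ≤ V` since every divisor of `k` is `≤ V`. -/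
def S_vid : Prop := ∀ (V : ℝ), 1 ≤ V →
  (∀ n : ℕ, V < n → vonMangoldt n = vI V n + vII V n) ∧
  (∀ m : ℕ, 1 ≤ m → |cV V m| ≤ Real.log m) ∧ (∀ m : ℕ, V ^ 2 < m → cV V m = 0) ∧
  (∀ k : ℕ, 1 ≤ k → 0 ≤ hV V k ∧ hV V k ≤ Real.log k) ∧ (∀ k : ℕ, (k : ℝ) ≤ V → hV V k = 0)

/-- [8a Q06b] Type I pieces. For `b ≤ V`: modulus `b`, `lam = 1/log N`,
`w x = μ b (log (x/b)/log N) 1[b ∣ x, δN ≤ x ≤ N]` (Lipschitz since `|log x - log y| ≤ |x-y|/(δN)` for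
`x, y ≥ δN`; `1 ≤ log N`; `0 ≤ log (x/b) ≤ log N` as `b ≤ x` when `b ∣ x`, `x > 0`); for `m ≤ V²`: modulus
`m`, `lam = 1/log N`, `w x = -(c_m/log N) 1[m ∣ x, δN ≤ x ≤ N]`, `|c_m| ≤ log V² ≤ log N`. Mass
`≤ (1 + log V + 1 + 2 log V)/log N ≤ 4` (`log V ≤ (log N)/2`). No type II pieces, no error. -/
def S_vI : Prop := ∀ (N q₀ : ℕ) (δ V : ℝ), 3 ≤ N → 1 ≤ q₀ → 0 < δ → δ ≤ 1 → 1 ≤ V → V ^ 2 ≤ N →
  DecT δ N q₀ (V ^ 2) V 4 0 1 0 (rst δ N (vI V))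

/-- [8a Q06c] Type II pieces. With `R = ⌊√N⌋` and `n ≤ N`: a divisor `b > V` of `n` satisfies `b ≤ R`
(coefficients `a_b = μ b 1[b ≤ R]`, `b_k = h(k) 1[1 ≤ k ≤ N]/log N`) or `b > R`, and then
`k = n/b ≤ R` (coefficients `a_k = h(k) 1[k ≤ R]/log N`, `b_b = μ b 1[b > R]`; here `b > R` implies
`b > √N ≥ V`, and `h(k) = 0` unless `k > V`). Every integer in `(V, R]` lies in exactly one of the
intervals `[M, 2M)`, `M = 2^i (⌊V⌋ + 1) ≤ R`. Number of pieces `≤ 2 (log₂ √N + 1) ≤ 4 log N`, each with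
weight `mu = 1/log N`; `M² ≤ N`. Coefficients are at most `1` in absolute value. No type I pieces, no
error. -/
def S_vII : Prop := ∀ (N q₀ : ℕ) (δ V : ℝ), 3 ≤ N → 1 ≤ q₀ → 0 < δ → δ ≤ 1 → 1 ≤ V → V ^ 2 ≤ N →
  DecT δ N q₀ (V ^ 2) V 0 4 1 0 (rst δ N (vII V))

/-- [8a Q06] Decomposition of `Λ`. Proof: Q06a, Q06b, Q06c, Q05 (for `n` in the range,
`n ≥ δN > V`). -/
def S_vau : Prop := ∀ (N q₀ : ℕ) (δ V : ℝ), 3 ≤ N → 1 ≤ q₀ → 0 < δ → δ ≤ 1 → 1 ≤ V → V < δ * N →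
  V ^ 2 ≤ N → DecT δ N q₀ (V ^ 2) V 4 4 1 0 (gL δ N)

/-- [8a Q07] The rough part. Proof. Index set: `S ⊆ prQ Q`, `|S| ≤ k`, `m = ∏ S ≤ Q^k`,
`lam = 2 CQ/(log N)²`, `w x = -(-1)^|S| (1 - om x)/2 * 1[m ∣ x, δN ≤ x ≤ N]`; no type II pieces. TypeI:
`|w| ≤ 1`; if `m q₁ ∣ x - y` then `χ x = χ y` and `|x^(β-1) - y^(β-1)| ≤ |x-y|/min(x,y)` (derivative
`(1-β) ξ^(β-2) ≤ 1/ξ` for `ξ ≥ 1`). Mass `≤ (2 CQ/(log N)²) CQ ≤ 2` (Q02, third claim). Error: Q01 with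
`x_p = 1[p ∣ n]` for every `n`; `∑_{n ≤ N} #{S : |S| = k+1, ∏S ∣ n} ≤ N ∑_{|S| = k+1} 1/∏S ≤ N e^(-k)`,
times `2 CQ/(log N)² ≤ 2`. -/
def S_rgh : Prop := ∀ (N q₁ k : ℕ) (δ Q V β : ℝ) (χ : ℕ → ℝ), 3 ≤ N → 0 < δ → δ ≤ 1 → 2 ≤ Q →
  CQ Q ≤ Real.log N → 8 * (1 + Real.log Q) ≤ k → Chi q₁ β χ →
  DecT δ N q₁ (Q ^ k) V 2 0 1 (2 * Real.exp (-k)) (gR δ Q N (omf β χ))

/-! ### Averages of `gg` -/

/-- [8a Q08] Mass on the non coprime classes. Proof. `|gg x| ≤ Λ x/(log N)² + 2 1[rough]/log N`. First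
part: `x ≤ N` is a power of a prime `p ∣ q₂`; the sum of `Λ` over the powers `≤ N` of `p` is
`≤ log N`, there are `ω(q₂) ≤ 2 log Y` primes: `≤ 2 log Y / log N ≤ 2 log Y`. Second part: `x` is rough
and has a common prime `p` with `q₂`; `p > Q`, `p ∤ q` (otherwise `p ∣ a`); the `x ∈ (u,u+H]` with
`q ∣ x - a`, `p ∣ x` are in one class modulo `qp`, so at most `H/(qp) + 1 ≤ H/(qQ) + 1` many. Total
`≤ 2 log Y + 2 * 2 log Y (H/(qQ) + 1)`. (`Real.log N ≥ 1` as `N ≥ 3`.) -/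
def S_zz1 : Prop := ∀ (N q q₂ H : ℕ) (δ Q Y : ℝ) (om : ℕ → ℝ) (a u : ℤ), 3 ≤ N → 0 < δ → 2 ≤ Q →
  CQ Q ≤ Real.log N → (∀ n, |om n| ≤ 1) → 1 ≤ q → 1 ≤ q₂ → (q₂ : ℝ) ≤ Y → Int.gcd a q = 1 →
  ∑ x ∈ (Finset.Ioc u (u + H)).filter (fun x => (q : ℤ) ∣ x - a ∧ 1 < Int.gcd x q₂),
    |gg δ Q N om x| ≤ 8 * (1 + Real.log Y) * (H / (q * Q) + 1)

/-- [8a Q09] Averages for `q₁ ∣ q`. Proof. `v' = u + H`, `u' = max u (⌈δN⌉ - 1)` (natural numbers; if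
`u' ≥ v'` the sum is `0`): the sum is `(T1 - CQ T2)/(log N)²` with `T1 = ∑_{n ∈ (u',v'], n ≡ a (q)} Λ n`,
`T2 = ∑_{n ∈ (u',v'], n ≡ a (q), rough} (1 - om n)` and `χ n = χ a` there (`q₁ ∣ q`; replace `a` by a
natural number `b ≡ a (q)`). `Hyp` at `v'` and `u'`: `|T1 - M/φ(q)| ≤ 2N/X`,
`M = ∑_{(u',v']} (1 - χ(a) n^(β-1))`, `|M| ≤ 2H`. Q03 with `f = 1` and `f n = n^(β-1)`:
`|T2 - M Vq/q| ≤ 4 (H/q) e^(-k) + 4 Q^(k+1)`. Q04: `|M/φ(q) - CQ Vq M/q| ≤ 2H * 4(1+log q)²/(qQ)`. Divide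
by `(log N)² ≥ 1`, `CQ/(log N)² ≤ 1`. -/
def S_avg1 : Prop := ∀ (N q₁ q H k : ℕ) (δ Q X β : ℝ) (χ : ℕ → ℝ) (a u : ℤ), 3 ≤ N → 0 < δ → 2 ≤ Q →
  CQ Q ≤ Real.log N → 8 * (1 + Real.log Q) ≤ k → Chi q₁ β χ → Hyp X N q₁ β χ → 1 ≤ q → (q : ℝ) ≤ X →
  q₁ ∣ q → 0 ≤ u → u + H ≤ N → Int.gcd a q = 1 →
  |∑ x ∈ (Finset.Ioc u (u + H)).filter (fun x => (q : ℤ) ∣ x - a), gg δ Q N (omf β χ) x| ≤
    2 * (N / X) + 10 * (H / q) * ((1 + Real.log q) ^ 2 / Q + Real.exp (-k)) + 10 * Q ^ (k + 1)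

/-- [8a Q10] Averages for all `q`. Proof. `m = lcm(q, q₁)`, `m ≤ q q₁ ≤ Y`, `m/q ≤ q₁`. The `x` with
`x ≡ a (q)` are split into the `m/q` classes `b` modulo `m` above `a` (e.g. `b = a + jq`,
`0 ≤ j < m/q`). Those with `gcd(b, m) = 1`: Q09 with modulus `m`; total
`≤ q₁ 2N/X + 10 (H/q) ((1+log m)²/Q + e^(-k)) + 10 q₁ Q^(k+1)` (as `(m/q) (H/m) = H/q`). If
`gcd(b, m) > 1` then `gcd(x, q₁) > 1` for every `x ≡ b (m)` (`gcd(x,q) = 1`): Q08 with `q₂ = q₁`;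
`8 (1 + log Y)(H/(qQ) + 1) ≤ 8 (H/q)(1+log Y)²/Q + 8 (1 + log Y)`. -/
def S_avg2 : Prop := ∀ (N q₁ q H k : ℕ) (δ Q X Y β : ℝ) (χ : ℕ → ℝ) (a u : ℤ), 3 ≤ N → 0 < δ → 2 ≤ Q →
  CQ Q ≤ Real.log N → 8 * (1 + Real.log Q) ≤ k → Chi q₁ β χ → Hyp X N q₁ β χ → 1 ≤ q →
  (q * q₁ : ℝ) ≤ Y → Y ≤ X → 0 ≤ u → u + H ≤ N → Int.gcd a q = 1 →
  |∑ x ∈ (Finset.Ioc u (u + H)).filter (fun x => (q : ℤ) ∣ x - a), gg δ Q N (omf β χ) x| ≤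
    2 * q₁ * (N / X) + 20 * (H / q) * ((1 + Real.log Y) ^ 2 / Q + Real.exp (-k)) +
      20 * q₁ * Q ^ (k + 1) * (1 + Real.log Y)

/-! ### Choice of parameters -/

/-- All numerical inequalities: `δ = 1/XX s`, `Q = V₁ = XX (s+1)`, `X₁ = XX (2s+4)`, `V₂ = XX (2s+5)`,
`X₂ = XX (3s+7)`, `Y = XX (3s+8)`, `Y' = XX (3s+9)`, `X = XX (3s+10)`; `q₀` is any natural number in
`[1, XX t₁]`; `k₁`, `k₂` are the truncation levels of the sieve for the two decompositions (`k₁` also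
for the averages). -/
structure Num (K s t₁ N k₁ k₂ : ℕ) : Prop where
  N3 : 3 ≤ N
  hlog : 6 ≤ XX s N
  Q2 : 2 ≤ XX (s + 1) N
  cq : 1000 * Real.log (XX (s + 1) N) ≤ Real.log N
  cq' : Real.log N + 2000 * Real.log (XX (s + 1) N) ≤ Real.log N ^ 2
  hk : 8 * (1 + Real.log (XX (s + 1) N)) ≤ k₁
  hk' : 8 * (1 + Real.log (XX (s + 1) N)) ≤ k₂
  hek : 2 * Real.exp (-k₁) ≤ (XX s N)⁻¹ ^ K
  hek' : ∀ q₀ : ℕ, 1 ≤ q₀ → (q₀ : ℝ) ≤ XX t₁ N →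
    2 * Real.exp (-k₂) ≤ ((XX s N)⁻¹ / (q₀ * XX (2 * s + 4) N)) ^ K
  QX : XX (s + 1) N ^ k₁ ≤ XX (2 * s + 4) N
  QX' : XX (s + 1) N ^ k₂ ≤ XX (3 * s + 7) N
  VX1 : XX (s + 1) N ^ 2 ≤ XX (2 * s + 4) N
  VX2 : XX (2 * s + 5) N ^ 2 ≤ XX (3 * s + 7) N
  V12 : XX (s + 1) N ≤ XX (2 * s + 5) N
  VN : XX (2 * s + 5) N < (XX s N)⁻¹ * N
  VN2 : XX (2 * s + 5) N ^ 2 ≤ N
  c1 : XX s N ^ K ≤ XX (s + 1) N
  c2 : ∀ q₀ : ℕ, (q₀ : ℝ) ≤ XX t₁ N → (q₀ * XX (2 * s + 4) N * XX s N) ^ K ≤ XX (2 * s + 5) N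
  c3 : ∀ q₀ : ℕ, (q₀ : ℝ) ≤ XX t₁ N →
    (q₀ * XX (2 * s + 4) N * XX (3 * s + 7) N * XX (2 * s + 5) N * XX s N) ^ K ≤ XX (3 * s + 8) N
  c4 : XX (3 * s + 8) N ^ K ≤ N
  c5 : XX (3 * s + 8) N ≤ XX (3 * s + 10) N
  c6 : XX (3 * s + 8) N * XX t₁ N ≤ XX (3 * s + 9) N
  c7 : XX (3 * s + 9) N ≤ XX (3 * s + 10) N
  z1 : 8 * (1 + Real.log (XX (3 * s + 8) N)) / XX (s + 1) N ≤ (XX s N)⁻¹ ^ K / 2
  z2 : 8 * (1 + Real.log (XX (3 * s + 8) N)) ≤ (XX s N)⁻¹ ^ K / 2 * (N / XX (3 * s + 8) N ^ 2)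
  a1 : 2 * XX t₁ N * (N / XX (3 * s + 10) N) ≤ (XX s N)⁻¹ ^ K / 4 * (N / XX (3 * s + 8) N ^ 2)
  a2 : 20 * ((1 + Real.log (XX (3 * s + 9) N)) ^ 2 / XX (s + 1) N + Real.exp (-k₁)) ≤
    (XX s N)⁻¹ ^ K / 4
  a3 : 20 * XX t₁ N * XX (s + 1) N ^ (k₁ + 1) * (1 + Real.log (XX (3 * s + 9) N)) ≤
    (XX s N)⁻¹ ^ K / 4 * (N / XX (3 * s + 8) N ^ 2)

/-- [8a Q11] The numerical inequalities hold for large `N`, with `k₁ = ⌈(log log N)^(s+2)⌉` and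
`k₂ = ⌈(log log N)^(2s+5)⌉`. Proof. With `l = log log N → ∞`: `log XX a = l^a`, `log N = e^l`; for
`a < b` and any constant `c`, `c l^a ≤ l^b` and `c l^a ≤ e^l` for large `N`;
`l^(s+2) ≤ k₁ ≤ l^(s+2) + 1`, same for `k₂`. Every inequality, after taking logarithms, is of the form
(sum of constants times powers of `l`) `≤` (a power of `l` with larger exponent, or `e^l`); `t₁ < s`. -/
def S_num : Prop := ∀ K s t₁ : ℕ, 1 ≤ s → t₁ + 1 ≤ s → ∃ N₀ : ℕ, ∀ N : ℕ, N₀ ≤ N →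
  Num K s t₁ N ⌈Real.log (Real.log N) ^ (s + 2)⌉₊ ⌈Real.log (Real.log N) ^ (2 * s + 5)⌉₊

/-- [8a Q12] The conclusion of part P for both cases at once. Proof. `t = 3s + 10`, parameters as in
`Num`. `|gg| ≤ (log N + 2 CQ)/(log N)² ≤ 1`. `Dec`: `gg = gL + gR` (as complex valued functions), Q06
with `V = V₁`, Q07 with `k = k₁` resp. `V = V₂`, `k = k₂`, Q05. `ZZ`: Q08 and `z1`, `z2`
(`N/Y² ≤ H/q`). Averages: Q10 with `k = k₁`, `Y = XX (3s+9)`, `X = XX (3s+10)`, `a1`, `a2`, `a3` (total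
`≤ (3/4) δ^K H/q < δ^K H/q`, `H ≥ N/Y > 0`). -/
def S_PPg : Prop := ∀ K s t₁ : ℕ, 1 ≤ s → t₁ + 1 ≤ s → ∃ N₀ : ℕ, ∀ N : ℕ, N₀ ≤ N →
  ∀ (q₁ : ℕ) (β : ℝ) (χ : ℕ → ℝ), (q₁ : ℝ) ≤ XX t₁ N → Chi q₁ β χ → Hyp (XX (3 * s + 10) N) N q₁ β χ →
    PP K s (3 * s + 10) N q₁ (omf β χ)

/-- [8a Q13] The interface statements. Proof. First part: `t₁ = 0`, `q₁ = 1`, `χ = 0`, `β = 3/4`
(`XX 0 N = e ≥ 1`; `omf β 0 = fun _ => 0`). Second part: `APP.Exc` gives `Chi` and `Hyp`. -/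
def S_fin : Prop := S_PPg → S_Pa ∧ S_Pb

end Pool.Agent.APP.Q
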