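/-
MP_8a4e59_co, [8a Q04]: Euler's function and truncated Euler products.
-/
import Pool.Agent.Lib.MP_8a4e59_co.P.StmQ

set_option autoImplicit false

open Finset

namespace Pool.Agent.APP.Q

/-- `∏ p/(p-1) ≤ |S| + 1` for a set of numbers `≥ 2` -/
private theorem q04_prod (S : Finset ℕ) (hS : ∀ p ∈ S, 2 ≤ p) :
    ∏ p ∈ S, (1 - 1 / (p : ℝ))⁻¹ ≤ S.card + 1 ∧ 0 < ∏ p ∈ S, (1 - 1 / (p : ℝ)) := by
  revert hS
  refine Finset.induction_on_max S (fun _ => by simp) ?_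
  intro a s hlt ih hS
  have ha : a ∉ s := fun h => (hlt a h).false
  obtain ⟨ih1, ih2⟩ := ih fun p hp => hS p (mem_insert_of_mem hp)
  have ha2 : 2 ≤ a := hS a (mem_insert_self a s)
  have hcard : s.card + 2 ≤ a := by
    have h1 : s ⊆ Finset.Ico 2 a := by
      intro x hx
      exact mem_Ico.2 ⟨hS x (mem_insert_of_mem hx), hlt x hx⟩
    have h2 := card_le_card h1
    rw [Nat.card_Ico] at h2
    omega
  have hcR : (s.card : ℝ) + 2 ≤ a := by exact_mod_cast hcard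
  have haR : (2 : ℝ) ≤ a := by exact_mod_cast ha2
  have hc0 : (0 : ℝ) ≤ s.card := Nat.cast_nonneg _
  have hpos : 0 < 1 - 1 / (a : ℝ) := by
    have : 1 / (a : ℝ) < 1 := by
      rw [div_lt_one (by linarith)]
      linarith
    linarith
  rw [prod_insert ha, prod_insert ha, card_insert_of_notMem ha]
  refine ⟨?_, mul_pos hpos ih2⟩
  have e : (1 - 1 / (a : ℝ))⁻¹ = a / (a - 1) := by
    have h1 : (a : ℝ) ≠ 0 := by linarith
    have h2 : (a : ℝ) - 1 ≠ 0 := by linarith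
    field_simp
  rw [e]
  have h3 : (a : ℝ) / (a - 1) * ((s.card : ℝ) + 1) ≤ (s.card : ℝ) + 1 + 1 := by
    rw [div_mul_eq_mul_div, div_le_iff₀ (by linarith)]
    nlinarith
  have h4 : 0 ≤ (a : ℝ) / (a - 1) := div_nonneg (by linarith) (by linarith)
  push_cast
  exact (mul_le_mul_of_nonneg_left ih1 h4).trans h3

private theorem q04_one_sub (S : Finset ℕ) (x : ℕ → ℝ) (h : ∀ p ∈ S, 0 ≤ x p ∧ x p ≤ 1) :
    1 - ∏ p ∈ S, (1 - x p) ≤ ∑ p ∈ S, x p ∧ ∏ p ∈ S, (1 - x p) ≤ 1 ∧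
      0 ≤ ∏ p ∈ S, (1 - x p) := by
  classical
  induction S using Finset.induction_on with
  | empty => simp
  | insert a s ha ih =>
    obtain ⟨ih1, ih2, ih3⟩ := ih fun p hp => h p (mem_insert_of_mem hp)
    obtain ⟨h0, h1⟩ := h a (mem_insert_self a s)
    rw [prod_insert ha, sum_insert ha]
    refine ⟨by nlinarith, by nlinarith, by nlinarith⟩

private theorem q04_omega (q : ℕ) (hq : 1 ≤ q) : (q.primeFactors.card : ℝ) ≤ 2 * Real.log q := by
  have h1 : 2 ^ q.primeFactors.card ≤ q := by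
    refine le_trans ?_ (Nat.le_of_dvd hq (Nat.prod_primeFactors_dvd q))
    exact Finset.pow_card_le_prod _ _ _ fun p hp => (Nat.prime_of_mem_primeFactors hp).two_le
  have h2 : (2 : ℝ) ^ q.primeFactors.card ≤ q := by exact_mod_cast h1
  have h3 := Real.log_le_log (by positivity) h2
  rw [Real.log_pow] at h3
  have h4 := Real.log_two_gt_d9
  have h5 : (0 : ℝ) ≤ q.primeFactors.card := Nat.cast_nonneg _
  nlinarith

theorem q_tot : S_tot := by
  intro Q q hQ hq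
  have hq0 : (0 : ℝ) < q := by exact_mod_cast hq
  set x : ℕ → ℝ := fun p => 1 / (p : ℝ) with hx
  set S1 := q.primeFactors.filter (fun p : ℕ => (p : ℝ) ≤ Q) with hS1
  set S2 := q.primeFactors.filter (fun p : ℕ => ¬ (p : ℝ) ≤ Q) with hS2
  have hall : ∀ p ∈ q.primeFactors, 2 ≤ p := fun p hp => (Nat.prime_of_mem_primeFactors hp).two_le
  -- the totient
  have htot : (q.totient : ℝ) = q * ∏ p ∈ q.primeFactors, (1 - 1 / (p : ℝ)) := by
    have h := Nat.totient_eq_mul_prod_factors q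
    have h' : ((q.totient : ℚ) : ℝ) = ((q * ∏ p ∈ q.primeFactors, (1 - (p : ℚ)⁻¹) : ℚ) : ℝ) := by
      rw [h]
    push_cast at h'
    rw [h']
    simp only [one_div]
  have hsplit : ∏ p ∈ q.primeFactors, (1 - 1 / (p : ℝ)) =
      (∏ p ∈ S1, (1 - 1 / (p : ℝ))) * ∏ p ∈ S2, (1 - 1 / (p : ℝ)) := by
    rw [hS1, hS2, prod_filter_mul_prod_filter_not]
  obtain ⟨_, hP1⟩ := q04_prod S1 (fun p hp => hall p (mem_filter.1 hp).1)
  obtain ⟨_, hP2⟩ := q04_prod S2 (fun p hp => hall p (mem_filter.1 hp).1)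
  obtain ⟨hPF, _⟩ := q04_prod q.primeFactors hall
  rw [prod_inv_distrib, hsplit] at hPF
  -- the truncated product
  have hCV : CQ Q * Vq Q q = (∏ p ∈ S1, (1 - 1 / (p : ℝ)))⁻¹ := by
    have e1 : CQ Q = ∏ p ∈ prQ Q, (1 - 1 / (p : ℝ))⁻¹ := rfl
    rw [e1, ← prod_filter_mul_prod_filter_not (prQ Q) (fun p => p ∣ q), Vq, mul_assoc,
      ← prod_mul_distrib]
    have e2 : ∏ p ∈ (prQ Q).filter (fun p => ¬ p ∣ q),
        ((1 - 1 / (p : ℝ))⁻¹ * (1 - 1 / (p : ℝ))) = 1 := by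
      refine prod_eq_one fun p hp => ?_
      have hp' : p.Prime := (mem_filter.1 (mem_filter.1 hp).1).2
      have h2 : (2 : ℝ) ≤ p := by exact_mod_cast hp'.two_le
      have h3 : 1 / (p : ℝ) < 1 := by
        rw [div_lt_one (by linarith)]
        linarith
      exact inv_mul_cancel₀ (by linarith)
    rw [e2, mul_one, prod_inv_distrib]
    congr 2
    ext p
    simp only [prQ, hS1, mem_filter, mem_Icc, Nat.mem_primeFactors]
    constructor
    · rintro ⟨⟨⟨_, h2⟩, h3⟩, h4⟩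
      exact ⟨⟨h3, h4, by omega⟩, (Nat.le_floor_iff (by linarith)).1 h2⟩
    · rintro ⟨⟨h3, h4, _⟩, h2⟩
      exact ⟨⟨⟨h3.one_le, (Nat.le_floor_iff (by linarith)).2 h2⟩, h3⟩, h4⟩
  rw [hCV, htot, hsplit]
  set P1 := ∏ p ∈ S1, (1 - 1 / (p : ℝ)) with hP1d
  set P2 := ∏ p ∈ S2, (1 - 1 / (p : ℝ)) with hP2d
  have hx01 : ∀ p ∈ S2, 0 ≤ x p ∧ x p ≤ 1 := by
    intro p hp
    have h2 : (2 : ℝ) ≤ p := by exact_mod_cast hall p (mem_filter.1 hp).1
    refine ⟨by positivity, ?_⟩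
    simp only [hx]
    rw [div_le_one (by linarith)]
    linarith
  obtain ⟨h1, h2, _⟩ := q04_one_sub S2 x hx01
  have h1' : 1 - P2 ≤ ∑ p ∈ S2, x p := h1
  have h2' : P2 ≤ 1 := h2
  have hω := q04_omega q hq
  have hlog : 0 ≤ Real.log q := Real.log_nonneg (by exact_mod_cast hq)
  set ω : ℝ := (q.primeFactors.card : ℝ) with hωd
  have hω0 : 0 ≤ ω := Nat.cast_nonneg _
  have h3 : ∑ p ∈ S2, x p ≤ ω / Q := by
    have h4 : ∑ p ∈ S2, x p ≤ ∑ p ∈ S2, 1 / Q := by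
      refine sum_le_sum fun p hp => ?_
      have h5 := (mem_filter.1 hp).2
      simp only [hx]
      exact one_div_le_one_div_of_le (by linarith) (by linarith [not_le.1 h5])
    refine h4.trans ?_
    rw [sum_const, nsmul_eq_mul, mul_one_div]
    apply div_le_div_of_nonneg_right _ (by linarith)
    rw [hωd]
    exact_mod_cast card_le_card (filter_subset _ _)
  have e : 1 / (q * (P1 * P2)) - P1⁻¹ / q = (P1 * P2)⁻¹ * (1 - P2) / q := by
    have := hP1.ne'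
    have := hP2.ne'
    field_simp
  have e' : |1 / (q * (P1 * P2)) - P1⁻¹ / (q : ℝ)| = (P1 * P2)⁻¹ * (1 - P2) / q := by
    rw [e]
    apply abs_of_nonneg
    have : 0 ≤ 1 - P2 := by linarith
    positivity
  rw [e']
  have h5 : (P1 * P2)⁻¹ * (1 - P2) ≤ (ω + 1) * (ω / Q) :=
    mul_le_mul hPF (h1'.trans h3) (by linarith) (by linarith)
  have h6 : (ω + 1) * (ω / Q) ≤ 4 * (1 + Real.log q) ^ 2 / Q := by
    rw [← mul_div_assoc]
    apply div_le_div_of_nonneg_right _ (by linarith)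
    nlinarith
  have h7 : 4 * (1 + Real.log q) ^ 2 / (q * Q) = 4 * (1 + Real.log q) ^ 2 / Q / q := by
    field_simp
  rw [h7]
  exact div_le_div_of_nonneg_right (h5.trans h6) hq0.le

end Pool.Agent.APP.Q
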