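import Pool.Agent.Lib.MP_8a4e59_co.P.StmQ
import Pool.Agent.Lib.MP_0da313_nt.MT.Mertens

set_option autoImplicit false

/-!
MP_8a4e59_co, piece [8a Q02]: truncation of the sieve sums (helper99).
-/

open Finset ArithmeticFunction

namespace Pool.Agent.APP.Q

private lemma q02_mem {Q : ℝ} {p : ℕ} (hQ : 2 ≤ Q) (hp : p ∈ prQ Q) : p.Prime ∧ (p : ℝ) ≤ Q := by
  rw [prQ, mem_filter, mem_Icc] at hp
  refine ⟨hp.2, ?_⟩
  exact (Nat.le_floor_iff (by linarith)).1 hp.1.2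

private lemma q02_e1 {Q : ℝ} (hQ : 2 ≤ Q) : ∑ p ∈ prQ Q, (1 / (p : ℝ)) ≤ 1 + Real.log Q := by
  have h1 := harmonic_floor_le_one_add_log Q (by linarith)
  rw [harmonic_eq_sum_Icc] at h1
  push_cast at h1
  refine le_trans ?_ h1
  refine le_trans (sum_le_sum_of_subset_of_nonneg (filter_subset _ _) ?_) (le_of_eq ?_)
  · intro i _ _
    positivity
  · exact sum_congr rfl fun i _ => by rw [one_div]

private lemma q02_exp_two : Real.exp 2 < 7.5 := by
  have h1 := Real.exp_one_lt_d9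
  have h2 : Real.exp 2 = Real.exp 1 * Real.exp 1 := by rw [← Real.exp_add]; norm_num
  have h3 := Real.exp_pos 1
  rw [h2]
  nlinarith

private lemma q02_trunc {Q : ℝ} {k : ℕ} (hQ : 2 ≤ Q) (hk : 8 * (1 + Real.log Q) ≤ k) :
    ∑ S ∈ (prQ Q).powersetCard (k + 1), ∏ p ∈ S, (1 / (p : ℝ)) ≤ Real.exp (-k) := by
  have ht0 : (0 : ℝ) < Real.exp 2 := Real.exp_pos 2
  have h1 : Real.exp 2 ^ (k + 1) * ∑ S ∈ (prQ Q).powersetCard (k + 1), ∏ p ∈ S, (1 / (p : ℝ)) =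
      ∑ S ∈ (prQ Q).powersetCard (k + 1), ∏ p ∈ S, (Real.exp 2 * (1 / (p : ℝ))) := by
    rw [mul_sum]
    refine sum_congr rfl fun S hS => ?_
    rw [prod_mul_distrib, prod_const, (mem_powersetCard.1 hS).2]
  have h2 : ∑ S ∈ (prQ Q).powersetCard (k + 1), ∏ p ∈ S, (Real.exp 2 * (1 / (p : ℝ))) ≤
      ∑ S ∈ (prQ Q).powerset, ∏ p ∈ S, (Real.exp 2 * (1 / (p : ℝ))) := by
    apply sum_le_sum_of_subset_of_nonneg
    · intro S hS
      exact mem_powerset.2 (mem_powersetCard.1 hS).1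
    · intro S _ _
      exact prod_nonneg fun p _ => by positivity
  have h3 : ∑ S ∈ (prQ Q).powerset, ∏ p ∈ S, (Real.exp 2 * (1 / (p : ℝ))) =
      ∏ p ∈ prQ Q, (1 + Real.exp 2 * (1 / (p : ℝ))) := (prod_one_add _).symm
  have h4 : ∏ p ∈ prQ Q, (1 + Real.exp 2 * (1 / (p : ℝ))) ≤
      Real.exp (∑ p ∈ prQ Q, Real.exp 2 * (1 / (p : ℝ))) := by
    rw [Real.exp_sum]
    apply prod_le_prod
    · intro p _
      positivity
    · intro p _
      have := Real.add_one_le_exp (Real.exp 2 * (1 / (p : ℝ)))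
      linarith
  have h5 : ∑ p ∈ prQ Q, Real.exp 2 * (1 / (p : ℝ)) ≤ (k + 1 : ℝ) := by
    rw [← mul_sum]
    have h6 := q02_e1 hQ
    have h7 := q02_exp_two
    have hl : 0 ≤ Real.log Q := Real.log_nonneg (by linarith)
    calc Real.exp 2 * ∑ p ∈ prQ Q, (1 / (p : ℝ)) ≤ Real.exp 2 * (1 + Real.log Q) := by gcongr
      _ ≤ 8 * (1 + Real.log Q) := by gcongr; linarith
      _ ≤ (k + 1 : ℝ) := by linarith
  have h6 : Real.exp 2 ^ (k + 1) * ∑ S ∈ (prQ Q).powersetCard (k + 1), ∏ p ∈ S, (1 / (p : ℝ)) ≤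
      Real.exp (k + 1) := by
    rw [h1]
    refine h2.trans ?_
    rw [h3]
    exact h4.trans (Real.exp_le_exp.2 h5)
  have h7 : Real.exp 2 ^ (k + 1) = Real.exp (2 * (k + 1)) := by
    rw [← Real.exp_nat_mul]
    congr 1
    push_cast
    ring
  rw [h7] at h6
  have h8 : Real.exp (2 * ((k : ℝ) + 1)) * Real.exp (-(2 * ((k : ℝ) + 1))) = 1 := by
    rw [← Real.exp_add]; simp
  calc ∑ S ∈ (prQ Q).powersetCard (k + 1), ∏ p ∈ S, (1 / (p : ℝ))
      = Real.exp (-(2 * ((k : ℝ) + 1))) * (Real.exp (2 * ((k : ℝ) + 1)) *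
        ∑ S ∈ (prQ Q).powersetCard (k + 1), ∏ p ∈ S, (1 / (p : ℝ))) := by
        rw [← mul_assoc, mul_comm (Real.exp (-(2 * ((k : ℝ) + 1)))), h8, one_mul]
    _ ≤ Real.exp (-(2 * ((k : ℝ) + 1))) * Real.exp (k + 1) := by
        apply mul_le_mul_of_nonneg_left h6 (Real.exp_pos _).le
    _ = Real.exp (-(k + 1)) := by rw [← Real.exp_add]; congr 1; ring
    _ ≤ Real.exp (-k) := Real.exp_le_exp.2 (by linarith)

private lemma q02_card {Q : ℝ} {k : ℕ} (hQ : 2 ≤ Q) :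
    ((((prQ Q).powerset.filter (fun S => S.card ≤ k + 1)).card : ℝ) ≤ Q ^ (k + 1)) := by
  have hcard : ((prQ Q).powerset.filter (fun S => S.card ≤ k + 1)).card ≤
      (Finset.Icc 1 ⌊Q ^ (k + 1)⌋₊).card := by
    apply card_le_card_of_injOn (fun S => ∏ p ∈ S, p)
    · intro S hS
      rw [mem_coe, mem_filter, mem_powerset] at hS
      obtain ⟨hS1, hS2⟩ := hS
      rw [mem_coe, mem_Icc]
      constructor
      · exact Nat.one_le_iff_ne_zero.2 (prod_ne_zero_iff.2 fun p hp =>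
          (q02_mem hQ (hS1 hp)).1.ne_zero)
      · rw [Nat.le_floor_iff (by positivity)]
        push_cast
        calc ∏ p ∈ S, (p : ℝ) ≤ ∏ _p ∈ S, Q := by
              apply prod_le_prod
              · intro p _; positivity
              · intro p hp; exact (q02_mem hQ (hS1 hp)).2
          _ = Q ^ S.card := by rw [prod_const]
          _ ≤ Q ^ (k + 1) := pow_le_pow_right₀ (by linarith) hS2
    · intro S hS T hT hST
      rw [mem_coe, mem_filter, mem_powerset] at hS hT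
      have h1 : (∏ p ∈ S, p).primeFactors = S :=
        Nat.primeFactors_prod fun p hp => (q02_mem hQ (hS.1 hp)).1
      have h2 : (∏ p ∈ T, p).primeFactors = T :=
        Nat.primeFactors_prod fun p hp => (q02_mem hQ (hT.1 hp)).1
      have h3 : (∏ p ∈ S, p) = ∏ p ∈ T, p := hST
      rw [← h1, ← h2, h3]
  rw [Nat.card_Icc, Nat.add_sub_cancel] at hcard
  calc ((((prQ Q).powerset.filter (fun S => S.card ≤ k + 1)).card : ℝ)) ≤
        (⌊Q ^ (k + 1)⌋₊ : ℝ) := by exact_mod_cast hcard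
    _ ≤ Q ^ (k + 1) := Nat.floor_le (by positivity)

private lemma q02_prod {Q : ℝ} (hQ : 2 ≤ Q) :
    ∑ S ∈ (prQ Q).powerset, ∏ p ∈ S, (1 / (p : ℝ)) ≤ CQ Q := by
  rw [← prod_one_add, CQ]
  apply prod_le_prod
  · intro p _
    positivity
  · intro p hp
    have hp' := q02_mem hQ hp
    have h2 : (2 : ℝ) ≤ p := by exact_mod_cast hp'.1.two_le
    have h3 : 1 / (p : ℝ) ≤ 1 / 2 := by
      apply one_div_le_one_div_of_le (by norm_num) h2
    have h4 : 0 < 1 / (p : ℝ) := by positivity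
    rw [le_inv_comm₀ (by linarith) (by linarith)]
    rw [← one_div, le_div_iff₀ (by linarith)]
    nlinarith

private lemma q02_mertens {Q : ℝ} (hQ : 2 ≤ Q) : CQ Q ≤ 1000 * Real.log Q := by
  have hfl : 2 ≤ ⌊Q⌋₊ := (Nat.le_floor_iff (by linarith)).2 (by exact_mod_cast hQ)
  have h1 := Pool.Agent.MT.mertens ⌊Q⌋₊ hfl
  have h2 : CQ Q = (Pool.Agent.MP89da58.kapD ⌊Q⌋₊)⁻¹ := by
    rw [CQ, Pool.Agent.MP89da58.kapD, ← prod_inv_distrib]
  have hk : 0 < Pool.Agent.MP89da58.kapD ⌊Q⌋₊ := by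
    rw [Pool.Agent.MP89da58.kapD]
    apply prod_pos
    intro p hp
    have hp' := (mem_filter.1 hp).2
    have h2 : (2 : ℝ) ≤ p := by exact_mod_cast hp'.two_le
    have h3 : 1 / (p : ℝ) ≤ 1 / 2 := one_div_le_one_div_of_le (by norm_num) h2
    linarith
  have h3 : Real.log ⌊Q⌋₊ ≤ Real.log Q := by
    apply Real.log_le_log
    · have : (2 : ℝ) ≤ ⌊Q⌋₊ := by exact_mod_cast hfl
      linarith
    · exact Nat.floor_le (by linarith)
  rw [h2, ← one_div, div_le_iff₀ hk]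
  have h4 : 1000 * Pool.Agent.MP89da58.kapD ⌊Q⌋₊ * Real.log ⌊Q⌋₊ ≤
      1000 * Pool.Agent.MP89da58.kapD ⌊Q⌋₊ * Real.log Q :=
    mul_le_mul_of_nonneg_left h3 (by positivity)
  linarith

/-- [8a Q02] Truncation. -/
theorem q_tru : S_tru := fun _ _ hQ =>
  ⟨fun hk => q02_trunc hQ hk, q02_card hQ, q02_prod hQ, q02_mertens hQ⟩

end Pool.Agent.APP.Q
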