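/-
MP_8a4e59_co, part P, P01: the kernel (helper8).
-/
import Pool.Agent.Lib.MP_8a4e59_co.P.Stm

set_option autoImplicit false

open Complex MeasureTheory
open Pool.Agent.MP89da58 (tri)

namespace Pool.Agent.MP8a4e59.P

private noncomputable def p01_F (z : ℂ) : ℂ := exp (z / 2) - exp (-(z / 2))

private lemma p01_F_diff : Differentiable ℂ p01_F := by
  unfold p01_F
  fun_prop

private lemma p01_F_zero : p01_F 0 = 0 := by simp [p01_F]

private lemma p01_F_deriv : deriv p01_F 0 = 1 := by
  have h : HasDerivAt p01_F (exp (0 / 2) * (1 / 2) - exp (-(0 / 2)) * (-(1 / 2))) 0 := by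
    have h1 : HasDerivAt (fun z : ℂ => exp (z / 2)) (exp (0 / 2) * (1 / 2)) 0 :=
      ((hasDerivAt_id (0 : ℂ)).div_const 2).cexp
    have h2 : HasDerivAt (fun z : ℂ => exp (-(z / 2))) (exp (-(0 / 2)) * (-(1 / 2))) 0 :=
      (((hasDerivAt_id (0 : ℂ)).div_const 2).neg).cexp
    exact h1.sub h2
  rw [h.deriv]
  simp
  norm_num

private lemma p01_K_eq (z : ℂ) : Kt z = (dslope p01_F 0 z) ^ 2 := rfl

private lemma p01_K_ne {z : ℂ} (hz : z ≠ 0) : Kt z = (p01_F z / z) ^ 2 := by
  rw [p01_K_eq, dslope_of_ne _ hz, slope_def_field, p01_F_zero, sub_zero, sub_zero]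

private lemma p01_K_zero : Kt 0 = 1 := by
  rw [p01_K_eq, dslope_same, p01_F_deriv]; norm_num

private lemma p01_int (z : ℂ) : Kt z = ∫ u in (-1 : ℝ)..1, ((tri u : ℝ) : ℂ) * exp (z * u) := by
  have hc : Continuous (fun u : ℝ => ((tri u : ℝ) : ℂ) * exp (z * u)) := by
    unfold tri
    fun_prop
  have hsplit := intervalIntegral.integral_add_adjacent_intervals
    (hc.intervalIntegrable (μ := volume) (-1 : ℝ) 0) (hc.intervalIntegrable (μ := volume) (0 : ℝ) 1)
  have e1 : ∫ u in (-1 : ℝ)..0, ((tri u : ℝ) : ℂ) * exp (z * u) =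
      ∫ u in (-1 : ℝ)..0, (1 + (u : ℂ)) * exp (z * u) := by
    apply intervalIntegral.integral_congr
    intro u hu
    rw [Set.uIcc_of_le (by norm_num)] at hu
    have : tri u = 1 + u := by
      unfold tri
      rw [abs_of_nonpos hu.2, max_eq_right (by linarith [hu.1])]; ring
    simp only [this]
    push_cast
    ring
  have e2 : ∫ u in (0 : ℝ)..1, ((tri u : ℝ) : ℂ) * exp (z * u) =
      ∫ u in (0 : ℝ)..1, (1 - (u : ℂ)) * exp (z * u) := by
    apply intervalIntegral.integral_congr
    intro u hu
    rw [Set.uIcc_of_le (by norm_num)] at hu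
    have : tri u = 1 - u := by
      unfold tri
      rw [abs_of_nonneg hu.1, max_eq_right (by linarith [hu.2])]
    simp only [this]
    push_cast
    ring
  rw [← hsplit, e1, e2]
  by_cases hz : z = 0
  · subst hz
    rw [p01_K_zero]
    have f1 : ∫ u in (-1 : ℝ)..0, (1 + (u : ℂ)) * exp (0 * u) = 1 / 2 := by
      have : ∀ u ∈ Set.uIcc (-1 : ℝ) 0,
          HasDerivAt (fun u : ℝ => ((u : ℂ) + (u : ℂ) ^ 2 / 2)) ((1 + (u : ℂ)) * exp (0 * u)) u := by
        intro u _
        have h0 : HasDerivAt (fun u : ℝ => (u : ℂ)) 1 u := Complex.ofRealCLM.hasDerivAt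
        have h := h0.add ((h0.pow 2).div_const 2)
        refine h.congr_deriv ?_
        simp
      rw [intervalIntegral.integral_eq_sub_of_hasDerivAt this
        ((by fun_prop : Continuous fun u : ℝ => (1 + (u : ℂ)) * exp (0 * u)).intervalIntegrable _ _)]
      push_cast
      norm_num
    have f2 : ∫ u in (0 : ℝ)..1, (1 - (u : ℂ)) * exp (0 * u) = 1 / 2 := by
      have : ∀ u ∈ Set.uIcc (0 : ℝ) 1,
          HasDerivAt (fun u : ℝ => ((u : ℂ) - (u : ℂ) ^ 2 / 2)) ((1 - (u : ℂ)) * exp (0 * u)) u := by
        intro u _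
        have h0 : HasDerivAt (fun u : ℝ => (u : ℂ)) 1 u := Complex.ofRealCLM.hasDerivAt
        have h := h0.sub ((h0.pow 2).div_const 2)
        refine h.congr_deriv ?_
        simp
      rw [intervalIntegral.integral_eq_sub_of_hasDerivAt this
        ((by fun_prop : Continuous fun u : ℝ => (1 - (u : ℂ)) * exp (0 * u)).intervalIntegrable _ _)]
      push_cast
      norm_num
    rw [f1, f2]
    norm_num
  · have hexp : ∀ u : ℝ, HasDerivAt (fun u : ℝ => exp (z * u)) (exp (z * u) * z) u := by
      intro u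
      have h0 : HasDerivAt (fun u : ℝ => (u : ℂ)) 1 u := Complex.ofRealCLM.hasDerivAt
      have := (h0.const_mul z).cexp
      simpa using this
    have f1 : ∫ u in (-1 : ℝ)..0, (1 + (u : ℂ)) * exp (z * u) =
        1 / z - 1 / z ^ 2 + exp (-z) / z ^ 2 := by
      have : ∀ u ∈ Set.uIcc (-1 : ℝ) 0,
          HasDerivAt (fun u : ℝ => ((1 + (u : ℂ)) * exp (z * u) / z - exp (z * u) / z ^ 2))
            ((1 + (u : ℂ)) * exp (z * u)) u := by
        intro u _
        have h0 : HasDerivAt (fun u : ℝ => (u : ℂ)) 1 u := Complex.ofRealCLM.hasDerivAt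
        have h := (((h0.const_add 1).mul (hexp u)).div_const z).sub ((hexp u).div_const (z ^ 2))
        refine h.congr_deriv ?_
        field_simp
        ring
      rw [intervalIntegral.integral_eq_sub_of_hasDerivAt this
        ((by fun_prop : Continuous fun u : ℝ => (1 + (u : ℂ)) * exp (z * u)).intervalIntegrable _ _)]
      push_cast
      simp
    have f2 : ∫ u in (0 : ℝ)..1, (1 - (u : ℂ)) * exp (z * u) =
        exp z / z ^ 2 - 1 / z - 1 / z ^ 2 := by
      have : ∀ u ∈ Set.uIcc (0 : ℝ) 1,
          HasDerivAt (fun u : ℝ => ((1 - (u : ℂ)) * exp (z * u) / z + exp (z * u) / z ^ 2))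
            ((1 - (u : ℂ)) * exp (z * u)) u := by
        intro u _
        have h0 : HasDerivAt (fun u : ℝ => (u : ℂ)) 1 u := Complex.ofRealCLM.hasDerivAt
        have h := (((h0.const_sub 1).mul (hexp u)).div_const z).add ((hexp u).div_const (z ^ 2))
        refine h.congr_deriv ?_
        field_simp
        ring
      rw [intervalIntegral.integral_eq_sub_of_hasDerivAt this
        ((by fun_prop : Continuous fun u : ℝ => (1 - (u : ℂ)) * exp (z * u)).intervalIntegrable _ _)]
      push_cast
      simp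
      ring
    rw [f1, f2, p01_K_ne hz]
    unfold p01_F
    have g1 : exp z = exp (z / 2) ^ 2 := by rw [← Complex.exp_nat_mul]; congr 1; push_cast; ring
    have g2 : exp (-z) = exp (-(z / 2)) ^ 2 := by
      rw [← Complex.exp_nat_mul]; congr 1; push_cast; ring
    have g3 : exp (z / 2) * exp (-(z / 2)) = 1 := by
      rw [← Complex.exp_add]; simp
    rw [g1, g2]
    field_simp
    linear_combination (-2 : ℂ) * g3

private lemma p01_tri_int : ∫ u in (-1 : ℝ)..1, tri u = 1 := by
  have h := p01_int 0
  rw [p01_K_zero] at h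
  have : ∫ u in (-1 : ℝ)..1, ((tri u : ℝ) : ℂ) * exp (0 * u) =
      ((∫ u in (-1 : ℝ)..1, tri u : ℝ) : ℂ) := by
    rw [← intervalIntegral.integral_ofReal]
    congr 1
    funext u
    simp
  rw [this] at h
  exact_mod_cast h.symm

/-- [8a P01] -/
theorem p_kt : S_kt := by
  refine ⟨?_, p01_int, ?_, ?_⟩
  · have h : DifferentiableOn ℂ (dslope p01_F 0) Set.univ :=
      (Complex.differentiableOn_dslope Filter.univ_mem).2 p01_F_diff.differentiableOn
    exact (differentiableOn_univ.1 h).pow 2
  · intro z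
    rw [p01_int z]
    have hb : ∀ u ∈ Set.Ioc (-1 : ℝ) 1, ‖((tri u : ℝ) : ℂ) * exp (z * u)‖ ≤
        tri u * Real.exp |z.re| := by
      intro u hu
      have ht : 0 ≤ tri u := le_max_left _ _
      rw [norm_mul, Complex.norm_real, Real.norm_of_nonneg ht, Complex.norm_exp]
      apply mul_le_mul_of_nonneg_left _ ht
      apply Real.exp_le_exp.mpr
      have : (z * (u : ℂ)).re = z.re * u := by simp
      rw [this]
      calc z.re * u ≤ |z.re * u| := le_abs_self _
        _ = |z.re| * |u| := abs_mul _ _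
        _ ≤ |z.re| * 1 := by
            apply mul_le_mul_of_nonneg_left _ (abs_nonneg _)
            exact abs_le.2 ⟨hu.1.le, hu.2⟩
        _ = |z.re| := mul_one _
    have hcont : Continuous (fun u : ℝ => tri u * Real.exp |z.re|) := by
      unfold tri; fun_prop
    have h := intervalIntegral.norm_integral_le_of_norm_le (μ := volume) (a := (-1 : ℝ)) (b := 1)
      (by norm_num) (Filter.Eventually.of_forall hb) (hcont.intervalIntegrable _ _)
    refine h.trans_eq ?_
    rw [intervalIntegral.integral_mul_const, p01_tri_int, one_mul]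
  · intro z
    by_cases hz : z = 0
    · subst hz
      simp
    · rw [p01_K_ne hz, norm_pow, norm_div, div_pow, div_mul_cancel₀]
      · have h1 : ‖p01_F z‖ ≤ 2 * Real.exp (|z.re| / 2) := by
          unfold p01_F
          refine (norm_sub_le _ _).trans ?_
          rw [Complex.norm_exp, Complex.norm_exp]
          have e1 : (z / 2).re = z.re / 2 := by simp
          have e2 : (-(z / 2)).re = -(z.re / 2) := by simp
          rw [e1, e2]
          have a1 : Real.exp (z.re / 2) ≤ Real.exp (|z.re| / 2) :=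
            Real.exp_le_exp.mpr (by linarith [le_abs_self z.re])
          have a2 : Real.exp (-(z.re / 2)) ≤ Real.exp (|z.re| / 2) :=
            Real.exp_le_exp.mpr (by linarith [neg_abs_le z.re])
          linarith
        calc ‖p01_F z‖ ^ 2 ≤ (2 * Real.exp (|z.re| / 2)) ^ 2 :=
              pow_le_pow_left₀ (norm_nonneg _) h1 2
          _ = 4 * Real.exp |z.re| := by
              rw [mul_pow, ← Real.exp_nat_mul]
              norm_num
              ring_nf
      · exact pow_ne_zero _ (norm_ne_zero_iff.2 hz)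

end Pool.Agent.MP8a4e59.P
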