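/-
MP_8a4e59_co, part P, piece P02 (helper74): Fourier inversion for the tent.
-/
import Pool.Agent.Lib.MP_8a4e59_co.P.Stm

set_option autoImplicit false

open Complex MeasureTheory Filter Topology
open scoped Interval FourierTransform
open Pool.Agent.MP89da58 (tri)

namespace Pool.Agent.MP8a4e59.P

private lemma p02_tri_cont : Continuous tri := by
  unfold tri
  exact continuous_const.max (continuous_const.sub continuous_abs)

private lemma p02_tri_zero {u : ℝ} (h : 1 ≤ |u|) : tri u = 0 := by
  unfold tri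
  exact max_eq_left (by linarith)

/-- the function with the transform `Kt` -/
private noncomputable def p02_f (c lam : ℝ) (x : ℝ) : ℂ :=
  ((tri (lam * x) : ℝ) : ℂ) * exp (c * x)

private lemma p02_f_cont (c lam : ℝ) : Continuous (p02_f c lam) := by
  unfold p02_f
  refine Continuous.mul ?_ ?_
  · exact continuous_ofReal.comp (p02_tri_cont.comp (continuous_const.mul continuous_id))
  · exact continuous_exp.comp (continuous_const.mul continuous_ofReal)

private lemma p02_f_supp (c : ℝ) {lam : ℝ} (hlam : 0 < lam) :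
    HasCompactSupport (p02_f c lam) := by
  refine HasCompactSupport.intro (isCompact_Icc (a := -(1 / lam)) (b := 1 / lam)) ?_
  intro x hx
  have h1 : 1 ≤ |lam * x| := by
    rw [abs_mul, abs_of_pos hlam]
    by_contra hcon
    push Not at hcon
    apply hx
    have h2 : |x| < 1 / lam := by rwa [lt_div_iff₀ hlam, mul_comm]
    rw [abs_lt] at h2
    exact ⟨h2.1.le, h2.2.le⟩
  unfold p02_f
  rw [p02_tri_zero h1]
  simp

private lemma p02_f_int (c : ℝ) {lam : ℝ} (hlam : 0 < lam) : Integrable (p02_f c lam) :=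
  (p02_f_cont c lam).integrable_of_hasCompactSupport (p02_f_supp c hlam)

/-- the Laplace transform on the whole line -/
private lemma p02_laplace (h : S_kt) (z : ℂ) :
    ∫ u : ℝ, ((tri u : ℝ) : ℂ) * exp (z * u) = Kt z := by
  rw [h.2.1 z, intervalIntegral.integral_of_le (by norm_num : (-1 : ℝ) ≤ 1)]
  symm
  apply setIntegral_eq_integral_of_forall_compl_eq_zero
  intro x hx
  have h1 : 1 ≤ |x| := by
    by_contra hcon
    push Not at hcon
    rw [abs_lt] at hcon
    exact hx ⟨hcon.1, hcon.2.le⟩
  rw [p02_tri_zero h1]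
  simp

private lemma p02_fourier (h : S_kt) (c : ℝ) {lam : ℝ} (hlam : 0 < lam) (w : ℝ) :
    𝓕 (p02_f c lam) w = Kt ((c + ((-2 * Real.pi) * w : ℝ) * I) / lam) / lam := by
  rw [Real.fourier_real_eq_integral_exp_smul]
  have hl : (lam : ℂ) ≠ 0 := by exact_mod_cast hlam.ne'
  have h1 : ∀ v : ℝ, Complex.exp (↑(-2 * Real.pi * v * w) * Complex.I) • p02_f c lam v =
      (fun u : ℝ => ((tri u : ℝ) : ℂ) *
        exp ((c + ((-2 * Real.pi) * w : ℝ) * I) / lam * u)) (lam * v) := by
    intro v
    simp only [p02_f, smul_eq_mul]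
    rw [mul_left_comm, ← Complex.exp_add]
    congr 2
    push_cast
    field_simp
    ring
  refine (integral_congr_ae (Filter.Eventually.of_forall h1)).trans ?_
  refine (Measure.integral_comp_mul_left (fun u : ℝ => ((tri u : ℝ) : ℂ) *
        exp ((c + ((-2 * Real.pi) * w : ℝ) * I) / lam * u)) lam).trans ?_
  rw [p02_laplace h, abs_of_pos (inv_pos.mpr hlam), Complex.real_smul, Complex.ofReal_inv,
    mul_comm, ← div_eq_mul_inv]

private lemma p02_bound (h : S_kt) (c : ℝ) {lam : ℝ} (hlam : 0 < lam) (t : ℝ) :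
    ‖Kt ((c + t * I) / lam) / lam‖ ≤
      ((1 + 4 * lam ^ 2) * Real.exp (|c| / lam) / lam) * (1 + t ^ 2)⁻¹ := by
  set z : ℂ := (c + t * I) / lam with hz
  have hre : z.re = c / lam := by
    rw [hz, Complex.div_ofReal_re]; simp
  have him : z.im = t / lam := by
    rw [hz, Complex.div_ofReal_im]; simp
  have habs : |z.re| = |c| / lam := by rw [hre, abs_div, abs_of_pos hlam]
  have h1 := h.2.2.1 z
  have h2 := h.2.2.2 z
  rw [habs] at h1 h2
  have h3 : t ^ 2 ≤ lam ^ 2 * ‖z‖ ^ 2 := by
    have h4 : z.im ^ 2 ≤ ‖z‖ ^ 2 := by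
      rw [← sq_abs z.im]
      exact pow_le_pow_left₀ (abs_nonneg _) (Complex.abs_im_le_norm z) 2
    have h5 : lam ^ 2 * z.im ^ 2 = t ^ 2 := by rw [him]; field_simp
    rw [← h5]
    exact mul_le_mul_of_nonneg_left h4 (by positivity)
  have h4 : ‖Kt z‖ * (1 + t ^ 2) ≤ (1 + 4 * lam ^ 2) * Real.exp (|c| / lam) := by
    have h5 : ‖Kt z‖ * t ^ 2 ≤ ‖Kt z‖ * (lam ^ 2 * ‖z‖ ^ 2) :=
      mul_le_mul_of_nonneg_left h3 (norm_nonneg _)
    have h6 : lam ^ 2 * (‖Kt z‖ * ‖z‖ ^ 2) ≤ lam ^ 2 * (4 * Real.exp (|c| / lam)) :=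
      mul_le_mul_of_nonneg_left h2 (by positivity)
    nlinarith
  have h5 : (0 : ℝ) < 1 + t ^ 2 := by positivity
  rw [norm_div, Complex.norm_real, Real.norm_eq_abs, abs_of_pos hlam, ← div_eq_mul_inv,
    div_le_div_iff₀ hlam h5]
  calc ‖Kt z‖ * (1 + t ^ 2) ≤ (1 + 4 * lam ^ 2) * Real.exp (|c| / lam) := h4
    _ = (1 + 4 * lam ^ 2) * Real.exp (|c| / lam) / lam * lam := by field_simp

private lemma p02_K_cont (h : S_kt) (c lam : ℝ) :
    Continuous (fun t : ℝ => Kt ((c + t * I) / lam) / lam) := by
  have h1 : Continuous Kt := h.1.continuous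
  exact (h1.comp ((continuous_const.add (continuous_ofReal.mul continuous_const)).div_const _)).div_const _

private lemma p02_K_int (h : S_kt) (c : ℝ) {lam : ℝ} (hlam : 0 < lam) :
    Integrable (fun t : ℝ => Kt ((c + t * I) / lam) / lam) :=
  Integrable.mono' (integrable_inv_one_add_sq.const_mul _)
    (p02_K_cont h c lam).aestronglyMeasurable
    (Filter.Eventually.of_forall fun t => p02_bound h c hlam t)

theorem p_inv (h : S_kt) : S_inv := by
  intro c lam v hlam
  have hKi := p02_K_int h c hlam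
  have hKc := p02_K_cont h c lam
  have hexpc : Continuous (fun t : ℝ => exp (-((c + t * I) * v))) :=
    continuous_exp.comp
      ((continuous_const.add (continuous_ofReal.mul continuous_const)).mul continuous_const).neg
  have hnorm : ∀ t : ℝ, ‖exp (-((c + t * I) * v))‖ = Real.exp (-(c * v)) := by
    intro t
    rw [Complex.norm_exp]
    congr 1
    simp
  constructor
  · refine Integrable.mono' (hKi.norm.const_mul (Real.exp (-(c * v))))
      (hexpc.mul hKc).aestronglyMeasurable (Filter.Eventually.of_forall fun t => ?_)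
    rw [norm_mul, hnorm]
  · have hF : (𝓕 (p02_f c lam) : ℝ → ℂ) =
        fun w => (fun t : ℝ => Kt ((c + t * I) / lam) / lam) ((-2 * Real.pi) * w) := by
      funext w
      exact p02_fourier h c hlam w
    have hpi : (-2 * Real.pi : ℝ) ≠ 0 := mul_ne_zero (by norm_num) Real.pi_ne_zero
    have hFi : Integrable (𝓕 (p02_f c lam)) := by
      rw [hF]
      exact hKi.comp_mul_left' hpi
    have hinv := congrFun (Continuous.fourierInv_fourier_eq (p02_f_cont c lam)
      (p02_f_int c hlam) hFi) v
    rw [Real.fourierInv_eq', hF] at hinv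
    have e1 : ((tri (lam * v) : ℝ) : ℂ) = exp (-(c * v)) * p02_f c lam v := by
      unfold p02_f
      rw [mul_left_comm, ← Complex.exp_add]
      simp
    rw [e1, ← hinv, ← integral_const_mul]
    have e2 : ∀ w : ℝ, exp (-(c * v)) * (exp (((2 * Real.pi * inner ℝ w v : ℝ) : ℂ) * I) •
        (fun t : ℝ => Kt ((c + t * I) / lam) / lam) ((-2 * Real.pi) * w)) =
        (fun t : ℝ => exp (-((c + t * I) * v)) * (Kt ((c + t * I) / lam) / lam))
          ((-2 * Real.pi) * w) := by
      intro w
      simp only [smul_eq_mul]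
      rw [← mul_assoc, ← Complex.exp_add]
      congr 2
      simp only [RCLike.inner_apply, conj_trivial]
      push_cast
      ring
    refine (integral_congr_ae (Filter.Eventually.of_forall e2)).trans ?_
    refine (Measure.integral_comp_mul_left (fun t : ℝ => exp (-((c + t * I) * v)) *
      (Kt ((c + t * I) / lam) / lam)) (-2 * Real.pi)).trans ?_
    rw [Complex.real_smul]
    congr 2
    rw [abs_inv, abs_mul, abs_of_pos Real.pi_pos]
    norm_num

end Pool.Agent.MP8a4e59.P
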