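/-
MP_8a4e59_co, part P, piece P03 (helper46): Perron's formula with the tent.
-/
import Pool.Agent.Lib.MP_8a4e59_co.P.Stm

set_option autoImplicit false

open Complex MeasureTheory Filter Topology
open Pool.Agent.MP89da58 (tri)

namespace Pool.Agent.MP8a4e59.P

private lemma p03_tri_zero {u : ℝ} (h : 1 ≤ u) : tri u = 0 := by
  unfold tri
  rw [abs_of_nonneg (by linarith)]
  exact max_eq_left (by linarith)

private lemma p03_term (f : ℕ → ℂ) (c : ℝ) {X : ℝ} (hX : 0 < X) {n : ℕ} (hn : n ≠ 0) (t : ℝ) :
    LSeries.term f (c + t * I) n * (X : ℂ) ^ ((c : ℂ) + t * I) =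
      f n * exp (-((c + t * I) * ((Real.log (n / X) : ℝ) : ℂ))) := by
  have hn' : (n : ℂ) ≠ 0 := by exact_mod_cast hn
  have hX' : (X : ℂ) ≠ 0 := by exact_mod_cast hX.ne'
  have hnr : (n : ℝ) ≠ 0 := by exact_mod_cast hn
  rw [LSeries.term_of_ne_zero hn, Complex.cpow_def_of_ne_zero hn', Complex.cpow_def_of_ne_zero hX',
    ← Complex.natCast_log, ← Complex.ofReal_log hX.le, div_mul_eq_mul_div, mul_div_assoc,
    ← Complex.exp_sub]
  congr 2
  rw [Real.log_div hnr hX.ne']
  push_cast
  ring

private lemma p03_norm_term (f : ℕ → ℂ) (c : ℝ) (t : ℝ) (n : ℕ) :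
    ‖LSeries.term f (c + t * I) n‖ = ‖LSeries.term f c n‖ := by
  rcases eq_or_ne n 0 with rfl | hn
  · simp
  · rw [LSeries.norm_term_eq, LSeries.norm_term_eq]
    simp [hn]

private lemma p03_norm_X (c : ℝ) {X : ℝ} (hX : 0 < X) (t : ℝ) :
    ‖(X : ℂ) ^ ((c : ℂ) + t * I)‖ = X ^ c := by
  rw [Complex.norm_cpow_eq_rpow_re_of_pos hX]
  simp

private lemma p03_line (c : ℝ) : Continuous (fun t : ℝ => (c : ℂ) + t * I) :=
  continuous_const.add (continuous_ofReal.mul continuous_const)

private lemma p03_cont_term (f : ℕ → ℂ) (c : ℝ) (n : ℕ) :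
    Continuous (fun t : ℝ => LSeries.term f (c + t * I) n) := by
  rcases eq_or_ne n 0 with rfl | hn
  · simp only [LSeries.term_zero]
    exact continuous_const
  · have hn' : (n : ℂ) ≠ 0 := by exact_mod_cast hn
    have h1 : (fun t : ℝ => LSeries.term f (c + t * I) n) =
        fun t : ℝ => f n / (n : ℂ) ^ ((c : ℂ) + t * I) := by
      funext t
      rw [LSeries.term_of_ne_zero hn]
    rw [h1]
    refine continuous_const.div ?_ ?_
    · exact (p03_line c).const_cpow (Or.inl hn')
    · intro t
      rw [Complex.cpow_def_of_ne_zero hn']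
      exact Complex.exp_ne_zero _

private lemma p03_cont_L {f : ℕ → ℂ} {c : ℝ} (hf : LSeriesSummable f c) :
    Continuous (fun t : ℝ => LSeries f (c + t * I)) := by
  unfold LSeries
  refine continuous_tsum (p03_cont_term f c) hf.norm ?_
  intro n t
  exact (p03_norm_term f c t n).le

private lemma p03_bound_L {f : ℕ → ℂ} {c : ℝ} (hf : LSeriesSummable f c) (t : ℝ) :
    ‖LSeries f (c + t * I)‖ ≤ ∑' n, ‖LSeries.term f c n‖ := by
  unfold LSeries
  refine (norm_tsum_le_tsum_norm ?_).trans (le_of_eq ?_)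
  · refine hf.norm.congr ?_
    intro n
    exact (p03_norm_term f c t n).symm
  · exact tsum_congr fun n => p03_norm_term f c t n

theorem p_perron (h : S_inv) : S_perron := by
  intro f c lam X hc hlam hX hf
  have hlam0 : 0 < lam := by linarith
  -- the kernel
  set K : ℝ → ℂ := fun t => Kt ((c + t * I) / lam) / lam with hK
  have hKi : Integrable K := by
    have h1 := (h c lam 0 hlam0).1
    have h2 : (fun t : ℝ => exp (-((c + t * I) * ((0 : ℝ) : ℂ))) *
        (Kt ((c + t * I) / lam) / lam)) = K := by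
      funext t
      simp [hK]
    rwa [h2] at h1
  have hXc : Continuous (fun t : ℝ => (X : ℂ) ^ ((c : ℂ) + t * I)) :=
    (p03_line c).const_cpow (Or.inl (by exact_mod_cast hX.ne'))
  have hXK : Integrable (fun t : ℝ => (X : ℂ) ^ ((c : ℂ) + t * I) * K t) := by
    refine Integrable.mono' (hKi.norm.const_mul (X ^ c))
      (hXc.aestronglyMeasurable.mul hKi.aestronglyMeasurable)
      (Filter.Eventually.of_forall fun t => ?_)
    rw [norm_mul, p03_norm_X c hX]
  -- the single terms
  set F : ℕ → ℝ → ℂ := fun n t =>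
    LSeries.term f (c + t * I) n * ((X : ℂ) ^ ((c : ℂ) + t * I) * K t) with hF
  have hFi : ∀ n, Integrable (F n) := by
    intro n
    refine Integrable.mono' (hXK.norm.const_mul (‖LSeries.term f c n‖))
      ((p03_cont_term f c n).aestronglyMeasurable.mul hXK.aestronglyMeasurable)
      (Filter.Eventually.of_forall fun t => ?_)
    rw [norm_mul, p03_norm_term]
  have hFn : ∀ n, ∫ t, ‖F n t‖ = ‖LSeries.term f c n‖ *
      ∫ t : ℝ, ‖(X : ℂ) ^ ((c : ℂ) + t * I) * K t‖ := by
    intro n
    rw [← integral_const_mul]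
    refine integral_congr_ae (Filter.Eventually.of_forall fun t => ?_)
    simp only [hF]
    rw [norm_mul, p03_norm_term]
  have hFs : Summable (fun n => ∫ t, ‖F n t‖) := by
    simp only [hFn]
    exact hf.norm.mul_right _
  have hsum := hasSum_integral_of_summable_integral_norm hFi hFs
  have htot : (fun t : ℝ => ∑' n, F n t) = fun t : ℝ => LSeries f (c + t * I) *
      ((X : ℂ) ^ ((c : ℂ) + t * I) * K t) := by
    funext t
    simp only [hF]
    rw [tsum_mul_right]
    rfl
  -- the value of a single term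
  have hval : ∀ n : ℕ, n ≠ 0 → (1 / (2 * Real.pi) : ℝ) * ∫ t, F n t =
      f n * ((tri (lam * Real.log (n / X)) : ℝ) : ℂ) := by
    intro n hn
    have e : ∫ t : ℝ, F n t = f n * ∫ t : ℝ, exp (-((c + t * I) *
        ((Real.log (n / X) : ℝ) : ℂ))) * (Kt ((c + t * I) / lam) / lam) := by
      rw [← integral_const_mul]
      refine integral_congr_ae (Filter.Eventually.of_forall fun t => ?_)
      simp only [hF, hK]
      rw [← mul_assoc, p03_term f c hX hn, mul_assoc]
    rw [(h c lam (Real.log (n / X)) hlam0).2, e]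
    ring
  constructor
  · refine Integrable.mono' (hXK.norm.const_mul (∑' n, ‖LSeries.term f c n‖))
      ((p03_cont_L hf).aestronglyMeasurable.mul hXK.aestronglyMeasurable)
      (Filter.Eventually.of_forall fun t => ?_)
    rw [norm_mul]
    exact mul_le_mul_of_nonneg_right (p03_bound_L hf t) (norm_nonneg _)
  · have h1 : (∫ t : ℝ, LSeries f (c + t * I) *
        ((X : ℂ) ^ ((c : ℂ) + t * I) * (Kt ((c + t * I) / lam) / lam))) =
        ∑' n, ∫ t, F n t := by
      rw [hsum.tsum_eq, htot]
    rw [h1, ← tsum_mul_left]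
    unfold wS
    rw [tsum_eq_sum (s := Finset.Icc 1 ⌊3 * X⌋₊)]
    · refine Finset.sum_congr rfl fun n hn => ?_
      have hn1 := (Finset.mem_Icc.1 hn).1
      rw [hval n (by omega)]
    · intro n hn
      rcases eq_or_ne n 0 with rfl | hn0
      · simp [hF]
      have hn3 : 3 * X < n := by
        rw [Finset.mem_Icc, not_and_or] at hn
        rcases hn with hn | hn
        · omega
        · rw [not_le] at hn
          exact (Nat.floor_lt (by positivity)).1 hn
      rw [hval n hn0, p03_tri_zero, Complex.ofReal_zero, mul_zero]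
      have h2 : 1 ≤ Real.log (n / X) := by
        rw [Real.le_log_iff_exp_le (by positivity), le_div_iff₀ hX]
        have := Real.exp_one_lt_d9
        nlinarith
      nlinarith

end Pool.Agent.MP8a4e59.P
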