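import Pool.Agent.Lib.MP_8a4e59_co.P.Stm

set_option autoImplicit false

open Complex MeasureTheory Filter Topology Set
open scoped Interval

namespace Pool.Agent.MP8a4e59.P

private lemma p04_exp2 : Real.exp 2 ≤ 7.4 := by
  have h := Real.exp_one_lt_d9
  have h0 := Real.exp_pos 1
  have : Real.exp 2 = Real.exp 1 * Real.exp 1 := by rw [← Real.exp_add]; norm_num
  rw [this]
  nlinarith

/-- tails -/
private lemma p04_tail {h : ℝ → ℂ} {A H : ℝ} (hH : 0 < H)
    (hb : ∀ t, H < t → ‖h t‖ ≤ A * t ^ (-2 : ℝ)) : ‖∫ t in Ioi H, h t‖ ≤ A / H := by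
  have h1 : Integrable (fun t : ℝ => A * t ^ (-2 : ℝ)) (volume.restrict (Ioi H)) :=
    (integrableOn_Ioi_rpow_of_lt (by norm_num) hH).const_mul A
  refine (norm_integral_le_of_norm_le h1 ?_).trans ?_
  · exact (ae_restrict_iff' measurableSet_Ioi).2 (ae_of_all _ fun t ht => hb t ht)
  · rw [integral_const_mul, integral_Ioi_rpow_of_lt (by norm_num) hH]
    have : -H ^ (-2 + 1 : ℝ) / (-2 + 1) = H⁻¹ := by
      rw [show (-2 + 1 : ℝ) = -1 by norm_num, Real.rpow_neg_one]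
      norm_num
    rw [this, div_eq_mul_inv]

/-- the left edge -/
private lemma p04_left {g : ℝ → ℂ} {A H lam : ℝ} (hH : 0 ≤ H) (hl : 0 < lam) (hA : 0 ≤ A)
    (hb : ∀ t, |t| ≤ H → ‖g t‖ ≤ A * (8 * lam / (4 * lam ^ 2 + t ^ 2))) :
    ‖∫ t in (-H)..H, g t‖ ≤ A * (4 * Real.pi) := by
  have hI : Integrable (fun t : ℝ => (1 + (t / (2 * lam)) ^ 2)⁻¹) :=
    integrable_inv_one_add_sq.comp_div (by positivity)
  have e : ∀ t : ℝ, 8 * lam / (4 * lam ^ 2 + t ^ 2) =
      (2 / lam) * (1 + (t / (2 * lam)) ^ 2)⁻¹ := by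
    intro t
    have : 0 < 4 * lam ^ 2 + t ^ 2 := by positivity
    have : 0 < 1 + (t / (2 * lam)) ^ 2 := by positivity
    field_simp
    ring
  have hJ : Integrable (fun t : ℝ => A * (8 * lam / (4 * lam ^ 2 + t ^ 2))) := by
    simp_rw [e]
    exact (hI.const_mul _).const_mul _
  have h1 : ‖∫ t in (-H)..H, g t‖ ≤ ∫ t in (-H)..H, A * (8 * lam / (4 * lam ^ 2 + t ^ 2)) := by
    apply intervalIntegral.norm_integral_le_of_norm_le (by linarith)
    · refine ae_of_all _ fun t ht => hb t (abs_le.2 ⟨ht.1.le, ht.2⟩)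
    · exact hJ.intervalIntegrable
  refine h1.trans ?_
  rw [intervalIntegral.integral_of_le (by linarith)]
  refine (setIntegral_le_integral hJ (ae_of_all _ fun t => by positivity)).trans ?_
  simp_rw [e]
  rw [integral_const_mul, integral_const_mul,
    Measure.integral_comp_div (fun x : ℝ => (1 + x ^ 2)⁻¹) (2 * lam), integral_univ_inv_one_add_sq,
    abs_of_pos (by positivity : (0 : ℝ) < 2 * lam), smul_eq_mul]
  apply le_of_eq
  field_simp
  ring

private lemma p04_split {h : ℝ → ℂ} (hh : Integrable h) (H : ℝ) :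
    ∫ t, h t = (∫ t in Ioi H, h (-t)) + (∫ t in (-H)..H, h t) + ∫ t in Ioi H, h t := by
  rw [integral_comp_neg_Ioi (c := H) (f := h), add_assoc,
    intervalIntegral.integral_interval_add_Ioi hh.integrableOn hh.integrableOn,
    intervalIntegral.integral_Iic_add_Ioi hh.integrableOn hh.integrableOn]

private lemma p04_kappa (h_kt : S_kt) {lam : ℝ} (hl : 1 ≤ lam) {s : ℂ} (h0 : 0 ≤ s.re)
    (h2 : s.re ≤ 2) :
    ‖Kt (s / lam) / lam‖ ≤ Real.exp 2 / lam ∧
      ‖Kt (s / lam) / lam‖ * s.im ^ 2 ≤ 4 * Real.exp 2 * lam := by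
  have hl0 : 0 < lam := by linarith
  obtain ⟨-, -, k1, k2⟩ := h_kt
  have hre : (s / (lam : ℂ)).re = s.re / lam := Complex.div_ofReal_re _ _
  have he : Real.exp |(s / (lam : ℂ)).re| ≤ Real.exp 2 := by
    rw [hre, abs_of_nonneg (by positivity)]
    apply Real.exp_le_exp.2
    rw [div_le_iff₀ hl0]
    nlinarith
  have hn : ‖Kt (s / lam) / lam‖ = ‖Kt (s / lam)‖ / lam := by
    rw [norm_div, Complex.norm_real, Real.norm_of_nonneg hl0.le]
  constructor
  · rw [hn]
    exact div_le_div_of_nonneg_right ((k1 _).trans he) hl0.le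
  · have h3 : ‖Kt (s / lam)‖ * ‖s / (lam : ℂ)‖ ^ 2 ≤ 4 * Real.exp 2 :=
      (k2 _).trans (by linarith)
    have h4 : ‖s / (lam : ℂ)‖ ^ 2 = ‖s‖ ^ 2 / lam ^ 2 := by
      rw [norm_div, Complex.norm_real, Real.norm_of_nonneg hl0.le, div_pow]
    have h5 : s.im ^ 2 ≤ ‖s‖ ^ 2 := by
      rw [← sq_abs s.im]
      exact pow_le_pow_left₀ (abs_nonneg _) (abs_im_le_norm s) 2
    rw [hn]
    calc ‖Kt (s / lam)‖ / lam * s.im ^ 2 ≤ ‖Kt (s / lam)‖ / lam * ‖s‖ ^ 2 := by gcongr
      _ = (‖Kt (s / lam)‖ * (‖s‖ ^ 2 / lam ^ 2)) * lam := by field_simp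
      _ ≤ 4 * Real.exp 2 * lam := by
        rw [← h4]
        gcongr

theorem p_shift (h_kt : S_kt) (h_perron : S_perron) : S_shift := by
  intro f G σ c H lam X B M hσ hσc hc2 hH hl hX hB hM hsum hG hGL hLM
  have hH0 : 0 < H := by linarith
  have hl0 : 0 < lam := by linarith
  have hX0 : 0 < X := by linarith
  have hπ := Real.pi_gt_d2
  have hπ0 := Real.pi_pos
  have he2 := p04_exp2
  have he0 : 0 < Real.exp 2 := Real.exp_pos 2
  obtain ⟨hint, hw⟩ := h_perron f c lam X (by linarith) hl hX0 hsum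
  set h : ℝ → ℂ := fun t => LSeries f (c + t * I) * ((X : ℂ) ^ ((c : ℂ) + t * I) *
    (Kt ((c + t * I) / lam) / lam)) with hh
  set F : ℂ → ℂ := fun s => G s * ((X : ℂ) ^ s * (Kt (s / lam) / lam)) with hF
  have hXn : ∀ s : ℂ, ‖(X : ℂ) ^ s‖ = X ^ s.re := fun s =>
    Complex.norm_cpow_eq_rpow_re_of_pos hX0 s
  have hXc : 0 < X ^ c := Real.rpow_pos_of_pos hX0 _
  have hXσ : 0 < X ^ σ := Real.rpow_pos_of_pos hX0 _
  -- the tails
  have hct : ∀ t : ℝ, ((c : ℂ) + t * I).re = c ∧ ((c : ℂ) + t * I).im = t := fun t => by simp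
  have htail : ∀ t : ℝ, t ≠ 0 → ‖h t‖ ≤ (M * X ^ c * (4 * Real.exp 2 * lam)) * |t| ^ (-2 : ℝ) := by
    intro t ht
    obtain ⟨r1, r2⟩ := hct t
    have k := (p04_kappa h_kt hl (s := (c : ℂ) + t * I) (by rw [r1]; linarith)
      (by rw [r1]; exact hc2)).2
    rw [r2] at k
    have ht2 : 0 < t ^ 2 := by positivity
    have e1 : |t| ^ (-2 : ℝ) = (t ^ 2)⁻¹ := by
      rw [Real.rpow_neg (abs_nonneg t), ← sq_abs]
      norm_num
    have k2 : ‖Kt (((c : ℂ) + t * I) / lam) / lam‖ ≤ 4 * Real.exp 2 * lam * (t ^ 2)⁻¹ := by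
      rw [← div_eq_mul_inv, le_div_iff₀ ht2]
      exact k
    calc ‖h t‖ = ‖LSeries f (c + t * I)‖ * (X ^ c * ‖Kt (((c : ℂ) + t * I) / lam) / lam‖) := by
          rw [hh]
          simp only [norm_mul]
          rw [hXn, r1]
      _ ≤ M * (X ^ c * (4 * Real.exp 2 * lam * (t ^ 2)⁻¹)) := by
          gcongr
          exact hLM t
      _ = (M * X ^ c * (4 * Real.exp 2 * lam)) * |t| ^ (-2 : ℝ) := by rw [e1]; ring
  have hT1 : ‖∫ t in Ioi H, h t‖ ≤ (M * X ^ c * (4 * Real.exp 2 * lam)) / H := by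
    apply p04_tail hH0
    intro t ht
    have := htail t (by linarith : (0 : ℝ) < t).ne'
    rwa [abs_of_pos (by linarith)] at this
  have hT2 : ‖∫ t in Ioi H, h (-t)‖ ≤ (M * X ^ c * (4 * Real.exp 2 * lam)) / H := by
    apply p04_tail hH0 (h := fun t => h (-t))
    intro t ht
    have := htail (-t) (by linarith : (-t : ℝ) < 0).ne
    rwa [abs_neg, abs_of_pos (by linarith)] at this
  -- the middle part
  have hmid : ∫ t in (-H)..H, h t = ∫ t in (-H)..H, F (c + t * I) := by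
    apply intervalIntegral.integral_congr
    intro t ht
    rw [uIcc_of_le (by linarith)] at ht
    have := hGL t (abs_le.2 ht)
    simp only [hh, hF]
    rw [this]
  have hdiff : DifferentiableOn ℂ F ([[(⟨σ, -H⟩ : ℂ).re, (⟨c, H⟩ : ℂ).re]] ×ℂ
      [[(⟨σ, -H⟩ : ℂ).im, (⟨c, H⟩ : ℂ).im]]) := by
    intro s hs
    rw [mem_reProdIm] at hs
    simp only at hs
    rw [uIcc_of_le hσc, uIcc_of_le (by linarith)] at hs
    apply DifferentiableAt.differentiableWithinAt
    have g1 := (hG s hs.1.1 hs.1.2 (abs_le.2 hs.2)).1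
    have g2 : DifferentiableAt ℂ (fun s : ℂ => (X : ℂ) ^ s) s :=
      differentiableAt_id.const_cpow (Or.inl (by exact_mod_cast hX0.ne'))
    have g3 : DifferentiableAt ℂ (fun s : ℂ => Kt (s / lam) / lam) s := by
      apply DifferentiableAt.div_const
      exact (h_kt.1 _).comp s (differentiableAt_id.div_const _)
    exact g1.mul (g2.mul g3)
  have hcau := Complex.integral_boundary_rect_eq_zero_of_differentiableOn F ⟨σ, -H⟩ ⟨c, H⟩ hdiff
  simp only at hcau
  -- pointwise bound on the rectangle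
  have hFb : ∀ s : ℂ, σ ≤ s.re → s.re ≤ c → |s.im| ≤ H →
      ‖F s‖ ≤ B * X ^ s.re * ‖Kt (s / lam) / lam‖ := by
    intro s h1 h2 h3
    have := (hG s h1 h2 h3).2
    rw [hF]
    simp only [norm_mul]
    rw [hXn, mul_assoc]
    gcongr
  -- horizontal edges
  have hhor : ∀ y : ℝ, |y| = H → ‖∫ x in σ..c, F (x + y * I)‖ ≤
      B * X ^ c * (4 * Real.exp 2 * lam / H ^ 2) * (3 / 2) := by
    intro y hy
    refine (intervalIntegral.norm_integral_le_of_norm_le_const
      (C := B * X ^ c * (4 * Real.exp 2 * lam / H ^ 2)) ?_).trans ?_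
    · intro x hx
      rw [uIoc_of_le hσc] at hx
      have r1 : ((x : ℂ) + y * I).re = x := by simp
      have r2 : ((x : ℂ) + y * I).im = y := by simp
      have k1 := hFb (x + y * I) (by rw [r1]; exact hx.1.le) (by rw [r1]; exact hx.2)
        (by rw [r2]; exact hy.le)
      have k2 := (p04_kappa h_kt hl (s := (x : ℂ) + y * I) (by rw [r1]; linarith [hx.1])
        (by rw [r1]; linarith [hx.2])).2
      rw [r2, ← sq_abs, hy] at k2
      rw [r1] at k1
      refine k1.trans ?_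
      have k3 : ‖Kt (((x : ℂ) + y * I) / lam) / lam‖ ≤ 4 * Real.exp 2 * lam / H ^ 2 := by
        rw [le_div_iff₀ (by positivity)]
        exact k2
      have k4 : X ^ x ≤ X ^ c := Real.rpow_le_rpow_of_exponent_le hX hx.2
      gcongr
    · rw [abs_of_nonneg (by linarith)]
      gcongr
      linarith
  -- left edge
  have hleft : ‖∫ t in (-H)..H, F (σ + t * I)‖ ≤ (B * X ^ σ * Real.exp 2) * (4 * Real.pi) := by
    apply p04_left hH0.le hl0 (by positivity)
    intro t ht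
    have r1 : ((σ : ℂ) + t * I).re = σ := by simp
    have r2 : ((σ : ℂ) + t * I).im = t := by simp
    have k1 := hFb (σ + t * I) (by rw [r1]) (by rw [r1]; exact hσc) (by rw [r2]; exact ht)
    obtain ⟨k2, k3⟩ := p04_kappa h_kt hl (s := (σ : ℂ) + t * I) (by rw [r1]; linarith)
      (by rw [r1]; linarith)
    rw [r2] at k3
    rw [r1] at k1
    refine k1.trans ?_
    have k4 : ‖Kt (((σ : ℂ) + t * I) / lam) / lam‖ ≤
        Real.exp 2 * (8 * lam / (4 * lam ^ 2 + t ^ 2)) := by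
      rw [mul_div_assoc', le_div_iff₀ (by positivity), mul_add]
      have : ‖Kt (((σ : ℂ) + t * I) / lam) / lam‖ * (4 * lam ^ 2) ≤
          Real.exp 2 / lam * (4 * lam ^ 2) := by gcongr
      have e : Real.exp 2 / lam * (4 * lam ^ 2) = 4 * Real.exp 2 * lam := by field_simp
      linarith
    calc B * X ^ σ * ‖Kt (((σ : ℂ) + t * I) / lam) / lam‖ ≤
        B * X ^ σ * (Real.exp 2 * (8 * lam / (4 * lam ^ 2 + t ^ 2))) := by gcongr
      _ = _ := by ring
  -- assembling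
  have hmid2 : ‖∫ t in (-H)..H, h t‖ ≤ (B * X ^ σ * Real.exp 2) * (4 * Real.pi) +
      2 * (B * X ^ c * (4 * Real.exp 2 * lam / H ^ 2) * (3 / 2)) := by
    rw [hmid]
    have h1 := hhor (-H) (by rw [abs_neg, abs_of_pos hH0])
    have h2 := hhor H (abs_of_pos hH0)
    set P := ∫ x in σ..c, F (x + (-H : ℝ) * I) with hP
    set Q := ∫ x in σ..c, F (x + H * I) with hQ
    set R := ∫ t in (-H)..H, F (c + t * I) with hR
    set L := ∫ t in (-H)..H, F (σ + t * I) with hL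
    have h3 : I * (R - L) = Q - P := by
      have : P - Q + I • R - I • L = 0 := hcau
      rw [smul_eq_mul, smul_eq_mul] at this
      linear_combination this
    have h4 : ‖R - L‖ ≤ ‖Q‖ + ‖P‖ := by
      calc ‖R - L‖ = ‖I * (R - L)‖ := by rw [norm_mul, norm_I, one_mul]
        _ = ‖Q - P‖ := by rw [h3]
        _ ≤ ‖Q‖ + ‖P‖ := norm_sub_le _ _
    have h5 : ‖R‖ ≤ ‖R - L‖ + ‖L‖ := by
      calc ‖R‖ = ‖(R - L) + L‖ := by rw [sub_add_cancel]
        _ ≤ _ := norm_add_le _ _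
    linarith
  rw [hw, norm_mul, Complex.norm_real, Real.norm_of_nonneg (by positivity)]
  have hsp := p04_split hint H
  have hall : ‖∫ t, h t‖ ≤ 2 * ((M * X ^ c * (4 * Real.exp 2 * lam)) / H) +
      ((B * X ^ σ * Real.exp 2) * (4 * Real.pi) +
      2 * (B * X ^ c * (4 * Real.exp 2 * lam / H ^ 2) * (3 / 2))) := by
    rw [hsp]
    refine (norm_add_le _ _).trans ?_
    have := norm_add_le (∫ t in Ioi H, h (-t)) (∫ t in (-H)..H, h t)
    linarith
  have hfin : (1 / (2 * Real.pi)) * ‖∫ t, h t‖ ≤ (1 / (2 * Real.pi)) *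
      (2 * ((M * X ^ c * (4 * Real.exp 2 * lam)) / H) +
      ((B * X ^ σ * Real.exp 2) * (4 * Real.pi) +
      2 * (B * X ^ c * (4 * Real.exp 2 * lam / H ^ 2) * (3 / 2)))) := by gcongr
  refine hfin.trans ?_
  have e1 : (1 / (2 * Real.pi)) * (2 * ((M * X ^ c * (4 * Real.exp 2 * lam)) / H) +
      ((B * X ^ σ * Real.exp 2) * (4 * Real.pi) +
      2 * (B * X ^ c * (4 * Real.exp 2 * lam / H ^ 2) * (3 / 2)))) =
      (2 * Real.exp 2) * (B * X ^ σ) + (6 * Real.exp 2 / Real.pi) * (B * X ^ c * lam / H ^ 2) +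
      (4 * Real.exp 2 / Real.pi) * (M * X ^ c * lam / H) := by
    field_simp
    ring
  rw [e1]
  have c1 : 2 * Real.exp 2 ≤ 20 := by linarith
  have c2 : 6 * Real.exp 2 / Real.pi ≤ 20 := by
    rw [div_le_iff₀ hπ0]
    linarith
  have c3 : 4 * Real.exp 2 / Real.pi ≤ 20 := by
    rw [div_le_iff₀ hπ0]
    linarith
  have f1 : (2 * Real.exp 2) * (B * X ^ σ) ≤ 20 * (B * X ^ σ) := by gcongr
  have f2 : (6 * Real.exp 2 / Real.pi) * (B * X ^ c * lam / H ^ 2) ≤
      20 * (B * X ^ c * lam / H ^ 2) := by gcongr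
  have f3 : (4 * Real.exp 2 / Real.pi) * (M * X ^ c * lam / H) ≤
      20 * (M * X ^ c * lam / H) := by gcongr
  have g1 : 20 * B * X ^ σ + 20 * B * X ^ c * lam / H ^ 2 + 20 * M * X ^ c * lam / H =
      20 * (B * X ^ σ) + 20 * (B * X ^ c * lam / H ^ 2) + 20 * (M * X ^ c * lam / H) := by ring
  rw [g1]
  linarith

end Pool.Agent.MP8a4e59.P
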