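import Pool.Agent.Lib.MP_8a4e59_co.P.Stm

/-! Piece P05: the zeta function slightly to the left of the line `Re s = 1`. -/

set_option autoImplicit false

open Complex MeasureTheory Filter Topology Set

namespace Pool.Agent.MP8a4e59.P

private noncomputable def p05_F (t : ℝ) : ℂ := if t < 1 then 0 else ((Int.fract t : ℝ) : ℂ)

private noncomputable def p05_J (M : ℝ) (s : ℂ) : ℂ :=
  ∫ t in Ioi M, ((Int.fract t : ℝ) : ℂ) * (t : ℂ) ^ (-(s + 1))

private lemma p05_fract_norm (t : ℝ) : ‖((Int.fract t : ℝ) : ℂ)‖ ≤ 1 := by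
  rw [Complex.norm_real, Real.norm_eq_abs, abs_of_nonneg (Int.fract_nonneg t)]
  exact (Int.fract_lt_one t).le

private lemma p05_F_norm (t : ℝ) : ‖p05_F t‖ ≤ 1 := by
  unfold p05_F
  split_ifs
  · simp
  · exact p05_fract_norm t

private lemma p05_F_meas : Measurable p05_F :=
  Measurable.ite measurableSet_Iio measurable_const
    (Complex.measurable_ofReal.comp measurable_fract)

private lemma p05_F_loc : LocallyIntegrableOn p05_F (Ioi 0) := by
  have h : LocallyIntegrable p05_F := by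
    refine (locallyIntegrable_const (1 : ℂ)).mono p05_F_meas.aestronglyMeasurable ?_
    filter_upwards with t
    simpa using p05_F_norm t
  exact h.locallyIntegrableOn _

private lemma p05_mellin (s : ℂ) : mellin p05_F (-s) = p05_J 1 s := by
  unfold mellin p05_J
  rw [← integral_Ici_eq_integral_Ioi (x := (1 : ℝ)), ← integral_indicator measurableSet_Ioi,
    ← integral_indicator measurableSet_Ici]
  congr 1
  ext t
  by_cases ht : t ∈ Ici (1 : ℝ)
  · have ht1 : (1 : ℝ) ≤ t := ht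
    have ht0 : t ∈ Ioi (0 : ℝ) := mem_Ioi.mpr (by linarith)
    rw [indicator_of_mem ht, indicator_of_mem ht0, smul_eq_mul, mul_comm, p05_F,
      if_neg (not_lt.mpr ht1)]
    congr 2
    ring
  · rw [indicator_of_notMem ht]
    by_cases h0 : t ∈ Ioi (0 : ℝ)
    · rw [indicator_of_mem h0, p05_F, if_pos (not_le.mp ht), smul_zero]
    · rw [indicator_of_notMem h0]

private lemma p05_diff {s : ℂ} (hs : 0 < s.re) :
    DifferentiableAt ℂ (fun s : ℂ => 1 - s * p05_J 1 s) s := by
  have h1 : (fun s : ℂ => 1 - s * p05_J 1 s) = fun s => 1 - s * mellin p05_F (-s) := by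
    ext s
    rw [p05_mellin]
  rw [h1]
  refine (differentiableAt_const _).sub (DifferentiableAt.mul differentiableAt_id ?_)
  have h2 : DifferentiableAt ℂ (mellin p05_F) (-s) := by
    refine mellin_differentiableAt_of_isBigO_rpow (a := 0) (b := -s.re - 1)
      p05_F_loc ?_ ?_ ?_ ?_
    · simp only [neg_zero, Real.rpow_zero]
      refine Asymptotics.IsBigO.of_bound 1 ?_
      filter_upwards with t
      simpa using p05_F_norm t
    · simpa using hs
    · refine Asymptotics.IsBigO.of_bound 1 ?_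
      have : Ioo (0 : ℝ) 1 ∈ 𝓝[>] (0 : ℝ) := Ioo_mem_nhdsGT one_pos
      filter_upwards [this] with t ht
      rw [p05_F, if_pos ht.2, norm_zero]
      positivity
    · simp
  exact h2.comp s (differentiable_id.neg s)

private lemma p05_meas (s : ℂ) :
    Measurable (fun t : ℝ => ((Int.fract t : ℝ) : ℂ) * (t : ℂ) ^ (-(s + 1))) := by
  refine (Complex.measurable_ofReal.comp measurable_fract).mul ?_
  exact Complex.measurable_ofReal.pow_const _

private lemma p05_norm {t : ℝ} (ht : 0 < t) (s : ℂ) :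
    ‖((Int.fract t : ℝ) : ℂ) * (t : ℂ) ^ (-(s + 1))‖ ≤ t ^ (-s.re - 1) := by
  rw [norm_mul, Complex.norm_cpow_eq_rpow_re_of_pos ht]
  have h : (-(s + 1)).re = -s.re - 1 := by simp; ring
  rw [h]
  have h2 : 0 ≤ t ^ (-s.re - 1) := by positivity
  calc _ ≤ 1 * t ^ (-s.re - 1) := by
        gcongr
        exact p05_fract_norm t
    _ = _ := one_mul _

private lemma p05_int {s : ℂ} (hs : 0 < s.re) {M : ℝ} (hM : 0 < M) :
    IntegrableOn (fun t : ℝ => ((Int.fract t : ℝ) : ℂ) * (t : ℂ) ^ (-(s + 1))) (Ioi M) := by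
  have h1 : IntegrableOn (fun t : ℝ => t ^ (-s.re - 1)) (Ioi M) :=
    integrableOn_Ioi_rpow_of_lt (by linarith) hM
  refine Integrable.mono' h1 (p05_meas s).aestronglyMeasurable ?_
  refine (ae_restrict_mem measurableSet_Ioi).mono fun t ht => ?_
  exact p05_norm (hM.trans ht) s

private lemma p05_J_bd {s : ℂ} (hs : 0 < s.re) {M : ℝ} (hM : 0 < M) :
    ‖p05_J M s‖ ≤ M ^ (-s.re) / s.re := by
  have h1 : IntegrableOn (fun t : ℝ => t ^ (-s.re - 1)) (Ioi M) :=
    integrableOn_Ioi_rpow_of_lt (by linarith) hM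
  have h2 : ∫ t in Ioi M, t ^ (-s.re - 1) = M ^ (-s.re) / s.re := by
    rw [integral_Ioi_rpow_of_lt (by linarith) hM]
    rw [show -s.re - 1 + 1 = -s.re by ring]
    rw [neg_div_neg_eq]
  rw [← h2]
  unfold p05_J
  refine norm_integral_le_of_norm_le h1 ?_
  refine (ae_restrict_mem measurableSet_Ioi).mono fun t ht => ?_
  exact p05_norm (hM.trans ht) s

private lemma p05_zeta {s : ℂ} (hs : 1 < s.re) :
    riemannZeta s = s * (1 / (s - 1) - p05_J 1 s) := by
  have h1 := LSeries_eq_mul_integral (fun _ => (1 : ℂ)) (r := 1) zero_le_one hs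
    (by exact LSeriesSummable_one_iff.mpr hs) (by
      refine Asymptotics.IsBigO.of_bound 1 ?_
      filter_upwards with n
      simp)
  have h2 : LSeries (fun _ => (1 : ℂ)) s = riemannZeta s := LSeries_one_eq_riemannZeta hs
  rw [h2] at h1
  rw [h1]
  congr 1
  have h3 : ∫ t in Set.Ioi (1 : ℝ), (t : ℂ) ^ (-s) = 1 / (s - 1) := by
    rw [integral_Ioi_cpow_of_lt (by simpa using hs) one_pos]
    rw [Complex.ofReal_one, Complex.one_cpow]
    have : s - 1 ≠ 0 := by
      intro h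
      have := congrArg Complex.re h
      simp at this
      linarith
    have h' : -s + 1 ≠ 0 := by
      intro h
      apply this
      linear_combination -h
    field_simp
    ring
  have h4 : IntegrableOn (fun t : ℝ => (t : ℂ) ^ (-s)) (Set.Ioi 1) :=
    integrableOn_Ioi_cpow_of_lt (by simpa using hs) one_pos
  unfold p05_J
  rw [← h3, ← integral_sub h4 (p05_int (by linarith) one_pos)]
  refine setIntegral_congr_fun measurableSet_Ioi ?_
  intro t ht
  have ht1 : (1 : ℝ) < t := ht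
  have h0 : 0 < t := by linarith
  have h0' : (t : ℂ) ≠ 0 := by exact_mod_cast h0.ne'
  simp only [Finset.sum_const, Nat.card_Icc, add_tsub_cancel_right, nsmul_eq_mul, mul_one]
  have h5 : ((⌊t⌋₊ : ℕ) : ℂ) = (t : ℂ) - ((Int.fract t : ℝ) : ℂ) := by
    have h6 : ((⌊t⌋₊ : ℕ) : ℝ) = t - Int.fract t := by
      rw [Int.self_sub_fract, natCast_floor_eq_intCast_floor h0.le]
    rw [← Complex.ofReal_sub, ← h6]
    simp
  rw [h5, sub_mul]
  congr 1
  rw [show -s = 1 + -(s + 1) by ring, Complex.cpow_add _ _ h0', Complex.cpow_one]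

private lemma p05_Zf_diff : Differentiable ℂ Zf := by
  have hne : ∀ z : ℂ, z ≠ 1 → DifferentiableAt ℂ Zf z := by
    intro z hz
    have h1 : DifferentiableAt ℂ (fun s : ℂ => (s - 1) * riemannZeta s) z :=
      (differentiableAt_id.sub_const 1).mul (differentiableAt_riemannZeta hz)
    refine h1.congr_of_eventuallyEq ?_
    filter_upwards [isOpen_ne.mem_nhds hz] with w hw
    unfold Zf
    rw [if_neg (show w ≠ 1 from hw)]
  have hc : ContinuousAt Zf 1 := by
    rw [continuousAt_iff_punctured_nhds]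
    have h1 : Zf 1 = 1 := by unfold Zf; rw [if_pos rfl]
    rw [h1]
    refine riemannZeta_residue_one.congr' ?_
    filter_upwards [self_mem_nhdsWithin] with w hw
    unfold Zf
    rw [if_neg (show w ≠ 1 from hw)]
  have h2 : DifferentiableOn ℂ Zf Set.univ := by
    rw [← Complex.differentiableOn_compl_singleton_and_continuousAt_iff (c := 1) univ_mem]
    refine ⟨fun z hz => (hne z hz.2).differentiableWithinAt, hc⟩
  exact differentiableOn_univ.mp h2

private lemma p05_dslope {s : ℂ} (hs : 0 < s.re) : dslope Zf 1 s = 1 - s * p05_J 1 s := by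
  set U : Set ℂ := {z | 0 < z.re} with hU
  have hUo : IsOpen U := isOpen_lt continuous_const Complex.continuous_re
  have hUp : IsPreconnected U := (convex_halfSpace_re_gt 0).isPreconnected
  have hf : AnalyticOnNhd ℂ (dslope Zf 1) U := by
    refine DifferentiableOn.analyticOnNhd ?_ hUo
    rw [Complex.differentiableOn_dslope (hUo.mem_nhds (by simp [hU]))]
    exact p05_Zf_diff.differentiableOn
  have hd : DifferentiableOn ℂ (fun s : ℂ => 1 - s * p05_J 1 s) U :=
    fun z hz => (p05_diff hz).differentiableWithinAt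
  have hg : AnalyticOnNhd ℂ (fun s : ℂ => 1 - s * p05_J 1 s) U := hd.analyticOnNhd hUo
  have h2 : (2 : ℂ) ∈ U := by simp [hU]
  have heq : dslope Zf 1 =ᶠ[𝓝 2] (fun s : ℂ => 1 - s * p05_J 1 s) := by
    have h3 : {z : ℂ | 1 < z.re} ∈ 𝓝 (2 : ℂ) :=
      (isOpen_lt continuous_const Complex.continuous_re).mem_nhds (by simp)
    filter_upwards [h3] with z hz
    have hz' : 1 < z.re := hz
    have hz1 : z ≠ 1 := by
      rintro rfl
      simp at hz'
    have hz2 : z - 1 ≠ 0 := sub_ne_zero.mpr hz1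
    rw [dslope_of_ne _ hz1, slope_def_field]
    have e1 : Zf z = (z - 1) * riemannZeta z := by unfold Zf; rw [if_neg hz1]
    have e2 : Zf 1 = 1 := by unfold Zf; rw [if_pos rfl]
    rw [e1, e2, p05_zeta hz']
    field_simp
    ring
  exact hf.eqOn_of_preconnected_of_eventuallyEq hg hUp h2 heq hs

private lemma p05_cpow_int {s : ℂ} {a b : ℝ} (ha : 0 < a) (hab : a ≤ b) :
    IntervalIntegrable (fun t : ℝ => (t : ℂ) ^ (-s)) volume a b := by
  apply ContinuousOn.intervalIntegrable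
  rw [uIcc_of_le hab]
  intro t ht
  have ht0 : 0 < t := ha.trans_le ht.1
  exact (Complex.continuousAt_ofReal_cpow_const t (-s) (Or.inr ht0.ne')).continuousWithinAt

private lemma p05_step {s : ℂ} (hs : 0 < s.re) (M : ℕ) (hM : 1 ≤ M) :
    (∫ t in (M : ℝ)..((M : ℝ) + 1), (t : ℂ) ^ (-s)) - s * p05_J M s =
      ((M + 1 : ℕ) : ℂ) ^ (-s) - s * p05_J (M + 1 : ℕ) s := by
  have hM0 : (0 : ℝ) < M := by exact_mod_cast hM
  have hle : (M : ℝ) ≤ (M : ℝ) + 1 := by linarith
  -- split the integral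
  have h1 : p05_J M s = (∫ t in (M : ℝ)..((M : ℝ) + 1),
      ((t : ℂ) - M) * (t : ℂ) ^ (-(s + 1))) + p05_J (M + 1 : ℕ) s := by
    unfold p05_J
    rw [intervalIntegral.integral_of_le hle, ← Ioc_union_Ioi_eq_Ioi hle,
      setIntegral_union (Ioc_disjoint_Ioi le_rfl) measurableSet_Ioi
        ((p05_int hs hM0).mono_set (Ioc_subset_Ioi_self))
        (p05_int hs (by linarith))]
    push_cast
    congr 1
    rw [integral_Ioc_eq_integral_Ioo, integral_Ioc_eq_integral_Ioo]
    refine setIntegral_congr_fun measurableSet_Ioo ?_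
    intro t ht
    have h2 : Int.fract t = t - M := by
      rw [Int.fract_eq_iff]
      refine ⟨by linarith [ht.1], by linarith [ht.2], ⟨(M : ℤ), by push_cast; ring⟩⟩
    simp only
    rw [h2]
    push_cast
    rfl
  have hcont : ContinuousOn (fun t : ℝ => ((t : ℂ) - M) * (t : ℂ) ^ (-(s + 1)))
      (uIcc (M : ℝ) ((M : ℝ) + 1)) := by
    rw [uIcc_of_le hle]
    intro t ht
    have ht0 : 0 < t := hM0.trans_le ht.1
    have h2 := (Complex.continuousAt_ofReal_cpow_const t (-(s + 1)) (Or.inr ht0.ne'))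
    have h3 : ContinuousAt (fun t : ℝ => (t : ℂ) - M) t := by fun_prop
    exact (h3.mul h2).continuousWithinAt
  -- fundamental theorem
  have h4 : ∫ t in (M : ℝ)..((M : ℝ) + 1),
      ((t : ℂ) ^ (-s) - s * (((t : ℂ) - M) * (t : ℂ) ^ (-(s + 1)))) =
      ((M + 1 : ℕ) : ℂ) ^ (-s) := by
    have h5 : ∀ t ∈ uIcc (M : ℝ) ((M : ℝ) + 1),
        HasDerivAt (fun t : ℝ => ((t : ℂ) - M) * (t : ℂ) ^ (-s))
          ((t : ℂ) ^ (-s) - s * (((t : ℂ) - M) * (t : ℂ) ^ (-(s + 1)))) t := by
      intro t ht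
      rw [uIcc_of_le hle] at ht
      have ht0 : 0 < t := hM0.trans_le ht.1
      have hs0 : -s ≠ 0 := by
        intro h
        rw [neg_eq_zero] at h
        rw [h] at hs
        simp at hs
      have h6 : HasDerivAt (fun t : ℝ => (t : ℂ) ^ (-s)) (-s * (t : ℂ) ^ (-s - 1)) t :=
        hasDerivAt_ofReal_cpow_const ht0.ne' hs0
      have h7 : HasDerivAt (fun t : ℝ => (t : ℂ) - M) 1 t :=
        (Complex.ofRealCLM.hasDerivAt).sub_const _
      have h8 : HasDerivAt (fun t : ℝ => ((t : ℂ) - M) * (t : ℂ) ^ (-s))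
          (1 * (t : ℂ) ^ (-s) + ((t : ℂ) - M) * (-s * (t : ℂ) ^ (-s - 1))) t := h7.mul h6
      refine h8.congr_deriv ?_
      rw [show -(s + 1) = -s - 1 by ring]
      ring
    rw [intervalIntegral.integral_eq_sub_of_hasDerivAt h5
      ((p05_cpow_int hM0 hle).sub (hcont.intervalIntegrable.const_mul s))]
    push_cast
    ring
  rw [intervalIntegral.integral_sub (p05_cpow_int hM0 hle) (hcont.intervalIntegrable.const_mul s),
    intervalIntegral.integral_const_mul] at h4
  rw [← h4, h1]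
  ring

private lemma p05_formula {s : ℂ} (hs : 0 < s.re) (M : ℕ) (hM : 1 ≤ M) :
    dslope Zf 1 s = ∑ n ∈ Finset.Icc 1 M, (n : ℂ) ^ (-s) -
      (∫ t in (1 : ℝ)..(M : ℝ), (t : ℂ) ^ (-s)) - s * p05_J M s := by
  induction M, hM using Nat.le_induction with
  | base => simp [p05_dslope hs]
  | succ M hM ih =>
    have hM0 : (0 : ℝ) < M := by exact_mod_cast hM
    have hM1 : (1 : ℝ) ≤ M := by exact_mod_cast hM
    rw [ih, Finset.sum_Icc_succ_top (by omega)]
    have h1 := p05_step hs M hM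
    have h2 : (∫ t in (1 : ℝ)..((M + 1 : ℕ) : ℝ), (t : ℂ) ^ (-s)) =
        (∫ t in (1 : ℝ)..(M : ℝ), (t : ℂ) ^ (-s)) +
          ∫ t in (M : ℝ)..((M : ℝ) + 1), (t : ℂ) ^ (-s) := by
      push_cast
      exact (intervalIntegral.integral_add_adjacent_intervals (p05_cpow_int one_pos hM1)
        (p05_cpow_int hM0 (by linarith))).symm
    rw [h2]
    linear_combination h1

private lemma p05_pow {L σ x M : ℝ} (hL : 2 ≤ L) (hσ : 1 - L⁻¹ ≤ σ) (hx : 1 ≤ x) (hxM : x ≤ M)
    (hM : M ≤ Real.exp (L + 1)) : x ^ (-σ) ≤ 5 * x⁻¹ := by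
  have hx0 : 0 < x := by linarith
  have hL0 : 0 < L := by linarith
  have h1 : x ^ (-σ) ≤ x ^ (-1 + L⁻¹) := Real.rpow_le_rpow_of_exponent_le hx (by linarith)
  have h2 : x ^ (-1 + L⁻¹) = x⁻¹ * x ^ (L⁻¹) := by
    rw [Real.rpow_add hx0, Real.rpow_neg_one]
  have h3 : x ^ (L⁻¹) ≤ 5 := by
    have h4 : x ^ (L⁻¹) ≤ (Real.exp (L + 1)) ^ (L⁻¹) :=
      Real.rpow_le_rpow hx0.le (hxM.trans hM) (by positivity)
    have h5 : (Real.exp (L + 1)) ^ (L⁻¹) = Real.exp ((L + 1) * L⁻¹) := by
      rw [← Real.exp_mul]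
    have h6 : (L + 1) * L⁻¹ ≤ 3 / 2 := by
      rw [← div_eq_mul_inv, div_le_iff₀ hL0]
      linarith
    have h7 : Real.exp (3 / 2) ≤ 5 := by
      have h8 : Real.exp (3 / 2) ^ 2 ≤ 25 := by
        rw [← Real.exp_nat_mul]
        norm_num
        have h9 := Real.exp_one_lt_d9
        have h10 : Real.exp 3 = Real.exp 1 ^ 3 := by
          rw [← Real.exp_nat_mul]
          norm_num
        rw [h10]
        have h11 : 0 < Real.exp 1 := Real.exp_pos 1
        calc Real.exp 1 ^ 3 ≤ 2.7182818286 ^ 3 := by gcongr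
          _ ≤ 25 := by norm_num
      nlinarith [Real.exp_pos (3 / 2)]
    rw [h5] at h4
    exact h4.trans ((Real.exp_le_exp.mpr h6).trans h7)
  rw [h2] at h1
  have h12 : 0 < x⁻¹ := by positivity
  calc x ^ (-σ) ≤ x⁻¹ * x ^ (L⁻¹) := h1
    _ ≤ x⁻¹ * 5 := by gcongr
    _ = 5 * x⁻¹ := by ring

theorem p_zup : S_zup := by
  refine ⟨p05_Zf_diff, 28, by norm_num, ?_⟩
  intro L s hL hs1 hs3 him
  have hL0 : 0 < L := by linarith
  have hLi : L⁻¹ ≤ 1 / 2 := by
    rw [inv_le_comm₀ hL0 (by norm_num)]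
    norm_num
    exact hL
  have hs : 0 < s.re := by linarith
  have hsh : 1 / 2 ≤ s.re := by linarith
  have hexp : (7 : ℝ) ≤ Real.exp L := by
    have h1 : Real.exp 2 ≤ Real.exp L := Real.exp_le_exp.mpr hL
    have h2 : Real.exp 2 = Real.exp 1 ^ 2 := by
      rw [← Real.exp_nat_mul]
      norm_num
    have h3 := Real.exp_one_gt_d9
    have h4 : (7 : ℝ) ≤ Real.exp 1 ^ 2 := by
      calc (7 : ℝ) ≤ 2.7182818283 ^ 2 := by norm_num
        _ ≤ Real.exp 1 ^ 2 := by gcongr
    linarith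
  obtain ⟨M, hMdef⟩ : ∃ M : ℕ, M = ⌈Real.exp L⌉₊ := ⟨_, rfl⟩
  have hMlo : Real.exp L ≤ M := by rw [hMdef]; exact Nat.le_ceil _
  have hMhi : (M : ℝ) ≤ Real.exp (L + 1) := by
    have h1 : (M : ℝ) < Real.exp L + 1 := by
      rw [hMdef]; exact Nat.ceil_lt_add_one (by positivity)
    have h2 : Real.exp (L + 1) = Real.exp L * Real.exp 1 := Real.exp_add _ _
    have h3 := Real.exp_one_gt_d9
    rw [h2]
    nlinarith
  have hM1 : 1 ≤ M := by
    have : (1 : ℝ) ≤ M := by linarith
    exact_mod_cast this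
  have hM1' : (1 : ℝ) ≤ M := by exact_mod_cast hM1
  have hM0 : (0 : ℝ) < M := by linarith
  have hlog : Real.log M ≤ L + 1 := by
    have := Real.log_le_log hM0 hMhi
    rwa [Real.log_exp] at this
  rw [p05_formula hs M hM1]
  -- first sum
  have hA : ‖∑ n ∈ Finset.Icc 1 M, (n : ℂ) ^ (-s)‖ ≤ 5 * (1 + (L + 1)) := by
    have h1 : ∀ n ∈ Finset.Icc 1 M, ‖(n : ℂ) ^ (-s)‖ ≤ 5 * ((n : ℝ))⁻¹ := by
      intro n hn
      rw [Finset.mem_Icc] at hn
      have hn1 : (1 : ℝ) ≤ n := by exact_mod_cast hn.1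
      have hn2 : (n : ℝ) ≤ M := by exact_mod_cast hn.2
      have h2 : ‖(n : ℂ) ^ (-s)‖ = (n : ℝ) ^ (-s.re) := by
        have := Complex.norm_cpow_eq_rpow_re_of_pos (x := (n : ℝ)) (by linarith) (-s)
        simpa using this
      rw [h2]
      exact p05_pow hL hs1 hn1 hn2 hMhi
    refine (norm_sum_le _ _).trans ((Finset.sum_le_sum h1).trans ?_)
    rw [← Finset.mul_sum]
    have h3 : ∑ n ∈ Finset.Icc 1 M, ((n : ℝ))⁻¹ ≤ 1 + Real.log M := by
      have h4 := harmonic_le_one_add_log M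
      rw [harmonic_eq_sum_Icc] at h4
      push_cast at h4
      exact h4
    gcongr
    linarith
  -- integral
  have hB : ‖∫ t in (1 : ℝ)..(M : ℝ), (t : ℂ) ^ (-s)‖ ≤ 5 * (L + 1) := by
    have h1 : ‖∫ t in (1 : ℝ)..(M : ℝ), (t : ℂ) ^ (-s)‖ ≤
        ∫ t in (1 : ℝ)..(M : ℝ), 5 * t⁻¹ := by
      refine intervalIntegral.norm_integral_le_of_norm_le hM1' ?_ ?_
      · refine Filter.Eventually.of_forall fun t ht => ?_
        have ht1 : 1 ≤ t := ht.1.le
        rw [Complex.norm_cpow_eq_rpow_re_of_pos (by linarith)]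
        exact p05_pow hL hs1 ht1 ht.2 hMhi
      · apply IntervalIntegrable.const_mul
        apply intervalIntegral.intervalIntegrable_inv
        · intro x hx
          rw [uIcc_of_le hM1'] at hx
          have : (1 : ℝ) ≤ x := hx.1
          linarith
        · exact continuousOn_id
    rw [intervalIntegral.integral_const_mul, integral_inv_of_pos one_pos hM0, div_one] at h1
    linarith
  -- tail
  have hC : ‖s * p05_J M s‖ ≤ 20 := by
    have h1 := p05_J_bd hs hM0
    have h2 : (M : ℝ) ^ (-s.re) ≤ 5 * (Real.exp L)⁻¹ := by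
      refine (p05_pow hL hs1 hM1' le_rfl hMhi).trans ?_
      gcongr
    have h3 : ‖s‖ ≤ 2 * Real.exp L := by
      refine (Complex.norm_le_abs_re_add_abs_im s).trans ?_
      rw [abs_of_pos hs]
      linarith
    rw [norm_mul]
    calc ‖s‖ * ‖p05_J M s‖ ≤ (2 * Real.exp L) * ((5 * (Real.exp L)⁻¹) / (1 / 2)) := by
          gcongr
          refine h1.trans ?_
          gcongr
      _ = 20 := by
          have : Real.exp L ≠ 0 := (Real.exp_pos L).ne'
          field_simp
          norm_num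
  calc _ ≤ ‖∑ n ∈ Finset.Icc 1 M, (n : ℂ) ^ (-s)‖ + ‖∫ t in (1 : ℝ)..(M : ℝ), (t : ℂ) ^ (-s)‖
        + ‖s * p05_J M s‖ := (norm_sub_le _ _).trans (by gcongr; exact norm_sub_le _ _)
    _ ≤ 5 * (1 + (L + 1)) + 5 * (L + 1) + 20 := by gcongr
    _ ≤ 28 * L := by linarith

end Pool.Agent.MP8a4e59.P
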