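import Pool.Agent.Lib.MP_8a4e59_co.P.Stm
import Pool.Agent.Lib.MP_0da313_nt.BV.Series

/-! MP_8a4e59_co, piece P06: upper bounds for `L(s, χ)` near the line `Re s = 1`. -/

set_option autoImplicit false

open Complex MeasureTheory Filter Topology

namespace Pool.Agent.MP8a4e59.P

open Pool.Agent.BVall (SS norm_SS locallyIntegrableOn_SS LFunction_eq_integral)

section
variable {N : ℕ} [NeZero N] {ψ : DirichletCharacter ℂ N}

private lemma p06_integrable (hψ : ψ ≠ 1) {s : ℂ} (hs : 0 < s.re) {b : ℝ} (hb : 0 < b) :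
    IntegrableOn (fun t : ℝ => SS ψ t * (t : ℂ) ^ (-(s + 1))) (Set.Ioi b) := by
  have h1 : IntegrableOn (fun t : ℝ => (N : ℝ) * t ^ (-(s.re + 1))) (Set.Ioi b) :=
    (integrableOn_Ioi_rpow_of_lt (by linarith) hb).const_mul _
  refine Integrable.mono' h1 ?_ ?_
  · refine AEStronglyMeasurable.mul ?_ ?_
    · exact (locallyIntegrableOn_SS.mono_set
        (Set.Ioi_subset_Ioi hb.le)).aestronglyMeasurable
    · refine ContinuousOn.aestronglyMeasurable ?_ measurableSet_Ioi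
      intro t ht
      have ht0 : (0 : ℝ) < t := lt_trans hb ht
      exact (Complex.continuousAt_ofReal_cpow_const t _ (Or.inr ht0.ne')).continuousWithinAt
  · rw [ae_restrict_iff' measurableSet_Ioi]
    refine Filter.Eventually.of_forall fun t ht => ?_
    have ht0 : (0 : ℝ) < t := lt_trans hb ht
    rw [norm_mul, Complex.norm_cpow_eq_rpow_re_of_pos ht0]
    simp only [neg_re, add_re, one_re]
    exact mul_le_mul_of_nonneg_right (norm_SS hψ t) (Real.rpow_nonneg ht0.le _)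

private lemma p06_tail (hψ : ψ ≠ 1) {s : ℂ} (hs : 0 < s.re) {b : ℝ} (hb : 0 < b) :
    ‖∫ t in Set.Ioi b, SS ψ t * (t : ℂ) ^ (-(s + 1))‖ ≤ N * (b ^ (-s.re) / s.re) := by
  have h1 : IntegrableOn (fun t : ℝ => (N : ℝ) * t ^ (-(s.re + 1))) (Set.Ioi b) :=
    (integrableOn_Ioi_rpow_of_lt (by linarith) hb).const_mul _
  refine (norm_integral_le_of_norm_le h1 ?_).trans ?_
  · rw [ae_restrict_iff' measurableSet_Ioi]
    refine Filter.Eventually.of_forall fun t ht => ?_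
    have ht0 : (0 : ℝ) < t := lt_trans hb ht
    rw [norm_mul, Complex.norm_cpow_eq_rpow_re_of_pos ht0]
    simp only [neg_re, add_re, one_re]
    exact mul_le_mul_of_nonneg_right (norm_SS hψ t) (Real.rpow_nonneg ht0.le _)
  · rw [integral_const_mul, integral_Ioi_rpow_of_lt (by linarith) hb]
    have e1 : -(s.re + 1) + 1 = -s.re := by ring
    rw [e1, neg_div_neg_eq]

private lemma p06_formula (hψ : ψ ≠ 1) {s : ℂ} (hs : 0 < s.re) {b : ℝ} (hb : 1 ≤ b) :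
    ψ.LFunction s = ∑ k ∈ Finset.Icc 1 ⌊b⌋₊, (k : ℂ) ^ (-s) * ψ (k : ZMod N) -
      (b : ℂ) ^ (-s) * SS ψ b + s * ∫ t in Set.Ioi b, SS ψ t * (t : ℂ) ^ (-(s + 1)) := by
  set c : ℕ → ℂ := fun n => if n = 0 then 0 else ψ (n : ZMod N) with hc
  have hcs : ∀ n : ℕ, ∑ k ∈ Finset.Icc 0 n, c k = ∑ k ∈ Finset.Icc 1 n, ψ (k : ZMod N) := by
    intro n
    rw [← Finset.insert_Icc_add_one_left_eq_Icc n.zero_le, Finset.sum_insert (by simp)]
    simp only [hc, if_true, zero_add]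
    apply Finset.sum_congr rfl
    intro k hk
    rw [if_neg (by have := (Finset.mem_Icc.mp hk).1; omega)]
  have hsne : s ≠ 0 := by
    intro h
    rw [h] at hs
    simp at hs
  have hd (t : ℝ) (ht : t ∈ Set.Icc 1 b) :
      DifferentiableAt ℝ (fun x : ℝ ↦ (x : ℂ) ^ (-s)) t :=
    differentiableAt_id.ofReal_cpow_const (zero_lt_one.trans_le ht.1).ne' (neg_ne_zero.mpr hsne)
  have hint : IntegrableOn (deriv (fun x : ℝ ↦ (x : ℂ) ^ (-s))) (Set.Icc 1 b) := by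
    have h1 := integrableOn_Ioi_deriv_ofReal_cpow (s := -s) zero_lt_one (by simpa using hs)
    have h2 : IntegrableOn (deriv (fun x : ℝ ↦ (x : ℂ) ^ (-s))) (Set.Ici 1) :=
      (Iff.mpr integrableOn_Ici_iff_integrableOn_Ioi) h1
    exact h2.mono_set Set.Icc_subset_Ici_self
  have key := sum_mul_eq_sub_integral_mul₀ (c := c) (f := fun x : ℝ ↦ (x : ℂ) ^ (-s))
    (by simp [hc]) b hd hint
  have hlhs : ∑ k ∈ Finset.Icc 0 ⌊b⌋₊, ((k : ℝ) : ℂ) ^ (-s) * c k =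
      ∑ k ∈ Finset.Icc 1 ⌊b⌋₊, (k : ℂ) ^ (-s) * ψ (k : ZMod N) := by
    rw [← Finset.insert_Icc_add_one_left_eq_Icc (Nat.zero_le ⌊b⌋₊), Finset.sum_insert (by simp)]
    simp only [hc, if_true, mul_zero, zero_add]
    apply Finset.sum_congr rfl
    intro k hk
    rw [if_neg (by have := (Finset.mem_Icc.mp hk).1; omega)]
    simp
  rw [hlhs, hcs] at key
  have hI : ∫ t in Set.Ioc 1 b, deriv (fun x : ℝ ↦ (x : ℂ) ^ (-s)) t *
      ∑ k ∈ Finset.Icc 0 ⌊t⌋₊, c k =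
      -(s * ∫ t in Set.Ioc 1 b, SS ψ t * (t : ℂ) ^ (-(s + 1))) := by
    rw [← integral_const_mul, ← integral_neg]
    refine setIntegral_congr_fun measurableSet_Ioc fun t ht ↦ ?_
    rw [Complex.deriv_ofReal_cpow_const (zero_lt_one.trans ht.1).ne' (neg_ne_zero.mpr hsne), hcs]
    unfold SS
    ring_nf
  rw [hI] at key
  have hsplit : ∫ t in Set.Ioi (1 : ℝ), SS ψ t * (t : ℂ) ^ (-(s + 1)) =
      (∫ t in Set.Ioc 1 b, SS ψ t * (t : ℂ) ^ (-(s + 1))) +
        ∫ t in Set.Ioi b, SS ψ t * (t : ℂ) ^ (-(s + 1)) := by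
    rw [← Set.Ioc_union_Ioi_eq_Ioi hb]
    refine setIntegral_union ?_ measurableSet_Ioi ?_ ?_
    · rw [Set.disjoint_left]
      intro t ht ht'
      exact absurd ht.2 (not_le.2 ht')
    · exact (p06_integrable hψ hs one_pos).mono_set Set.Ioc_subset_Ioi_self
    · exact p06_integrable hψ hs (lt_of_lt_of_le one_pos hb)
  rw [LFunction_eq_integral hψ hs, hsplit, key]
  have hSS : (∑ k ∈ Finset.Icc 1 ⌊b⌋₊, ψ (k : ZMod N)) = SS ψ b := rfl
  rw [hSS]
  ring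

end

theorem p_lup : S_lup := by
  refine ⟨20, by norm_num, fun q _ χ L s hχ hL h1 h3 hq => ?_⟩
  have hL0 : (0 : ℝ) < L := by linarith
  have hLi : L⁻¹ ≤ 1 / 2 := by
    rw [inv_eq_one_div]
    exact one_div_le_one_div_of_le (by norm_num) hL
  have hs : 0 < s.re := by linarith
  have hs2 : 1 / 2 ≤ s.re := by linarith
  set b : ℝ := Real.exp L with hb
  have hb1 : 1 ≤ b := by
    rw [hb]
    exact Real.one_le_exp hL0.le
  have hb0 : 0 < b := by linarith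
  have hlogb : Real.log b = L := by rw [hb, Real.log_exp]
  have he : Real.exp 1 ≤ 3 := by
    have := Real.exp_one_lt_d9
    linarith
  have hbs : b ^ (-s.re) ≤ 3 / b := by
    rw [hb, ← Real.exp_mul, le_div_iff₀ (Real.exp_pos L), ← Real.exp_add]
    refine le_trans (Real.exp_le_exp.2 ?_) he
    have h4 : L * (1 - L⁻¹) ≤ L * s.re := mul_le_mul_of_nonneg_left h1 hL0.le
    have h5 : L * (1 - L⁻¹) = L - 1 := by
      field_simp
    linarith
  have hbs0 : 0 ≤ b ^ (-s.re) := Real.rpow_nonneg hb0.le _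
  have hqb : (q : ℝ) * (|s.im| + 3) / b ≤ 1 := by
    rw [div_le_one hb0]
    exact hq
  have hq0 : (0 : ℝ) ≤ q := Nat.cast_nonneg q
  rw [p06_formula hχ hs hb1]
  -- the sum
  have t1 : ‖∑ k ∈ Finset.Icc 1 ⌊b⌋₊, (k : ℂ) ^ (-s) * χ (k : ZMod q)‖ ≤ 3 * (1 + L) := by
    have h4 : ∀ k ∈ Finset.Icc 1 ⌊b⌋₊, ‖(k : ℂ) ^ (-s) * χ (k : ZMod q)‖ ≤ 3 * (k : ℝ)⁻¹ := by
      intro k hk
      rw [Finset.mem_Icc] at hk
      have hk0 : (0 : ℝ) < k := by exact_mod_cast hk.1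
      have hk1 : (1 : ℝ) ≤ k := by exact_mod_cast hk.1
      have hkb : (k : ℝ) ≤ b := (Nat.le_floor_iff hb0.le).1 hk.2
      have h5 : ‖(k : ℂ) ^ (-s)‖ = (k : ℝ) ^ (-s.re) := by
        have := Complex.norm_cpow_eq_rpow_re_of_pos hk0 (-s)
        simpa using this
      rw [norm_mul, h5]
      calc (k : ℝ) ^ (-s.re) * ‖χ (k : ZMod q)‖ ≤ (k : ℝ) ^ (-s.re) * 1 :=
            mul_le_mul_of_nonneg_left (χ.norm_le_one _) (Real.rpow_nonneg hk0.le _)
        _ = (k : ℝ) ^ (-s.re) := mul_one _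
        _ ≤ (k : ℝ) ^ (L⁻¹ + -1) := Real.rpow_le_rpow_of_exponent_le hk1 (by linarith)
        _ = (k : ℝ) ^ L⁻¹ * (k : ℝ)⁻¹ := by
            rw [Real.rpow_add hk0, Real.rpow_neg_one]
        _ ≤ 3 * (k : ℝ)⁻¹ := by
            refine mul_le_mul_of_nonneg_right ?_ (by positivity)
            calc (k : ℝ) ^ L⁻¹ ≤ b ^ L⁻¹ := Real.rpow_le_rpow hk0.le hkb (by positivity)
              _ = Real.exp 1 := by
                  rw [hb, ← Real.exp_mul, mul_inv_cancel₀ hL0.ne']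
              _ ≤ 3 := he
    have h6 := harmonic_floor_le_one_add_log b hb1
    rw [hlogb, harmonic_eq_sum_Icc] at h6
    push_cast at h6
    refine (norm_sum_le_of_le _ h4).trans ?_
    rw [← Finset.mul_sum]
    exact mul_le_mul_of_nonneg_left h6 (by norm_num)
  have t2 : ‖(b : ℂ) ^ (-s) * SS χ b‖ ≤ 3 := by
    rw [norm_mul, Complex.norm_cpow_eq_rpow_re_of_pos hb0, neg_re]
    calc b ^ (-s.re) * ‖SS χ b‖ ≤ 3 / b * q :=
          mul_le_mul hbs (norm_SS hχ b) (norm_nonneg _) (by positivity)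
      _ ≤ 3 / b * (q * (|s.im| + 3)) := by
          refine mul_le_mul_of_nonneg_left ?_ (by positivity)
          have := abs_nonneg s.im
          nlinarith
      _ = 3 * (q * (|s.im| + 3) / b) := by ring
      _ ≤ 3 * 1 := mul_le_mul_of_nonneg_left hqb (by norm_num)
      _ = 3 := by norm_num
  have t3 : ‖s * ∫ t in Set.Ioi b, SS χ t * (t : ℂ) ^ (-(s + 1))‖ ≤ 6 := by
    rw [norm_mul]
    have hsn : ‖s‖ ≤ |s.im| + 3 := by
      have h4 := Complex.norm_le_abs_re_add_abs_im s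
      rw [abs_of_pos hs] at h4
      linarith
    calc ‖s‖ * ‖∫ t in Set.Ioi b, SS χ t * (t : ℂ) ^ (-(s + 1))‖ ≤
          (|s.im| + 3) * (q * (b ^ (-s.re) / s.re)) :=
          mul_le_mul hsn (p06_tail hχ hs hb0) (norm_nonneg _) (by positivity)
      _ ≤ (|s.im| + 3) * (q * ((3 / b) / (1 / 2))) := by
          refine mul_le_mul_of_nonneg_left (mul_le_mul_of_nonneg_left ?_ hq0) (by positivity)
          exact div_le_div₀ (by positivity) hbs (by norm_num) hs2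
      _ = 6 * (q * (|s.im| + 3) / b) := by ring
      _ ≤ 6 * 1 := mul_le_mul_of_nonneg_left hqb (by norm_num)
      _ = 6 := by norm_num
  calc ‖∑ k ∈ Finset.Icc 1 ⌊b⌋₊, (k : ℂ) ^ (-s) * χ (k : ZMod q) -
      (b : ℂ) ^ (-s) * SS χ b + s * ∫ t in Set.Ioi b, SS χ t * (t : ℂ) ^ (-(s + 1))‖
      ≤ ‖∑ k ∈ Finset.Icc 1 ⌊b⌋₊, (k : ℂ) ^ (-s) * χ (k : ZMod q)‖ +
        ‖(b : ℂ) ^ (-s) * SS χ b‖ + ‖s * ∫ t in Set.Ioi b, SS χ t * (t : ℂ) ^ (-(s + 1))‖ :=
        (norm_add_le _ _).trans (add_le_add_left (norm_sub_le _ _) _)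
    _ ≤ 3 * (1 + L) + 3 + 6 := add_le_add (add_le_add t1 t2) t3
    _ ≤ 20 * L := by linarith

end Pool.Agent.MP8a4e59.P
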