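/-
MP_8a4e59_co, piece P07: derivatives near the line `Re s = 1` (Cauchy's estimate).
-/
import Mathlib
import Pool.Agent.Lib.MP_8a4e59_co.P.Stm

set_option autoImplicit false

open Complex

namespace Pool.Agent.MP8a4e59.P

private lemma p07_circle {L : ℝ} {s z : ℂ} (hL : 2 ≤ L) (h1 : 1 - (2 * L)⁻¹ ≤ s.re)
    (h2 : s.re ≤ 2) (hz : z ∈ Metric.sphere s ((2 * L)⁻¹)) :
    1 - L⁻¹ ≤ z.re ∧ z.re ≤ 3 ∧ |z.im| ≤ |s.im| + 1 := by
  have hz' : ‖z - s‖ = (2 * L)⁻¹ := by simpa [Complex.dist_eq] using hz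
  have hre : |z.re - s.re| ≤ (2 * L)⁻¹ := by
    have := Complex.abs_re_le_norm (z - s)
    rw [Complex.sub_re, hz'] at this; exact this
  have him : |z.im - s.im| ≤ (2 * L)⁻¹ := by
    have := Complex.abs_im_le_norm (z - s)
    rw [Complex.sub_im, hz'] at this; exact this
  have hinv : (2 * L)⁻¹ ≤ 1 := by
    apply inv_le_one_of_one_le₀; linarith
  have hLi : L⁻¹ = (2 * L)⁻¹ + (2 * L)⁻¹ := by
    have : L ≠ 0 := by linarith
    field_simp; norm_num
  rw [abs_le] at hre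
  refine ⟨by rw [hLi]; linarith, by linarith, ?_⟩
  have h3 : |z.im| ≤ |s.im| + |z.im - s.im| := by
    have := abs_add_le s.im (z.im - s.im)
    rwa [add_sub_cancel] at this
  linarith

private lemma p07_cauchy {F : ℂ → ℂ} {L C : ℝ} {s : ℂ} (hL : 2 ≤ L) (hF : Differentiable ℂ F)
    (h : ∀ z ∈ Metric.sphere s ((2 * L)⁻¹), ‖F z‖ ≤ C * L) :
    ‖deriv F s‖ ≤ 2 * C * L ^ 2 := by
  have hR : 0 < (2 * L)⁻¹ := by positivity
  have h1 := Complex.norm_deriv_le_of_forall_mem_sphere_norm_le hR hF.diffContOnCl h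
  have h2 : C * L / (2 * L)⁻¹ = 2 * C * L ^ 2 := by
    rw [div_inv_eq_mul]; ring
  rwa [h2] at h1

theorem p_dup (hz : S_zup) (hl : S_lup) : S_dup := by
  obtain ⟨hZ, C1, hC1, h1⟩ := hz
  obtain ⟨C2, hC2, h2⟩ := hl
  refine ⟨2 * (C1 + C2), by linarith, ?_, ?_⟩
  · intro q _ χ L s hχ hL hs1 hs2 hq
    have hd : Differentiable ℂ χ.LFunction := DirichletCharacter.differentiable_LFunction hχ
    have h := p07_cauchy (C := C2) hL hd (s := s) (fun z hz => by
      obtain ⟨e1, e2, e3⟩ := p07_circle hL hs1 hs2 hz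
      refine h2 q χ L z hχ hL e1 e2 ?_
      refine le_trans ?_ hq
      have hq0 : (0 : ℝ) ≤ q := Nat.cast_nonneg q
      nlinarith)
    refine h.trans ?_
    have hL2 : 0 ≤ L ^ 2 := by positivity
    nlinarith
  · intro L s hL hs1 hs2 hs3
    have hd : Differentiable ℂ (dslope Zf 1) := by
      rw [← differentiableOn_univ]
      rw [Complex.differentiableOn_dslope Filter.univ_mem]
      exact hZ.differentiableOn
    have h := p07_cauchy (C := C1) hL hd (s := s) (fun z hz => by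
      obtain ⟨e1, e2, e3⟩ := p07_circle hL hs1 hs2 hz
      exact h1 L z hL e1 e2 (by linarith))
    refine h.trans ?_
    have hL2 : 0 ≤ L ^ 2 := by positivity
    nlinarith

end Pool.Agent.MP8a4e59.P
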