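import Mathlib
import Pool.Agent.Lib.MP_8a4e59_co.P.Stm
import Pool.Agent.Lib.MP_89da58_nt.S.CharBound

set_option autoImplicit false

/-!
[8a P08] The 3-4-1 inequality.
-/

open Complex

namespace Pool.Agent.MP8a4e59.P

private lemma p08_triv {q : ℕ} {δ : ℝ} (hδ : 0 < δ) (hδ1 : δ ≤ 1 / 8) :
    ‖LSeries (fun n => (1 : DirichletCharacter ℂ q) n) (1 + δ)‖ ≤ 3 / δ := by
  have hs : (1 + δ : ℂ) = ((1 + δ : ℝ) : ℂ) := by push_cast; ring
  have hre : 1 < (1 + δ : ℂ).re := by rw [hs]; simpa using hδ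
  have hterm : ∀ n : ℕ, LSeries.term 1 (1 + δ : ℂ) n = ((‖LSeries.term 1 (1 + δ : ℂ) n‖ : ℝ) : ℂ) := by
    intro n
    rcases eq_or_ne n 0 with rfl | hn
    · simp
    · rw [LSeries.term_of_ne_zero hn, hs]
      have hn0 : (0 : ℝ) ≤ (n : ℝ) := by positivity
      have e : ((n : ℂ) ^ (((1 + δ : ℝ)) : ℂ)) = (((n : ℝ) ^ (1 + δ) : ℝ) : ℂ) := by
        rw [ofReal_cpow hn0]
        push_cast
        ring_nf
      rw [e]
      have h0 : (0 : ℝ) ≤ (n : ℝ) ^ (1 + δ) := by positivity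
      simp only [Pi.one_apply]
      rw [norm_div, norm_real, Real.norm_of_nonneg h0, norm_one]
      push_cast
      rfl
  have hsum1 : Summable (fun n => ‖LSeries.term 1 (1 + δ : ℂ) n‖) :=
    (LSeriesSummable_one_iff.2 hre).norm
  have hle : ∀ n : ℕ, ‖LSeries.term (fun n => (1 : DirichletCharacter ℂ q) n) (1 + δ : ℂ) n‖ ≤
      ‖LSeries.term 1 (1 + δ : ℂ) n‖ := by
    intro n
    apply LSeries.norm_term_le
    rw [Pi.one_apply, norm_one]
    exact DirichletCharacter.norm_le_one _ _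
  have hsum2 : Summable (fun n =>
      ‖LSeries.term (fun n => (1 : DirichletCharacter ℂ q) n) (1 + δ : ℂ) n‖) :=
    Summable.of_nonneg_of_le (fun _ => norm_nonneg _) hle hsum1
  have h1 : ‖LSeries (fun n => (1 : DirichletCharacter ℂ q) n) (1 + δ)‖ ≤ ‖LSeries 1 (1 + δ : ℂ)‖ := by
    have e1 : LSeries 1 (1 + δ : ℂ) = ((∑' n, ‖LSeries.term 1 (1 + δ : ℂ) n‖ : ℝ) : ℂ) := by
      rw [LSeries, ofReal_tsum]
      exact tsum_congr hterm
    rw [e1, norm_real, Real.norm_of_nonneg (tsum_nonneg fun _ => norm_nonneg _)]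
    refine (norm_tsum_le_tsum_norm hsum2).trans ?_
    exact hsum2.tsum_le_tsum hle hsum1
  have h2 := Pool.Agent.MP89da58.S.norm_zeta_le hre
  have h5 : ‖(1 + δ : ℂ) - 1‖ = δ := by
    rw [add_sub_cancel_left, norm_real, Real.norm_of_nonneg hδ.le]
  have h6 : ‖(1 + δ : ℂ)‖ = 1 + δ := by
    rw [hs, norm_real, Real.norm_of_nonneg (by linarith)]
  rw [h5, h6] at h2
  have h7 : Real.log (1 + (1 + δ)) ≤ 1 := by
    have h8 : Real.log (1 + (1 + δ)) ≤ Real.log (Real.exp 1) := by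
      apply Real.log_le_log (by linarith)
      have := Real.exp_one_gt_d9
      linarith
    rwa [Real.log_exp] at h8
  have h9 : 8 ≤ 1 / δ := by
    rw [le_div_iff₀ hδ]; linarith
  have h10 : 3 / δ = 1 / δ + 2 / δ := by ring
  rw [h10]
  linarith

/-- **[8a P08].** -/
theorem p_p341 : S_341 := by
  intro q _ χ M t δ hM hne hδ h1 h2 σ hσ1 hσ2
  have hM0 : 0 < M := by linarith
  have hδ0 : 0 < δ := by rw [hδ]; positivity
  have hM5 : 1 ≤ M ^ 5 := one_le_pow₀ hM
  have hδ8 : δ ≤ 1 / 8 := by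
    rw [hδ]
    apply one_div_le_one_div_of_le (by norm_num)
    linarith
  have h3 := p08_triv (q := q) hδ0 hδ8
  have hre1 : 1 < (1 + δ + t * I : ℂ).re := by simpa using hδ0
  have hre2 : 1 < (1 + δ + 2 * t * I : ℂ).re := by simpa using hδ0
  have hprod := DirichletCharacter.norm_LSeries_product_ge_one χ hδ0 t
  rw [norm_mul, norm_mul, norm_pow, norm_pow] at hprod
  have e1 : (1 + δ + I * t : ℂ) = 1 + δ + t * I := by ring
  have e2 : (1 + δ + 2 * I * t : ℂ) = 1 + δ + 2 * t * I := by ring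
  rw [e1, e2] at hprod
  rw [← DirichletCharacter.LFunction_eq_LSeries χ hre1,
    ← DirichletCharacter.LFunction_eq_LSeries (χ ^ 2) hre2] at hprod
  set u : ℝ := ‖χ.LFunction (1 + δ + t * I)‖ with hu
  have hu0 : 0 ≤ u := norm_nonneg _
  have hkey : 1 ≤ (3 / δ) ^ 3 * u ^ 4 * M := by
    refine le_trans hprod ?_
    gcongr
  have hu4 : (2 * δ * M) ^ 4 ≤ u ^ 4 := by
    have e1 : 432 * M ^ 5 * δ = 1 := by rw [hδ]; field_simp
    have e2 : δ ^ 3 ≤ 27 * M * u ^ 4 := by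
      have : (3 / δ) ^ 3 * u ^ 4 * M = 27 * M * u ^ 4 / δ ^ 3 := by
        field_simp
        ring
      rw [this, le_div_iff₀ (by positivity)] at hkey
      linarith
    have e3 : (2 * δ * M) ^ 4 * (27 * M) = δ ^ 3 := by
      calc (2 * δ * M) ^ 4 * (27 * M) = δ ^ 3 * (432 * M ^ 5 * δ) := by ring
        _ = δ ^ 3 := by rw [e1, mul_one]
    have : (2 * δ * M) ^ 4 * (27 * M) ≤ u ^ 4 * (27 * M) := by
      rw [e3]; linarith
    exact le_of_mul_le_mul_right this (by positivity)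
  have hu1 : 2 * δ * M ≤ u := le_of_pow_le_pow_left₀ (by norm_num) hu0 hu4
  -- differentiability
  have hdiff : ∀ z ∈ segment ℝ ((σ : ℂ) + t * I) (((1 + δ : ℝ) : ℂ) + t * I),
      DifferentiableAt ℂ χ.LFunction z ∧ ‖deriv χ.LFunction z‖ ≤ M := by
    intro z hz
    rw [segment_eq_image_lineMap] at hz
    obtain ⟨y, hy, rfl⟩ := hz
    have e : (AffineMap.lineMap ((σ : ℂ) + t * I) (((1 + δ : ℝ) : ℂ) + t * I)) y =
        (((σ + y * (1 + δ - σ) : ℝ)) : ℂ) + t * I := by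
      simp only [AffineMap.lineMap_apply, vsub_eq_sub, vadd_eq_add, real_smul]
      push_cast
      ring
    rw [e]
    refine ⟨?_, h1 _ (by nlinarith [hy.1]) (by nlinarith [hy.2])⟩
    rcases hne with h | h
    · exact (DirichletCharacter.differentiable_LFunction h) _
    · apply DirichletCharacter.differentiableAt_LFunction
      left
      intro h0
      apply h
      have := congrArg Complex.im h0
      simpa using this
  have hmv := (convex_segment ((σ : ℂ) + t * I)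
      (((1 + δ : ℝ) : ℂ) + t * I)).norm_image_sub_le_of_norm_deriv_le
    (fun z hz => (hdiff z hz).1) (fun z hz => (hdiff z hz).2) (left_mem_segment ℝ _ _)
    (right_mem_segment ℝ _ _)
  have e4 : (((1 + δ : ℝ) : ℂ) + t * I - ((σ : ℂ) + t * I)) = ((1 + δ - σ : ℝ) : ℂ) := by
    push_cast; ring
  rw [e4, norm_real, Real.norm_of_nonneg (by linarith)] at hmv
  have e5 : (((1 + δ : ℝ) : ℂ) + t * I) = 1 + δ + t * I := by push_cast; ring
  rw [e5] at hmv
  have h6 : u ≤ ‖χ.LFunction ((σ : ℂ) + t * I)‖ +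
      ‖χ.LFunction (1 + δ + t * I) - χ.LFunction ((σ : ℂ) + t * I)‖ := by
    rw [hu]
    exact norm_le_insert' _ _
  have h7 : M * (1 + δ - σ) ≤ M * (3 / 2 * δ) := by
    apply mul_le_mul_of_nonneg_left _ hM0.le
    linarith
  have h8 : 1 / (864 * M ^ 4) = 1 / 2 * (δ * M) := by rw [hδ]; field_simp; norm_num
  rw [h8]
  linarith

end Pool.Agent.MP8a4e59.P
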