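/-
MP_8a4e59_co, piece [8a P09]: complex characters (helper44).
-/
import Pool.Agent.Lib.MP_8a4e59_co.P.Stm

set_option autoImplicit false

open Complex MeasureTheory Filter Topology
open scoped Interval

namespace Pool.Agent.MP8a4e59.P

private lemma p09_exp {L E : ℝ} (hL : 2 ≤ L) (hE : E = Real.exp L) :
    3 ≤ E ∧ Real.exp (4 * L) = E ^ 4 := by
  refine ⟨?_, ?_⟩
  · have := Real.add_one_le_exp L
    rw [hE]
    linarith
  · rw [hE, ← Real.exp_nat_mul]
    norm_num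

private lemma p09_size {E x y : ℝ} (hE : 3 ≤ E) (_hx0 : 0 ≤ x) (hx : x ≤ E) (hy0 : 0 ≤ y)
    (hy : y ≤ 2 * E + 4) : x * y ≤ E ^ 4 := by
  have h1 : x * y ≤ E * (2 * E + 4) := mul_le_mul hx hy hy0 (by linarith)
  have h2 : 2 * E + 4 ≤ 4 * E := by linarith
  have h3 : E * (2 * E + 4) ≤ E * (4 * E) := mul_le_mul_of_nonneg_left h2 (by linarith)
  have h4 : (4 : ℝ) ≤ E ^ 2 := by nlinarith
  have h5 : 0 ≤ E ^ 2 := by positivity
  have h6 : 4 * E ^ 2 ≤ E ^ 2 * E ^ 2 := mul_le_mul_of_nonneg_right h4 h5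
  nlinarith

theorem p_cplx (h1 : S_lup) (h2 : S_dup) (h3 : S_341) : S_cplx := by
  obtain ⟨C₁, hC₁, H1⟩ := h1
  obtain ⟨C₂, hC₂, H2, -⟩ := h2
  obtain ⟨C, hC⟩ : ∃ C, C = max C₁ C₂ := ⟨_, rfl⟩
  have hC1 : C₁ ≤ C := hC ▸ le_max_left _ _
  have hC2 : C₂ ≤ C := hC ▸ le_max_right _ _
  have hCpos : 1 ≤ C := hC₁.trans hC1
  refine ⟨max 2 (864 * 16 ^ 5 * C ^ 5), ?_⟩
  intro L hL q _ χ hq hχ s hs
  have hL2 : 2 ≤ L := (le_max_left _ _).trans hL
  have hLC : 864 * 16 ^ 5 * C ^ 5 ≤ L := (le_max_right _ _).trans hL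
  have hL0 : 0 < L := by linarith
  have hL1 : 1 ≤ L := by linarith
  obtain ⟨E, hE⟩ : ∃ E, E = Real.exp L := ⟨_, rfl⟩
  obtain ⟨hE3, hE4⟩ := p09_exp hL2 hE
  have hq0 : (0 : ℝ) ≤ q := Nat.cast_nonneg q
  have hqE : (q : ℝ) ≤ E := by rw [hE]; exact hq
  obtain ⟨hre, him⟩ := hs
  have himE : |s.im| ≤ E := by rw [hE]; exact him
  obtain ⟨M, hM⟩ : ∃ M, M = C * (4 * L) ^ 2 := ⟨_, rfl⟩
  have hML : L ≤ M := by
    rw [hM]
    have e1 : L ≤ (4 * L) ^ 2 := by nlinarith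
    have e2 : 1 * (4 * L) ^ 2 ≤ C * (4 * L) ^ 2 :=
      mul_le_mul_of_nonneg_right hCpos (by positivity)
    linarith
  have hM1 : 1 ≤ M := hL1.trans hML
  have hM0 : 0 < M := by linarith
  have hM5 : 864 * M ^ 5 ≤ L ^ 11 := by
    have e1 : 864 * M ^ 5 = (864 * 16 ^ 5 * C ^ 5) * L ^ 10 := by
      rw [hM]
      ring
    rw [e1]
    calc (864 * 16 ^ 5 * C ^ 5) * L ^ 10 ≤ L * L ^ 10 :=
          mul_le_mul_of_nonneg_right hLC (by positivity)
      _ = L ^ 11 := by ring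
  obtain ⟨δ, hδ⟩ : ∃ δ, δ = 1 / (432 * M ^ 5) := ⟨_, rfl⟩
  have hM5pos : 0 < M ^ 5 := by positivity
  have hδ0 : 0 < δ := by rw [hδ]; positivity
  have hδ2 : δ / 2 = 1 / (864 * M ^ 5) := by
    rw [hδ, div_div]
    congr 1
    ring
  have hM5L : L ≤ M ^ 5 := hML.trans (le_self_pow₀ hM1 (by norm_num))
  -- the half length is at most 1/(8L)
  have hδ8 : δ / 2 ≤ (2 * (4 * L))⁻¹ := by
    rw [hδ2, one_div]
    apply inv_anti₀ (by positivity)
    linarith
  have hδ1 : δ ≤ 1 := by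
    rw [hδ, div_le_one (by positivity)]
    linarith
  -- the point is in the segment
  have h41 : (L ^ 41)⁻¹ ≤ δ / 2 := by
    rw [hδ2, one_div]
    apply inv_anti₀ (by positivity)
    exact hM5.trans (pow_le_pow_right₀ hL1 (by norm_num))
  have hχ1 : χ ≠ 1 := by
    rintro rfl
    exact hχ (one_pow 2)
  have hder : ∀ σ : ℝ, 1 - δ / 2 ≤ σ → σ ≤ 1 + δ →
      ‖deriv χ.LFunction (σ + s.im * I)‖ ≤ M := by
    intro σ hσ1 hσ2
    have e1 := H2 q χ (4 * L) (σ + s.im * I) hχ1 (by linarith) (by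
      simp only [add_re, ofReal_re, mul_re, I_re, mul_zero, ofReal_im, I_im, mul_one, sub_self,
        add_zero]
      linarith) (by
      simp only [add_re, ofReal_re, mul_re, I_re, mul_zero, ofReal_im, I_im, mul_one, sub_self,
        add_zero]
      linarith) (by
      simp only [add_im, ofReal_im, mul_im, ofReal_re, I_im, mul_one, I_re, mul_zero, add_zero,
        zero_add]
      rw [hE4]
      apply p09_size hE3 hq0 hqE (by positivity)
      linarith)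
    refine e1.trans ?_
    rw [hM]
    exact mul_le_mul_of_nonneg_right hC2 (by positivity)
  have hsq : ‖(χ ^ 2).LFunction (1 + δ + 2 * s.im * I)‖ ≤ M := by
    have e1 := H1 q (χ ^ 2) (4 * L) (1 + δ + 2 * s.im * I) hχ (by linarith) (by
      have e0 : (1 + (δ : ℂ) + 2 * s.im * I).re = 1 + δ := by simp
      rw [e0]
      have : 0 < (4 * L)⁻¹ := by positivity
      linarith) (by
      have e0 : (1 + (δ : ℂ) + 2 * s.im * I).re = 1 + δ := by simp
      rw [e0]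
      linarith) (by
      have e0 : (1 + (δ : ℂ) + 2 * s.im * I).im = 2 * s.im := by simp
      rw [e0, hE4, abs_mul, abs_of_pos (by norm_num : (0 : ℝ) < 2)]
      apply p09_size hE3 hq0 hqE (by positivity)
      linarith)
    refine e1.trans ?_
    rw [hM]
    have e2 : 4 * L ≤ (4 * L) ^ 2 := by nlinarith
    calc C₁ * (4 * L) ≤ C * (4 * L) := mul_le_mul_of_nonneg_right hC1 (by positivity)
      _ ≤ C * (4 * L) ^ 2 := mul_le_mul_of_nonneg_left e2 (by linarith)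
  have hab := abs_le.1 hre
  have hσ1 : 1 - δ / 2 ≤ s.re := by linarith
  have hσ2 : s.re ≤ 1 + δ := by linarith
  have hlow := h3 q χ M s.im δ hM1 (Or.inl hχ1) hδ hder hsq s.re hσ1 hσ2
  have hd := hder s.re hσ1 hσ2
  rw [re_add_im] at hlow hd
  have hpos : 0 < 1 / (864 * M ^ 4) := by positivity
  have hLpos : 0 < ‖χ.LFunction s‖ := hpos.trans_le hlow
  refine ⟨norm_pos_iff.1 hLpos, ?_⟩
  rw [norm_div, div_le_iff₀ hLpos]
  have e3 : M = (864 * M ^ 5) * (1 / (864 * M ^ 4)) := by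
    field_simp
  calc ‖deriv χ.LFunction s‖ ≤ M := hd
    _ = (864 * M ^ 5) * (1 / (864 * M ^ 4)) := e3
    _ ≤ L ^ 36 * ‖χ.LFunction s‖ := by
        apply mul_le_mul _ hlow hpos.le (by positivity)
        exact hM5.trans (pow_le_pow_right₀ hL1 (by norm_num))

end Pool.Agent.MP8a4e59.P
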