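/-
MP_8a4e59_co, part P: real characters away from the real axis ([8a P10]).
-/
import Pool.Agent.Lib.MP_8a4e59_co.P.Stm
import Pool.Agent.Lib.MP_89da58_nt.S.CharBound

set_option autoImplicit false

open Complex MeasureTheory Filter Topology
open scoped Interval

namespace Pool.Agent.MP8a4e59.P

/-- The principal character off the real axis. -/
private theorem p10_triv {C2 c L : ℝ} (hC2 : 1 ≤ C2) (hc : 0 < c) (hL : 10 ≤ L)
    (h : ∀ (q : ℕ), q ≠ 0 → ∀ s : ℂ, 1 < s.re →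
      ‖LSeries (fun n => (1 : DirichletCharacter ℂ q) n) s‖ ≤
        C2 * (1 + Real.log (q * (1 + ‖s‖))) + 2 / ‖s - 1‖)
    (q : ℕ) [NeZero q] (hq : (q : ℝ) ≤ Real.exp L) (δ t : ℝ) (hδ : 0 < δ) (hδ1 : δ ≤ 1)
    (ht : |t| ≤ Real.exp L) (ht' : c * (L ^ 8)⁻¹ ≤ |t|) :
    ‖(1 : DirichletCharacter ℂ q).LFunction (1 + δ + 2 * t * I)‖ ≤ (4 * C2 + 1 / c) * L ^ 8 := by
  have hL0 : 0 < L := by linarith
  have hL8 : 0 < L ^ 8 := by positivity
  set s : ℂ := 1 + δ + 2 * t * I with hs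
  have hre : s.re = 1 + δ := by simp [hs]
  have him : s.im = 2 * t := by simp [hs]
  have h1 : 1 < s.re := by rw [hre]; linarith
  rw [DirichletCharacter.LFunction_eq_LSeries _ h1]
  refine (h q (NeZero.ne q) s h1).trans ?_
  have hq1 : (1 : ℝ) ≤ q := by exact_mod_cast NeZero.one_le
  have heL : L + 1 ≤ Real.exp L := Real.add_one_le_exp L
  have hns : ‖s‖ ≤ 2 + 2 * Real.exp L := by
    refine (Complex.norm_le_abs_re_add_abs_im s).trans ?_
    rw [hre, him, abs_of_pos (by linarith), abs_mul, abs_of_pos (by norm_num : (0 : ℝ) < 2)]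
    linarith
  have hlog : Real.log (q * (1 + ‖s‖)) ≤ 3 * L := by
    have h2 : 0 < (q : ℝ) * (1 + ‖s‖) := by positivity
    rw [Real.log_le_iff_le_exp h2]
    have h3 : 1 + ‖s‖ ≤ 3 * Real.exp L := by linarith
    have e3 : Real.exp (3 * L) = Real.exp L * (Real.exp L * Real.exp L) := by
      rw [← Real.exp_add, ← Real.exp_add]; congr 1; ring
    rw [e3]
    have h4 : 3 * Real.exp L ≤ Real.exp L * Real.exp L := by nlinarith
    calc (q : ℝ) * (1 + ‖s‖) ≤ Real.exp L * (3 * Real.exp L) := by gcongr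
      _ ≤ _ := by gcongr
  have hLL : L ≤ L ^ 8 := le_self_pow₀ (by linarith) (by norm_num)
  have h5 : C2 * (1 + Real.log (q * (1 + ‖s‖))) ≤ 4 * C2 * L ^ 8 := by
    have : 1 + Real.log (q * (1 + ‖s‖)) ≤ 4 * L ^ 8 := by linarith
    calc C2 * (1 + Real.log (q * (1 + ‖s‖))) ≤ C2 * (4 * L ^ 8) := by gcongr
      _ = _ := by ring
  have htpos : 0 < |t| := lt_of_lt_of_le (by positivity) ht'
  have h6 : 2 * |t| ≤ ‖s - 1‖ := by
    have : |(s - 1).im| ≤ ‖s - 1‖ := Complex.abs_im_le_norm _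
    rw [Complex.sub_im, him, Complex.one_im, sub_zero, abs_mul,
      abs_of_pos (by norm_num : (0 : ℝ) < 2)] at this
    exact this
  have h7 : 2 / ‖s - 1‖ ≤ 1 / c * L ^ 8 := by
    calc 2 / ‖s - 1‖ ≤ 2 / (2 * |t|) := by gcongr
      _ = 1 / |t| := by field_simp
      _ ≤ 1 / (c * (L ^ 8)⁻¹) := by gcongr
      _ = _ := by field_simp
  calc C2 * (1 + Real.log (q * (1 + ‖s‖))) + 2 / ‖s - 1‖ ≤ 4 * C2 * L ^ 8 + 1 / c * L ^ 8 :=
        add_le_add h5 h7
    _ = _ := by ring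

theorem p_realt (hdup : S_dup) (h341 : S_341) : S_realt := by
  intro c hc
  obtain ⟨C, hC1, hCd, _⟩ := hdup
  obtain ⟨C2, hC21, hC2⟩ := Pool.Agent.MP89da58.S.norm_LTriv_le
  obtain ⟨A, hA⟩ : ∃ A : ℝ, A = 16 * C + 4 * C2 + 1 / c := ⟨_, rfl⟩
  have hc' : 0 < 1 / c := by positivity
  have hA1 : 1 ≤ A := by linarith
  refine ⟨10 + 864 * A ^ 5 + 13824 * C * A ^ 4, fun L hL q _ χ hq hχ2 hχ1 s hs hsim => ?_⟩
  have hA5 : 0 < 864 * A ^ 5 := by positivity
  have hA4 : 0 < 13824 * C * A ^ 4 := by positivity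
  have hL10 : 10 ≤ L := by linarith
  have hL0 : 0 < L := by linarith
  have hL1 : 1 ≤ L := by linarith
  obtain ⟨M, hM⟩ : ∃ M : ℝ, M = A * L ^ 8 := ⟨_, rfl⟩
  have hL8 : 1 ≤ L ^ 8 := one_le_pow₀ hL1
  have hLL : L ≤ L ^ 8 := le_self_pow₀ hL1 (by norm_num)
  have hM1 : 1 ≤ M := by rw [hM]; nlinarith
  have hML : L ≤ M := by rw [hM]; nlinarith
  obtain ⟨δ, hδ⟩ : ∃ δ : ℝ, δ = 1 / (432 * M ^ 5) := ⟨_, rfl⟩
  have hM0 : 0 < M := by linarith
  have hδ0 : 0 < δ := by rw [hδ]; positivity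
  have hM5 : M ≤ M ^ 5 := le_self_pow₀ hM1 (by norm_num)
  have hδL : δ ≤ 1 / (432 * L) := by
    rw [hδ]
    gcongr
    linarith
  have hδ1 : δ ≤ 1 := by
    refine hδL.trans ?_
    rw [div_le_one (by positivity)]
    linarith
  have hδ2 : (L ^ 41)⁻¹ ≤ δ / 2 := by
    have e : δ / 2 = (864 * A ^ 5 * L ^ 40)⁻¹ := by
      rw [hδ, hM]
      field_simp
      ring
    rw [e]
    refine inv_anti₀ (by positivity) ?_
    calc 864 * A ^ 5 * L ^ 40 ≤ L * L ^ 40 := by gcongr; linarith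
      _ = L ^ 41 := by ring
  obtain ⟨hs1, hs2⟩ := hs
  have hs3 := (abs_le.1 (hs1.trans hδ2))
  have hexp : L + 1 ≤ Real.exp L := Real.add_one_le_exp L
  have hder : ∀ σ : ℝ, 1 - δ / 2 ≤ σ → σ ≤ 1 + δ →
      ‖deriv χ.LFunction (σ + s.im * I)‖ ≤ 16 * C * L ^ 2 := by
    intro σ h1 h2
    have h3 := hCd q χ (4 * L) (σ + s.im * I) hχ1 (by linarith)
      (by
        have : δ / 2 ≤ (2 * (4 * L))⁻¹ := by
          have e : (2 * (4 * L))⁻¹ = 1 / (8 * L) := by rw [one_div]; congr 1; ring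
          rw [e]
          have h4 : 1 / (432 * L) ≤ 1 / (8 * L) := by gcongr; norm_num
          linarith
        simp only [add_re, ofReal_re, mul_re, I_re, mul_zero, ofReal_im, I_im, mul_one, sub_self,
          add_zero]
        linarith)
      (by
        simp only [add_re, ofReal_re, mul_re, I_re, mul_zero, ofReal_im, I_im, mul_one, sub_self,
          add_zero]
        linarith)
      (by
        simp only [add_im, ofReal_im, mul_im, ofReal_re, I_im, mul_one, I_re, mul_zero, add_zero,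
          zero_add]
        have e3 : Real.exp (4 * L) = Real.exp L * (Real.exp L * (Real.exp L * Real.exp L)) := by
          rw [← Real.exp_add, ← Real.exp_add, ← Real.exp_add]; congr 1; ring
        rw [e3]
        have h5 : |s.im| + 4 ≤ Real.exp L * (Real.exp L * Real.exp L) := by
          have h6 : |s.im| + 4 ≤ 2 * Real.exp L := by linarith
          have h7 : (1 : ℝ) ≤ Real.exp L := by linarith
          nlinarith [mul_le_mul h7 h7 zero_le_one (by positivity)]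
        gcongr)
    refine h3.trans (le_of_eq ?_)
    ring
  have h16 : 16 * C * L ^ 2 ≤ M := by
    rw [hM]
    have h2 : L ^ 2 ≤ L ^ 8 := pow_le_pow_right₀ hL1 (by norm_num)
    have h3 : 16 * C ≤ A := by linarith
    gcongr
  have hsq : ‖(χ ^ 2).LFunction (1 + δ + 2 * s.im * I)‖ ≤ M := by
    rw [hχ2]
    refine (p10_triv hC21 hc hL10 hC2 q hq δ s.im hδ0 hδ1 hs2 hsim).trans ?_
    rw [hM]
    gcongr
    linarith
  have hlow := h341 q χ M s.im δ hM1 (Or.inl hχ1) hδ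
    (fun σ h1 h2 => (hder σ h1 h2).trans h16) hsq s.re (by linarith) (by linarith)
  have hd := hder s.re (by linarith) (by linarith)
  rw [Complex.re_add_im] at hlow hd
  have hpos : 0 < 1 / (864 * M ^ 4) := by positivity
  refine ⟨fun h0 => ?_, ?_⟩
  · rw [h0, norm_zero] at hlow
    linarith
  · rw [norm_div]
    calc ‖deriv χ.LFunction s‖ / ‖χ.LFunction s‖ ≤ (16 * C * L ^ 2) / (1 / (864 * M ^ 4)) := by
          gcongr
      _ = (13824 * C * A ^ 4) * L ^ 34 := by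
          rw [hM]
          field_simp
          ring
      _ ≤ L * L ^ 34 := by gcongr; linarith
      _ = L ^ 35 := by ring

end Pool.Agent.MP8a4e59.P
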