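/-
MP_8a4e59_co, part P, piece P12 (helper70): the exceptional character.
-/
import Pool.Agent.Lib.MP_8a4e59_co.P.Stm
import Pool.Agent.Lib.MP_89da58_nt.S.CharBound

set_option autoImplicit false

open Complex MeasureTheory Filter Topology
open scoped Interval

namespace Pool.Agent.MP8a4e59.P

private lemma p12_dslope (f : ℂ → ℂ) (b : ℂ) (h0 : f b = 0) (z : ℂ) (hz : z ≠ b) :
    dslope f b z = f z / (z - b) := by
  rw [dslope_of_ne _ hz, slope_def_field, h0, sub_zero]

private lemma p12_diff (f : ℂ → ℂ) (b : ℂ) (hf : Differentiable ℂ f) :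
    Differentiable ℂ (dslope f b) := by
  rw [← differentiableOn_univ, Complex.differentiableOn_dslope Filter.univ_mem,
    differentiableOn_univ]
  exact hf

/-- the 3-4-1 inequality at the real point -/
private lemma p12_prod {q : ℕ} [NeZero q] (χ : DirichletCharacter ℂ q) (h2 : χ ^ 2 = 1) {x : ℝ}
    (hx : 0 < x) : 1 ≤ ‖LSeries (fun n : ℕ ↦ (1 : DirichletCharacter ℂ q) n) (1 + x)‖ * ‖χ.LFunction (1 + x)‖ := by
  have h := DirichletCharacter.norm_LSeries_product_ge_one χ hx 0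
  rw [h2] at h
  have e1 : (1 : ℂ) + x + I * ((0 : ℝ) : ℂ) = 1 + x := by push_cast; ring
  have e2 : (1 : ℂ) + x + 2 * I * ((0 : ℝ) : ℂ) = 1 + x := by push_cast; ring
  rw [e1, e2] at h
  have hre : 1 < (1 + (x : ℂ)).re := by simp [hx]
  rw [DirichletCharacter.LFunction_eq_LSeries χ hre]
  set T := LSeries (fun n : ℕ ↦ (1 : DirichletCharacter ℂ q) n) (1 + x) with hT
  set X := LSeries (fun n : ℕ ↦ χ n) (1 + x) with hX
  have h3 : 1 ≤ (‖T‖ * ‖X‖) ^ 4 := by
    have e : ‖T ^ 3 * X ^ 4 * T‖ = (‖T‖ * ‖X‖) ^ 4 := by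
      rw [norm_mul, norm_mul, norm_pow, norm_pow]
      ring
    rw [← e]
    exact h
  by_contra hlt
  push Not at hlt
  have h4 : (‖T‖ * ‖X‖) ^ 4 < 1 := pow_lt_one₀ (by positivity) hlt (by norm_num)
  linarith

private lemma p12_lower : ∃ L0 : ℝ, 3 ≤ L0 ∧ ∀ L : ℝ, L0 ≤ L → ∀ (q : ℕ) [NeZero q]
    (χ : DirichletCharacter ℂ q), (q : ℝ) ≤ Real.exp L → χ ^ 2 = 1 →
    (L ^ 6)⁻¹ / 3 ≤ ‖χ.LFunction (1 + (((L ^ 6)⁻¹ : ℝ) : ℂ))‖ := by
  obtain ⟨C, hC1, hC⟩ := Pool.Agent.MP89da58.S.norm_LTriv_le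
  refine ⟨3 * C, by linarith, ?_⟩
  intro L hL q _ χ hq h2
  have hL3 : 3 ≤ L := by linarith
  have hL0 : 0 < L := by linarith
  have hx : 0 < (L ^ 6)⁻¹ := by positivity
  have hx1 : (L ^ 6)⁻¹ ≤ 1 := by
    apply inv_le_one_of_one_le₀
    exact one_le_pow₀ (by linarith)
  have hp := p12_prod χ h2 hx
  have hq0 : q ≠ 0 := NeZero.ne q
  have hq1 : (1 : ℝ) ≤ q := by exact_mod_cast Nat.one_le_iff_ne_zero.2 hq0
  have hre : 1 < (1 + (((L ^ 6)⁻¹ : ℝ) : ℂ)).re := by
    simp only [add_re, one_re, ofReal_re]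
    linarith
  have hT := hC q hq0 _ hre
  have e1 : ‖(1 + (((L ^ 6)⁻¹ : ℝ) : ℂ)) - 1‖ = (L ^ 6)⁻¹ := by
    rw [add_sub_cancel_left, Complex.norm_real, Real.norm_of_nonneg hx.le]
  have e2 : ‖(1 + (((L ^ 6)⁻¹ : ℝ) : ℂ))‖ ≤ 2 := by
    refine (norm_add_le _ _).trans ?_
    rw [norm_one, Complex.norm_real, Real.norm_of_nonneg hx.le]
    linarith
  have e3 : Real.log (q * (1 + ‖(1 + (((L ^ 6)⁻¹ : ℝ) : ℂ))‖)) ≤ L + 2 := by
    have h3 : q * (1 + ‖(1 + (((L ^ 6)⁻¹ : ℝ) : ℂ))‖) ≤ Real.exp (L + 2) := by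
      rw [Real.exp_add]
      apply mul_le_mul hq _ (by positivity) (Real.exp_pos _).le
      have := Real.add_one_le_exp (2 : ℝ)
      linarith
    have h4 : 0 < q * (1 + ‖(1 + (((L ^ 6)⁻¹ : ℝ) : ℂ))‖) := by positivity
    have h5 := Real.log_le_log h4 h3
    rwa [Real.log_exp] at h5
  rw [e1] at hT
  have h6 : C * (1 + Real.log (q * (1 + ‖(1 + (((L ^ 6)⁻¹ : ℝ) : ℂ))‖))) ≤ L ^ 6 := by
    calc C * (1 + Real.log (q * (1 + ‖(1 + (((L ^ 6)⁻¹ : ℝ) : ℂ))‖)))
        ≤ C * (1 + (L + 2)) := mul_le_mul_of_nonneg_left (by linarith) (by linarith)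
      _ ≤ C * (3 * L) := mul_le_mul_of_nonneg_left (by linarith) (by linarith)
      _ ≤ L * L := by nlinarith
      _ = L ^ 2 := by ring
      _ ≤ L ^ 6 := pow_le_pow_right₀ (by linarith) (by norm_num)
  have h7 : 2 / (L ^ 6)⁻¹ = 2 * L ^ 6 := by rw [div_inv_eq_mul]
  rw [h7] at hT
  have h8 : 1 ≤ (3 * L ^ 6) * ‖χ.LFunction (1 + (((L ^ 6)⁻¹ : ℝ) : ℂ))‖ :=
    hp.trans (mul_le_mul_of_nonneg_right (by linarith) (norm_nonneg _))
  have h9 : (L ^ 6)⁻¹ / 3 = 1 / (3 * L ^ 6) := by field_simp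
  rw [h9, div_le_iff₀ (by positivity)]
  linarith

/-- bounds of the quotient near the point 1 -/
private lemma p12_ball {C L : ℝ} (hC : 1 ≤ C) (hL3 : 3 ≤ L) {f : ℂ → ℂ} {β : ℝ}
    (hf : Differentiable ℂ f) (h0 : f β = 0) (hlo : 1 - (L ^ 6)⁻¹ ≤ β) (hhi : β < 1)
    (hb : ∀ s : ℂ, ‖s - 1‖ ≤ 1 / (4 * L) → ‖f s‖ ≤ C * (2 * L)) :
    ∀ z : ℂ, ‖z - 1‖ ≤ 1 / (8 * L) → ‖deriv (dslope f (β : ℂ)) z‖ ≤ 128 * C * L ^ 3 := by
  have hL0 : 0 < L := by linarith
  have hd := p12_diff f (β : ℂ) hf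
  have hβ : (L ^ 6)⁻¹ ≤ 1 / (8 * L) := by
    rw [one_div]
    apply inv_anti₀ (by positivity)
    have h5 : (8 : ℝ) ≤ L ^ 5 := by
      calc (8 : ℝ) ≤ 3 ^ 5 := by norm_num
        _ ≤ L ^ 5 := pow_le_pow_left₀ (by norm_num) hL3 5
    calc 8 * L ≤ L ^ 5 * L := mul_le_mul_of_nonneg_right h5 hL0.le
      _ = L ^ 6 := by ring
  have h84 : 1 / (8 * L) = 1 / (4 * L) / 2 := by field_simp; norm_num
  have hsph : ∀ z : ℂ, ‖z - 1‖ = 1 / (4 * L) → ‖dslope f (β : ℂ) z‖ ≤ 16 * C * L ^ 2 := by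
    intro z hz
    have h1 : 1 / (8 * L) ≤ ‖z - β‖ := by
      have h2 : ‖z - 1‖ ≤ ‖z - β‖ + ‖(β : ℂ) - 1‖ := by
        have : z - 1 = (z - β) + ((β : ℂ) - 1) := by ring
        rw [this]
        exact norm_add_le _ _
      have h3 : ‖(β : ℂ) - 1‖ = 1 - β := by
        have : (β : ℂ) - 1 = ((β - 1 : ℝ) : ℂ) := by push_cast; ring
        rw [this, Complex.norm_real, Real.norm_eq_abs, abs_of_neg (by linarith)]
        ring
      rw [h3, hz] at h2
      linarith
    have hne : z ≠ β := by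
      rintro rfl
      rw [sub_self, norm_zero] at h1
      have : 0 < 1 / (8 * L) := by positivity
      linarith
    rw [p12_dslope f β h0 z hne, norm_div, div_le_iff₀ (lt_of_lt_of_le (by positivity) h1)]
    refine (hb z hz.le).trans ?_
    calc C * (2 * L) = 16 * C * L ^ 2 * (1 / (8 * L)) := by field_simp; ring
      _ ≤ 16 * C * L ^ 2 * ‖z - β‖ := mul_le_mul_of_nonneg_left h1 (by positivity)
  have hcb : ∀ z : ℂ, ‖z - 1‖ ≤ 1 / (4 * L) → ‖dslope f (β : ℂ) z‖ ≤ 16 * C * L ^ 2 := by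
    intro z hz
    have hρ : (1 / (4 * L)) ≠ 0 := by positivity
    refine Complex.norm_le_of_forall_mem_frontier_norm_le (U := Metric.ball (1 : ℂ) (1 / (4 * L)))
      Metric.isBounded_ball hd.diffContOnCl ?_ ?_
    · intro w hw
      rw [frontier_ball _ hρ, mem_sphere_iff_norm] at hw
      exact hsph w hw
    · rw [closure_ball _ hρ, mem_closedBall_iff_norm]
      exact hz
  intro z hz
  have h1 : ‖deriv (dslope f (β : ℂ)) z‖ ≤ 16 * C * L ^ 2 / (1 / (8 * L)) := by
    apply Complex.norm_deriv_le_of_forall_mem_sphere_norm_le (by positivity) hd.diffContOnCl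
    intro w hw
    rw [mem_sphere_iff_norm] at hw
    apply hcb
    have : w - 1 = (w - z) + (z - 1) := by ring
    rw [this]
    refine (norm_add_le _ _).trans ?_
    rw [hw]
    linarith
  refine h1.trans (le_of_eq ?_)
  field_simp
  ring

theorem p_exc (h1 : S_lup) (h2 : S_realt) : S_exc := by
  obtain ⟨C, hC, hlup⟩ := h1
  obtain ⟨L1, hreal⟩ := h2 1 one_pos
  obtain ⟨L2, hL2, hlow⟩ := p12_lower
  refine ⟨max (max L1 L2) (4608 * C), ?_⟩
  intro L hL q _ χ β hE
  have hLL1 : L1 ≤ L := (le_max_left _ _).trans ((le_max_left _ _).trans hL)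
  have hLL2 : L2 ≤ L := (le_max_right _ _).trans ((le_max_left _ _).trans hL)
  have hLC : 4608 * C ≤ L := (le_max_right _ _).trans hL
  have hL3 : 3 ≤ L := by linarith
  have hL0 : 0 < L := by linarith
  have hd : Differentiable ℂ χ.LFunction := DirichletCharacter.differentiable_LFunction hE.ne
  have hexp : 4 ≤ Real.exp L := by
    have := Real.add_one_le_exp L
    linarith
  have hb : ∀ s : ℂ, ‖s - 1‖ ≤ 1 / (4 * L) → ‖χ.LFunction s‖ ≤ C * (2 * L) := by
    intro s hs
    have hr : |s.re - 1| ≤ 1 / (4 * L) := by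
      have := Complex.abs_re_le_norm (s - 1)
      rw [sub_re, one_re] at this
      exact this.trans hs
    have hi : |s.im| ≤ 1 / (4 * L) := by
      have := Complex.abs_im_le_norm (s - 1)
      rw [sub_im, one_im, sub_zero] at this
      exact this.trans hs
    have h4 : 1 / (4 * L) ≤ 1 := by
      rw [div_le_one (by positivity)]
      linarith
    have h5 : (2 * L)⁻¹ = 1 / (4 * L) + 1 / (4 * L) := by field_simp; norm_num
    have h6 : 0 < 1 / (4 * L) := by positivity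
    have h7 := abs_le.1 hr
    refine hlup q χ (2 * L) s hE.ne (by linarith) (by linarith) (by linarith) ?_
    calc (q : ℝ) * (|s.im| + 3) ≤ Real.exp L * 4 :=
          mul_le_mul hE.qL (by linarith) (by positivity) (Real.exp_pos _).le
      _ ≤ Real.exp L * Real.exp L := mul_le_mul_of_nonneg_left hexp (Real.exp_pos _).le
      _ = Real.exp (2 * L) := by rw [← Real.exp_add]; ring_nf
  set H := dslope χ.LFunction (β : ℂ) with hH
  have hHd : Differentiable ℂ H := p12_diff _ _ hd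
  have hder := p12_ball hC hL3 hd hE.zero hE.lo hE.hi hb
  have h46 : (L ^ 6)⁻¹ ≤ (L ^ 4)⁻¹ := by
    apply inv_anti₀ (by positivity)
    exact pow_le_pow_right₀ (by linarith) (by norm_num)
  have h48 : 2 * (L ^ 4)⁻¹ ≤ 1 / (8 * L) := by
    have h5 : (16 : ℝ) ≤ L ^ 3 := by
      calc (16 : ℝ) ≤ 3 ^ 3 := by norm_num
        _ ≤ L ^ 3 := pow_le_pow_left₀ (by norm_num) hL3 3
    rw [mul_inv_le_iff₀ (by positivity)]
    calc (2 : ℝ) = 1 / (8 * L) * (16 * L) := by field_simp; norm_num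
      _ ≤ 1 / (8 * L) * (L ^ 3 * L) := by
          apply mul_le_mul_of_nonneg_left _ (by positivity)
          exact mul_le_mul_of_nonneg_right h5 hL0.le
      _ = 1 / (8 * L) * L ^ 4 := by ring
  -- the value at `1 + L^(-6)`
  set p : ℂ := 1 + (((L ^ 6)⁻¹ : ℝ) : ℂ) with hp
  have hp1 : ‖p - 1‖ = (L ^ 6)⁻¹ := by
    rw [hp, add_sub_cancel_left, Complex.norm_real, Real.norm_of_nonneg (by positivity)]
  have hHp : 1 / 6 ≤ ‖H p‖ := by
    have h3 := hlow L hLL2 q χ hE.qL hE.quad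
    have hpb : p - β = (((L ^ 6)⁻¹ + (1 - β) : ℝ) : ℂ) := by rw [hp]; push_cast; ring
    have h4 : ‖p - β‖ = (L ^ 6)⁻¹ + (1 - β) := by
      rw [hpb, Complex.norm_real, Real.norm_of_nonneg]
      have : 0 < (L ^ 6)⁻¹ := by positivity
      have := hE.hi
      linarith
    have h5 : 0 < (L ^ 6)⁻¹ := by positivity
    have hhi := hE.hi
    have hlo := hE.lo
    have hne : p ≠ β := by
      intro h
      rw [h, sub_self, norm_zero] at h4
      linarith
    rw [hH, p12_dslope _ _ hE.zero p hne, norm_div, h4, le_div_iff₀ (by linarith)]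
    linarith
  -- lower bound near the point 1
  have hnear : ∀ s : ℂ, ‖s - 1‖ ≤ 2 * (L ^ 4)⁻¹ → 1 / 12 ≤ ‖H s‖ := by
    intro s hs
    have h3 : ‖H s - H p‖ ≤ 128 * C * L ^ 3 * ‖s - p‖ := by
      refine Convex.norm_image_sub_le_of_norm_deriv_le (s := Metric.closedBall (1 : ℂ) (1 / (8 * L)))
        (fun z _ => hHd z) (fun z hz => ?_) (convex_closedBall _ _) ?_ ?_
      · rw [mem_closedBall_iff_norm] at hz
        exact hder z hz
      · rw [mem_closedBall_iff_norm, hp1]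
        have : 0 < (L ^ 4)⁻¹ := by positivity
        linarith
      · rw [mem_closedBall_iff_norm]
        linarith
    have h4 : ‖s - p‖ ≤ 3 * (L ^ 4)⁻¹ := by
      have : s - p = (s - 1) - (p - 1) := by ring
      rw [this]
      refine (norm_sub_le _ _).trans ?_
      rw [hp1]
      linarith
    have h5 : 128 * C * L ^ 3 * ‖s - p‖ ≤ 1 / 12 := by
      calc 128 * C * L ^ 3 * ‖s - p‖ ≤ 128 * C * L ^ 3 * (3 * (L ^ 4)⁻¹) :=
            mul_le_mul_of_nonneg_left h4 (by positivity)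
        _ = 384 * C / L := by field_simp; ring
        _ ≤ 1 / 12 := by
            rw [div_le_div_iff₀ hL0 (by norm_num)]
            linarith
    have h6 : ‖H p‖ ≤ ‖H s‖ + ‖H s - H p‖ := by
      have : H p = H s - (H s - H p) := by ring
      rw [this]
      exact (norm_sub_le _ _).trans (by rw [sub_sub_cancel])
    linarith
  refine ⟨fun s hs h0 => ?_, fun s hs => ?_⟩
  · have h3 : 0 < (L ^ 4)⁻¹ := by positivity
    have h4 := hnear s (by linarith)
    rw [h0, norm_zero] at h4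
    norm_num at h4
  · rcases le_total |s.im| ((L ^ 4)⁻¹) with him | him
    · -- near the real axis
      have h41 : (L ^ 41)⁻¹ ≤ (L ^ 4)⁻¹ := by
        apply inv_anti₀ (by positivity)
        exact pow_le_pow_right₀ (by linarith) (by norm_num)
      have h3 : ‖s - 1‖ ≤ 2 * (L ^ 4)⁻¹ := by
        refine (Complex.norm_le_abs_re_add_abs_im _).trans ?_
        rw [sub_re, one_re, sub_im, one_im, sub_zero]
        have := hs.1
        linarith
      have h4 := hnear s h3
      have h5 : 0 < ‖H s‖ := by linarith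
      refine ⟨norm_pos_iff.1 h5, ?_⟩
      rw [norm_div, div_le_iff₀ h5]
      refine (hder s (h3.trans h48)).trans ?_
      calc 128 * C * L ^ 3 = (1536 * C) * L ^ 3 * (1 / 12) := by ring
        _ ≤ L * L ^ 3 * (1 / 12) := by
            apply mul_le_mul_of_nonneg_right _ (by norm_num)
            exact mul_le_mul_of_nonneg_right (by linarith) (by positivity)
        _ = L ^ 4 * (1 / 12) := by ring
        _ ≤ L ^ 36 * (1 / 12) := by
            apply mul_le_mul_of_nonneg_right _ (by norm_num)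
            exact pow_le_pow_right₀ (by linarith) (by norm_num)
        _ ≤ L ^ 36 * ‖H s‖ := mul_le_mul_of_nonneg_left h4 (by positivity)
    · -- away from the real axis
      have h84 : (L ^ 8)⁻¹ ≤ (L ^ 4)⁻¹ := by
        apply inv_anti₀ (by positivity)
        exact pow_le_pow_right₀ (by linarith) (by norm_num)
      obtain ⟨h3, h4⟩ := hreal L hLL1 q χ hE.qL hE.quad hE.ne s hs (by linarith)
      have h40 : 0 < (L ^ 4)⁻¹ := by positivity
      have himb : (L ^ 4)⁻¹ ≤ ‖s - β‖ := by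
        have := Complex.abs_im_le_norm (s - β)
        rw [sub_im, ofReal_im, sub_zero] at this
        exact him.trans this
      have hsb : s ≠ β := by
        intro h
        rw [h, sub_self, norm_zero] at himb
        linarith
      have hsb' : s - β ≠ 0 := sub_ne_zero.2 hsb
      have hHs : H s = χ.LFunction s / (s - β) := p12_dslope _ _ hE.zero s hsb
      have hne : H s ≠ 0 := by
        rw [hHs]
        exact div_ne_zero h3 hsb'
      refine ⟨hne, ?_⟩
      have hev : H =ᶠ[𝓝 s] fun z => χ.LFunction z / (z - β) := by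
        filter_upwards [isOpen_ne.mem_nhds hsb] with z hz
        exact p12_dslope _ _ hE.zero z hz
      have hdv : deriv H s = (deriv χ.LFunction s * (s - β) - χ.LFunction s * 1) / (s - β) ^ 2 := by
        rw [hev.deriv_eq]
        exact ((hd s).hasDerivAt.div ((hasDerivAt_id s).sub_const _) hsb').deriv
      have hq : deriv H s / H s = deriv χ.LFunction s / χ.LFunction s - 1 / (s - β) := by
        rw [hdv, hHs]
        field_simp
      rw [hq]
      refine (norm_sub_le _ _).trans ?_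
      have h5 : ‖1 / (s - (β : ℂ))‖ ≤ L ^ 4 := by
        rw [norm_div, norm_one, div_le_iff₀ (lt_of_lt_of_le h40 himb)]
        calc (1 : ℝ) = L ^ 4 * (L ^ 4)⁻¹ := by field_simp
          _ ≤ L ^ 4 * ‖s - β‖ := mul_le_mul_of_nonneg_left himb (by positivity)
      have h6 : L ^ 4 ≤ L ^ 35 := pow_le_pow_right₀ (by linarith) (by norm_num)
      calc ‖deriv χ.LFunction s / χ.LFunction s‖ + ‖1 / (s - (β : ℂ))‖
          ≤ L ^ 35 + L ^ 35 := by linarith
        _ = 2 * L ^ 35 := by ring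
        _ ≤ L * L ^ 35 := mul_le_mul_of_nonneg_right (by linarith) (by positivity)
        _ = L ^ 36 := by ring

end Pool.Agent.MP8a4e59.P
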