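import Pool.Agent.Lib.MP_8a4e59_co.P.Stm
import Pool.Agent.Lib.MP_89da58_nt.S.Page

set_option autoImplicit false

/-!
MP_8a4e59_co, piece [8a P13]: repulsion of exceptional zeros (helper99).
-/

open Complex Filter

namespace Pool.Agent.MP8a4e59.P

open Pool.Agent.MP89da58.S (four_product eq_of_product_eq_one norm_zeta_le log_three_le)

/-- powers of a large real number -/
private lemma p13_pow {L : ℝ} (hL : 2 ≤ L) : (L ^ 6)⁻¹ ≤ (4 * L)⁻¹ ∧ (L ^ 6)⁻¹ ≤ (L ^ 4)⁻¹ ∧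
    (L ^ 6)⁻¹ ≤ 1 ∧ 0 < (L ^ 6)⁻¹ := by
  have h0 : 0 < L := by linarith
  have h4 : (4 : ℝ) ≤ L ^ 5 := by
    calc (4 : ℝ) ≤ 2 ^ 5 := by norm_num
      _ ≤ L ^ 5 := pow_le_pow_left₀ (by norm_num) hL 5
  refine ⟨?_, ?_, ?_, by positivity⟩
  · apply inv_anti₀ (by positivity)
    calc 4 * L ≤ L ^ 5 * L := by gcongr
      _ = L ^ 6 := by ring
  · apply inv_anti₀ (by positivity)
    exact pow_le_pow_right₀ (by linarith) (by norm_num)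
  · apply inv_le_one_of_one_le₀
    exact one_le_pow₀ (by linarith)

private lemma p13_exp {L : ℝ} (hL : 2 ≤ L) : (4 : ℝ) ≤ Real.exp L := by
  have h1 : (2 : ℝ) ≤ Real.exp 1 := by
    have := Real.add_one_le_exp (1 : ℝ)
    linarith
  have h2 : Real.exp 1 * Real.exp 1 = Real.exp 2 := by rw [← Real.exp_add]; norm_num
  have h3 : Real.exp 2 ≤ Real.exp L := Real.exp_le_exp.2 hL
  nlinarith

/-- the value at `1 + L^(-6)` -/
private lemma p13_val {C : ℝ} (hC1 : 1 ≤ C)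
    (hC : ∀ (q : ℕ) [NeZero q] (χ : DirichletCharacter ℂ q) (L : ℝ) (s : ℂ),
      χ ≠ 1 → 2 ≤ L → 1 - (2 * L)⁻¹ ≤ s.re → s.re ≤ 2 → q * (|s.im| + 4) ≤ Real.exp L →
      ‖deriv χ.LFunction s‖ ≤ C * L ^ 2) {L : ℝ} (hL : 2 ≤ L) (q : ℕ) [NeZero q]
    (χ : DirichletCharacter ℂ q) (β : ℝ) (h : Exc L q χ β) :
    ‖χ.LFunction ((1 + (L ^ 6)⁻¹ : ℝ) : ℂ)‖ ≤ 8 * C * (L ^ 4)⁻¹ := by
  obtain ⟨a1, -, a3, a4⟩ := p13_pow hL
  have h0 : 0 < L := by linarith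
  have hseg : ∀ u ∈ segment ℝ (β : ℂ) ((1 + (L ^ 6)⁻¹ : ℝ) : ℂ),
      ‖deriv χ.LFunction u‖ ≤ C * (2 * L) ^ 2 := by
    intro u hu
    rw [segment_eq_image_lineMap] at hu
    obtain ⟨w, hw, rfl⟩ := hu
    have e : (AffineMap.lineMap (β : ℂ) ((1 + (L ^ 6)⁻¹ : ℝ) : ℂ)) w =
        (((1 - w) * β + w * (1 + (L ^ 6)⁻¹) : ℝ) : ℂ) := by
      simp only [AffineMap.lineMap_apply, vsub_eq_sub, vadd_eq_add, Complex.real_smul]
      push_cast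
      ring
    rw [e]
    have hlo := h.lo
    have hhi := h.hi
    have hw0 := hw.1
    have hw1 := hw.2
    have b1 : 1 - (4 * L)⁻¹ ≤ (1 - w) * β + w * (1 + (L ^ 6)⁻¹) := by nlinarith
    have b2 : (1 - w) * β + w * (1 + (L ^ 6)⁻¹) ≤ 2 := by nlinarith
    apply hC q χ (2 * L) _ h.ne (by linarith)
    · rw [Complex.ofReal_re]
      calc 1 - (2 * (2 * L))⁻¹ = 1 - (4 * L)⁻¹ := by ring_nf
        _ ≤ _ := b1
    · rw [Complex.ofReal_re]; exact b2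
    · rw [Complex.ofReal_im, abs_zero, zero_add, two_mul, Real.exp_add]
      have := h.qL
      have h4 := p13_exp hL
      gcongr
  have hd : ∀ u ∈ segment ℝ (β : ℂ) ((1 + (L ^ 6)⁻¹ : ℝ) : ℂ),
      DifferentiableAt ℂ χ.LFunction u := fun u _ =>
    (DirichletCharacter.differentiable_LFunction h.ne).differentiableAt
  have hmv := (convex_segment (β : ℂ) ((1 + (L ^ 6)⁻¹ : ℝ) : ℂ)).norm_image_sub_le_of_norm_deriv_le
    hd hseg (left_mem_segment ℝ _ _) (right_mem_segment ℝ _ _)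
  rw [h.zero, sub_zero, ← Complex.ofReal_sub, Complex.norm_real] at hmv
  have hlo := h.lo
  have hhi := h.hi
  have hlen : ‖(1 + (L ^ 6)⁻¹ - β : ℝ)‖ ≤ 2 * (L ^ 6)⁻¹ := by
    rw [Real.norm_eq_abs, abs_of_nonneg (by linarith)]
    linarith
  calc ‖χ.LFunction ((1 + (L ^ 6)⁻¹ : ℝ) : ℂ)‖ ≤ C * (2 * L) ^ 2 * ‖(1 + (L ^ 6)⁻¹ - β : ℝ)‖ := hmv
    _ ≤ C * (2 * L) ^ 2 * (2 * (L ^ 6)⁻¹) := by gcongr
    _ = 8 * C * (L ^ 4)⁻¹ := by field_simp; ring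

private lemma p13_zeta {L : ℝ} (hL : 2 ≤ L) :
    ‖LSeries 1 ((1 + (L ^ 6)⁻¹ : ℝ) : ℂ)‖ ≤ 14 * L ^ 6 := by
  obtain ⟨a1, -, a3, a4⟩ := p13_pow hL
  have h0 : 0 < L := by linarith
  refine (norm_zeta_le (s := ((1 + (L ^ 6)⁻¹ : ℝ) : ℂ))
    (by rw [Complex.ofReal_re]; linarith)).trans ?_
  have e1 : ‖((1 + (L ^ 6)⁻¹ : ℝ) : ℂ)‖ = 1 + (L ^ 6)⁻¹ := by
    rw [Complex.norm_real, Real.norm_of_nonneg (by linarith)]
  have e2 : ‖((1 + (L ^ 6)⁻¹ : ℝ) : ℂ) - 1‖ = (L ^ 6)⁻¹ := by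
    have : ((1 + (L ^ 6)⁻¹ : ℝ) : ℂ) - 1 = (((L ^ 6)⁻¹ : ℝ) : ℂ) := by push_cast; ring
    rw [this, Complex.norm_real, Real.norm_of_nonneg a4.le]
  rw [e1, e2]
  have h5 : Real.log (1 + (1 + (L ^ 6)⁻¹)) ≤ 2 :=
    (Real.log_le_log (by linarith) (by linarith)).trans log_three_le
  have h6 : 2 / (L ^ 6)⁻¹ = 2 * L ^ 6 := by rw [div_inv_eq_mul]
  have h7 : (1 : ℝ) ≤ L ^ 6 := one_le_pow₀ (by linarith)
  rw [h6]
  linarith

/-- [8a P13] Repulsion of exceptional zeros. -/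
theorem p_rep (hlup : S_lup) (hdup : S_dup) (hexc : S_exc) : S_rep := by
  obtain ⟨C₁, hC₁, hC1⟩ := hlup
  obtain ⟨C₂, hC₂, hC2, -⟩ := hdup
  obtain ⟨L₀, hL₀⟩ := hexc
  refine ⟨max L₀ (max 2 (2688 * C₂ ^ 2 * C₁ + 1)), ?_⟩
  intro L hL q₁ q₂ _ _ χ₁ χ₂ β₁ β₂ h₁ h₂
  have hLL : L₀ ≤ L := (le_max_left _ _).trans hL
  have hL2 : 2 ≤ L := ((le_max_left _ _).trans (le_max_right _ _)).trans hL
  have hLC : 2688 * C₂ ^ 2 * C₁ + 1 ≤ L := ((le_max_right _ _).trans (le_max_right _ _)).trans hL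
  have h0 : 0 < L := by linarith
  obtain ⟨a1, a2, a3, a4⟩ := p13_pow hL2
  have hsig : (⟨q₁, χ₁⟩ : Σ r, DirichletCharacter ℂ r) = ⟨q₂, χ₂⟩ := by
    by_contra hne
    have hq1 : q₁ ≠ 0 := NeZero.ne q₁
    have hq2 : q₂ ≠ 0 := NeZero.ne q₂
    have hprod : DirichletCharacter.changeLevel (dvd_mul_right q₁ q₂) χ₁ *
        DirichletCharacter.changeLevel (dvd_mul_left q₂ q₁) χ₂ ≠ 1 := by
      intro h
      exact hne (eq_of_product_eq_one hq1 hq2 χ₁ χ₂ h₁.prim h₂.prim h₂.quad h)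
    have h4 := four_product χ₁ χ₂ h₁.quad h₂.quad (x := 1 + (L ^ 6)⁻¹) (by linarith)
    set χ₃ : DirichletCharacter ℂ (q₁ * q₂) :=
      DirichletCharacter.changeLevel (dvd_mul_right q₁ q₂) χ₁ *
        DirichletCharacter.changeLevel (dvd_mul_left q₂ q₁) χ₂ with hχ₃
    have hx1 : 1 < ((1 + (L ^ 6)⁻¹ : ℝ) : ℂ).re := by rw [Complex.ofReal_re]; linarith
    have hne12 : NeZero (q₁ * q₂) := ⟨Nat.mul_ne_zero hq1 hq2⟩
    have hA := p13_zeta hL2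
    have hB := p13_val hC₂ hC2 hL2 q₁ χ₁ β₁ h₁
    have hC := p13_val hC₂ hC2 hL2 q₂ χ₂ β₂ h₂
    have hD : ‖χ₃.LFunction ((1 + (L ^ 6)⁻¹ : ℝ) : ℂ)‖ ≤ C₁ * (3 * L) := by
      apply hC1 (q₁ * q₂) χ₃ (3 * L) _ hprod (by linarith)
      · rw [Complex.ofReal_re]
        have : 0 < (3 * L)⁻¹ := by positivity
        linarith
      · rw [Complex.ofReal_re]; linarith
      · rw [Complex.ofReal_im, abs_zero, zero_add]
        have e3 : Real.exp (3 * L) = Real.exp L * Real.exp L * Real.exp L := by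
          rw [← Real.exp_add, ← Real.exp_add]; congr 1; ring
        rw [e3]
        push_cast
        have h3 : (3 : ℝ) ≤ Real.exp L := by linarith [p13_exp hL2]
        have b1 := h₁.qL
        have b2 := h₂.qL
        gcongr
    rw [DirichletCharacter.LFunction_eq_LSeries χ₁ hx1] at hB
    rw [DirichletCharacter.LFunction_eq_LSeries χ₂ hx1] at hC
    rw [DirichletCharacter.LFunction_eq_LSeries χ₃ hx1] at hD
    have hfin : ‖LSeries 1 ((1 + (L ^ 6)⁻¹ : ℝ) : ℂ)‖ *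
        ‖LSeries (fun n => χ₁ n) ((1 + (L ^ 6)⁻¹ : ℝ) : ℂ)‖ *
        ‖LSeries (fun n => χ₂ n) ((1 + (L ^ 6)⁻¹ : ℝ) : ℂ)‖ *
        ‖LSeries (fun n => χ₃ n) ((1 + (L ^ 6)⁻¹ : ℝ) : ℂ)‖ ≤ 2688 * C₂ ^ 2 * C₁ / L := by
      calc _ ≤ (14 * L ^ 6) * (8 * C₂ * (L ^ 4)⁻¹) * (8 * C₂ * (L ^ 4)⁻¹) * (C₁ * (3 * L)) := by
            gcongr
        _ = 2688 * C₂ ^ 2 * C₁ / L := by field_simp; ring
    have h10 : 2688 * C₂ ^ 2 * C₁ / L < 1 := by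
      rw [div_lt_one h0]
      linarith
    exact absurd (h4.trans hfin) (not_le.2 h10)
  refine ⟨hsig, ?_⟩
  cases hsig
  by_contra hβ
  have hβ' : (β₂ : ℂ) ≠ (β₁ : ℂ) := fun h => hβ (Complex.ofReal_injective h).symm
  refine (hL₀ L hLL q₁ χ₁ β₁ h₁).1 (β₂ : ℂ) ?_ ?_
  · have e : (β₂ : ℂ) - 1 = ((β₂ - 1 : ℝ) : ℂ) := by push_cast; ring
    rw [e, Complex.norm_real, Real.norm_eq_abs, abs_of_nonpos (by linarith [h₂.hi])]
    linarith [h₂.lo]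
  · rw [dslope_of_ne _ hβ', slope_def_field, h₁.zero, h₂.zero, sub_zero, zero_div]

end Pool.Agent.MP8a4e59.P
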