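/-
MP_8a4e59_co, part P, piece P14: the zeta function in the region `InR L` (helper54).
-/
import Mathlib
import Pool.Agent.Lib.MP_8a4e59_co.P.Stm

set_option autoImplicit false

open Complex MeasureTheory Filter Topology
open scoped Interval

namespace Pool.Agent.MP8a4e59.P

private lemma p14_zf_one : Zf 1 = 1 := by simp [Zf]

private lemma p14_zf_ne {s : ℂ} (hs : s ≠ 1) : Zf s = (s - 1) * riemannZeta s := by
  simp [Zf, hs]

private lemma p14_dslope (s : ℂ) : Zf s = 1 + (s - 1) * dslope Zf 1 s := by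
  have h := sub_smul_dslope Zf 1 s
  rw [smul_eq_mul, p14_zf_one] at h
  rw [h]; ring

private lemma p14_zeta {s : ℂ} (hs : s ≠ 1) :
    riemannZeta s = dslope Zf 1 s + 1 / (s - 1) := by
  have h1 := p14_dslope s
  rw [p14_zf_ne hs] at h1
  have h2 : s - 1 ≠ 0 := sub_ne_zero.mpr hs
  field_simp
  linear_combination h1

private lemma p14_diff (h : Differentiable ℂ Zf) : Differentiable ℂ (dslope Zf 1) := by
  have h1 := (Complex.differentiableOn_dslope (s := Set.univ) (c := (1 : ℂ)) (f := Zf)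
    Filter.univ_mem).mpr h.differentiableOn
  exact differentiableOn_univ.mp h1

private lemma p14_deriv_zf (h : Differentiable ℂ Zf) (s : ℂ) :
    deriv Zf s = dslope Zf 1 s + (s - 1) * deriv (dslope Zf 1) s := by
  have h1 : Zf = fun s => 1 + (s - 1) * dslope Zf 1 s := funext p14_dslope
  have hD := (p14_diff h s).hasDerivAt
  have h2 : HasDerivAt (fun s => 1 + (s - 1) * dslope Zf 1 s)
      (1 * dslope Zf 1 s + (s - 1) * deriv (dslope Zf 1) s) s :=
    ((((hasDerivAt_id s).sub_const 1).mul hD).const_add 1)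
  rw [one_mul] at h2
  conv_lhs => rw [h1]
  exact h2.deriv

private lemma p14_deriv_zeta (h : Differentiable ℂ Zf) {s : ℂ} (hs : s ≠ 1) :
    deriv riemannZeta s = deriv (dslope Zf 1) s - 1 / (s - 1) ^ 2 := by
  have hs0 : s - 1 ≠ 0 := sub_ne_zero.mpr hs
  have hD := (p14_diff h s).hasDerivAt
  have h2 : HasDerivAt (fun s => dslope Zf 1 s + (s - 1)⁻¹)
      (deriv (dslope Zf 1) s + -1 / (s - 1) ^ 2) s :=
    hD.add (((hasDerivAt_id s).sub_const 1).inv hs0)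
  have he : riemannZeta =ᶠ[𝓝 s] fun s => dslope Zf 1 s + (s - 1)⁻¹ := by
    filter_upwards [isOpen_ne.mem_nhds hs] with z hz
    rw [p14_zeta hz, one_div]
  rw [he.deriv_eq, h2.deriv]
  ring

/-- The bound away from the pole. -/
private lemma p14_far (h341 : S_341) (hd : Differentiable ℂ Zf) {C L : ℝ} (hC : 1 ≤ C)
    (hL2 : 2 ≤ L) (hK : 864 * 10 ^ 10 * C ^ 10 ≤ L)
    (hz : ∀ (L : ℝ) (s : ℂ), 2 ≤ L → 1 - L⁻¹ ≤ s.re → s.re ≤ 3 → |s.im| ≤ Real.exp L →
      ‖dslope Zf 1 s‖ ≤ C * L)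
    (hz' : ∀ (L : ℝ) (s : ℂ), 2 ≤ L → 1 - (2 * L)⁻¹ ≤ s.re → s.re ≤ 2 →
      |s.im| + 1 ≤ Real.exp L → ‖deriv (dslope Zf 1) s‖ ≤ C * L ^ 2)
    {s : ℂ} (hs : InR L s) (ht : 1 / (8 * C) ≤ |s.im|) :
    Zf s ≠ 0 ∧ ‖deriv Zf s / Zf s‖ ≤ L ^ 36 := by
  set t : ℝ := s.im with ht_def
  have hC0 : 0 < C := by linarith
  have hL0 : 0 < L := by linarith
  have hL1 : 1 ≤ L := by linarith
  set M : ℝ := 100 * C ^ 2 * L ^ 2 with hM
  have hC2 : 1 ≤ C ^ 2 := one_le_pow₀ hC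
  have hL2' : 1 ≤ L ^ 2 := one_le_pow₀ hL1
  have hCL : 1 ≤ C ^ 2 * L ^ 2 := one_le_mul_of_one_le_of_one_le hC2 hL2'
  have hM1 : 1 ≤ M := by rw [hM]; nlinarith
  have hM0 : 0 < M := by linarith
  have hML : L ≤ M := by
    rw [hM]; nlinarith
  have htp : 0 < |t| := lt_of_lt_of_le (by positivity) ht
  have ht0 : t ≠ 0 := abs_pos.mp htp
  have htinv : |t|⁻¹ ≤ 8 * C := by
    rw [inv_le_comm₀ htp (by positivity)]
    rwa [one_div] at ht
  obtain ⟨hsre, hsim⟩ := hs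
  -- exponentials
  have hexpL : 1 + L ≤ Real.exp L := by linarith [Real.add_one_le_exp L]
  have hexp2 : Real.exp (2 * L) = Real.exp L * Real.exp L := by
    rw [← Real.exp_add]; ring_nf
  have hexp2' : 2 * Real.exp L ≤ Real.exp (2 * L) := by
    rw [hexp2]; nlinarith
  -- powers
  have hM5 : 864 * M ^ 5 = 864 * 10 ^ 10 * C ^ 10 * L ^ 10 := by rw [hM]; ring
  have hM5le : 864 * M ^ 5 ≤ L ^ 11 := by
    rw [hM5]
    calc 864 * 10 ^ 10 * C ^ 10 * L ^ 10 ≤ L * L ^ 10 := by gcongr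
      _ = L ^ 11 := by ring
  have hM5pos : 0 < M ^ 5 := by positivity
  have hMM5 : M ≤ M ^ 5 := le_self_pow₀ hM1 (by norm_num)
  set δ : ℝ := 1 / (432 * M ^ 5) with hδ
  have hδ0 : 0 < δ := by positivity
  have hδ2 : δ / 2 = (864 * M ^ 5)⁻¹ := by rw [hδ]; field_simp; norm_num
  have hδ41 : (L ^ 41)⁻¹ ≤ δ / 2 := by
    rw [hδ2]
    apply inv_anti₀ (by positivity)
    calc 864 * M ^ 5 ≤ L ^ 11 := hM5le
      _ ≤ L ^ 41 := pow_le_pow_right₀ hL1 (by norm_num)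
  have hδL : δ / 2 ≤ (4 * L)⁻¹ := by
    rw [hδ2]
    apply inv_anti₀ (by positivity)
    linarith
  have hδ1 : δ ≤ 1 := by
    have : δ / 2 ≤ 1 / 2 := by
      refine hδL.trans ?_
      rw [inv_eq_one_div]
      apply one_div_le_one_div_of_le (by norm_num)
      linarith
    linarith
  -- the norm of `s - 1` is at least `|t|`
  have hnorm : ∀ (σ t' : ℝ), t' ≠ 0 → ((σ : ℂ) + t' * I) ≠ 1 ∧ |t'| ≤ ‖((σ : ℂ) + t' * I) - 1‖ := by
    intro σ t' ht'
    have him : (((σ : ℂ) + t' * I) - 1).im = t' := by simp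
    constructor
    · intro h
      rw [h] at him
      simp at him
      exact ht' him.symm
    · calc |t'| = |(((σ : ℂ) + t' * I) - 1).im| := by rw [him]
        _ ≤ _ := Complex.abs_im_le_norm _
  -- bound of the derivative
  have hder : ∀ σ : ℝ, 1 - δ / 2 ≤ σ → σ ≤ 1 + δ →
      ‖deriv riemannZeta ((σ : ℂ) + t * I)‖ ≤ M := by
    intro σ h1 h2
    obtain ⟨hne, hge⟩ := hnorm σ t ht0
    rw [p14_deriv_zeta hd hne]
    have hre : ((σ : ℂ) + t * I).re = σ := by simp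
    have him : ((σ : ℂ) + t * I).im = t := by simp
    have hb1 : ‖deriv (dslope Zf 1) ((σ : ℂ) + t * I)‖ ≤ C * (2 * L) ^ 2 := by
      apply hz' (2 * L) _ (by linarith)
      · rw [hre]
        have : (2 * (2 * L))⁻¹ = (4 * L)⁻¹ := by ring_nf
        rw [this]; linarith
      · rw [hre]; linarith
      · rw [him]
        nlinarith
    have hb2 : ‖1 / (((σ : ℂ) + t * I) - 1) ^ 2‖ ≤ (8 * C) ^ 2 := by
      rw [norm_div, norm_one, norm_pow, one_div, ← inv_pow]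
      apply pow_le_pow_left₀ (by positivity)
      exact (inv_anti₀ htp hge).trans htinv
    calc ‖deriv (dslope Zf 1) ((σ : ℂ) + t * I) - 1 / (((σ : ℂ) + t * I) - 1) ^ 2‖
        ≤ C * (2 * L) ^ 2 + (8 * C) ^ 2 := (norm_sub_le _ _).trans (add_le_add hb1 hb2)
      _ ≤ M := by
        rw [hM]
        have e1 : C * (2 * L) ^ 2 ≤ 4 * (C ^ 2 * L ^ 2) := by
          have : C ≤ C ^ 2 := le_self_pow₀ hC (by norm_num)
          nlinarith
        have e2 : (8 * C) ^ 2 ≤ 64 * (C ^ 2 * L ^ 2) := by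
          nlinarith
        nlinarith
  -- value at `1 + δ + 2it`
  have hval : ‖riemannZeta (1 + (δ : ℂ) + 2 * t * I)‖ ≤ M := by
    have hw : (1 + (δ : ℂ) + 2 * t * I) = (((1 + δ : ℝ) : ℂ) + ((2 * t : ℝ) : ℂ) * I) := by
      push_cast; ring
    rw [hw]
    obtain ⟨hne, hge⟩ := hnorm (1 + δ) (2 * t) (by simpa using ht0)
    rw [p14_zeta hne]
    have hre : (((1 + δ : ℝ) : ℂ) + ((2 * t : ℝ) : ℂ) * I).re = 1 + δ := by simp
    have him : (((1 + δ : ℝ) : ℂ) + ((2 * t : ℝ) : ℂ) * I).im = 2 * t := by simp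
    have hb1 : ‖dslope Zf 1 (((1 + δ : ℝ) : ℂ) + ((2 * t : ℝ) : ℂ) * I)‖ ≤ C * (2 * L) := by
      apply hz (2 * L) _ (by linarith)
      · rw [hre]
        have : 0 ≤ (2 * L)⁻¹ := by positivity
        linarith
      · rw [hre]; linarith
      · rw [him, abs_mul, abs_two]
        linarith
    have h2t : |t| ≤ |2 * t| := by
      rw [abs_mul, abs_two]; linarith
    have hb2 : ‖1 / ((((1 + δ : ℝ) : ℂ) + ((2 * t : ℝ) : ℂ) * I) - 1)‖ ≤ 8 * C := by
      rw [norm_div, norm_one, one_div]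
      exact (inv_anti₀ htp (h2t.trans hge)).trans htinv
    calc _ ≤ C * (2 * L) + 8 * C := (norm_add_le _ _).trans (add_le_add hb1 hb2)
      _ ≤ M := by
        rw [hM]
        have e1 : C * L ≤ C ^ 2 * L ^ 2 := by
          have h1 : C ≤ C ^ 2 := le_self_pow₀ hC (by norm_num)
          have h2 : L ≤ L ^ 2 := le_self_pow₀ hL1 (by norm_num)
          exact mul_le_mul h1 h2 hL0.le (by positivity)
        have e2 : C ≤ C * L := by nlinarith
        nlinarith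
  have hsre' := abs_le.mp hsre
  have hlow : 1 / (864 * M ^ 4) ≤ ‖riemannZeta ((s.re : ℂ) + t * I)‖ := by
    have h := h341 1 (1 : DirichletCharacter ℂ 1) M t δ hM1 (Or.inr ht0) hδ
    simp only [DirichletCharacter.LFunction_modOne_eq] at h
    exact h hder hval s.re (by linarith) (by linarith)
  have hseq : ((s.re : ℂ) + t * I) = s := by rw [ht_def]; exact Complex.re_add_im s
  have hder_s : ‖deriv riemannZeta s‖ ≤ M := by
    have h := hder s.re (by linarith) (by linarith)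
    rwa [hseq] at h
  obtain ⟨hne, hge⟩ := hnorm s.re t ht0
  rw [hseq] at hlow hne hge
  have hs1 : s - 1 ≠ 0 := sub_ne_zero.mpr hne
  have hζpos : 0 < ‖riemannZeta s‖ := lt_of_lt_of_le (by positivity) hlow
  have hζ : riemannZeta s ≠ 0 := norm_pos_iff.mp hζpos
  have hZ : Zf s ≠ 0 := by
    rw [p14_zf_ne hne]
    exact mul_ne_zero hs1 hζ
  refine ⟨hZ, ?_⟩
  have hlog : deriv Zf s / Zf s = deriv riemannZeta s / riemannZeta s + 1 / (s - 1) := by
    have hdz : HasDerivAt riemannZeta (deriv riemannZeta s) s :=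
      (differentiableAt_riemannZeta hne).hasDerivAt
    have h1 : HasDerivAt (fun s => (s - 1) * riemannZeta s)
        (1 * riemannZeta s + (s - 1) * deriv riemannZeta s) s :=
      ((hasDerivAt_id s).sub_const 1).mul hdz
    have he : Zf =ᶠ[𝓝 s] fun s => (s - 1) * riemannZeta s := by
      filter_upwards [isOpen_ne.mem_nhds hne] with z hz
      exact p14_zf_ne hz
    rw [he.deriv_eq, h1.deriv, p14_zf_ne hne]
    field_simp
    ring
  rw [hlog]
  have hb1 : ‖deriv riemannZeta s / riemannZeta s‖ ≤ 864 * M ^ 5 := by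
    rw [norm_div, div_le_iff₀ hζpos]
    calc ‖deriv riemannZeta s‖ ≤ M := hder_s
      _ = 864 * M ^ 5 * (1 / (864 * M ^ 4)) := by field_simp
      _ ≤ 864 * M ^ 5 * ‖riemannZeta s‖ := by gcongr
  have hb2 : ‖1 / (s - 1)‖ ≤ 8 * C := by
    rw [norm_div, norm_one, one_div]
    exact (inv_anti₀ htp hge).trans htinv
  have hCle : 8 * C ≤ L := by
    have : C ≤ C ^ 10 := le_self_pow₀ hC (by norm_num)
    nlinarith
  calc ‖deriv riemannZeta s / riemannZeta s + 1 / (s - 1)‖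
      ≤ 864 * M ^ 5 + 8 * C := (norm_add_le _ _).trans (add_le_add hb1 hb2)
    _ ≤ L ^ 11 + L ^ 11 := by
      have : L ≤ L ^ 11 := le_self_pow₀ hL1 (by norm_num)
      linarith
    _ = 2 * L ^ 11 := by ring
    _ ≤ L * L ^ 11 := by gcongr
    _ = L ^ 12 := by ring
    _ ≤ L ^ 36 := pow_le_pow_right₀ hL1 (by norm_num)

/-- The bound near the pole. -/
private lemma p14_near (hd : Differentiable ℂ Zf) {C : ℝ} (hC : 1 ≤ C)
    (hz : ∀ (L : ℝ) (s : ℂ), 2 ≤ L → 1 - L⁻¹ ≤ s.re → s.re ≤ 3 → |s.im| ≤ Real.exp L →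
      ‖dslope Zf 1 s‖ ≤ C * L)
    (hz' : ∀ (L : ℝ) (s : ℂ), 2 ≤ L → 1 - (2 * L)⁻¹ ≤ s.re → s.re ≤ 2 →
      |s.im| + 1 ≤ Real.exp L → ‖deriv (dslope Zf 1) s‖ ≤ C * L ^ 2)
    {s : ℂ} (hs : ‖s - 1‖ ≤ 1 / (4 * C)) :
    Zf s ≠ 0 ∧ ‖deriv Zf s / Zf s‖ ≤ 8 * C := by
  have hC0 : 0 < C := by linarith
  have hs' : ‖s - 1‖ ≤ 1 / 4 := by
    refine hs.trans ?_
    apply one_div_le_one_div_of_le (by norm_num)
    linarith
  have hre := (Complex.abs_re_le_norm (s - 1)).trans hs'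
  have him := (Complex.abs_im_le_norm (s - 1)).trans hs'
  simp only [sub_re, one_re, sub_im, one_im, sub_zero] at hre him
  have hre' := abs_le.mp hre
  have hexp : 3 ≤ Real.exp 2 := by linarith [Real.add_one_le_exp (2 : ℝ)]
  have h1 : ‖dslope Zf 1 s‖ ≤ C * 2 := by
    apply hz 2 s le_rfl
    · linarith
    · linarith
    · linarith
  have h2 : ‖deriv (dslope Zf 1) s‖ ≤ C * 2 ^ 2 := by
    apply hz' 2 s le_rfl
    · norm_num; linarith
    · linarith
    · linarith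
  have hZ : 1 / 2 ≤ ‖Zf s‖ := by
    have h3 : ‖(s - 1) * dslope Zf 1 s‖ ≤ 1 / 2 := by
      rw [norm_mul]
      calc ‖s - 1‖ * ‖dslope Zf 1 s‖ ≤ 1 / (4 * C) * (C * 2) := by gcongr
        _ = 1 / 2 := by field_simp; norm_num
    have h4 : (1 : ℂ) = Zf s - (s - 1) * dslope Zf 1 s := by rw [p14_dslope s]; ring
    have h5 : ‖(1 : ℂ)‖ ≤ ‖Zf s‖ + ‖(s - 1) * dslope Zf 1 s‖ := by
      conv_lhs => rw [h4]
      exact norm_sub_le _ _
    rw [norm_one] at h5
    linarith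
  have hZpos : 0 < ‖Zf s‖ := by linarith
  refine ⟨norm_pos_iff.mp hZpos, ?_⟩
  rw [norm_div, div_le_iff₀ hZpos, p14_deriv_zf hd s]
  calc ‖dslope Zf 1 s + (s - 1) * deriv (dslope Zf 1) s‖
      ≤ ‖dslope Zf 1 s‖ + ‖s - 1‖ * ‖deriv (dslope Zf 1) s‖ := by
        rw [← norm_mul]; exact norm_add_le _ _
    _ ≤ C * 2 + 1 / 4 * (C * 2 ^ 2) := by gcongr
    _ = 3 * C := by ring
    _ ≤ 8 * C * (1 / 2) := by linarith
    _ ≤ 8 * C * ‖Zf s‖ := by gcongr

theorem p_zeta (hzup : S_zup) (hdup : S_dup) (h341 : S_341) : S_zeta := by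
  obtain ⟨hd, C1, hC1, hz1⟩ := hzup
  obtain ⟨C2, hC2, -, hz2⟩ := hdup
  set C : ℝ := max C1 C2 with hCdef
  have hCC1 : C1 ≤ C := le_max_left _ _
  have hCC2 : C2 ≤ C := le_max_right _ _
  have hC : 1 ≤ C := hC1.trans hCC1
  have hC0 : 0 < C := by linarith
  have hz : ∀ (L : ℝ) (s : ℂ), 2 ≤ L → 1 - L⁻¹ ≤ s.re → s.re ≤ 3 → |s.im| ≤ Real.exp L →
      ‖dslope Zf 1 s‖ ≤ C * L := by
    intro L s h1 h2 h3 h4
    refine (hz1 L s h1 h2 h3 h4).trans ?_
    have : 0 ≤ L := by linarith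
    gcongr
  have hz' : ∀ (L : ℝ) (s : ℂ), 2 ≤ L → 1 - (2 * L)⁻¹ ≤ s.re → s.re ≤ 2 →
      |s.im| + 1 ≤ Real.exp L → ‖deriv (dslope Zf 1) s‖ ≤ C * L ^ 2 := by
    intro L s h1 h2 h3 h4
    refine (hz2 L s h1 h2 h3 h4).trans ?_
    gcongr
  refine ⟨864 * 10 ^ 10 * C ^ 10, ?_⟩
  intro L hL s hs
  have hC10 : C ≤ C ^ 10 := le_self_pow₀ hC (by norm_num)
  have hL8 : 8 * C ≤ L := by nlinarith
  have hL2 : 2 ≤ L := by linarith
  have hL1 : 1 ≤ L := by linarith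
  have hL0 : 0 < L := by linarith
  have h41 : (L ^ 41)⁻¹ ≤ L⁻¹ := by
    apply inv_anti₀ hL0
    exact le_self_pow₀ hL1 (by norm_num)
  have hinvL : L⁻¹ ≤ 1 / (8 * C) := by
    rw [inv_eq_one_div]
    exact one_div_le_one_div_of_le (by positivity) hL8
  have hinvC : 1 / (8 * C) ≤ 1 := by
    rw [div_le_one (by positivity)]; linarith
  have hre := abs_le.mp hs.1
  have h3 : ‖dslope Zf 1 s‖ ≤ L ^ 2 := by
    have h := hz L s hL2 (by linarith) (by linarith) hs.2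
    calc _ ≤ C * L := h
      _ ≤ L * L := by gcongr; linarith
      _ = L ^ 2 := by ring
  rcases le_total ‖s - 1‖ (1 / (4 * C)) with hcase | hcase
  · obtain ⟨h1, h2⟩ := p14_near hd hC hz hz' hcase
    refine ⟨h1, ?_, h3⟩
    calc _ ≤ 8 * C := h2
      _ ≤ L := hL8
      _ ≤ L ^ 36 := le_self_pow₀ hL1 (by norm_num)
  · have him : 1 / (8 * C) ≤ |s.im| := by
      have h4 : ‖s - 1‖ ≤ |s.re - 1| + |s.im| := by
        have := Complex.norm_le_abs_re_add_abs_im (s - 1)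
        simpa using this
      have h5 : 1 / (4 * C) = 1 / (8 * C) + 1 / (8 * C) := by field_simp; norm_num
      have h6 : |s.re - 1| ≤ 1 / (8 * C) := hs.1.trans (h41.trans hinvL)
      linarith
    obtain ⟨h1, h2⟩ := p14_far h341 hd hC hL2 hL hz hz' hs him
    exact ⟨h1, h2, h3⟩

end Pool.Agent.MP8a4e59.P
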