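import Mathlib
import Pool.Agent.Lib.MP_8a4e59_co.P.Stm
import Pool.Agent.Lib.MP_0da313_nt.BV.Siegel2

/-! MP_8a4e59_co, part P, P15: Siegel's bound for the exceptional zero. -/

set_option autoImplicit false

namespace Pool.Agent.MP8a4e59.P

open Complex

private lemma p15_mvt {f : ℂ → ℂ} (hf : Differentiable ℂ f) {β D : ℝ} (hβ : β ≤ 1)
    (hb : ∀ z : ℂ, β ≤ z.re → z.re ≤ 1 → z.im = 0 → ‖deriv f z‖ ≤ D) :
    ‖f 1 - f (β : ℂ)‖ ≤ D * (1 - β) := by
  have h := Convex.norm_image_sub_le_of_norm_deriv_le (𝕜 := ℂ) (f := f) (C := D)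
    (s := segment ℝ (β : ℂ) 1) (x := (β : ℂ)) (y := 1) (fun x _ => hf x) ?_
    (convex_segment _ _) (left_mem_segment _ _ _) (right_mem_segment _ _ _)
  · have e : ‖(1 : ℂ) - (β : ℂ)‖ = 1 - β := by
      rw [← Complex.ofReal_one, ← Complex.ofReal_sub, Complex.norm_real, Real.norm_eq_abs,
        abs_of_nonneg (by linarith)]
    rwa [e] at h
  · rintro z ⟨a, b, ha, hb', hab, rfl⟩
    apply hb
    · simp
      nlinarith
    · simp
      nlinarith
    · simp

/-- [8a P15] -/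
theorem p_siegelE (hdup : S_dup) : S_siegel := by
  intro ε hε
  obtain ⟨C, hC1, hC, -⟩ := hdup
  obtain ⟨c, hc, hS⟩ := Pool.Agent.BVall.siegel (ε / 2) (by positivity)
  refine ⟨max 2 (192 * C / (c * ε ^ 3)), fun L hL q _ χ β hE => ?_⟩
  have hL2 : 2 ≤ L := le_trans (le_max_left _ _) hL
  have hL3 : 192 * C / (c * ε ^ 3) ≤ L := le_trans (le_max_right _ _) hL
  have hL0 : 0 < L := by linarith
  have hq1 : (1 : ℝ) ≤ q := by exact_mod_cast (NeZero.one_le : 1 ≤ q)
  -- derivative bound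
  have hexp4 : 4 ≤ Real.exp L := by
    have h1 : (2 : ℝ) + 1 ≤ Real.exp 2 := Real.add_one_le_exp 2
    have h2 := Real.quadratic_le_exp_of_nonneg (x := L) (by linarith)
    nlinarith
  have hLpow : (L ^ 6)⁻¹ ≤ (2 * (2 * L))⁻¹ := by
    apply inv_anti₀ (by positivity)
    have h2 : (2 : ℝ) ^ 5 ≤ L ^ 5 := pow_le_pow_left₀ (by norm_num) hL2 5
    have h3 : L ^ 6 = L ^ 5 * L := by ring
    nlinarith
  have hdiff : Differentiable ℂ χ.LFunction := DirichletCharacter.differentiable_LFunction hE.ne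
  have hmv : ‖χ.LFunction 1 - χ.LFunction (β : ℂ)‖ ≤ (C * (2 * L) ^ 2) * (1 - β) := by
    apply p15_mvt hdiff hE.hi.le
    intro z h1 h2 h3
    apply hC q χ (2 * L) z hE.ne (by linarith)
    · have := hE.lo
      linarith
    · linarith
    · rw [h3, abs_zero, zero_add]
      calc (q : ℝ) * 4 ≤ Real.exp L * Real.exp L :=
            mul_le_mul hE.qL hexp4 (by norm_num) (Real.exp_pos _).le
        _ = Real.exp (2 * L) := by rw [← Real.exp_add]; ring_nf
  rw [hE.zero, sub_zero] at hmv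
  have h5 := hS q χ hE.prim hE.ne hE.quad
  have h6 : (χ.LFunction 1).re ≤ ‖χ.LFunction 1‖ := Complex.re_le_norm _
  have h7 : Real.exp (-(ε / 2 * L)) ≤ (q : ℝ) ^ (-(ε / 2)) := by
    rw [Real.rpow_def_of_pos (by linarith)]
    apply Real.exp_le_exp.mpr
    have h8 : Real.log q ≤ L := by
      have := Real.log_le_log (by linarith) hE.qL
      rwa [Real.log_exp] at this
    nlinarith
  have h9 : c * Real.exp (-(ε / 2 * L)) ≤ (C * (2 * L) ^ 2) * (1 - β) :=
    calc c * Real.exp (-(ε / 2 * L)) ≤ c * (q : ℝ) ^ (-(ε / 2)) :=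
          mul_le_mul_of_nonneg_left h7 hc.le
      _ ≤ _ := h5.trans (h6.trans hmv)
  -- the exponential beats the polynomial
  have h10 : C * (2 * L) ^ 2 ≤ c * Real.exp (ε / 2 * L) := by
    have h11 := Real.pow_div_factorial_le_exp (ε / 2 * L) (by positivity) 3
    have h12 : 192 * C ≤ L * (c * ε ^ 3) := by
      rwa [div_le_iff₀ (by positivity)] at hL3
    have h13 : (ε / 2 * L) ^ 3 / (Nat.factorial 3 : ℕ) = ε ^ 3 * L ^ 3 / 48 := by
      norm_num [Nat.factorial]; ring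
    rw [h13] at h11
    calc C * (2 * L) ^ 2 = (192 * C) * L ^ 2 / 48 := by ring
      _ ≤ (L * (c * ε ^ 3)) * L ^ 2 / 48 := by
          apply div_le_div_of_nonneg_right _ (by norm_num)
          exact mul_le_mul_of_nonneg_right h12 (by positivity)
      _ = c * (ε ^ 3 * L ^ 3 / 48) := by ring
      _ ≤ _ := mul_le_mul_of_nonneg_left h11 hc.le
  set E := Real.exp (ε / 2 * L) with hEd
  have hE0 : 0 < E := Real.exp_pos _
  have e1 : Real.exp (-(ε / 2 * L)) = E⁻¹ := Real.exp_neg _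
  have e2 : Real.exp (-(ε * L)) = E⁻¹ * E⁻¹ := by
    rw [← e1, ← Real.exp_add]; ring_nf
  rw [e1] at h9
  rw [e2]
  have hβ0 : 0 < 1 - β := by linarith [hE.hi]
  have h14 : c * E⁻¹ ≤ c * E * (1 - β) := h9.trans (mul_le_mul_of_nonneg_right h10 hβ0.le)
  have h15 : E⁻¹ ≤ E * (1 - β) := by
    have : c * E⁻¹ ≤ c * (E * (1 - β)) := by rw [← mul_assoc]; exact h14
    exact le_of_mul_le_mul_left this hc
  calc E⁻¹ * E⁻¹ ≤ E⁻¹ * (E * (1 - β)) := mul_le_mul_of_nonneg_left h15 (inv_nonneg.mpr hE0.le)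
    _ = 1 - β := by rw [← mul_assoc, inv_mul_cancel₀ hE0.ne', one_mul]

end Pool.Agent.MP8a4e59.P
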