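import Pool.Agent.Lib.MP_8a4e59_co.P.Stm

/-! [8a P16] Prime sums twisted by a non-exceptional character. -/

set_option autoImplicit false

open Complex MeasureTheory Filter Topology
open ArithmeticFunction (vonMangoldt)

namespace Pool.Agent.MP8a4e59.P

private lemma p16_zeta_le {x : ℝ} (hx : 1 < x) :
    ∑' n : ℕ, 1 / ((n : ℝ) + 1) ^ x ≤ 1 + 1 / (x - 1) := by
  have h := ZetaAsymptotics.zeta_limit_aux1 hx
  have h2 : 0 ≤ ZetaAsymptotics.termTSum x :=
    tsum_nonneg (fun n => ZetaAsymptotics.term_nonneg _ _)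
  nlinarith

private lemma p16_norm_le {f : ℕ → ℂ} (hf : ∀ n, ‖f n‖ ≤ vonMangoldt n) {c : ℝ} (hc : 1 < c)
    (t : ℝ) : ‖LSeries f (c + t * I)‖ ≤ (2 / (c - 1)) * (1 + 2 / (c - 1)) := by
  have hd : 0 < c - 1 := by linarith
  set x : ℝ := 1 + (c - 1) / 2 with hx
  have hx1 : 1 < x := by rw [hx]; linarith
  have hs : Summable (fun n : ℕ => 1 / (n : ℝ) ^ x) := Real.summable_one_div_nat_rpow.2 hx1
  have hz : ∑' n : ℕ, 1 / (n : ℝ) ^ x ≤ 1 + 2 / (c - 1) := by
    rw [hs.tsum_eq_zero_add]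
    have h0 : (1 : ℝ) / ((0 : ℕ) : ℝ) ^ x = 0 := by
      rw [Nat.cast_zero, Real.zero_rpow (by linarith), div_zero]
    rw [h0, zero_add]
    have h1 := p16_zeta_le hx1
    have h2 : 1 / (x - 1) = 2 / (c - 1) := by
      rw [hx]
      have : 1 + (c - 1) / 2 - 1 = (c - 1) / 2 := by ring
      rw [this, one_div, inv_div]
    rw [h2] at h1
    refine le_trans (le_of_eq (tsum_congr fun n => ?_)) h1
    rw [Nat.cast_add, Nat.cast_one]
  have hb : ∀ n : ℕ, ‖LSeries.term f (c + t * I) n‖ ≤ (2 / (c - 1)) * (1 / (n : ℝ) ^ x) := by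
    intro n
    rw [LSeries.norm_term_eq]
    split_ifs with hn
    · positivity
    · have hn1 : (1 : ℝ) ≤ n := by exact_mod_cast Nat.one_le_iff_ne_zero.2 hn
      have hn0 : (0 : ℝ) < n := by linarith
      have hre : ((c : ℂ) + t * I).re = c := by simp
      rw [hre]
      have h1 : ‖f n‖ ≤ (2 / (c - 1)) * (n : ℝ) ^ ((c - 1) / 2) := by
        refine (hf n).trans (ArithmeticFunction.vonMangoldt_le_log.trans ?_)
        refine (Real.log_le_rpow_div hn0.le (show 0 < (c - 1) / 2 by linarith)).trans (le_of_eq ?_)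
        field_simp
      have h2 : (n : ℝ) ^ c = (n : ℝ) ^ ((c - 1) / 2) * (n : ℝ) ^ x := by
        rw [← Real.rpow_add hn0]
        congr 1
        rw [hx]; ring
      have h3 : 0 < (n : ℝ) ^ ((c - 1) / 2) := Real.rpow_pos_of_pos hn0 _
      have h4 : 0 < (n : ℝ) ^ x := Real.rpow_pos_of_pos hn0 _
      rw [div_le_iff₀ (by rw [h2]; positivity)]
      refine h1.trans (le_of_eq ?_)
      rw [h2]
      field_simp
  have hsum : HasSum (fun n : ℕ => (2 / (c - 1)) * (1 / (n : ℝ) ^ x))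
      ((2 / (c - 1)) * ∑' n : ℕ, 1 / (n : ℝ) ^ x) := hs.hasSum.mul_left _
  rw [LSeries]
  refine (tsum_of_norm_bounded hsum hb).trans ?_
  exact mul_le_mul_of_nonneg_left hz (by positivity)

private lemma p16_ev : ∀ᶠ L : ℝ in atTop, 180 * L ^ 36 ≤ Real.exp (L / 2) := by
  have h := (Real.tendsto_pow_mul_exp_neg_atTop_nhds_zero 36).comp
    (tendsto_id.atTop_div_const (show (0 : ℝ) < 2 by norm_num))
  have h2 := h.eventually (gt_mem_nhds (show (0 : ℝ) < 1 / (180 * 2 ^ 36) by norm_num))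
  filter_upwards [h2] with L hL
  simp only [Function.comp_apply, id_eq] at hL
  rw [Real.exp_neg, lt_div_iff₀ (by positivity)] at hL
  have he : 0 < Real.exp (L / 2) := Real.exp_pos _
  have h3 : (L / 2) ^ 36 * (Real.exp (L / 2))⁻¹ * (180 * 2 ^ 36) =
      180 * L ^ 36 / Real.exp (L / 2) := by
    rw [div_pow]; field_simp
  rw [h3, div_lt_one he] at hL
  exact hL.le

theorem p_psichi (h1 : S_shift) (h2 : S_cplx) (h3 : S_real) : S_psichi := by
  obtain ⟨L1, hL1⟩ := h2
  obtain ⟨L2, hL2⟩ := h3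
  have e2 : ∀ᶠ L : ℝ in atTop, 1080 ≤ Real.exp (L / 8) :=
    (Real.tendsto_exp_atTop.comp (tendsto_id.atTop_div_const
      (show (0 : ℝ) < 8 by norm_num))).eventually_ge_atTop 1080
  obtain ⟨L0, hL0⟩ := eventually_atTop.1 ((p16_ev.and e2).and ((eventually_ge_atTop L1).and
    ((eventually_ge_atTop L2).and (eventually_ge_atTop 2))))
  refine ⟨L0, fun L hL q _ χ hq hprim hne hexc lam X hR => ?_⟩
  obtain ⟨⟨a1, a2⟩, a3, a4, a5⟩ := hL0 L hL
  obtain ⟨hX, r1, r2, r3, r4⟩ := hR
  have hL0' : (0 : ℝ) < L := by linarith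
  have hlog : 0 < Real.log X := lt_of_lt_of_le (by positivity) r1
  have hX1 : 1 ≤ X := by
    by_contra h
    push Not at h
    have := Real.log_nonpos hX.le h.le
    linarith
  have key : ∀ s : ℂ, InR L s →
      χ.LFunction s ≠ 0 ∧ ‖deriv χ.LFunction s / χ.LFunction s‖ ≤ L ^ 36 := by
    intro s hs
    by_cases hsq : χ ^ 2 = 1
    · exact hL2 L a4 q χ hq hprim hsq hne hexc s hs
    · exact hL1 L a3 q χ hq hsq s hs
  set c : ℝ := 1 + 1 / Real.log X with hc
  set σ : ℝ := 1 - (L ^ 41)⁻¹ with hσ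
  have hp41 : (1 : ℝ) ≤ L ^ 41 := one_le_pow₀ (by linarith)
  have hinv : (L ^ 41)⁻¹ ≤ 1 / 2 := by
    rw [one_div]
    apply inv_anti₀ (by norm_num)
    calc (2 : ℝ) ≤ L := a5
      _ = L ^ 1 := (pow_one L).symm
      _ ≤ L ^ 41 := pow_le_pow_right₀ (by linarith) (by norm_num)
  have hinv0 : 0 < (L ^ 41)⁻¹ := by positivity
  have h43 : L ^ 41 ≤ Real.log X := (pow_le_pow_right₀ (by linarith) (by norm_num)).trans r1
  have hcd : 1 / Real.log X ≤ (L ^ 41)⁻¹ := by
    rw [one_div]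
    exact inv_anti₀ (by positivity) h43
  have hcd0 : 0 < 1 / Real.log X := by positivity
  have hc1 : 1 < c := by rw [hc]; linarith
  have hre : ∀ t : ℝ, ((c : ℂ) + t * I).re = c := by intro t; simp
  have hex : 1 ≤ Real.exp L := Real.one_le_exp hL0'.le
  have hdiff : Differentiable ℂ χ.LFunction := DirichletCharacter.differentiable_LFunction hne
  have hfn : ∀ n : ℕ, ‖(vonMangoldt n : ℂ) * χ n‖ ≤ vonMangoldt n := by
    intro n
    rw [norm_mul, Complex.norm_real, Real.norm_of_nonneg ArithmeticFunction.vonMangoldt_nonneg]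
    exact mul_le_of_le_one_right ArithmeticFunction.vonMangoldt_nonneg (χ.norm_le_one _)
  have hLs : ∀ s : ℂ, 1 < s.re → LSeries (fun n => (vonMangoldt n : ℂ) * χ n) s =
      -(deriv χ.LFunction s / χ.LFunction s) := by
    intro s hs
    have hh := DirichletCharacter.LSeries_twist_vonMangoldt_eq χ hs
    rw [DirichletCharacter.LFunction_eq_LSeries χ hs,
      DirichletCharacter.deriv_LFunction_eq_deriv_LSeries χ hs, ← neg_div, ← hh]
    apply LSeries_congr
    intro n _
    simp [mul_comm]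
  have hsummable : LSeriesSummable (fun n => (vonMangoldt n : ℂ) * χ n) c := by
    have hh := DirichletCharacter.LSeriesSummable_twist_vonMangoldt χ
      (s := (c : ℂ)) (by simpa using hc1)
    refine (LSeriesSummable_congr _ ?_).1 hh
    intro n _
    simp [mul_comm]
  have hM : (0 : ℝ) ≤ 2 * Real.log X * (1 + 2 * Real.log X) := by positivity
  have b := h1 (fun n => (vonMangoldt n : ℂ) * χ n)
    (fun s => -(deriv χ.LFunction s / χ.LFunction s)) σ c (Real.exp L) lam X (L ^ 36)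
    (2 * Real.log X * (1 + 2 * Real.log X)) (by rw [hσ]; linarith) (by rw [hσ]; linarith)
    (by rw [hc]; linarith) hex r3 hX1 (by positivity) hM hsummable
    (by
      intro s hs1 hs2 hs3
      have hIn : InR L s := by
        refine ⟨?_, hs3⟩
        rw [abs_le]
        constructor
        · rw [hσ] at hs1; linarith
        · rw [hc] at hs2; linarith
      refine ⟨?_, ?_⟩
      · exact ((hdiff.deriv _).div (hdiff _) (key s hIn).1).neg
      · rw [norm_neg]
        exact (key s hIn).2)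
    (by
      intro t _
      exact (hLs _ (by rw [hre]; exact hc1)).symm)
    (by
      intro t
      have hb := p16_norm_le hfn hc1 t
      have hcc : c - 1 = 1 / Real.log X := by rw [hc]; ring
      rw [hcc] at hb
      refine hb.trans (le_of_eq ?_)
      field_simp)
  refine b.trans ?_
  -- numerical part
  have hXs : X ^ σ ≤ X * Real.exp (-L ^ 2) := by
    have e : X ^ σ = X * Real.exp (-(Real.log X * (L ^ 41)⁻¹)) := by
      rw [Real.rpow_def_of_pos hX, hσ, mul_sub, mul_one, sub_eq_add_neg, Real.exp_add,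
        Real.exp_log hX]
    rw [e]
    apply mul_le_mul_of_nonneg_left _ hX.le
    apply Real.exp_le_exp.2
    have : L ^ 2 ≤ Real.log X * (L ^ 41)⁻¹ := by
      rw [← div_eq_mul_inv, le_div_iff₀ (by positivity), ← pow_add]
      exact r1
    linarith
  have hXc : X ^ c ≤ X * 3 := by
    have e : X ^ c = X * Real.exp 1 := by
      rw [Real.rpow_def_of_pos hX, hc, mul_add, mul_one, Real.exp_add, Real.exp_log hX]
      congr 2
      field_simp
    rw [e]
    have := Real.exp_one_lt_d9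
    nlinarith
  have hXc0 : 0 ≤ X ^ c := Real.rpow_nonneg hX.le _
  set E : ℝ := Real.exp (L / 8) with hE
  have hE0 : 0 < E := Real.exp_pos _
  have hEL : Real.exp L = E ^ 8 := by
    rw [hE, ← Real.exp_nat_mul]; congr 1; push_cast; ring
  have hE4 : Real.exp (L / 2) = E ^ 4 := by
    rw [hE, ← Real.exp_nat_mul]; congr 1; push_cast; ring
  have hgoal : Real.exp (-(L / 2)) = (E ^ 4)⁻¹ := by rw [Real.exp_neg, hE4]
  have hE1 : 1 ≤ E := by linarith
  -- first term
  have t1 : 20 * L ^ 36 * X ^ σ ≤ X * ((E ^ 4)⁻¹ / 3) := by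
    have f1 : Real.exp (-L ^ 2) ≤ (E ^ 8)⁻¹ := by
      rw [← hEL, ← Real.exp_neg]
      apply Real.exp_le_exp.2
      nlinarith
    calc 20 * L ^ 36 * X ^ σ ≤ 20 * L ^ 36 * (X * (E ^ 8)⁻¹) := by
          apply mul_le_mul_of_nonneg_left _ (by positivity)
          exact hXs.trans (mul_le_mul_of_nonneg_left f1 hX.le)
      _ = X * (20 * L ^ 36 * (E ^ 8)⁻¹) := by ring
      _ ≤ X * ((E ^ 4)⁻¹ / 3) := by
          apply mul_le_mul_of_nonneg_left _ hX.le
          rw [hE4] at a1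
          have : 20 * L ^ 36 ≤ E ^ 4 / 3 := by
            have : (0 : ℝ) ≤ L ^ 36 := by positivity
            linarith
          calc 20 * L ^ 36 * (E ^ 8)⁻¹ ≤ E ^ 4 / 3 * (E ^ 8)⁻¹ :=
                mul_le_mul_of_nonneg_right this (by positivity)
            _ = (E ^ 4)⁻¹ / 3 := by field_simp
  have t2 : 20 * L ^ 36 * X ^ c * lam / Real.exp L ^ 2 ≤ X * ((E ^ 4)⁻¹ / 3) := by
    rw [hEL]
    calc 20 * L ^ 36 * X ^ c * lam / (E ^ 8) ^ 2
        ≤ 20 * L ^ 36 * (X * 3) * E / (E ^ 8) ^ 2 := by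
          gcongr
      _ = X * (60 * L ^ 36 * E / E ^ 16) := by ring
      _ ≤ X * ((E ^ 4)⁻¹ / 3) := by
          apply mul_le_mul_of_nonneg_left _ hX.le
          rw [hE4] at a1
          have h60 : 60 * L ^ 36 ≤ E ^ 4 / 3 := by linarith
          calc 60 * L ^ 36 * E / E ^ 16 ≤ E ^ 4 / 3 * E / E ^ 16 := by gcongr
            _ = (E ^ 11)⁻¹ / 3 := by field_simp
            _ ≤ (E ^ 4)⁻¹ / 3 := by
                gcongr
                · norm_num
  have t3 : 20 * (2 * Real.log X * (1 + 2 * Real.log X)) * X ^ c * lam / Real.exp L ≤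
      X * ((E ^ 4)⁻¹ / 3) := by
    have hlogE : Real.log X ≤ E := r2
    have f1 : 2 * Real.log X * (1 + 2 * Real.log X) ≤ 6 * E ^ 2 := by
      calc 2 * Real.log X * (1 + 2 * Real.log X) ≤ 2 * E * (1 + 2 * E) := by gcongr
        _ ≤ 2 * E * (E + 2 * E) := by gcongr
        _ = 6 * E ^ 2 := by ring
    rw [hEL]
    calc 20 * (2 * Real.log X * (1 + 2 * Real.log X)) * X ^ c * lam / E ^ 8
        ≤ 20 * (6 * E ^ 2) * (X * 3) * E / E ^ 8 := by
          gcongr
      _ = X * (360 * (E ^ 5)⁻¹) := by field_simp; ring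
      _ ≤ X * ((E ^ 4)⁻¹ / 3) := by
          apply mul_le_mul_of_nonneg_left _ hX.le
          have : (E ^ 5)⁻¹ = (E ^ 4)⁻¹ * E⁻¹ := by rw [← mul_inv]; ring
          rw [this]
          have h4 : 0 < (E ^ 4)⁻¹ := by positivity
          have h5 : 1080 * E⁻¹ ≤ 1 := by
            rw [← div_eq_mul_inv, div_le_one hE0]
            exact a2
          nlinarith
  rw [hgoal]
  calc _ ≤ X * ((E ^ 4)⁻¹ / 3) + X * ((E ^ 4)⁻¹ / 3) + X * ((E ^ 4)⁻¹ / 3) :=
        add_le_add (add_le_add t1 t2) t3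
    _ = X * (E ^ 4)⁻¹ := by ring

end Pool.Agent.MP8a4e59.P
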