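import Mathlib
import Pool.Agent.Lib.MP_8a4e59_co.P.Stm

/-
MP_8a4e59_co, part P, piece P17 (helper96): the principal character.
-/

set_option autoImplicit false

open Complex MeasureTheory Filter Topology
open scoped Interval
open ArithmeticFunction (vonMangoldt)
open Pool.Agent.MP89da58 (tri)

namespace Pool.Agent.MP8a4e59.P

/-- The coefficient function. -/
private noncomputable def p17_f : ℕ → ℂ := fun n => (vonMangoldt n : ℂ) - 1

/-- The analytic continuation. -/
private noncomputable def p17_G : ℂ → ℂ := fun s => -(deriv Zf s / Zf s) - dslope Zf 1 s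

private lemma p17_Zf_eventually {s : ℂ} (hs : s ≠ 1) :
    Zf =ᶠ[𝓝 s] fun z => (z - 1) * riemannZeta z := by
  have : ∀ᶠ z in 𝓝 s, z ≠ 1 := isOpen_ne.mem_nhds hs
  filter_upwards [this] with z hz
  simp [Zf, hz]

private lemma p17_deriv {s : ℂ} (hs : s ≠ 1) :
    deriv Zf s = riemannZeta s + (s - 1) * deriv riemannZeta s := by
  rw [(p17_Zf_eventually hs).deriv_eq]
  have h1 : HasDerivAt (fun z : ℂ => z - 1) 1 s := (hasDerivAt_id s).sub_const 1
  have h2 : HasDerivAt riemannZeta (deriv riemannZeta s) s :=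
    (differentiableAt_riemannZeta hs).hasDerivAt
  have := (h1.mul h2).deriv
  simp only [one_mul] at this
  exact this

private lemma p17_G_eq {s : ℂ} (hs : s ≠ 1) (hz : riemannZeta s ≠ 0) :
    p17_G s = -(deriv riemannZeta s / riemannZeta s) - riemannZeta s := by
  have hs1 : s - 1 ≠ 0 := sub_ne_zero.2 hs
  have h1 : Zf s = (s - 1) * riemannZeta s := by simp [Zf, hs]
  have h2 : dslope Zf 1 s = ((s - 1) * riemannZeta s - 1) / (s - 1) := by
    rw [dslope_of_ne _ hs, slope_def_field, h1]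
    simp [Zf]
  unfold p17_G
  rw [p17_deriv hs, h1, h2]
  field_simp
  ring

private lemma p17_LSeries {s : ℂ} (hs : 1 < s.re) :
    LSeries p17_f s = -(deriv riemannZeta s / riemannZeta s) - riemannZeta s := by
  have h1 : LSeriesSummable (fun n => (vonMangoldt n : ℂ)) s :=
    ArithmeticFunction.LSeriesSummable_vonMangoldt hs
  have h2 : LSeriesSummable (1 : ℕ → ℂ) s := LSeriesSummable_one_iff.2 hs
  have h3 := LSeries_sub h1 h2
  have h4 : p17_f = (fun n => (vonMangoldt n : ℂ)) - (1 : ℕ → ℂ) := by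
    funext n; simp [p17_f]
  rw [h4, h3, ArithmeticFunction.LSeries_vonMangoldt_eq_deriv_riemannZeta_div hs,
    LSeries_one_eq_riemannZeta hs]
  ring

private lemma p17_summable {s : ℂ} (hs : 1 < s.re) : LSeriesSummable p17_f s := by
  have h1 : LSeriesSummable (fun n => (vonMangoldt n : ℂ)) s :=
    ArithmeticFunction.LSeriesSummable_vonMangoldt hs
  have h2 : LSeriesSummable (1 : ℕ → ℂ) s := LSeriesSummable_one_iff.2 hs
  exact h1.sub h2

private lemma p17_norm_le (g : ℕ → ℝ) (hg : ∀ n, 0 ≤ g n) (c t : ℝ)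
    (hs : LSeriesSummable (fun n => ((g n : ℝ) : ℂ)) c) :
    ‖LSeries (fun n => ((g n : ℝ) : ℂ)) (c + t * I)‖ ≤ ‖LSeries (fun n => ((g n : ℝ) : ℂ)) c‖ := by
  have hre : ((c : ℂ) + t * I).re = c := by simp
  have hterm : ∀ n, ‖LSeries.term (fun n => ((g n : ℝ) : ℂ)) (c + t * I) n‖ =
      ‖LSeries.term (fun n => ((g n : ℝ) : ℂ)) c n‖ := by
    intro n
    rw [LSeries.norm_term_eq, LSeries.norm_term_eq, hre, ofReal_re]
  have hpos : ∀ n, LSeries.term (fun n => ((g n : ℝ) : ℂ)) c n =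
      ((‖LSeries.term (fun n => ((g n : ℝ) : ℂ)) c n‖ : ℝ) : ℂ) := by
    intro n
    rw [LSeries.norm_term_eq, ofReal_re]
    by_cases hn : n = 0
    · simp [hn]
    · rw [LSeries.term_of_ne_zero hn, if_neg hn, Complex.norm_real, Real.norm_of_nonneg (hg n)]
      push_cast
      rw [Complex.ofReal_cpow (Nat.cast_nonneg n)]
      simp
  have hsum : Summable fun n => ‖LSeries.term (fun n => ((g n : ℝ) : ℂ)) c n‖ := hs.norm
  have h1 : LSeries (fun n => ((g n : ℝ) : ℂ)) c =
      ((∑' n, ‖LSeries.term (fun n => ((g n : ℝ) : ℂ)) c n‖ : ℝ) : ℂ) := by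
    rw [LSeries, Complex.ofReal_tsum]
    exact tsum_congr hpos
  have h2 : ‖LSeries (fun n => ((g n : ℝ) : ℂ)) c‖ =
      ∑' n, ‖LSeries.term (fun n => ((g n : ℝ) : ℂ)) c n‖ := by
    rw [h1, Complex.norm_real, Real.norm_of_nonneg (tsum_nonneg fun n => norm_nonneg _)]
  rw [h2]
  have h3 : Summable fun n => ‖LSeries.term (fun n => ((g n : ℝ) : ℂ)) (c + t * I) n‖ := by
    simpa only [hterm] using hsum
  calc ‖LSeries (fun n => ((g n : ℝ) : ℂ)) (c + t * I)‖
      ≤ ∑' n, ‖LSeries.term (fun n => ((g n : ℝ) : ℂ)) (c + t * I) n‖ :=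
        norm_tsum_le_tsum_norm h3
    _ = _ := tsum_congr hterm

private lemma p17_norm_LSeries {c A : ℝ} (t : ℝ) (hc : 1 < c) (hA : ‖deriv Zf c / Zf c‖ ≤ A)
    (hA' : ‖dslope Zf 1 c‖ ≤ A) :
    ‖LSeries p17_f (c + t * I)‖ ≤ 2 * (c - 1)⁻¹ + 2 * A := by
  have hre : ((c : ℂ) + t * I).re = c := by simp
  have hs : 1 < ((c : ℂ) + t * I).re := by rw [hre]; exact hc
  have hsc : 1 < (c : ℂ).re := by simpa using hc
  have hc1 : (c : ℂ) ≠ 1 := by
    intro h
    have : c = 1 := by exact_mod_cast h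
    linarith
  have h1 : LSeriesSummable (fun n => (vonMangoldt n : ℂ)) ((c : ℂ) + t * I) :=
    ArithmeticFunction.LSeriesSummable_vonMangoldt hs
  have h2 : LSeriesSummable (1 : ℕ → ℂ) ((c : ℂ) + t * I) := LSeriesSummable_one_iff.2 hs
  have h4 : p17_f = (fun n => (vonMangoldt n : ℂ)) - (1 : ℕ → ℂ) := by
    funext n; simp [p17_f]
  rw [h4, LSeries_sub h1 h2]
  have h1c : LSeriesSummable (fun n => (vonMangoldt n : ℂ)) (c : ℂ) :=
    ArithmeticFunction.LSeriesSummable_vonMangoldt hsc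
  have h2c : LSeriesSummable (1 : ℕ → ℂ) (c : ℂ) := LSeriesSummable_one_iff.2 hsc
  have h5 := p17_norm_le (fun n => vonMangoldt n) (fun n => ArithmeticFunction.vonMangoldt_nonneg)
    c t h1c
  have h6 : ‖LSeries (1 : ℕ → ℂ) (c + t * I)‖ ≤ ‖LSeries (1 : ℕ → ℂ) c‖ := by
    have h7 : (1 : ℕ → ℂ) = fun n => (((fun _ => 1 : ℕ → ℝ) n : ℝ) : ℂ) := by
      funext n; simp
    have h8 := p17_norm_le (fun _ => 1) (fun n => zero_le_one) c t (by rw [← h7]; exact h2c)
    rw [← h7] at h8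
    exact h8
  rw [ArithmeticFunction.LSeries_vonMangoldt_eq_deriv_riemannZeta_div hsc] at h5
  rw [LSeries_one_eq_riemannZeta hsc] at h6
  have hz : riemannZeta c ≠ 0 := riemannZeta_ne_zero_of_one_lt_re hsc
  have hs1 : (c : ℂ) - 1 ≠ 0 := sub_ne_zero.2 hc1
  have e1 : Zf c = ((c : ℂ) - 1) * riemannZeta c := by simp [Zf, hc1]
  have e2 : dslope Zf 1 (c : ℂ) = (((c : ℂ) - 1) * riemannZeta c - 1) / ((c : ℂ) - 1) := by
    rw [dslope_of_ne _ hc1, slope_def_field, e1]
    simp [Zf]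
  have e3 : riemannZeta c = dslope Zf 1 (c : ℂ) + ((c : ℂ) - 1)⁻¹ := by
    rw [e2]; field_simp; ring
  have e4 : -deriv riemannZeta c / riemannZeta c = ((c : ℂ) - 1)⁻¹ - deriv Zf c / Zf c := by
    rw [p17_deriv hc1, e1]; field_simp; ring
  have e5 : ‖((c : ℂ) - 1)⁻¹‖ = (c - 1)⁻¹ := by
    have : (c : ℂ) - 1 = ((c - 1 : ℝ) : ℂ) := by push_cast; ring
    rw [this, norm_inv, Complex.norm_real, Real.norm_of_nonneg (by linarith)]
  have h9 : ‖riemannZeta c‖ ≤ A + (c - 1)⁻¹ := by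
    rw [e3]
    calc _ ≤ ‖dslope Zf 1 (c : ℂ)‖ + ‖((c : ℂ) - 1)⁻¹‖ := norm_add_le _ _
      _ ≤ _ := by rw [e5]; linarith
  have h10 : ‖-deriv riemannZeta c / riemannZeta c‖ ≤ (c - 1)⁻¹ + A := by
    rw [e4]
    calc _ ≤ ‖((c : ℂ) - 1)⁻¹‖ + ‖deriv Zf c / Zf c‖ := norm_sub_le _ _
      _ ≤ _ := by rw [e5]; linarith
  calc _ ≤ ‖LSeries (fun n => (vonMangoldt n : ℂ)) (c + t * I)‖ +
        ‖LSeries (1 : ℕ → ℂ) (c + t * I)‖ := norm_sub_le _ _
    _ ≤ ((c - 1)⁻¹ + A) + (A + (c - 1)⁻¹) := add_le_add (h5.trans h10) (h6.trans h9)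
    _ = _ := by ring

private lemma p17_num : ∃ L1 : ℝ, 2 ≤ L1 ∧ ∀ L : ℝ, L1 ≤ L →
    180 * Real.exp 1 * L ^ 36 ≤ Real.exp (L / 4) := by
  have h := (isLittleO_pow_exp_pos_mul_atTop (k := 36) (b := 1 / 4) (by norm_num)).bound
    (c := (180 * Real.exp 1)⁻¹) (by positivity)
  obtain ⟨L1, hL1⟩ := Filter.eventually_atTop.1 h
  refine ⟨max 2 L1, le_max_left _ _, fun L hL => ?_⟩
  have h1 := hL1 L ((le_max_right _ _).trans hL)
  have hLpos : 0 ≤ L := by linarith [(le_max_left (2 : ℝ) L1).trans hL]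
  rw [Real.norm_of_nonneg (pow_nonneg hLpos _), Real.norm_of_nonneg (Real.exp_pos _).le] at h1
  have h2 : (1 / 4 : ℝ) * L = L / 4 := by ring
  rw [h2] at h1
  have h3 : 0 < 180 * Real.exp 1 := by positivity
  calc 180 * Real.exp 1 * L ^ 36 ≤ 180 * Real.exp 1 * ((180 * Real.exp 1)⁻¹ * Real.exp (L / 4)) :=
        mul_le_mul_of_nonneg_left h1 h3.le
    _ = Real.exp (L / 4) := by field_simp

/-- [8a P17]. -/
theorem p_psione (hshift : S_shift) (hzeta : S_zeta) (hzup : S_zup) : S_psione := by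
  obtain ⟨L0, hL0⟩ := hzeta
  obtain ⟨hZf, -⟩ := hzup
  obtain ⟨L1, hL12, hL1⟩ := p17_num
  refine ⟨max L0 L1, fun L hL lam X hR => ?_⟩
  obtain ⟨hX0, hY1, hY2, hlam1, hlam2⟩ := hR
  have hLL0 : L0 ≤ L := (le_max_left _ _).trans hL
  have hL1' := hL1 L ((le_max_right _ _).trans hL)
  have hL2 : 2 ≤ L := hL12.trans ((le_max_right _ _).trans hL)
  have hLpos : 0 < L := by linarith
  have hL1le : 1 ≤ L := by linarith
  set Y := Real.log X with hY
  have hYpos : 0 < Y := lt_of_lt_of_le (by positivity) hY1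
  have hXexp : X = Real.exp Y := (Real.exp_log hX0).symm
  have hX1 : 1 ≤ X := by rw [hXexp]; exact Real.one_le_exp hYpos.le
  have hp41 : (1 : ℝ) ≤ L ^ 41 := one_le_pow₀ hL1le
  have hinv41 : (L ^ 41)⁻¹ ≤ 1 / 2 := by
    rw [inv_le_comm₀ (by positivity) (by norm_num)]
    calc ((1 : ℝ) / 2)⁻¹ = 2 := by norm_num
      _ ≤ L := hL2
      _ = L ^ 1 := (pow_one L).symm
      _ ≤ L ^ 41 := pow_le_pow_right₀ hL1le (by norm_num)
  have hYinv : Y⁻¹ ≤ (L ^ 41)⁻¹ := by
    apply inv_anti₀ (by positivity)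
    exact (pow_le_pow_right₀ hL1le (by norm_num)).trans hY1
  have hYinvpos : 0 < Y⁻¹ := inv_pos.2 hYpos
  set c : ℝ := 1 + Y⁻¹ with hc
  set σ : ℝ := 1 - (L ^ 41)⁻¹ with hσ
  have h41pos : 0 < (L ^ 41)⁻¹ := by positivity
  have hc1 : 1 < c := by linarith
  have hcinv : (c - 1)⁻¹ = Y := by rw [hc]; simp
  have hinR : ∀ s : ℂ, σ ≤ s.re → s.re ≤ c → |s.im| ≤ Real.exp L → InR L s := by
    intro s h1 h2 h3
    refine ⟨?_, h3⟩
    rw [abs_le]
    constructor <;> linarith
  have hcR : InR L (c : ℂ) := by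
    refine hinR _ ?_ ?_ ?_
    · simp only [ofReal_re]; linarith
    · simp
    · simp only [ofReal_im, abs_zero]; exact (Real.exp_pos _).le
  have hpow2 : L ^ 2 ≤ L ^ 36 := pow_le_pow_right₀ hL1le (by norm_num)
  have hA := (hL0 L hLL0 _ hcR).2.1
  have hA' : ‖dslope Zf 1 (c : ℂ)‖ ≤ L ^ 36 := ((hL0 L hLL0 _ hcR).2.2).trans hpow2
  have h36pos : 0 ≤ L ^ 36 := by positivity
  have hbig : 2 * L ^ 36 ≤ Y := by
    calc 2 * L ^ 36 ≤ L * L ^ 36 := mul_le_mul_of_nonneg_right hL2 h36pos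
      _ = L ^ 37 := by ring
      _ ≤ L ^ 43 := pow_le_pow_right₀ hL1le (by norm_num)
      _ ≤ Y := hY1
  have hne1 : ∀ s : ℂ, s.re = c → s ≠ 1 := by
    intro s h1 h2
    rw [h2] at h1
    simp only [one_re] at h1
    linarith
  have key := hshift p17_f p17_G σ c (Real.exp L) lam X (2 * L ^ 36) (3 * Y) (by linarith)
    (by linarith) (by linarith) (Real.one_le_exp hLpos.le) hlam1 hX1 (by positivity)
    (by positivity) (p17_summable (by simpa using hc1)) ?_ ?_ ?_
  · refine key.trans ?_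
    have hXσ : X ^ σ ≤ X * Real.exp (-(L ^ 2)) := by
      have e1 : X ^ σ = Real.exp (Y * σ) := by
        rw [Real.rpow_def_of_pos hX0]
      have e2 : L ^ 2 ≤ Y * (L ^ 41)⁻¹ := by
        rw [← div_eq_mul_inv, le_div_iff₀ (by positivity)]
        calc L ^ 2 * L ^ 41 = L ^ 43 := by ring
          _ ≤ Y := hY1
      calc X ^ σ = Real.exp (Y * σ) := e1
        _ ≤ Real.exp (Y + -(L ^ 2)) := by
            apply Real.exp_le_exp.2
            rw [hσ]
            linarith
        _ = X * Real.exp (-(L ^ 2)) := by rw [Real.exp_add, ← hXexp]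
    have hXc : X ^ c = X * Real.exp 1 := by
      have e3 : Y * c = Y + 1 := by rw [hc]; field_simp
      rw [Real.rpow_def_of_pos hX0, ← hY, e3, Real.exp_add, ← hXexp]
    have he1 : 1 ≤ Real.exp 1 := Real.one_le_exp (by norm_num)
    have hone36 : 1 ≤ L ^ 36 := one_le_pow₀ hL1le
    have hT1 : 20 * (2 * L ^ 36) * X ^ σ ≤ X * Real.exp (-(L / 2)) / 3 := by
      have a1 : 120 * L ^ 36 ≤ Real.exp (L / 4) := by
        calc 120 * L ^ 36 ≤ 180 * Real.exp 1 * L ^ 36 := by
              apply mul_le_mul_of_nonneg_right _ h36pos; linarith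
          _ ≤ _ := hL1'
      have a2 : Real.exp (L / 4) * Real.exp (-(L ^ 2)) ≤ Real.exp (-(L / 2)) := by
        rw [← Real.exp_add]
        apply Real.exp_le_exp.2
        nlinarith
      calc 20 * (2 * L ^ 36) * X ^ σ ≤ 20 * (2 * L ^ 36) * (X * Real.exp (-(L ^ 2))) :=
            mul_le_mul_of_nonneg_left hXσ (by positivity)
        _ = X * ((120 * L ^ 36) * Real.exp (-(L ^ 2))) / 3 := by ring
        _ ≤ X * (Real.exp (L / 4) * Real.exp (-(L ^ 2))) / 3 := by
            have := mul_le_mul_of_nonneg_right a1 (Real.exp_pos (-(L ^ 2))).le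
            have := mul_le_mul_of_nonneg_left this hX0.le
            linarith
        _ ≤ X * Real.exp (-(L / 2)) / 3 := by
            have := mul_le_mul_of_nonneg_left a2 hX0.le
            linarith
    have hT2 : 20 * (2 * L ^ 36) * X ^ c * lam / Real.exp L ^ 2 ≤ X * Real.exp (-(L / 2)) / 3 := by
      have a1 : 120 * Real.exp 1 * L ^ 36 ≤ Real.exp (L / 4) := by
        calc 120 * Real.exp 1 * L ^ 36 ≤ 180 * Real.exp 1 * L ^ 36 := by
              apply mul_le_mul_of_nonneg_right _ h36pos; linarith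
          _ ≤ _ := hL1'
      have a2 : Real.exp (L / 4) * Real.exp (L / 8) / Real.exp L ^ 2 ≤ Real.exp (-(L / 2)) := by
        rw [div_le_iff₀ (by positivity), ← Real.exp_add, ← Real.exp_nat_mul, ← Real.exp_add]
        apply Real.exp_le_exp.2
        push_cast
        linarith
      rw [hXc]
      calc 20 * (2 * L ^ 36) * (X * Real.exp 1) * lam / Real.exp L ^ 2
          = X * ((120 * Real.exp 1 * L ^ 36) * lam / Real.exp L ^ 2) / 3 := by ring
        _ ≤ X * (Real.exp (L / 4) * Real.exp (L / 8) / Real.exp L ^ 2) / 3 := by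
            have h1 : (120 * Real.exp 1 * L ^ 36) * lam ≤ Real.exp (L / 4) * Real.exp (L / 8) :=
              mul_le_mul a1 hlam2 (by linarith) (Real.exp_pos _).le
            have h2 := div_le_div_of_nonneg_right h1 (c := Real.exp L ^ 2) (by positivity)
            have := mul_le_mul_of_nonneg_left h2 hX0.le
            linarith
        _ ≤ X * Real.exp (-(L / 2)) / 3 := by
            have := mul_le_mul_of_nonneg_left a2 hX0.le
            linarith
    have hT3 : 20 * (3 * Y) * X ^ c * lam / Real.exp L ≤ X * Real.exp (-(L / 2)) / 3 := by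
      have a1 : 180 * Real.exp 1 ≤ Real.exp (L / 4) := by
        calc 180 * Real.exp 1 = 180 * Real.exp 1 * 1 := by ring
          _ ≤ 180 * Real.exp 1 * L ^ 36 := mul_le_mul_of_nonneg_left hone36 (by positivity)
          _ ≤ _ := hL1'
      have a2 : Real.exp (L / 4) * (Real.exp (L / 8) * Real.exp (L / 8)) / Real.exp L ≤
          Real.exp (-(L / 2)) := by
        rw [div_le_iff₀ (by positivity), ← Real.exp_add, ← Real.exp_add, ← Real.exp_add]
        apply Real.exp_le_exp.2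
        linarith
      rw [hXc]
      calc 20 * (3 * Y) * (X * Real.exp 1) * lam / Real.exp L
          = X * ((180 * Real.exp 1) * (Y * lam) / Real.exp L) / 3 := by ring
        _ ≤ X * (Real.exp (L / 4) * (Real.exp (L / 8) * Real.exp (L / 8)) / Real.exp L) / 3 := by
            have h0 : Y * lam ≤ Real.exp (L / 8) * Real.exp (L / 8) :=
              mul_le_mul hY2 hlam2 (by linarith) (Real.exp_pos _).le
            have h1 : (180 * Real.exp 1) * (Y * lam) ≤
                Real.exp (L / 4) * (Real.exp (L / 8) * Real.exp (L / 8)) :=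
              mul_le_mul a1 h0 (by positivity) (Real.exp_pos _).le
            have h2 := div_le_div_of_nonneg_right h1 (c := Real.exp L) (by positivity)
            have := mul_le_mul_of_nonneg_left h2 hX0.le
            linarith
        _ ≤ X * Real.exp (-(L / 2)) / 3 := by
            have := mul_le_mul_of_nonneg_left a2 hX0.le
            linarith
    linarith
  · intro s h1 h2 h3
    have hR := hL0 L hLL0 s (hinR s h1 h2 h3)
    have hd : DifferentiableAt ℂ Zf s := hZf s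
    have hd' : DifferentiableAt ℂ (deriv Zf) s := by
      have : Differentiable ℂ (deriv Zf) := hZf.deriv
      exact this s
    have hds : DifferentiableAt ℂ (dslope Zf 1) s := by
      have h5 : DifferentiableOn ℂ (dslope Zf 1) Set.univ :=
        (Complex.differentiableOn_dslope Filter.univ_mem).2 hZf.differentiableOn
      exact (h5 s (Set.mem_univ s)).differentiableAt Filter.univ_mem
    refine ⟨((hd'.div hd hR.1).neg).sub hds, ?_⟩
    calc ‖p17_G s‖ ≤ ‖-(deriv Zf s / Zf s)‖ + ‖dslope Zf 1 s‖ := norm_sub_le _ _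
      _ ≤ L ^ 36 + L ^ 36 := by
          rw [norm_neg]
          exact add_le_add hR.2.1 (hR.2.2.trans hpow2)
      _ = 2 * L ^ 36 := by ring
  · intro t _
    have hre : ((c : ℂ) + t * I).re = c := by simp
    have hs : 1 < ((c : ℂ) + t * I).re := by rw [hre]; exact hc1
    rw [p17_LSeries hs, p17_G_eq (hne1 _ hre) (riemannZeta_ne_zero_of_one_lt_re hs)]
  · intro t
    refine (p17_norm_LSeries t hc1 hA hA').trans ?_
    rw [hcinv]
    linarith

end Pool.Agent.MP8a4e59.P
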