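/-
MP_8a4e59_co, part P, piece P18 (helper39): the exceptional character.
-/
import Pool.Agent.Lib.MP_8a4e59_co.P.Stm

set_option autoImplicit false

open Complex MeasureTheory Filter Topology
open scoped Interval
open ArithmeticFunction (vonMangoldt)
open Pool.Agent.MP89da58 (tri)

namespace Pool.Agent.MP8a4e59.P

private theorem p18_zf (s : ℂ) (hs : s ≠ 1) : dslope Zf 1 s = riemannZeta s - 1 / (s - 1) := by
  have h1 : s - 1 ≠ 0 := sub_ne_zero.mpr hs
  rw [dslope_of_ne _ hs, slope_def_field]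
  unfold Zf
  rw [if_neg hs, if_pos rfl, sub_div, mul_div_cancel_left₀ _ h1]

/-- the real zeta sum -/
private theorem p18_zeta (x : ℝ) (hx : 1 < x) :
    ∑' n : ℕ, 1 / (n : ℝ) ^ x = ‖riemannZeta (x : ℂ)‖ := by
  have h0 : 0 ≤ ∑' n : ℕ, 1 / (n : ℝ) ^ x := tsum_nonneg fun n => by positivity
  have h1 : ((∑' n : ℕ, 1 / (n : ℝ) ^ x : ℝ) : ℂ) = riemannZeta (x : ℂ) := by
    rw [zeta_eq_tsum_one_div_nat_cpow (by simpa using hx), Complex.ofReal_tsum]
    refine tsum_congr fun n => ?_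
    push_cast
    rw [Complex.ofReal_cpow (Nat.cast_nonneg n)]
    simp
  rw [← h1, Complex.norm_real, Real.norm_of_nonneg h0]

/-- the coefficients -/
private noncomputable def p18_f (q : ℕ) (χ : DirichletCharacter ℂ q) (β : ℝ) (n : ℕ) : ℂ :=
  (vonMangoldt n : ℂ) * χ n + (((n : ℝ) ^ (β - 1) : ℝ) : ℂ)

private theorem p18_fle (q : ℕ) (χ : DirichletCharacter ℂ q) (β : ℝ) (hβ : β < 1) (n : ℕ)
    (hn : n ≠ 0) : ‖p18_f q χ β n‖ ≤ Real.log n + 1 := by
  have hn1 : (1 : ℝ) ≤ n := by exact_mod_cast Nat.one_le_iff_ne_zero.mpr hn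
  unfold p18_f
  refine (norm_add_le _ _).trans (add_le_add ?_ ?_)
  · rw [norm_mul, Complex.norm_real, Real.norm_of_nonneg ArithmeticFunction.vonMangoldt_nonneg]
    calc (vonMangoldt n) * ‖χ n‖ ≤ (vonMangoldt n) * 1 :=
          mul_le_mul_of_nonneg_left (DirichletCharacter.norm_le_one χ _)
            ArithmeticFunction.vonMangoldt_nonneg
      _ ≤ Real.log n := by
          rw [mul_one]
          exact ArithmeticFunction.vonMangoldt_le_log
  · rw [Complex.norm_real, Real.norm_of_nonneg (by positivity)]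
    exact Real.rpow_le_one_of_one_le_of_nonpos hn1 (by linarith)

private theorem p18_term (q : ℕ) (χ : DirichletCharacter ℂ q) (β : ℝ) (hβ : β < 1) (ε : ℝ)
    (hε : 0 < ε) (s : ℂ) (hs : s.re = 1 + 2 * ε) (n : ℕ) :
    ‖LSeries.term (p18_f q χ β) s n‖ ≤ (1 / ε + 1) * (1 / (n : ℝ) ^ (1 + ε)) := by
  rcases eq_or_ne n 0 with h | h
  · subst h
    rw [LSeries.term_zero, norm_zero]
    positivity
  · have hn1 : (1 : ℝ) ≤ n := by exact_mod_cast Nat.one_le_iff_ne_zero.mpr h
    have hn0 : (0 : ℝ) < n := by linarith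
    rw [LSeries.norm_term_eq, if_neg h, hs]
    have h1 := p18_fle q χ β hβ n h
    have h2 : Real.log n ≤ (n : ℝ) ^ ε / ε := Real.log_le_rpow_div hn0.le hε
    have h3 : (1 : ℝ) ≤ (n : ℝ) ^ ε := Real.one_le_rpow hn1 hε.le
    have h4 : ‖p18_f q χ β n‖ ≤ (1 / ε + 1) * (n : ℝ) ^ ε := by
      calc ‖p18_f q χ β n‖ ≤ Real.log n + 1 := h1
        _ ≤ (n : ℝ) ^ ε / ε + (n : ℝ) ^ ε := add_le_add h2 h3
        _ = (1 / ε + 1) * (n : ℝ) ^ ε := by ring
    have h5 : (n : ℝ) ^ (1 + 2 * ε) = (n : ℝ) ^ ε * (n : ℝ) ^ (1 + ε) := by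
      rw [← Real.rpow_add hn0]
      congr 1
      ring
    have h6 : 0 < (n : ℝ) ^ (1 + ε) := Real.rpow_pos_of_pos hn0 _
    have h7 : 0 < (n : ℝ) ^ ε := Real.rpow_pos_of_pos hn0 _
    rw [h5, div_le_iff₀ (by positivity)]
    calc ‖p18_f q χ β n‖ ≤ (1 / ε + 1) * (n : ℝ) ^ ε := h4
      _ = (1 / ε + 1) * (1 / (n : ℝ) ^ (1 + ε)) * ((n : ℝ) ^ ε * (n : ℝ) ^ (1 + ε)) := by
          field_simp

private theorem p18_summable (x : ℝ) (hx : 1 < x) : Summable fun n : ℕ => 1 / (n : ℝ) ^ x :=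
  Real.summable_one_div_nat_rpow.mpr hx

private theorem p18_sm (q : ℕ) (χ : DirichletCharacter ℂ q) (β : ℝ) (hβ : β < 1) (ε : ℝ)
    (hε : 0 < ε) (s : ℂ) (hs : s.re = 1 + 2 * ε) : LSeriesSummable (p18_f q χ β) s := by
  refine Summable.of_norm_bounded ((p18_summable (1 + ε) (by linarith)).mul_left (1 / ε + 1)) ?_
  exact fun n => p18_term q χ β hβ ε hε s hs n

private theorem p18_M (q : ℕ) (χ : DirichletCharacter ℂ q) (β : ℝ) (hβ : β < 1) (ε : ℝ)
    (hε : 0 < ε) (s : ℂ) (hs : s.re = 1 + 2 * ε) :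
    ‖LSeries (p18_f q χ β) s‖ ≤ (1 / ε + 1) * ‖riemannZeta ((1 + ε : ℝ) : ℂ)‖ := by
  rw [← p18_zeta (1 + ε) (by linarith), ← tsum_mul_left]
  unfold LSeries
  exact tsum_of_norm_bounded ((p18_summable (1 + ε) (by linarith)).mul_left (1 / ε + 1)).hasSum
    fun n => p18_term q χ β hβ ε hε s hs n

/-- the value of the series -/
private theorem p18_val (q : ℕ) [NeZero q] (χ : DirichletCharacter ℂ q) (hχ : χ ≠ 1) (β : ℝ)
    (hβ : β < 1) (hz : χ.LFunction β = 0) (s : ℂ) (hs : 1 < s.re) :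
    -(deriv (dslope χ.LFunction β) s / dslope χ.LFunction β s) +
      dslope Zf 1 (s + 1 - β) = LSeries (p18_f q χ β) s := by
  have hsβ : s ≠ (β : ℂ) := by
    intro h
    rw [h, Complex.ofReal_re] at hs
    linarith
  have hs1 : s + 1 - (β : ℂ) ≠ 1 := by
    intro h
    apply hsβ
    linear_combination h
  have hsb : s - (β : ℂ) ≠ 0 := sub_ne_zero.mpr hsβ
  have hL0 : χ.LFunction s ≠ 0 := by
    exact DirichletCharacter.LFunction_ne_zero_of_one_le_re χ (Or.inl hχ) hs.le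
  -- the two series
  have e1 : (fun n : ℕ => (vonMangoldt n : ℂ) * χ n) =
      ((fun n : ℕ => χ (n : ZMod q)) * fun n : ℕ => ((vonMangoldt n : ℝ) : ℂ)) := by
    funext n
    rw [Pi.mul_apply, mul_comm]
  have hA : LSeriesSummable (fun n : ℕ => (vonMangoldt n : ℂ) * χ n) s := by
    rw [e1]
    exact DirichletCharacter.LSeriesSummable_twist_vonMangoldt χ hs
  have hA2 : LSeries (fun n : ℕ => (vonMangoldt n : ℂ) * χ n) s =
      -deriv χ.LFunction s / χ.LFunction s := by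
    rw [e1, DirichletCharacter.LSeries_twist_vonMangoldt_eq χ hs,
      DirichletCharacter.deriv_LFunction_eq_deriv_LSeries χ hs,
      DirichletCharacter.LFunction_eq_LSeries χ hs]
  have hre : 1 < (s + 1 - (β : ℂ)).re := by
    simp only [Complex.sub_re, Complex.add_re, Complex.one_re, Complex.ofReal_re]
    linarith
  have ht : ∀ n : ℕ, LSeries.term (fun n : ℕ => (((n : ℝ) ^ (β - 1) : ℝ) : ℂ)) s n =
      1 / (n : ℂ) ^ (s + 1 - (β : ℂ)) := by
    intro n
    rcases eq_or_ne n 0 with h | h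
    · subst h
      have h0 : s + 1 - (β : ℂ) ≠ 0 := by
        intro h
        rw [h, Complex.zero_re] at hre
        linarith
      rw [LSeries.term_zero, Nat.cast_zero, Complex.zero_cpow h0, div_zero]
    · have hn : (n : ℂ) ≠ 0 := by exact_mod_cast h
      rw [LSeries.term_of_ne_zero h, Complex.ofReal_cpow (Nat.cast_nonneg n),
        show s + 1 - (β : ℂ) = s - ((β : ℂ) - 1) by ring, Complex.cpow_sub _ _ hn]
      push_cast
      rw [one_div_div]
  have hB : LSeriesSummable (fun n : ℕ => (((n : ℝ) ^ (β - 1) : ℝ) : ℂ)) s := by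
    unfold LSeriesSummable
    rw [show LSeries.term (fun n : ℕ => (((n : ℝ) ^ (β - 1) : ℝ) : ℂ)) s =
      fun n : ℕ => 1 / (n : ℂ) ^ (s + 1 - (β : ℂ)) from funext ht]
    exact Complex.summable_one_div_nat_cpow.mpr hre
  have hB2 : LSeries (fun n : ℕ => (((n : ℝ) ^ (β - 1) : ℝ) : ℂ)) s =
      riemannZeta (s + 1 - β) := by
    rw [zeta_eq_tsum_one_div_nat_cpow hre]
    exact tsum_congr ht
  have hAB : LSeries (p18_f q χ β) s = LSeries (fun n : ℕ => (vonMangoldt n : ℂ) * χ n) s +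
      LSeries (fun n : ℕ => (((n : ℝ) ^ (β - 1) : ℝ) : ℂ)) s := LSeries_add hA hB
  -- the logarithmic derivative of `dslope`
  have hF : Differentiable ℂ χ.LFunction := DirichletCharacter.differentiable_LFunction hχ
  have hev : dslope χ.LFunction β =ᶠ[𝓝 s] fun z => χ.LFunction z / (z - β) := by
    filter_upwards [isOpen_ne.mem_nhds hsβ] with z hz'
    rw [dslope_of_ne _ hz', slope_def_field, hz, sub_zero]
  have hd : deriv (dslope χ.LFunction β) s =
      (deriv χ.LFunction s * (s - β) - χ.LFunction s * 1) / (s - β) ^ 2 := by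
    rw [hev.deriv_eq]
    exact ((hF s).hasDerivAt.div ((hasDerivAt_id s).sub_const _) hsb).deriv
  rw [hAB, hA2, hB2, p18_zf _ hs1, hd, hev.eq_of_nhds, show s + 1 - (β : ℂ) - 1 = s - β by ring]
  field_simp
  ring

private theorem p18_ev (C : ℝ) : ∃ L0 : ℝ, ∀ L : ℝ, L0 ≤ L →
    2 ≤ L ∧ 1 + C ≤ L ∧ 180 * L ^ 37 ≤ Real.exp L ∧ 1620 ≤ Real.exp (L / 8) := by
  have h1 : ∀ᶠ L : ℝ in atTop, 180 * L ^ 37 ≤ Real.exp L := by
    have := Real.tendsto_pow_mul_exp_neg_atTop_nhds_zero 37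
    have h2 := this.eventually (eventually_le_nhds (show (0 : ℝ) < 1 / 180 by norm_num))
    filter_upwards [h2] with L hL
    rw [Real.exp_neg, ← div_eq_mul_inv, div_le_iff₀ (Real.exp_pos _)] at hL
    linarith
  have h2 : ∀ᶠ L : ℝ in atTop, 1620 ≤ Real.exp (L / 8) := by
    have : Tendsto (fun L : ℝ => Real.exp (L / 8)) atTop atTop :=
      Real.tendsto_exp_atTop.comp (tendsto_id.atTop_div_const (by norm_num))
    exact this.eventually_ge_atTop 1620
  have h3 := ((eventually_ge_atTop (2 : ℝ)).and ((eventually_ge_atTop (1 + C)).and (h1.and h2)))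
  obtain ⟨L0, h⟩ := eventually_atTop.mp h3
  exact ⟨L0, fun L hL => h L hL⟩

private theorem p18_num (L lam X ℓ : ℝ) (hL2 : 2 ≤ L) (h37 : 180 * L ^ 37 ≤ Real.exp L)
    (h8 : 1620 ≤ Real.exp (L / 8)) (hX : 0 < X) (hℓ : ℓ = Real.log X) (h43 : L ^ 43 ≤ ℓ)
    (hℓ2 : ℓ ≤ Real.exp (L / 8)) (hlam1 : 1 ≤ lam) (hlam2 : lam ≤ Real.exp (L / 8)) :
    20 * L ^ 37 * X ^ (1 - (L ^ 41)⁻¹) + 20 * L ^ 37 * X ^ (1 + 1 / ℓ) * lam / Real.exp L ^ 2 +
      20 * (9 * ℓ ^ 2) * X ^ (1 + 1 / ℓ) * lam / Real.exp L ≤ X * Real.exp (-(L / 2)) := by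
  have hL0 : 0 < L := by linarith
  have hℓ0 : 0 < ℓ := lt_of_lt_of_le (by positivity) h43
  have he3 : Real.exp 1 ≤ 3 := by linarith [Real.exp_one_lt_d9]
  have hXc : X ^ (1 + 1 / ℓ) ≤ 3 * X := by
    rw [Real.rpow_add hX, Real.rpow_one, Real.rpow_def_of_pos hX, ← hℓ, mul_one_div,
      div_self hℓ0.ne']
    nlinarith
  have hXσ : X ^ (1 - (L ^ 41)⁻¹) ≤ X * Real.exp (-(L ^ 2)) := by
    rw [Real.rpow_sub hX, Real.rpow_one, Real.rpow_def_of_pos hX, ← hℓ, Real.exp_neg,
      div_eq_mul_inv]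
    apply mul_le_mul_of_nonneg_left _ hX.le
    apply inv_anti₀ (Real.exp_pos _)
    apply Real.exp_le_exp.mpr
    have : L ^ 2 = L ^ 43 * (L ^ 41)⁻¹ := by
      field_simp
    rw [this]
    exact mul_le_mul_of_nonneg_right h43 (by positivity)
  have hXc0 : 0 ≤ X ^ (1 + 1 / ℓ) := Real.rpow_nonneg hX.le _
  -- first term
  have t1 : 20 * L ^ 37 * X ^ (1 - (L ^ 41)⁻¹) ≤ X * Real.exp (-(L / 2)) / 3 := by
    have a1 : Real.exp L * Real.exp (-(L ^ 2)) ≤ Real.exp (-(L / 2)) := by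
      rw [← Real.exp_add]
      apply Real.exp_le_exp.mpr
      nlinarith
    have a2 : 60 * L ^ 37 ≤ Real.exp L := by
      have : 0 ≤ L ^ 37 := by positivity
      linarith
    have a3 : 60 * L ^ 37 * Real.exp (-(L ^ 2)) ≤ Real.exp (-(L / 2)) :=
      (mul_le_mul_of_nonneg_right a2 (Real.exp_pos _).le).trans a1
    calc 20 * L ^ 37 * X ^ (1 - (L ^ 41)⁻¹) ≤ 20 * L ^ 37 * (X * Real.exp (-(L ^ 2))) :=
          mul_le_mul_of_nonneg_left hXσ (by positivity)
      _ = X * (60 * L ^ 37 * Real.exp (-(L ^ 2))) / 3 := by ring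
      _ ≤ X * Real.exp (-(L / 2)) / 3 := by
          apply div_le_div_of_nonneg_right _ (by norm_num)
          exact mul_le_mul_of_nonneg_left a3 hX.le
  -- second term
  have t2 : 20 * L ^ 37 * X ^ (1 + 1 / ℓ) * lam / Real.exp L ^ 2 ≤
      X * Real.exp (-(L / 2)) / 3 := by
    rw [div_le_iff₀ (by positivity)]
    have a1 : Real.exp L * Real.exp (L / 8) ≤ Real.exp (-(L / 2)) * Real.exp L ^ 2 := by
      rw [← Real.exp_add, ← Real.exp_nat_mul, ← Real.exp_add]
      apply Real.exp_le_exp.mpr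
      push_cast
      linarith
    calc 20 * L ^ 37 * X ^ (1 + 1 / ℓ) * lam ≤ 20 * L ^ 37 * (3 * X) * Real.exp (L / 8) := by
          apply mul_le_mul (mul_le_mul_of_nonneg_left hXc (by positivity)) hlam2 (by linarith)
            (by positivity)
      _ = X * ((180 * L ^ 37) * Real.exp (L / 8)) / 3 := by ring
      _ ≤ X * (Real.exp L * Real.exp (L / 8)) / 3 := by
          apply div_le_div_of_nonneg_right _ (by norm_num)
          apply mul_le_mul_of_nonneg_left _ hX.le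
          exact mul_le_mul_of_nonneg_right h37 (Real.exp_pos _).le
      _ ≤ X * (Real.exp (-(L / 2)) * Real.exp L ^ 2) / 3 := by
          apply div_le_div_of_nonneg_right _ (by norm_num)
          exact mul_le_mul_of_nonneg_left a1 hX.le
      _ = X * Real.exp (-(L / 2)) / 3 * Real.exp L ^ 2 := by ring
  -- third term
  have t3 : 20 * (9 * ℓ ^ 2) * X ^ (1 + 1 / ℓ) * lam / Real.exp L ≤
      X * Real.exp (-(L / 2)) / 3 := by
    rw [div_le_iff₀ (Real.exp_pos _)]
    have b1 : ℓ ^ 2 ≤ Real.exp (L / 8) ^ 2 := pow_le_pow_left₀ hℓ0.le hℓ2 2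
    have a1 : Real.exp (L / 8) * (Real.exp (L / 8) ^ 2 * Real.exp (L / 8)) ≤
        Real.exp (-(L / 2)) * Real.exp L := by
      rw [← Real.exp_nat_mul, ← Real.exp_add, ← Real.exp_add, ← Real.exp_add]
      apply Real.exp_le_exp.mpr
      push_cast
      linarith
    calc 20 * (9 * ℓ ^ 2) * X ^ (1 + 1 / ℓ) * lam ≤
          20 * (9 * Real.exp (L / 8) ^ 2) * (3 * X) * Real.exp (L / 8) := by
          apply mul_le_mul _ hlam2 (by linarith) (by positivity)
          apply mul_le_mul _ hXc hXc0 (by positivity)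
          linarith
      _ = X * (1620 * (Real.exp (L / 8) ^ 2 * Real.exp (L / 8))) / 3 := by ring
      _ ≤ X * (Real.exp (L / 8) * (Real.exp (L / 8) ^ 2 * Real.exp (L / 8))) / 3 := by
          apply div_le_div_of_nonneg_right _ (by norm_num)
          apply mul_le_mul_of_nonneg_left _ hX.le
          exact mul_le_mul_of_nonneg_right h8 (by positivity)
      _ ≤ X * (Real.exp (-(L / 2)) * Real.exp L) / 3 := by
          apply div_le_div_of_nonneg_right _ (by norm_num)
          exact mul_le_mul_of_nonneg_left a1 hX.le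
      _ = X * Real.exp (-(L / 2)) / 3 * Real.exp L := by ring
  linarith

theorem p_psiexc (h_shift : S_shift) (h_exc : S_exc) (h_zup : S_zup) : S_psiexc := by
  obtain ⟨La, hexc⟩ := h_exc
  obtain ⟨hZ, C, hC, hzup⟩ := h_zup
  obtain ⟨Lb, hev⟩ := p18_ev C
  refine ⟨max La Lb, fun L hL q _ χ β hE lam X hR => ?_⟩
  obtain ⟨hL2, hLC, h37, h8⟩ := hev L ((le_max_right _ _).trans hL)
  obtain ⟨hX, h43, hℓ2, hlam1, hlam2⟩ := hR
  obtain ⟨-, hH⟩ := hexc L ((le_max_left _ _).trans hL) q χ β hE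
  obtain ⟨ℓ, hℓ⟩ : ∃ ℓ : ℝ, ℓ = Real.log X := ⟨_, rfl⟩
  rw [← hℓ] at h43 hℓ2
  have hL1 : 1 ≤ L := by linarith
  have hL0 : 0 < L := by linarith
  have hLp : ∀ m : ℕ, 1 ≤ L ^ m := fun m => one_le_pow₀ hL1
  have hℓ1 : 1 ≤ ℓ := (hLp 43).trans h43
  have hℓ0 : 0 < ℓ := by linarith
  have hX1 : 1 ≤ X := by
    have : 0 < Real.log X := by rw [← hℓ]; exact hℓ0
    by_contra hcon
    push Not at hcon
    exact absurd this (not_lt.mpr (Real.log_nonpos hX.le hcon.le))
  have hβ1 := hE.hi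
  have hβ0 := hE.lo
  -- inverse powers
  have hi41 : (L ^ 41)⁻¹ ≤ L⁻¹ := by
    apply inv_anti₀ hL0
    calc L = L ^ 1 := (pow_one L).symm
      _ ≤ L ^ 41 := pow_le_pow_right₀ hL1 (by norm_num)
  have hi1 : L⁻¹ ≤ 1 / 2 := by
    rw [one_div]
    exact inv_anti₀ (by norm_num) hL2
  have hi43 : 1 / ℓ ≤ (L ^ 41)⁻¹ := by
    rw [one_div]
    apply inv_anti₀ (by positivity)
    calc L ^ 41 ≤ L ^ 43 := pow_le_pow_right₀ hL1 (by norm_num)
      _ ≤ ℓ := h43
  have hi6 : (L ^ 6)⁻¹ ≤ 1 := inv_le_one_of_one_le₀ (hLp 6)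
  have hi410 : 0 < (L ^ 41)⁻¹ := by positivity
  have hℓi : 0 < 1 / ℓ := by positivity
  -- bounds for the value of the series
  have hCL : C * L ≤ ℓ := by
    calc C * L ≤ L * L := mul_le_mul_of_nonneg_right (by linarith) hL0.le
      _ = L ^ 2 := by ring
      _ ≤ L ^ 43 := pow_le_pow_right₀ hL1 (by norm_num)
      _ ≤ ℓ := h43
  obtain ⟨ε, hεd⟩ : ∃ ε : ℝ, ε = 1 / (2 * ℓ) := ⟨_, rfl⟩
  have hε : 0 < ε := by rw [hεd]; positivity
  have hε2 : 1 + 2 * ε = 1 + 1 / ℓ := by
    rw [hεd]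
    field_simp
  have hεi : 1 / ε = 2 * ℓ := by
    rw [hεd, one_div_one_div]
  have hζ : ‖riemannZeta ((1 + ε : ℝ) : ℂ)‖ ≤ 3 * ℓ := by
    have hne : ((1 + ε : ℝ) : ℂ) ≠ 1 := by
      intro h
      have : (1 + ε : ℝ) = 1 := by exact_mod_cast h
      linarith
    have h1 := p18_zf _ hne
    have h2 := hzup L ((1 + ε : ℝ) : ℂ) hL2
      (by rw [Complex.ofReal_re]; have : 0 < L⁻¹ := by positivity
          linarith)
      (by rw [Complex.ofReal_re]; linarith)
      (by rw [Complex.ofReal_im, abs_zero]; exact (Real.exp_pos _).le)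
    have h3 : riemannZeta ((1 + ε : ℝ) : ℂ) = dslope Zf 1 ((1 + ε : ℝ) : ℂ) + ((1 / ε : ℝ) : ℂ) := by
      rw [h1]
      push_cast
      ring
    rw [h3]
    calc _ ≤ ‖dslope Zf 1 ((1 + ε : ℝ) : ℂ)‖ + ‖((1 / ε : ℝ) : ℂ)‖ := norm_add_le _ _
      _ ≤ C * L + 2 * ℓ := by
          apply add_le_add h2
          rw [Complex.norm_real, hεi, Real.norm_of_nonneg (by linarith)]
      _ ≤ 3 * ℓ := by linarith
  have hM : ∀ s : ℂ, s.re = 1 + 2 * ε → ‖LSeries (p18_f q χ β) s‖ ≤ 9 * ℓ ^ 2 := by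
    intro s hs
    calc ‖LSeries (p18_f q χ β) s‖ ≤ (1 / ε + 1) * ‖riemannZeta ((1 + ε : ℝ) : ℂ)‖ :=
          p18_M q χ β hβ1 ε hε s hs
      _ ≤ (3 * ℓ) * (3 * ℓ) := by
          apply mul_le_mul _ hζ (norm_nonneg _) (by linarith)
          rw [hεi]
          linarith
      _ = 9 * ℓ ^ 2 := by ring
  -- differentiability of the entire functions
  have hHd : Differentiable ℂ (dslope χ.LFunction β) := by
    have h1 := DirichletCharacter.differentiable_LFunction hE.ne
    rw [← differentiableOn_univ] at h1 ⊢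
    exact (Complex.differentiableOn_dslope (c := (β : ℂ)) univ_mem).mpr h1
  have hHd' : Differentiable ℂ (deriv (dslope χ.LFunction β)) := by
    have h1 := hHd
    rw [← differentiableOn_univ] at h1 ⊢
    exact h1.deriv isOpen_univ
  have hZd : Differentiable ℂ (dslope Zf 1) := by
    have h1 := hZ
    rw [← differentiableOn_univ] at h1 ⊢
    exact (Complex.differentiableOn_dslope (c := (1 : ℂ)) univ_mem).mpr h1
  have key := h_shift (p18_f q χ β)
    (fun s => -(deriv (dslope χ.LFunction β) s / dslope χ.LFunction β s) +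
      dslope Zf 1 (s + 1 - β)) (1 - (L ^ 41)⁻¹) (1 + 1 / ℓ) (Real.exp L) lam X (L ^ 37) (9 * ℓ ^ 2)
    (by linarith) (by linarith) (by linarith) (Real.one_le_exp hL0.le) hlam1 hX1 (by positivity)
    (by positivity)
    (by
      refine p18_sm q χ β hβ1 ε hε _ ?_
      rw [hε2, Complex.ofReal_re])
    (by
      intro s hs1 hs2 hs3
      have hin : InR L s := by
        refine ⟨?_, hs3⟩
        rw [abs_le]
        constructor <;> linarith
      obtain ⟨hne, hb⟩ := hH s hin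
      refine ⟨?_, ?_⟩
      · exact ((hHd' s).div (hHd s) hne).neg.add
          ((hZd (s + 1 - β)).comp s ((differentiableAt_id.add_const _).sub_const _))
      · calc _ ≤ ‖-(deriv (dslope χ.LFunction β) s / dslope χ.LFunction β s)‖ +
              ‖dslope Zf 1 (s + 1 - β)‖ := norm_add_le _ _
          _ ≤ L ^ 36 + C * L := by
              rw [norm_neg]
              apply add_le_add hb
              apply hzup L _ hL2
              · simp only [Complex.sub_re, Complex.add_re, Complex.one_re, Complex.ofReal_re]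
                linarith
              · simp only [Complex.sub_re, Complex.add_re, Complex.one_re, Complex.ofReal_re]
                linarith
              · simp only [Complex.sub_im, Complex.add_im, Complex.one_im, Complex.ofReal_im,
                  add_zero, sub_zero]
                exact hs3
          _ ≤ L ^ 37 := by
              have h1 : L ≤ L ^ 36 := by
                calc L = L ^ 1 := (pow_one L).symm
                  _ ≤ L ^ 36 := pow_le_pow_right₀ hL1 (by norm_num)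
              have h2 : C * L ≤ C * L ^ 36 := mul_le_mul_of_nonneg_left h1 (by linarith)
              have h3 : (1 + C) * L ^ 36 ≤ L * L ^ 36 :=
                mul_le_mul_of_nonneg_right hLC (by positivity)
              calc L ^ 36 + C * L ≤ (1 + C) * L ^ 36 := by linarith
                _ ≤ L * L ^ 36 := h3
                _ = L ^ 37 := by ring)
    (by
      intro t _
      apply p18_val q χ hE.ne β hβ1 hE.zero
      simp only [Complex.add_re, Complex.ofReal_re, Complex.mul_re, Complex.I_re, mul_zero,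
        Complex.ofReal_im, Complex.I_im, mul_one, sub_self, add_zero]
      linarith)
    (by
      intro t
      apply hM
      simp only [Complex.add_re, Complex.ofReal_re, Complex.mul_re, Complex.I_re, mul_zero,
        Complex.ofReal_im, Complex.I_im, mul_one, sub_self, add_zero]
      exact hε2.symm)
  exact key.trans (p18_num L lam X ℓ hL2 h37 h8 hX hℓ h43 hℓ2 hlam1 hlam2)

end Pool.Agent.MP8a4e59.P
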