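import Pool.Agent.Lib.MP_8a4e59_co.P.Stm2

/-! Piece P19: primes in arithmetic progressions, tent weights. -/

set_option autoImplicit false

open Complex
open ArithmeticFunction (vonMangoldt vonMangoldt_nonneg vonMangoldt_ne_zero_iff
  vonMangoldt_apply_pow vonMangoldt_apply_prime)
open Pool.Agent.MP89da58 (tri)

namespace Pool.Agent.MP8a4e59.P

/-! ### the terms not coprime to the modulus (copied from MP_89da58_nt/Bv) -/

private theorem p19_sum_not_coprime_le (N q : ℕ) (hq : q ≠ 0) :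
    ∑ n ∈ (Finset.Icc 1 N).filter (fun n => ¬ n.Coprime q), vonMangoldt n ≤ q * Real.log N := by
  classical
  rcases Nat.eq_zero_or_pos N with h0 | hN
  · subst h0; simp
  have hN' : (1 : ℝ) ≤ N := by exact_mod_cast hN
  -- only prime powers matter
  have h1 : ∑ n ∈ (Finset.Icc 1 N).filter (fun n => ¬ n.Coprime q), vonMangoldt n ≤
      ∑ p ∈ q.primeFactors, ∑ k ∈ Finset.Icc 1 (Nat.log p N), Real.log p := by
    have hsig : ∑ p ∈ q.primeFactors, ∑ k ∈ Finset.Icc 1 (Nat.log p N), Real.log p =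
        ∑ x ∈ q.primeFactors.sigma (fun p => Finset.Icc 1 (Nat.log p N)), vonMangoldt (x.1 ^ x.2) := by
      rw [Finset.sum_sigma]
      refine Finset.sum_congr rfl fun p hp => Finset.sum_congr rfl fun k hk => ?_
      have hp' := Nat.prime_of_mem_primeFactors hp
      have hk' : k ≠ 0 := by
        have := (Finset.mem_Icc.1 hk).1
        omega
      rw [vonMangoldt_apply_pow hk', vonMangoldt_apply_prime hp']
    rw [hsig]
    have hinj : Set.InjOn (fun x : (_ : ℕ) × ℕ => x.1 ^ x.2)
        (q.primeFactors.sigma (fun p => Finset.Icc 1 (Nat.log p N)) : Finset ((_ : ℕ) × ℕ)) := by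
      rintro ⟨p, k⟩ hx ⟨p', k'⟩ hy hxy
      simp only [Finset.coe_sigma, Set.mem_sigma_iff, Finset.mem_coe, Finset.mem_Icc] at hx hy
      simp only at hxy
      have hp := Nat.prime_of_mem_primeFactors hx.1
      have hp' := Nat.prime_of_mem_primeFactors hy.1
      have hk : k ≠ 0 := by omega
      have hk' : k' ≠ 0 := by omega
      have h2 : p = p' := by
        have h3 : p ∣ p' ^ k' := by rw [← hxy]; exact dvd_pow_self p hk
        exact (Nat.prime_dvd_prime_iff_eq hp hp').1 (hp.dvd_of_dvd_pow h3)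
      subst h2
      have h4 : k = k' := Nat.pow_right_injective hp.two_le hxy
      rw [h4]
    rw [← Finset.sum_image (g := fun x : (_ : ℕ) × ℕ => x.1 ^ x.2) (f := fun n => vonMangoldt n)
      hinj]
    have hsplit : ∑ n ∈ (Finset.Icc 1 N).filter (fun n => ¬ n.Coprime q), vonMangoldt n =
        ∑ n ∈ ((Finset.Icc 1 N).filter (fun n => ¬ n.Coprime q)).filter (fun n => vonMangoldt n ≠ 0),
          vonMangoldt n := (Finset.sum_filter_ne_zero _).symm
    rw [hsplit]
    refine Finset.sum_le_sum_of_subset_of_nonneg ?_ (fun _ _ _ => vonMangoldt_nonneg)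
    intro n hn
    simp only [Finset.mem_filter, Finset.mem_Icc] at hn
    obtain ⟨⟨⟨hn1, hn2⟩, hn3⟩, hn4⟩ := hn
    rw [vonMangoldt_ne_zero_iff, isPrimePow_nat_iff] at hn4
    obtain ⟨p, k, hp, hk, rfl⟩ := hn4
    have hpq : p ∣ q := by
      by_contra hcon
      exact hn3 (Nat.Coprime.pow_left k ((Nat.Prime.coprime_iff_not_dvd hp).2 hcon))
    refine Finset.mem_image.2 ⟨⟨p, k⟩, ?_, rfl⟩
    simp only [Finset.mem_sigma, Finset.mem_Icc]
    refine ⟨Nat.mem_primeFactors.2 ⟨hp, hpq, hq⟩, hk, ?_⟩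
    exact Nat.le_log_of_pow_le hp.one_lt hn2
  refine h1.trans ?_
  have h2 : ∀ p ∈ q.primeFactors, ∑ k ∈ Finset.Icc 1 (Nat.log p N), Real.log p ≤ Real.log N := by
    intro p hp
    have hp' := Nat.prime_of_mem_primeFactors hp
    rw [Finset.sum_const, Nat.card_Icc, Nat.add_sub_cancel, nsmul_eq_mul]
    rw [← Real.log_pow]
    apply Real.log_le_log
    · have : 0 < p ^ Nat.log p N := pow_pos hp'.pos _
      exact_mod_cast this
    · exact_mod_cast Nat.pow_log_le_self p (by omega)
  refine (Finset.sum_le_sum h2).trans ?_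
  rw [Finset.sum_const, nsmul_eq_mul]
  have h3 : q.primeFactors.card ≤ q := by
    have h4 : q.primeFactors ⊆ Finset.Icc 1 q := fun p hp => by
      have := Nat.prime_of_mem_primeFactors hp
      exact Finset.mem_Icc.2 ⟨this.one_le, Nat.le_of_mem_primeFactors hp⟩
    have := Finset.card_le_card h4
    rwa [Nat.card_Icc, Nat.add_sub_cancel] at this
  exact mul_le_mul_of_nonneg_right (by exact_mod_cast h3) (Real.log_nonneg hN')

private lemma p19_tri_nonneg (u : ℝ) : 0 ≤ tri u := le_max_left _ _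

private lemma p19_tri_le (u : ℝ) : tri u ≤ 1 := by
  unfold tri
  exact max_le zero_le_one (by linarith [abs_nonneg u])

private lemma p19_wS_sub (f g : ℕ → ℂ) (lam X : ℝ) :
    wS f lam X - wS g lam X = wS (fun n => f n - g n) lam X := by
  unfold wS
  rw [← Finset.sum_sub_distrib]
  exact Finset.sum_congr rfl fun n _ => by ring

private lemma p19_wS_mul (c : ℂ) (f : ℕ → ℂ) (lam X : ℝ) :
    wS (fun n => c * f n) lam X = c * wS f lam X := by
  unfold wS
  rw [Finset.mul_sum]
  exact Finset.sum_congr rfl fun n _ => by ring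

private lemma p19_wS_congr {f g : ℕ → ℂ} (lam X : ℝ) (h : ∀ n, f n = g n) :
    wS f lam X = wS g lam X := by
  rw [show f = g from funext h]

/-- passing to an inducing character -/
private lemma p19_sub_le {lam X : ℝ} (hX : 1 ≤ X) {q r : ℕ} (hq : q ≠ 0)
    (χ : DirichletCharacter ℂ q) (ψ : DirichletCharacter ℂ r)
    (h : ∀ n : ℕ, n.Coprime q → χ (n : ZMod q) = ψ (n : ZMod r)) :
    ‖wS (fun n => (vonMangoldt n : ℂ) * χ n) lam X - wS (fun n => (vonMangoldt n : ℂ) * ψ n) lam X‖ ≤
      q * Real.log (3 * X) := by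
  classical
  rw [p19_wS_sub]
  unfold wS
  have h1 : ∑ n ∈ Finset.Icc 1 ⌊3 * X⌋₊, ((vonMangoldt n : ℂ) * χ (n : ZMod q) -
      (vonMangoldt n : ℂ) * ψ (n : ZMod r)) * ((tri (lam * Real.log (n / X)) : ℝ) : ℂ) =
      ∑ n ∈ (Finset.Icc 1 ⌊3 * X⌋₊).filter (fun n => ¬ n.Coprime q),
        ((vonMangoldt n : ℂ) * χ (n : ZMod q) -
      (vonMangoldt n : ℂ) * ψ (n : ZMod r)) * ((tri (lam * Real.log (n / X)) : ℝ) : ℂ) := by
    symm
    refine Finset.sum_filter_of_ne ?_
    intro n _ hne hcop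
    apply hne
    rw [h n hcop, sub_self, zero_mul]
  rw [h1]
  refine (norm_sum_le _ _).trans ?_
  have h2 : ∀ n ∈ (Finset.Icc 1 ⌊3 * X⌋₊).filter (fun n => ¬ n.Coprime q),
      ‖((vonMangoldt n : ℂ) * χ (n : ZMod q) -
      (vonMangoldt n : ℂ) * ψ (n : ZMod r)) * ((tri (lam * Real.log (n / X)) : ℝ) : ℂ)‖ ≤
        vonMangoldt n := by
    intro n hn
    have hnc := (Finset.mem_filter.1 hn).2
    have h3 : χ (n : ZMod q) = 0 := by
      apply MulChar.map_nonunit
      rw [ZMod.isUnit_iff_coprime]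
      exact hnc
    rw [h3, mul_zero, zero_sub, norm_mul, norm_neg, norm_mul]
    have h4 : ‖ψ (n : ZMod r)‖ ≤ 1 := DirichletCharacter.norm_le_one ψ _
    have h5 : ‖(vonMangoldt n : ℂ)‖ = vonMangoldt n := by
      rw [Complex.norm_real, Real.norm_of_nonneg vonMangoldt_nonneg]
    have h6 : ‖((tri (lam * Real.log (n / X)) : ℝ) : ℂ)‖ ≤ 1 := by
      rw [Complex.norm_real, Real.norm_of_nonneg (p19_tri_nonneg _)]
      exact p19_tri_le _
    rw [h5]
    have h7 : 0 ≤ vonMangoldt n := vonMangoldt_nonneg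
    calc vonMangoldt n * ‖ψ (n : ZMod r)‖ * ‖((tri (lam * Real.log (n / X)) : ℝ) : ℂ)‖
        ≤ vonMangoldt n * 1 * 1 := by gcongr
      _ = vonMangoldt n := by ring
  refine (Finset.sum_le_sum h2).trans ((p19_sum_not_coprime_le _ q hq).trans ?_)
  refine mul_le_mul_of_nonneg_left ?_ (Nat.cast_nonneg _)
  have h1 : 1 ≤ ⌊3 * X⌋₊ := Nat.le_floor (by push_cast; linarith)
  exact Real.log_le_log (by exact_mod_cast h1) (Nat.floor_le (by linarith))

/-- orthogonality -/
private lemma p19_orth (lam X : ℝ) {q : ℕ} [NeZero q] (a : ℤ) (ha : IsUnit (a : ZMod q)) :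
    (Nat.totient q : ℂ) *
      wS (fun n => if (n : ZMod q) = (a : ZMod q) then (vonMangoldt n : ℂ) else 0) lam X =
      ∑ χ : DirichletCharacter ℂ q, χ ((a : ZMod q)⁻¹) *
        wS (fun n => (vonMangoldt n : ℂ) * χ n) lam X := by
  classical
  unfold wS
  simp only [Finset.mul_sum]
  rw [Finset.sum_comm]
  refine Finset.sum_congr rfl fun n _ => ?_
  have h1 := DirichletCharacter.sum_char_inv_mul_char_eq ℂ ha (n : ZMod q)
  have h2 : ∑ χ : DirichletCharacter ℂ q, χ ((a : ZMod q)⁻¹) *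
      ((vonMangoldt n : ℂ) * χ (n : ZMod q) * ((tri (lam * Real.log (n / X)) : ℝ) : ℂ)) =
      (∑ χ : DirichletCharacter ℂ q, χ ((a : ZMod q)⁻¹) * χ (n : ZMod q)) *
        ((vonMangoldt n : ℂ) * ((tri (lam * Real.log (n / X)) : ℝ) : ℂ)) := by
    rw [Finset.sum_mul]
    refine Finset.sum_congr rfl fun χ _ => ?_
    ring
  rw [h2, h1]
  by_cases h4 : (n : ZMod q) = (a : ZMod q)
  · rw [if_pos h4, if_pos h4.symm]
  · rw [if_neg h4, if_neg (fun h => h4 h.symm)]
    ring

/-- from characters to progressions -/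
private lemma p19_gen (lam X : ℝ) {q : ℕ} [NeZero q] (a : ℤ) (ha : IsUnit (a : ZMod q))
    (main : DirichletCharacter ℂ q → ℂ) (B : ℝ)
    (h : ∀ χ : DirichletCharacter ℂ q,
      ‖wS (fun n => (vonMangoldt n : ℂ) * χ n) lam X - main χ‖ ≤ B) :
    ‖wS (fun n => if (n : ZMod q) = (a : ZMod q) then (vonMangoldt n : ℂ) else 0) lam X -
      (1 / (Nat.totient q : ℂ)) * ∑ χ : DirichletCharacter ℂ q, χ ((a : ZMod q)⁻¹) * main χ‖ ≤
      B := by
  classical
  have hφ : (0 : ℝ) < Nat.totient q := by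
    exact_mod_cast Nat.totient_pos.2 (Nat.pos_of_ne_zero (NeZero.ne q))
  have hφ' : (Nat.totient q : ℂ) ≠ 0 := by
    exact_mod_cast hφ.ne'
  have h1 := p19_orth lam X a ha
  have h2 : wS (fun n => if (n : ZMod q) = (a : ZMod q) then (vonMangoldt n : ℂ) else 0) lam X -
      (1 / (Nat.totient q : ℂ)) * ∑ χ : DirichletCharacter ℂ q, χ ((a : ZMod q)⁻¹) * main χ =
      (1 / (Nat.totient q : ℂ)) * ∑ χ : DirichletCharacter ℂ q, χ ((a : ZMod q)⁻¹) *
        (wS (fun n => (vonMangoldt n : ℂ) * χ n) lam X - main χ) := by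
    simp only [mul_sub, Finset.sum_sub_distrib]
    rw [← h1]
    field_simp
  rw [h2, norm_mul]
  have h3 : ‖(1 / (Nat.totient q : ℂ))‖ = 1 / (Nat.totient q : ℝ) := by
    rw [norm_div, norm_one, Complex.norm_natCast]
  have h4 : ‖∑ χ : DirichletCharacter ℂ q, χ ((a : ZMod q)⁻¹) *
        (wS (fun n => (vonMangoldt n : ℂ) * χ n) lam X - main χ)‖ ≤ (Nat.totient q : ℝ) * B := by
    refine (norm_sum_le _ _).trans ?_
    have h5 : ∀ χ ∈ (Finset.univ : Finset (DirichletCharacter ℂ q)),
        ‖χ ((a : ZMod q)⁻¹) * (wS (fun n => (vonMangoldt n : ℂ) * χ n) lam X - main χ)‖ ≤ B := by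
      intro χ _
      rw [norm_mul]
      have h6 : ‖χ ((a : ZMod q)⁻¹)‖ ≤ 1 := DirichletCharacter.norm_le_one χ _
      calc _ ≤ 1 * ‖wS (fun n => (vonMangoldt n : ℂ) * χ n) lam X - main χ‖ :=
            mul_le_mul_of_nonneg_right h6 (norm_nonneg _)
        _ ≤ B := by rw [one_mul]; exact h χ
    refine (Finset.sum_le_sum h5).trans ?_
    rw [Finset.sum_const, nsmul_eq_mul, Finset.card_univ]
    have h7 := DirichletCharacter.card_eq_totient_of_hasEnoughRootsOfUnity ℂ q
    rw [Nat.card_eq_fintype_card] at h7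
    rw [h7]
  rw [h3]
  calc 1 / (Nat.totient q : ℝ) * _ ≤ 1 / (Nat.totient q : ℝ) * ((Nat.totient q : ℝ) * B) :=
        mul_le_mul_of_nonneg_left h4 (by positivity)
    _ = B := by field_simp

/-- the principal character -/
private lemma p19_princ {lam X B : ℝ} (hX : 1 ≤ X) {q : ℕ} (hq : q ≠ 0)
    (h : ‖wS (fun n => (vonMangoldt n : ℂ) - 1) lam X‖ ≤ B) :
    ‖wS (fun n => (vonMangoldt n : ℂ) * (1 : DirichletCharacter ℂ q) n) lam X -
      wS (fun _ => 1) lam X‖ ≤ q * Real.log (3 * X) + B := by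
  have h1 := p19_sub_le (lam := lam) hX hq (1 : DirichletCharacter ℂ q) (1 : DirichletCharacter ℂ 1)
    (fun n hn => by
      rw [MulChar.one_apply ((ZMod.isUnit_iff_coprime n q).2 hn), MulChar.one_apply]
      exact isUnit_of_subsingleton _)
  have h2 : wS (fun n => (vonMangoldt n : ℂ) * (1 : DirichletCharacter ℂ 1) n) lam X =
      wS (fun n => (vonMangoldt n : ℂ)) lam X := by
    refine p19_wS_congr lam X fun n => ?_
    rw [MulChar.one_apply (isUnit_of_subsingleton _), mul_one]
  rw [h2] at h1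
  have h3 : wS (fun n => (vonMangoldt n : ℂ)) lam X - wS (fun _ => 1) lam X =
      wS (fun n => (vonMangoldt n : ℂ) - 1) lam X := p19_wS_sub _ _ _ _
  rw [← h3] at h
  have h4 := norm_sub_le_norm_sub_add_norm_sub
    (wS (fun n => (vonMangoldt n : ℂ) * (1 : DirichletCharacter ℂ q) n) lam X)
    (wS (fun n => (vonMangoldt n : ℂ)) lam X) (wS (fun _ => 1) lam X)
  linarith

/-- non-principal characters without an exceptional zero -/
private lemma p19_other {lam X B : ℝ} (hX : 1 ≤ X) {q : ℕ} (hq : q ≠ 0)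
    (χ : DirichletCharacter ℂ q)
    (h : ‖wS (fun n => (vonMangoldt n : ℂ) * χ.primitiveCharacter n) lam X‖ ≤ B) :
    ‖wS (fun n => (vonMangoldt n : ℂ) * χ n) lam X - 0‖ ≤ q * Real.log (3 * X) + B := by
  have h1 := p19_sub_le (lam := lam) hX hq χ χ.primitiveCharacter (fun n hn => by
    have := χ.primitiveCharacter_apply_of_isCoprime (a := (n : ℤ)) (by
      rw [Nat.isCoprime_iff_coprime]; exact hn)
    push_cast at this
    exact this.symm)
  have h4 := norm_sub_le_norm_sub_add_norm_sub (wS (fun n => (vonMangoldt n : ℂ) * χ n) lam X)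
    (wS (fun n => (vonMangoldt n : ℂ) * χ.primitiveCharacter n) lam X) 0
  rw [sub_zero (wS (fun n => (vonMangoldt n : ℂ) * χ.primitiveCharacter n) lam X)] at h4
  linarith

/-- the exceptional character -/
private lemma p19_exc {lam X B β : ℝ} (hX : 1 ≤ X) {q q₁ : ℕ} (hq : q ≠ 0)
    (χ₁ : DirichletCharacter ℂ q₁) (hd : q₁ ∣ q)
    (h : ‖wS (fun n => (vonMangoldt n : ℂ) * χ₁ n + (((n : ℝ) ^ (β - 1) : ℝ) : ℂ)) lam X‖ ≤ B) :
    ‖wS (fun n => (vonMangoldt n : ℂ) * (DirichletCharacter.changeLevel hd χ₁) n) lam X -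
      (-wS (fun n => (((n : ℝ) ^ (β - 1) : ℝ) : ℂ)) lam X)‖ ≤ q * Real.log (3 * X) + B := by
  have h1 := p19_sub_le (lam := lam) hX hq (DirichletCharacter.changeLevel hd χ₁) χ₁
    (fun n hn => by
      have := DirichletCharacter.changeLevel_eq_cast_of_dvd' χ₁ hd (a := (n : ℤ)) (by
        rw [Nat.isCoprime_iff_coprime]; exact hn)
      push_cast at this
      exact this)
  have h2 : wS (fun n => (vonMangoldt n : ℂ) * χ₁ n) lam X -
      (-wS (fun n => (((n : ℝ) ^ (β - 1) : ℝ) : ℂ)) lam X) =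
      wS (fun n => (vonMangoldt n : ℂ) * χ₁ n + (((n : ℝ) ^ (β - 1) : ℝ) : ℂ)) lam X := by
    unfold wS
    rw [sub_neg_eq_add, ← Finset.sum_add_distrib]
    exact Finset.sum_congr rfl fun n _ => by ring
  rw [← h2] at h
  have h4 := norm_sub_le_norm_sub_add_norm_sub
    (wS (fun n => (vonMangoldt n : ℂ) * (DirichletCharacter.changeLevel hd χ₁) n) lam X)
    (wS (fun n => (vonMangoldt n : ℂ) * χ₁ n) lam X)
    (-wS (fun n => (((n : ℝ) ^ (β - 1) : ℝ) : ℂ)) lam X)
  linarith

/-- numerical estimate -/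
private lemma p19_num {L lam X : ℝ} (hL : 100 ≤ L) (hR : Rng L lam X) {q : ℕ}
    (hq : (q : ℝ) ≤ Real.exp L) :
    q * Real.log (3 * X) + X * Real.exp (-(L / 2)) ≤ X * Real.exp (-(L / 3)) := by
  obtain ⟨hX0, hX1, hX2, -, -⟩ := hR
  have h1 : Real.log (3 * X) ≤ Real.exp L := by
    rw [Real.log_mul (by norm_num) hX0.ne']
    have h2 : Real.log 3 ≤ 2 := by
      have := Real.log_le_sub_one_of_pos (show (0 : ℝ) < 3 by norm_num)
      linarith
    have h3 : Real.exp (L / 8) * 4 ≤ Real.exp L := by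
      have h4 : (4 : ℝ) ≤ Real.exp (7 * L / 8) := by
        have := Real.add_one_le_exp (7 * L / 8)
        linarith
      calc Real.exp (L / 8) * 4 ≤ Real.exp (L / 8) * Real.exp (7 * L / 8) := by gcongr
        _ = Real.exp L := by rw [← Real.exp_add]; congr 1; ring
    have h5 : 1 ≤ Real.exp (L / 8) := Real.one_le_exp (by linarith)
    linarith
  have h6 : (q : ℝ) * Real.log (3 * X) ≤ Real.exp L * Real.exp L := by
    have h7 : 0 ≤ (q : ℝ) := Nat.cast_nonneg _
    calc (q : ℝ) * Real.log (3 * X) ≤ q * Real.exp L := by gcongr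
      _ ≤ Real.exp L * Real.exp L := by gcongr
  have h8 : Real.exp L * Real.exp L ≤ X * Real.exp (-(L / 2)) := by
    have h9 : X = Real.exp (Real.log X) := (Real.exp_log hX0).symm
    rw [h9, ← Real.exp_add, ← Real.exp_add]
    apply Real.exp_le_exp.mpr
    have h10 : 3 * L ≤ L ^ 43 := by
      have h11 : (1 : ℝ) ≤ L := by linarith
      calc 3 * L ≤ L * L := by gcongr; linarith
        _ = L ^ 2 := by ring
        _ ≤ L ^ 43 := pow_le_pow_right₀ h11 (by norm_num)
    linarith
  have h12 : X * Real.exp (-(L / 2)) * 2 ≤ X * Real.exp (-(L / 3)) := by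
    have h13 : Real.exp (-(L / 3)) = Real.exp (-(L / 2)) * Real.exp (L / 6) := by
      rw [← Real.exp_add]; congr 1; ring
    have h14 : (2 : ℝ) ≤ Real.exp (L / 6) := by
      have := Real.add_one_le_exp (L / 6)
      linarith
    rw [h13]
    have h15 : 0 < Real.exp (-(L / 2)) := Real.exp_pos _
    calc X * Real.exp (-(L / 2)) * 2 ≤ X * Real.exp (-(L / 2)) * Real.exp (L / 6) := by gcongr
      _ = _ := by ring
  linarith

private lemma p19_unit {q : ℕ} {a : ℤ} (ha : IsCoprime a (q : ℤ)) : IsUnit (a : ZMod q) := by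
  rw [ZMod.coe_int_isUnit_iff_isCoprime]
  exact ha.symm

private lemma p19_X {L lam X : ℝ} (hL : 100 ≤ L) (hR : Rng L lam X) : 1 ≤ X := by
  obtain ⟨hX0, hX1, -, -, -⟩ := hR
  have h1 : 0 ≤ L ^ 43 := by positivity
  by_contra hcon
  push Not at hcon
  have := Real.log_neg hX0 hcon
  linarith

/-- an inverse of a unit under a character with real values -/
private lemma p19_inv {q : ℕ} (χ : DirichletCharacter ℂ q) (hχ : χ ^ 2 = 1) {a : ZMod q}
    (ha : IsUnit a) : χ (a⁻¹) = χ a ∧ ((χ a).re : ℂ) = χ a := by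
  have h1 : χ a * χ a = 1 := by
    have h2 : (χ ^ 2) a = 1 := by rw [hχ]; exact MulChar.one_apply ha
    rw [MulChar.pow_apply' χ (by norm_num)] at h2
    rw [← h2]; ring
  have h3 : χ (a⁻¹) * χ a = 1 := by
    rw [← map_mul, ZMod.inv_mul_of_unit a ha, map_one]
  have h4 : χ a ≠ 0 := by
    intro h
    rw [h] at h1
    simp at h1
  refine ⟨mul_right_cancel₀ h4 (h3.trans h1.symm), ?_⟩
  have h5 : (χ a - 1) * (χ a + 1) = 0 := by linear_combination h1
  rcases mul_eq_zero.1 h5 with h6 | h6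
  · have : χ a = 1 := by linear_combination h6
    rw [this]; simp
  · have : χ a = -1 := by linear_combination h6
    rw [this]; simp

theorem p_ap (h1 : S_psichi) (h2 : S_psione) (h3 : S_psiexc) (h4 : S_rep) : S_ap := by
  classical
  obtain ⟨L1, h1⟩ := h1
  obtain ⟨L2, h2⟩ := h2
  obtain ⟨L3, h3⟩ := h3
  obtain ⟨L4, h4⟩ := h4
  refine ⟨max (max (max L1 L2) (max L3 L4)) 100, fun L hL => ?_⟩
  have hL1 : L1 ≤ L := (le_max_left _ _).trans ((le_max_left _ _).trans ((le_max_left _ _).trans hL))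
  have hL2 : L2 ≤ L := (le_max_right _ _).trans ((le_max_left _ _).trans ((le_max_left _ _).trans hL))
  have hL3 : L3 ≤ L := (le_max_left _ _).trans ((le_max_right _ _).trans ((le_max_left _ _).trans hL))
  have hL4 : L4 ≤ L := (le_max_right _ _).trans ((le_max_right _ _).trans ((le_max_left _ _).trans hL))
  have hL5 : 100 ≤ L := (le_max_right _ _).trans hL
  specialize h1 L hL1
  specialize h2 L hL2
  specialize h3 L hL3
  specialize h4 L hL4
  -- a non-principal character whose primitive character has no exceptional zero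
  have key : ∀ (q : ℕ) [NeZero q] (lam X : ℝ) (χ : DirichletCharacter ℂ q), (q : ℝ) ≤ Real.exp L →
      Rng L lam X → χ ≠ 1 →
      (∀ (_ : NeZero χ.conductor) (β : ℝ), ¬ Exc L χ.conductor χ.primitiveCharacter β) →
      ‖wS (fun n => (vonMangoldt n : ℂ) * χ n) lam X - 0‖ ≤
        q * Real.log (3 * X) + X * Real.exp (-(L / 2)) := by
    intro q _ lam X χ hq hR hχ hne
    have hcz : NeZero χ.conductor := ⟨χ.conductor_ne_zero⟩
    refine p19_other (p19_X hL5 hR) (NeZero.ne q) χ ?_
    refine h1 χ.conductor χ.primitiveCharacter ?_ χ.primitiveCharacter_isPrimitive ?_ ?_ lam X hR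
    · refine le_trans ?_ hq
      exact_mod_cast Nat.le_of_dvd (Nat.pos_of_ne_zero (NeZero.ne q)) χ.conductor_dvd_level
    · intro h
      apply hχ
      have := χ.changeLevel_primitiveCharacter
      rw [h, DirichletCharacter.changeLevel_one] at this
      exact this.symm
    · rintro ⟨β, hβ⟩
      exact hne hcz β hβ
  -- evaluation when the exceptional character does not matter
  have simple : ∀ (q : ℕ) [NeZero q] (a : ℤ) (lam X : ℝ), (q : ℝ) ≤ Real.exp L →
      IsCoprime a (q : ℤ) → Rng L lam X →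
      (∀ χ : DirichletCharacter ℂ q, χ ≠ 1 → ∀ (_ : NeZero χ.conductor) (β : ℝ),
        ¬ Exc L χ.conductor χ.primitiveCharacter β) →
      ‖wS (fun n => if (n : ZMod q) = (a : ZMod q) then (vonMangoldt n : ℂ) else 0) lam X -
      (1 / (Nat.totient q : ℂ)) * wS (fun _ => 1) lam X‖ ≤ X * Real.exp (-(L / 3)) := by
    intro q _ a lam X hq ha hR hne
    have hu := p19_unit ha
    have h5 := p19_gen lam X a hu (fun χ => if χ = 1 then wS (fun _ => 1) lam X else 0)
      (q * Real.log (3 * X) + X * Real.exp (-(L / 2))) (by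
        intro χ
        by_cases hχ : χ = 1
        · subst hχ
          simp only [if_true]
          exact p19_princ (p19_X hL5 hR) (NeZero.ne q) (h2 lam X hR)
        · simp only [if_neg hχ]
          exact key q lam X χ hq hR hχ (hne χ hχ))
    have h6 : ∑ χ : DirichletCharacter ℂ q, χ ((a : ZMod q)⁻¹) *
        (if χ = 1 then wS (fun _ => 1) lam X else 0) = wS (fun _ => 1) lam X := by
      rw [Finset.sum_eq_single (1 : DirichletCharacter ℂ q)]
      · rw [if_pos rfl, (p19_inv 1 (one_pow 2) hu).1, MulChar.one_apply hu, one_mul]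
      · intro χ _ hχ
        rw [if_neg hχ, mul_zero]
      · intro h
        exact absurd (Finset.mem_univ _) h
    rw [h6] at h5
    exact h5.trans (p19_num hL5 hR hq)
  constructor
  · intro hno q _ a lam X hq ha hR
    have h5 := simple q a lam X hq ha hR (fun χ _ hcz β hβ => hno ⟨_, hcz, _, β, hβ⟩)
    have h6 : wS (fun n => ((1 - (0 : ℝ) : ℝ) : ℂ)) lam X = wS (fun _ => 1) lam X :=
      p19_wS_congr lam X fun n => by simp
    rw [h6]
    exact h5
  · intro q₁ _ χ₁ β₁ hE q _ a lam X hq ha hR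
    have hu := p19_unit ha
    -- exceptional zeros belong to `χ₁`
    have hrep : ∀ (χ : DirichletCharacter ℂ q) (_ : NeZero χ.conductor) (β : ℝ),
        Exc L χ.conductor χ.primitiveCharacter β →
        ∃ h : q₁ ∣ q, χ = DirichletCharacter.changeLevel h χ₁ := by
      intro χ hcz β hβ
      have h5 := (h4 _ _ χ.primitiveCharacter χ₁ β β₁ hβ hE).1
      have h6 : ∃ h : (⟨χ.conductor, χ.primitiveCharacter⟩ : Σ r, DirichletCharacter ℂ r).1 ∣ q,
          χ = DirichletCharacter.changeLevel h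
            (⟨χ.conductor, χ.primitiveCharacter⟩ : Σ r, DirichletCharacter ℂ r).2 :=
        ⟨χ.conductor_dvd_level, χ.changeLevel_primitiveCharacter.symm⟩
      rw [h5] at h6
      exact h6
    by_cases hd : q₁ ∣ q
    · obtain ⟨χ', hχ'⟩ : ∃ χ' : DirichletCharacter ℂ q,
        χ' = DirichletCharacter.changeLevel hd χ₁ := ⟨_, rfl⟩
      have hχ1 : χ' ≠ 1 := by
        rw [hχ', Ne, DirichletCharacter.changeLevel_eq_one_iff]
        exact hE.ne
      have hsq : χ' ^ 2 = 1 := by
        rw [hχ', ← map_pow, hE.quad, map_one]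
      have h5 := p19_gen lam X a hu (fun χ => if χ = 1 then wS (fun _ => 1) lam X else
        if χ = χ' then -wS (fun n => (((n : ℝ) ^ (β₁ - 1) : ℝ) : ℂ)) lam X else 0)
        (q * Real.log (3 * X) + X * Real.exp (-(L / 2))) (by
          intro χ
          by_cases hχ : χ = 1
          · subst hχ
            simp only [if_true]
            exact p19_princ (p19_X hL5 hR) (NeZero.ne q) (h2 lam X hR)
          · by_cases hχ2 : χ = χ'
            · simp only [if_neg hχ, if_pos hχ2]
              rw [hχ2, hχ']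
              exact p19_exc (p19_X hL5 hR) (NeZero.ne q) χ₁ hd (h3 q₁ χ₁ β₁ hE lam X hR)
            · simp only [if_neg hχ, if_neg hχ2]
              refine key q lam X χ hq hR hχ ?_
              intro hcz β hβ
              obtain ⟨h', h6⟩ := hrep χ hcz β hβ
              exact hχ2 (h6.trans hχ'.symm))
      have hval : χ' ((a : ZMod q)) = χ₁ (a : ZMod q₁) := by
        rw [hχ']
        exact DirichletCharacter.changeLevel_eq_cast_of_dvd' χ₁ hd ha
      have h6 : ∑ χ : DirichletCharacter ℂ q, χ ((a : ZMod q)⁻¹) *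
          (if χ = 1 then wS (fun _ => 1) lam X else
            if χ = χ' then -wS (fun n => (((n : ℝ) ^ (β₁ - 1) : ℝ) : ℂ)) lam X else 0) =
          wS (fun _ => 1) lam X +
            χ' (a : ZMod q) * (-wS (fun n => (((n : ℝ) ^ (β₁ - 1) : ℝ) : ℂ)) lam X) := by
        have h7 : ∀ χ : DirichletCharacter ℂ q, χ ((a : ZMod q)⁻¹) *
            (if χ = 1 then wS (fun _ => 1) lam X else
            if χ = χ' then -wS (fun n => (((n : ℝ) ^ (β₁ - 1) : ℝ) : ℂ)) lam X else 0) =
            (if χ = 1 then χ ((a : ZMod q)⁻¹) * wS (fun _ => 1) lam X else 0) +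
            (if χ = χ' then χ ((a : ZMod q)⁻¹) *
              (-wS (fun n => (((n : ℝ) ^ (β₁ - 1) : ℝ) : ℂ)) lam X) else 0) := by
          intro χ
          by_cases hχ : χ = 1
          · rw [if_pos hχ, if_pos hχ, if_neg (fun h => hχ1 (h.symm.trans hχ)), add_zero]
          · rw [if_neg hχ, if_neg hχ, zero_add]
            split_ifs
            · rfl
            · rw [mul_zero]
        rw [Finset.sum_congr rfl fun χ _ => h7 χ, Finset.sum_add_distrib, Finset.sum_ite_eq',
          Finset.sum_ite_eq', if_pos (Finset.mem_univ _), if_pos (Finset.mem_univ _),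
          (p19_inv 1 (one_pow 2) hu).1, MulChar.one_apply hu, one_mul, (p19_inv χ' hsq hu).1]
      rw [h6] at h5
      have h8 : wS (fun n => ((1 - thE q₁ χ₁ β₁ q a n : ℝ) : ℂ)) lam X =
          wS (fun _ => 1) lam X +
            χ' (a : ZMod q) * (-wS (fun n => (((n : ℝ) ^ (β₁ - 1) : ℝ) : ℂ)) lam X) := by
        rw [mul_neg, ← sub_eq_add_neg, ← p19_wS_mul, p19_wS_sub]
        refine p19_wS_congr lam X fun n => ?_
        unfold thE
        rw [if_pos hd, ← hval]
        push_cast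
        rw [(p19_inv χ' hsq hu).2]
      rw [h8]
      exact h5.trans (p19_num hL5 hR hq)
    · have h5 := simple q a lam X hq ha hR (fun χ _ hcz β hβ => hd (hrep χ hcz β hβ).1)
      have h6 : wS (fun n => ((1 - thE q₁ χ₁ β₁ q a n : ℝ) : ℂ)) lam X = wS (fun _ => 1) lam X :=
        p19_wS_congr lam X fun n => by
          unfold thE
          rw [if_neg hd]
          simp
      rw [h6]
      exact h5

end Pool.Agent.MP8a4e59.P
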