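/-
MP_8a4e59_co, part P, [8a P20]: from tent weights to sharp intervals (helper8).
-/
import Pool.Agent.Lib.MP_8a4e59_co.P.Stm2

set_option autoImplicit false

open Complex Finset
open ArithmeticFunction (vonMangoldt)
open Pool.Agent.MP89da58 (tri)

namespace Pool.Agent.MP8a4e59.P

private lemma p20_tri_nonneg (u : ℝ) : 0 ≤ tri u := le_max_left _ _

private lemma p20_tri_zero {u : ℝ} (h : 1 ≤ |u|) : tri u = 0 := by
  unfold tri
  exact max_eq_left (by linarith)

private lemma p20_tri_far (u : ℝ) (j : ℤ) (h1 : j ≠ ⌊u⌋) (h2 : j ≠ ⌊u⌋ + 1) : tri (u - j) = 0 := by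
  apply p20_tri_zero
  have hk1 := Int.floor_le u
  have hk2 := Int.lt_floor_add_one u
  rcases lt_trichotomy j ⌊u⌋ with h | h | h
  · have h3 : (j : ℝ) + 1 ≤ (⌊u⌋ : ℝ) := by exact_mod_cast h
    rw [abs_of_nonneg (by linarith)]
    linarith
  · exact absurd h h1
  · have h3 : ⌊u⌋ + 2 ≤ j := by omega
    have h4 : ((⌊u⌋ : ℤ) : ℝ) + 2 ≤ (j : ℝ) := by exact_mod_cast h3
    rw [abs_of_nonpos (by linarith)]
    linarith

private lemma p20_tri_pair (u : ℝ) : tri (u - (⌊u⌋ : ℤ)) + tri (u - ((⌊u⌋ + 1 : ℤ) : ℝ)) = 1 := by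
  have hk1 := Int.floor_le u
  have hk2 := Int.lt_floor_add_one u
  unfold tri
  push_cast
  rw [abs_of_nonneg (by linarith), abs_of_nonpos (by linarith), max_eq_right (by linarith),
    max_eq_right (by linarith)]
  ring

private lemma p20_sum_le (u : ℝ) (J : Finset ℤ) : ∑ j ∈ J, tri (u - j) ≤ 1 := by
  classical
  have h1 : ∑ j ∈ J, tri (u - j) = ∑ j ∈ J ∩ {⌊u⌋, ⌊u⌋ + 1}, tri (u - j) := by
    symm
    apply Finset.sum_subset Finset.inter_subset_left
    intro j hj hj2
    apply p20_tri_far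
    · rintro rfl
      exact hj2 (Finset.mem_inter.mpr ⟨hj, by simp⟩)
    · rintro rfl
      exact hj2 (Finset.mem_inter.mpr ⟨hj, by simp⟩)
  rw [h1]
  calc ∑ j ∈ J ∩ {⌊u⌋, ⌊u⌋ + 1}, tri (u - j) ≤ ∑ j ∈ ({⌊u⌋, ⌊u⌋ + 1} : Finset ℤ), tri (u - j) :=
        Finset.sum_le_sum_of_subset_of_nonneg Finset.inter_subset_right
          (fun j _ _ => p20_tri_nonneg _)
    _ = 1 := by
        rw [Finset.sum_pair (by omega)]
        exact p20_tri_pair u

private lemma p20_sum_eq (u : ℝ) (j0 j1 : ℤ) (h0 : (j0 : ℝ) ≤ u) (h1 : u < j1) :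
    ∑ j ∈ Finset.Icc j0 j1, tri (u - j) = 1 := by
  classical
  have hk1 : j0 ≤ ⌊u⌋ := Int.le_floor.mpr h0
  have hk2 : ⌊u⌋ + 1 ≤ j1 := by
    have := Int.floor_lt.mpr h1
    omega
  have h2 : ∑ j ∈ ({⌊u⌋, ⌊u⌋ + 1} : Finset ℤ), tri (u - j) = ∑ j ∈ Finset.Icc j0 j1, tri (u - j) := by
    apply Finset.sum_subset
    · intro j hj
      simp only [Finset.mem_insert, Finset.mem_singleton] at hj
      rw [Finset.mem_Icc]
      omega
    · intro j _ hj2
      apply p20_tri_far
      · rintro rfl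
        exact hj2 (by simp)
      · rintro rfl
        exact hj2 (by simp)
  rw [← h2, Finset.sum_pair (by omega)]
  exact p20_tri_pair u

/-- real version of the weighted sum -/
private noncomputable def p20_w (c : ℕ → ℝ) (lam X : ℝ) : ℝ :=
  ∑ n ∈ Finset.Icc 1 ⌊3 * X⌋₊, c n * tri (lam * Real.log (n / X))

private lemma p20_wS (c : ℕ → ℝ) (lam X : ℝ) :
    wS (fun n => ((c n : ℝ) : ℂ)) lam X = ((p20_w c lam X : ℝ) : ℂ) := by
  unfold wS p20_w
  push_cast
  rfl

private lemma p20_log_div {lam : ℝ} (hlam : 0 < lam) (j : ℤ) {n : ℕ} (hn : 1 ≤ n) :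
    lam * Real.log (n / Real.exp (j / lam)) = lam * Real.log n - j := by
  have h0 : (0 : ℝ) < n := by exact_mod_cast hn
  rw [Real.log_div h0.ne' (Real.exp_pos _).ne', Real.log_exp]
  field_simp

/-- One sequence: replace the sharp sum by tents. -/
private lemma p20_one {lam Y Z B : ℝ} (hlam : 2 ≤ lam) {y z : ℕ} (hz : 1 ≤ z) (hY : 0 < Y)
    (hyY : (y : ℝ) ≤ Y) (hZ : Z = z) (c : ℕ → ℝ) (hB : 0 ≤ B) (hc : ∀ n ∈ Finset.Ioc y z, |c n| ≤ B) :
    |∑ n ∈ Finset.Ioc y z, c n -
      ∑ j ∈ Finset.Icc (⌈lam * Real.log Y⌉ + 1) (⌊lam * Real.log Z⌋ - 1),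
        p20_w c lam (Real.exp (j / lam))| ≤
      B * ((Y * Real.exp (2 / lam) - y) + (Z - Z * Real.exp (-(2 / lam)) + 1)) := by
  classical
  have hlam0 : 0 < lam := by linarith
  have hZ0 : 0 < Z := by rw [hZ]; exact_mod_cast hz
  set j0 : ℤ := ⌈lam * Real.log Y⌉ + 1 with hj0
  set j1 : ℤ := ⌊lam * Real.log Z⌋ - 1 with hj1
  have hceil := Int.le_ceil (lam * Real.log Y)
  have hceil2 := Int.ceil_lt_add_one (lam * Real.log Y)
  have hfl := Int.floor_le (lam * Real.log Z)
  have hfl2 := Int.lt_floor_add_one (lam * Real.log Z)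
  have hj0r : (j0 : ℝ) = (⌈lam * Real.log Y⌉ : ℝ) + 1 := by rw [hj0]; push_cast; ring
  have hj1r : (j1 : ℝ) = (⌊lam * Real.log Z⌋ : ℝ) - 1 := by rw [hj1]; push_cast; ring
  -- the tents live in `(y, z]`
  have hsupp : ∀ j ∈ Finset.Icc j0 j1, ∀ n : ℕ, 1 ≤ n → tri (lam * Real.log n - j) ≠ 0 →
      y < n ∧ n ≤ z := by
    intro j hj n hn ht
    rw [Finset.mem_Icc] at hj
    have hj0' : (j0 : ℝ) ≤ j := by exact_mod_cast hj.1
    have hj1' : (j : ℝ) ≤ j1 := by exact_mod_cast hj.2
    have habs : |lam * Real.log n - j| < 1 := by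
      by_contra hcon
      exact ht (p20_tri_zero (not_lt.mp hcon))
    rw [abs_lt] at habs
    have hn0 : (0 : ℝ) < n := by exact_mod_cast hn
    have h1 : lam * Real.log Y < lam * Real.log n := by linarith
    have h2 : lam * Real.log n < lam * Real.log Z := by linarith
    have h3 : Real.log Y < Real.log n := lt_of_mul_lt_mul_left h1 hlam0.le
    have h4 : Real.log n < Real.log Z := lt_of_mul_lt_mul_left h2 hlam0.le
    have h5 : Y < n := (Real.log_lt_log_iff hY hn0).mp h3
    have h6 : (n : ℝ) < Z := (Real.log_lt_log_iff hn0 hZ0).mp h4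
    constructor
    · have : (y : ℝ) < n := lt_of_le_of_lt hyY h5
      exact_mod_cast this
    · rw [hZ] at h6
      have : n < z := by exact_mod_cast h6
      exact this.le
  -- each tent sum as a sum over `(y, z]`
  have hw : ∀ j ∈ Finset.Icc j0 j1, p20_w c lam (Real.exp (j / lam)) =
      ∑ n ∈ Finset.Ioc y z, c n * tri (lam * Real.log n - j) := by
    intro j hj
    unfold p20_w
    have e1 : ∑ n ∈ Finset.Icc 1 ⌊3 * Real.exp (j / lam)⌋₊,
        c n * tri (lam * Real.log (n / Real.exp (j / lam))) =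
        ∑ n ∈ Finset.Icc 1 ⌊3 * Real.exp (j / lam)⌋₊, c n * tri (lam * Real.log n - j) := by
      apply Finset.sum_congr rfl
      intro n hn
      rw [p20_log_div hlam0 j (Finset.mem_Icc.mp hn).1]
    rw [e1]
    have e2 : ∑ n ∈ Finset.Icc 1 ⌊3 * Real.exp (j / lam)⌋₊ ∩ Finset.Ioc y z,
        c n * tri (lam * Real.log n - j) =
        ∑ n ∈ Finset.Icc 1 ⌊3 * Real.exp (j / lam)⌋₊, c n * tri (lam * Real.log n - j) := by
      apply Finset.sum_subset Finset.inter_subset_left
      intro n hn hn2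
      by_cases ht : tri (lam * Real.log n - j) = 0
      · rw [ht, mul_zero]
      · exfalso
        have := hsupp j hj n (Finset.mem_Icc.mp hn).1 ht
        exact hn2 (Finset.mem_inter.mpr ⟨hn, Finset.mem_Ioc.mpr this⟩)
    have e3 : ∑ n ∈ Finset.Icc 1 ⌊3 * Real.exp (j / lam)⌋₊ ∩ Finset.Ioc y z,
        c n * tri (lam * Real.log n - j) =
        ∑ n ∈ Finset.Ioc y z, c n * tri (lam * Real.log n - j) := by
      apply Finset.sum_subset Finset.inter_subset_right
      intro n hn hn2
      have hn1 : 1 ≤ n := by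
        have := (Finset.mem_Ioc.mp hn).1
        omega
      have hn3 : 3 * Real.exp (j / lam) < n := by
        by_contra hcon
        rw [not_lt] at hcon
        exact hn2 (Finset.mem_inter.mpr ⟨Finset.mem_Icc.mpr ⟨hn1, Nat.le_floor hcon⟩, hn⟩)
      have hn0 : (0 : ℝ) < n := by exact_mod_cast hn1
      have h3 : Real.log 3 + j / lam < Real.log n := by
        have := Real.log_lt_log (by positivity) hn3
        rwa [Real.log_mul (by norm_num) (Real.exp_pos _).ne', Real.log_exp] at this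
      have h4 : (1 : ℝ) ≤ Real.log 3 := by
        rw [Real.le_log_iff_exp_le (by norm_num)]
        linarith [Real.exp_one_lt_d9]
      have h5 : 1 ≤ lam * Real.log n - j := by
        have h6 : lam * (Real.log 3 + j / lam) < lam * Real.log n :=
          mul_lt_mul_of_pos_left h3 hlam0
        have h7 : lam * (Real.log 3 + j / lam) = lam * Real.log 3 + j := by field_simp
        nlinarith
      rw [p20_tri_zero (by rw [abs_of_nonneg (by linarith)]; exact h5), mul_zero]
    rw [← e2, e3]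
  rw [Finset.sum_congr rfl hw, Finset.sum_comm, ← Finset.sum_sub_distrib]
  set Ψ : ℕ → ℝ := fun n => ∑ j ∈ Finset.Icc j0 j1, tri (lam * Real.log n - j) with hΨ
  have h0 : ∀ n, 0 ≤ Ψ n := fun n => Finset.sum_nonneg fun j _ => p20_tri_nonneg _
  have h1 : ∀ n, Ψ n ≤ 1 := fun n => p20_sum_le _ _
  set A : ℝ := Y * Real.exp (2 / lam) with hA
  set D : ℝ := Z * Real.exp (-(2 / lam)) with hD
  have hA0 : 0 < A := by positivity
  have hD0 : 0 < D := by positivity
  have hyA : (y : ℝ) ≤ A := by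
    have : 1 ≤ Real.exp (2 / lam) := Real.one_le_exp (by positivity)
    rw [hA]
    nlinarith
  have hDZ : D ≤ Z := by
    have : Real.exp (-(2 / lam)) ≤ 1 := Real.exp_le_one_iff.mpr (by
      have : 0 < 2 / lam := by positivity
      linarith)
    rw [hD]
    nlinarith
  have hone : ∀ n ∈ Finset.Ioc y z, A ≤ n → (n : ℝ) ≤ D → Ψ n = 1 := by
    intro n hn hnA hnD
    have hn0 : (0 : ℝ) < n := lt_of_lt_of_le hA0 hnA
    have h3 : Real.log Y + 2 / lam ≤ Real.log n := by
      have := Real.log_le_log hA0 hnA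
      rwa [hA, Real.log_mul hY.ne' (Real.exp_pos _).ne', Real.log_exp] at this
    have h4 : Real.log n ≤ Real.log Z - 2 / lam := by
      have := Real.log_le_log hn0 hnD
      rw [hD, Real.log_mul hZ0.ne' (Real.exp_pos _).ne', Real.log_exp] at this
      linarith
    have h5 : lam * (Real.log Y + 2 / lam) = lam * Real.log Y + 2 := by field_simp
    have h6 : lam * (Real.log Z - 2 / lam) = lam * Real.log Z - 2 := by field_simp
    have h7 := mul_le_mul_of_nonneg_left h3 hlam0.le
    have h8 := mul_le_mul_of_nonneg_left h4 hlam0.le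
    apply p20_sum_eq
    · linarith
    · linarith
  have hterm : ∀ n ∈ Finset.Ioc y z, |c n - ∑ j ∈ Finset.Icc j0 j1, c n * tri (lam * Real.log n - j)| ≤
      B * ((if (n : ℝ) < A then 1 else 0) + (if D < (n : ℝ) then 1 else 0)) := by
    intro n hn
    rw [← Finset.mul_sum]
    have e : c n - c n * ∑ j ∈ Finset.Icc j0 j1, tri (lam * Real.log n - j) = c n * (1 - Ψ n) := by
      rw [hΨ]; ring
    rw [e, abs_mul, abs_of_nonneg (a := 1 - Ψ n) (by linarith [h1 n])]
    by_cases hA' : (n : ℝ) < A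
    · rw [if_pos hA']
      have : 1 - Ψ n ≤ 1 + (if D < (n : ℝ) then (1 : ℝ) else 0) := by
        have := h0 n
        split_ifs <;> linarith
      exact mul_le_mul (hc n hn) this (by linarith [h1 n]) hB
    · by_cases hD' : D < (n : ℝ)
      · rw [if_neg hA', if_pos hD']
        exact mul_le_mul (hc n hn) (by linarith [h0 n]) (by linarith [h1 n]) hB
      · rw [hone n hn (not_lt.mp hA') (not_lt.mp hD'), sub_self, mul_zero, if_neg hA', if_neg hD']
        simp
  refine (Finset.abs_sum_le_sum_abs _ _).trans ((Finset.sum_le_sum hterm).trans ?_)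
  rw [← Finset.mul_sum, Finset.sum_add_distrib]
  refine mul_le_mul_of_nonneg_left (add_le_add ?_ ?_) hB
  · rw [← Finset.sum_filter, Finset.sum_const, nsmul_eq_mul, mul_one]
    have hsub : (Finset.Ioc y z).filter (fun n : ℕ => (n : ℝ) < A) ⊆ Finset.Ioc y ⌊A⌋₊ := by
      intro n hn
      rw [Finset.mem_filter, Finset.mem_Ioc] at hn
      rw [Finset.mem_Ioc]
      exact ⟨hn.1.1, Nat.le_floor hn.2.le⟩
    have hcard := Finset.card_le_card hsub
    rw [Nat.card_Ioc] at hcard
    have hfy : y ≤ ⌊A⌋₊ := Nat.le_floor hyA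
    have : (((Finset.Ioc y z).filter (fun n : ℕ => (n : ℝ) < A)).card : ℝ) ≤
        ((⌊A⌋₊ - y : ℕ) : ℝ) := by exact_mod_cast hcard
    rw [Nat.cast_sub hfy] at this
    have h9 := Nat.floor_le hA0.le
    linarith
  · rw [← Finset.sum_filter, Finset.sum_const, nsmul_eq_mul, mul_one]
    have hsub : (Finset.Ioc y z).filter (fun n : ℕ => D < (n : ℝ)) ⊆ Finset.Ioc ⌊D⌋₊ z := by
      intro n hn
      rw [Finset.mem_filter, Finset.mem_Ioc] at hn
      rw [Finset.mem_Ioc]
      exact ⟨(Nat.floor_lt hD0.le).mpr hn.2, hn.1.2⟩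
    have hcard := Finset.card_le_card hsub
    rw [Nat.card_Ioc] at hcard
    have hfz : ⌊D⌋₊ ≤ z := by
      have : ⌊D⌋₊ ≤ ⌊(z : ℝ)⌋₊ := Nat.floor_le_floor (by rw [← hZ]; exact hDZ)
      simpa using this
    have : (((Finset.Ioc y z).filter (fun n : ℕ => D < (n : ℝ))).card : ℝ) ≤
        ((z - ⌊D⌋₊ : ℕ) : ℝ) := by exact_mod_cast hcard
    rw [Nat.cast_sub hfz] at this
    have h9 := Nat.lt_floor_add_one D
    linarith

/-- [8a P20] -/
theorem p_sharp : S_sharp := by
  classical
  refine ⟨1000, ?_⟩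
  intro L hL th hth hap N q _ a y z hN1 hN2 hqL hcop hyz hzN
  have hL0 : 0 < L := by linarith
  have hL1 : 1 ≤ L := by linarith
  set lam : ℝ := Real.exp (L / 10) with hlam
  have hlamL : L / 10 + 1 ≤ lam := Real.add_one_le_exp _
  have hlam2 : 2 ≤ lam := by linarith
  have hlam0 : 0 < lam := by linarith
  have hL43 : L ≤ L ^ 43 := le_self_pow₀ hL1 (by norm_num)
  have hL44 : L ^ 44 = L * L ^ 43 := by ring
  have hL43' : 0 < L ^ 43 := by positivity
  have hlogN : 1000 * L ^ 43 ≤ Real.log N := by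
    rw [hL44] at hN1
    nlinarith
  have hN0 : 0 < (N : ℝ) := by
    by_contra hcon
    have : N = 0 := by
      have := not_lt.mp hcon
      exact_mod_cast le_antisymm this (Nat.cast_nonneg N)
    rw [this] at hlogN
    simp at hlogN
    linarith
  have hq0 : 0 < (Nat.totient q : ℝ) := by
    exact_mod_cast Nat.totient_pos.mpr (Nat.pos_of_ne_zero (NeZero.ne q))
  have hq1 : (1 : ℝ) ≤ (Nat.totient q : ℝ) := by
    exact_mod_cast Nat.totient_pos.mpr (Nat.pos_of_ne_zero (NeZero.ne q))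
  have hqi : 1 / (Nat.totient q : ℝ) ≤ 1 := by
    rw [div_le_one hq0]
    exact hq1
  have hqi0 : 0 ≤ 1 / (Nat.totient q : ℝ) := by positivity
  rcases Nat.eq_zero_or_pos z with hz0 | hz0
  · have hy0 : y = 0 := by omega
    rw [hz0, hy0]
    simp
    positivity
  set Z : ℝ := (z : ℝ) with hZ
  have hZ0 : 0 < Z := by rw [hZ]; exact_mod_cast hz0
  have hZN : Z ≤ N := by rw [hZ]; exact_mod_cast hzN
  set Y : ℝ := max (y : ℝ) (N * Real.exp (-(L / 20))) with hY
  have hY0 : 0 < Y := lt_of_lt_of_le (by positivity) (le_max_right _ _)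
  have hyY : (y : ℝ) ≤ Y := le_max_left _ _
  have hexp1 : Real.exp (-(L / 20)) ≤ 1 := Real.exp_le_one_iff.mpr (by linarith)
  have hYN : Y ≤ N := by
    apply max_le
    · exact_mod_cast hyz.trans hzN
    · nlinarith
  have hYy : Y ≤ y + N * Real.exp (-(L / 20)) := by
    apply max_le
    · have : 0 ≤ (N : ℝ) * Real.exp (-(L / 20)) := by positivity
      linarith
    · have : (0 : ℝ) ≤ y := Nat.cast_nonneg y
      linarith
  have hlogY : Real.log N - L / 20 ≤ Real.log Y := by
    have h1 : Real.log (N * Real.exp (-(L / 20))) ≤ Real.log Y :=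
      Real.log_le_log (by positivity) (le_max_right _ _)
    rw [Real.log_mul hN0.ne' (Real.exp_pos _).ne', Real.log_exp] at h1
    linarith
  have hlogZ : Real.log Z ≤ Real.log N := Real.log_le_log hZ0 hZN
  -- the two sequences
  set c1 : ℕ → ℝ := fun n => if (n : ZMod q) = (a : ZMod q) then vonMangoldt n else 0 with hc1
  set c2 : ℕ → ℝ := fun n => 1 - th q a n with hc2
  set B : ℝ := Real.log N + 2 with hB
  have hlogN0 : 0 ≤ Real.log N := by nlinarith
  have hB0 : 0 ≤ B := by linarith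
  have hb1 : ∀ n ∈ Finset.Ioc y z, |c1 n| ≤ B := by
    intro n hn
    rw [Finset.mem_Ioc] at hn
    have hn1 : 1 ≤ n := by omega
    have hvm : (vonMangoldt n : ℝ) ≤ Real.log N := by
      refine ArithmeticFunction.vonMangoldt_le_log.trans ?_
      exact Real.log_le_log (by exact_mod_cast hn1) (by exact_mod_cast hn.2.trans hzN)
    rw [hc1]
    dsimp only
    split_ifs
    · rw [abs_of_nonneg ArithmeticFunction.vonMangoldt_nonneg]
      linarith
    · rw [abs_zero]
      exact hB0
  have hb2 : ∀ n ∈ Finset.Ioc y z, |c2 n| ≤ B := by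
    intro n _
    have h1 := abs_le.mp (hth q a n)
    rw [hc2]
    dsimp only
    rw [abs_le]
    constructor <;> linarith
  have hone1 := p20_one (Z := Z) hlam2 hz0 hY0 hyY hZ c1 hB0 hb1
  have hone2 := p20_one (Z := Z) hlam2 hz0 hY0 hyY hZ c2 hB0 hb2
  set J : Finset ℤ := Finset.Icc (⌈lam * Real.log Y⌉ + 1) (⌊lam * Real.log Z⌋ - 1) with hJ
  set R : ℝ := (Y * Real.exp (2 / lam) - y) + (Z - Z * Real.exp (-(2 / lam)) + 1) with hR
  have hceil := Int.le_ceil (lam * Real.log Y)
  have hfl := Int.floor_le (lam * Real.log Z)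
  -- the tents
  have hj : ∀ j ∈ J, |p20_w c1 lam (Real.exp (j / lam)) -
      1 / (Nat.totient q : ℝ) * p20_w c2 lam (Real.exp (j / lam))| ≤ N * Real.exp (-(L / 3)) := by
    intro j hj
    rw [hJ, Finset.mem_Icc] at hj
    have h1 : ((⌈lam * Real.log Y⌉ + 1 : ℤ) : ℝ) ≤ j := by exact_mod_cast hj.1
    have h2 : (j : ℝ) ≤ ((⌊lam * Real.log Z⌋ - 1 : ℤ) : ℝ) := by exact_mod_cast hj.2
    push_cast at h1 h2
    have h3 : Real.log Y ≤ j / lam := by
      rw [le_div_iff₀ hlam0]
      linarith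
    have h4 : j / lam ≤ Real.log Z := by
      rw [div_le_iff₀ hlam0]
      linarith
    have hrng : Rng L lam (Real.exp (j / lam)) := by
      refine ⟨Real.exp_pos _, ?_, ?_, by linarith, Real.exp_le_exp.mpr (by linarith)⟩
      · rw [Real.log_exp]
        linarith
      · rw [Real.log_exp]
        have : Real.exp (L / 100) ≤ Real.exp (L / 8) := Real.exp_le_exp.mpr (by linarith)
        linarith
    have h5 := hap q a lam (Real.exp (j / lam)) hqL hcop hrng
    have e1 : (fun n : ℕ => if (n : ZMod q) = (a : ZMod q) then ((vonMangoldt n : ℝ) : ℂ) else 0) =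
        fun n => ((c1 n : ℝ) : ℂ) := by
      funext n
      rw [hc1]
      dsimp only
      split_ifs <;> simp
    rw [e1, p20_wS, show (fun n : ℕ => ((1 - th q a n : ℝ) : ℂ)) = fun n => ((c2 n : ℝ) : ℂ) from rfl,
      p20_wS] at h5
    have e2 : ((p20_w c1 lam (Real.exp (j / lam)) : ℝ) : ℂ) - (1 / (Nat.totient q : ℂ)) *
        ((p20_w c2 lam (Real.exp (j / lam)) : ℝ) : ℂ) =
        ((p20_w c1 lam (Real.exp (j / lam)) -
          1 / (Nat.totient q : ℝ) * p20_w c2 lam (Real.exp (j / lam)) : ℝ) : ℂ) := by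
      push_cast
      ring
    rw [e2, Complex.norm_real, Real.norm_eq_abs] at h5
    refine h5.trans ?_
    refine mul_le_mul_of_nonneg_right ?_ (Real.exp_pos _).le
    calc Real.exp (j / lam) ≤ Real.exp (Real.log Z) := Real.exp_le_exp.mpr h4
      _ = Z := Real.exp_log hZ0
      _ ≤ N := hZN
  have hcard : (J.card : ℝ) ≤ lam * (L / 20) := by
    rw [hJ, Int.card_Icc]
    rcases le_or_gt 0 (⌊lam * Real.log Z⌋ - 1 + 1 - (⌈lam * Real.log Y⌉ + 1)) with h | h
    · have h1 : (((⌊lam * Real.log Z⌋ - 1 + 1 - (⌈lam * Real.log Y⌉ + 1)).toNat : ℕ) : ℝ) =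
          ((⌊lam * Real.log Z⌋ - 1 + 1 - (⌈lam * Real.log Y⌉ + 1) : ℤ) : ℝ) := by
        exact_mod_cast congrArg (fun x : ℤ => (x : ℝ)) (Int.toNat_of_nonneg h)
      rw [h1]
      push_cast
      have h2 : lam * Real.log Z ≤ lam * Real.log N := mul_le_mul_of_nonneg_left hlogZ hlam0.le
      have h3 : lam * (Real.log N - L / 20) ≤ lam * Real.log Y :=
        mul_le_mul_of_nonneg_left hlogY hlam0.le
      nlinarith
    · rw [Int.toNat_of_nonpos h.le]
      push_cast
      positivity
  set S1 := ∑ n ∈ Finset.Ioc y z, c1 n with hS1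
  set S2 := ∑ n ∈ Finset.Ioc y z, c2 n with hS2
  set T1 := ∑ j ∈ J, p20_w c1 lam (Real.exp (j / lam)) with hT1
  set T2 := ∑ j ∈ J, p20_w c2 lam (Real.exp (j / lam)) with hT2
  have hT : |T1 - 1 / (Nat.totient q : ℝ) * T2| ≤ lam * (L / 20) * (N * Real.exp (-(L / 3))) := by
    rw [hT1, hT2, Finset.mul_sum, ← Finset.sum_sub_distrib]
    refine (Finset.abs_sum_le_sum_abs _ _).trans ((Finset.sum_le_sum hj).trans ?_)
    rw [Finset.sum_const, nsmul_eq_mul]
    exact mul_le_mul_of_nonneg_right hcard (by positivity)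
  have hR0 : 0 ≤ B * R := (abs_nonneg _).trans hone1
  have hmain : |S1 - 1 / (Nat.totient q : ℝ) * S2| ≤
      2 * (B * R) + lam * (L / 20) * (N * Real.exp (-(L / 3))) := by
    have e : S1 - 1 / (Nat.totient q : ℝ) * S2 = (S1 - T1) +
        (T1 - 1 / (Nat.totient q : ℝ) * T2) - 1 / (Nat.totient q : ℝ) * (S2 - T2) := by ring
    have h1 : |1 / (Nat.totient q : ℝ) * (S2 - T2)| ≤ B * R := by
      rw [abs_mul, abs_of_nonneg hqi0]
      calc 1 / (Nat.totient q : ℝ) * |S2 - T2| ≤ 1 * (B * R) :=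
            mul_le_mul hqi hone2 (abs_nonneg _) (by norm_num)
        _ = B * R := one_mul _
    rw [e]
    calc _ ≤ |(S1 - T1) + (T1 - 1 / (Nat.totient q : ℝ) * T2)| +
          |1 / (Nat.totient q : ℝ) * (S2 - T2)| := abs_sub _ _
      _ ≤ |S1 - T1| + |T1 - 1 / (Nat.totient q : ℝ) * T2| +
          |1 / (Nat.totient q : ℝ) * (S2 - T2)| := by
          gcongr
          exact abs_add_le _ _
      _ ≤ B * R + lam * (L / 20) * (N * Real.exp (-(L / 3))) + B * R := by
          gcongr
      _ = _ := by ring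
  refine hmain.trans ?_
  -- numerics
  have hinv : 1 / lam = Real.exp (-(L / 10)) := by rw [hlam, Real.exp_neg, one_div]
  have hlamN : lam ≤ N := by
    rw [hlam, ← Real.exp_log hN0]
    apply Real.exp_le_exp.mpr
    linarith
  have h2lam : 2 / lam ≤ 1 := by
    rw [div_le_one hlam0]
    exact hlam2
  have h2lam0 : 0 < 2 / lam := by positivity
  have hexpu : Real.exp (2 / lam) - 1 ≤ 4 / lam := by
    have := Real.abs_exp_sub_one_le (x := 2 / lam) (by rw [abs_of_pos h2lam0]; exact h2lam)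
    rw [abs_of_pos h2lam0] at this
    have h3 := le_abs_self (Real.exp (2 / lam) - 1)
    have h4 : 2 * (2 / lam) = 4 / lam := by ring
    linarith
  have hexpl : 1 - Real.exp (-(2 / lam)) ≤ 2 / lam := by
    have := Real.add_one_le_exp (-(2 / lam))
    linarith
  have hRle : R ≤ N * Real.exp (-(L / 20)) + 7 * (N * Real.exp (-(L / 10))) := by
    have h1 : Y * Real.exp (2 / lam) - y ≤ N * Real.exp (-(L / 20)) + N * (4 / lam) := by
      have : Y * (Real.exp (2 / lam) - 1) ≤ N * (4 / lam) :=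
        mul_le_mul hYN hexpu (by
          have := Real.one_le_exp h2lam0.le
          linarith) hN0.le
      linarith
    have h2 : Z - Z * Real.exp (-(2 / lam)) ≤ N * (2 / lam) := by
      have : Z * (1 - Real.exp (-(2 / lam))) ≤ N * (2 / lam) :=
        mul_le_mul hZN hexpl (by
          have : Real.exp (-(2 / lam)) ≤ 1 := Real.exp_le_one_iff.mpr (by linarith)
          linarith) hN0.le
      linarith
    have h3 : (1 : ℝ) ≤ N * (1 / lam) := by
      rw [mul_one_div, le_div_iff₀ hlam0]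
      linarith
    rw [← hinv]
    rw [hR]
    have e4 : N * (4 / lam) = 4 * (N * (1 / lam)) := by ring
    have e5 : N * (2 / lam) = 2 * (N * (1 / lam)) := by ring
    linarith
  have hR8 : R ≤ 8 * (N * Real.exp (-(L / 20))) := by
    have : Real.exp (-(L / 10)) ≤ Real.exp (-(L / 20)) := Real.exp_le_exp.mpr (by linarith)
    have h3 := mul_le_mul_of_nonneg_left this hN0.le
    linarith
  have hBle : B ≤ 3 * Real.exp (L / 100) := by
    have : 1 ≤ Real.exp (L / 100) := Real.one_le_exp (by linarith)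
    linarith
  have hBR : B * R ≤ 24 * (N * Real.exp (-(L / 25))) := by
    calc B * R ≤ B * (8 * (N * Real.exp (-(L / 20)))) := mul_le_mul_of_nonneg_left hR8 hB0
      _ ≤ (3 * Real.exp (L / 100)) * (8 * (N * Real.exp (-(L / 20)))) :=
          mul_le_mul_of_nonneg_right hBle (by positivity)
      _ = 24 * (N * (Real.exp (L / 100) * Real.exp (-(L / 20)))) := by ring
      _ = 24 * (N * Real.exp (-(L / 25))) := by
          rw [← Real.exp_add]
          congr 3
          ring
  have hT' : lam * (L / 20) * (N * Real.exp (-(L / 3))) ≤ N * Real.exp (-(L / 25)) := by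
    have h1 : L / 20 ≤ Real.exp (L / 20) := by
      have := Real.add_one_le_exp (L / 20)
      linarith
    calc lam * (L / 20) * (N * Real.exp (-(L / 3))) ≤
          lam * Real.exp (L / 20) * (N * Real.exp (-(L / 3))) := by gcongr
      _ = N * (Real.exp (L / 10) * Real.exp (L / 20) * Real.exp (-(L / 3))) := by rw [hlam]; ring
      _ = N * Real.exp (L / 10 + L / 20 + -(L / 3)) := by rw [← Real.exp_add, ← Real.exp_add]
      _ ≤ N * Real.exp (-(L / 25)) := by
          apply mul_le_mul_of_nonneg_left _ hN0.le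
          apply Real.exp_le_exp.mpr
          linarith
  have hfin : 49 * Real.exp (-(L / 25)) ≤ Real.exp (-(L / 40)) := by
    have h1 : (49 : ℝ) ≤ Real.exp (3 * L / 200) := by
      have h2 : (15 : ℝ) ≤ 3 * L / 200 := by linarith
      have h3 : Real.exp 15 ≤ Real.exp (3 * L / 200) := Real.exp_le_exp.mpr h2
      have h4 : (2.7 : ℝ) ≤ Real.exp 1 := by linarith [Real.exp_one_gt_d9]
      have h5 : (2.7 : ℝ) ^ 15 ≤ Real.exp 15 := by
        have : Real.exp 15 = Real.exp 1 ^ 15 := by rw [← Real.exp_nat_mul]; norm_num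
        rw [this]
        gcongr
      have h6 : (49 : ℝ) ≤ 2.7 ^ 15 := by norm_num
      linarith
    calc 49 * Real.exp (-(L / 25)) ≤ Real.exp (3 * L / 200) * Real.exp (-(L / 25)) :=
          mul_le_mul_of_nonneg_right h1 (Real.exp_pos _).le
      _ = Real.exp (-(L / 40)) := by
          rw [← Real.exp_add]
          congr 1
          ring
  have := mul_le_mul_of_nonneg_left hfin hN0.le
  nlinarith [hBR, hT', this]

end Pool.Agent.MP8a4e59.P
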