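/-
MP_8a4e59_co, piece P21: final theorem of part P.
-/
import Mathlib
import Pool.Agent.Lib.MP_8a4e59_co.P.Stm2

set_option autoImplicit false

open Complex

namespace Pool.Agent.MP8a4e59.P

private lemma p21_thE {q₁ : ℕ} {χ₁ : DirichletCharacter ℂ q₁} {β₁ : ℝ} (hβ : β₁ < 1)
    (q : ℕ) (a : ℤ) (n : ℕ) : |thE q₁ χ₁ β₁ q a n| ≤ 1 := by
  unfold thE
  split_ifs with h
  · rw [abs_mul]
    have h1 : |(χ₁ (a : ZMod q₁)).re| ≤ 1 :=
      (Complex.abs_re_le_norm _).trans (DirichletCharacter.norm_le_one χ₁ _)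
    have h2 : |((n : ℝ) ^ (β₁ - 1))| ≤ 1 := by
      rw [abs_of_nonneg (Real.rpow_nonneg (Nat.cast_nonneg n) _)]
      rcases Nat.eq_zero_or_pos n with h0 | h0
      · subst h0
        rw [Nat.cast_zero, Real.zero_rpow (by linarith)]
        exact zero_le_one
      · exact Real.rpow_le_one_of_one_le_of_nonpos (by exact_mod_cast h0) (by linarith)
    calc |(χ₁ (a : ZMod q₁)).re| * |((n : ℝ) ^ (β₁ - 1))| ≤ 1 * 1 :=
          mul_le_mul h1 h2 (abs_nonneg _) zero_le_one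
      _ = 1 := one_mul 1
  · rw [abs_zero]; exact zero_le_one

theorem p_main (hap : S_ap) (hsh : S_sharp) (hsi : S_siegel) : S_main := by
  intro ε hε
  obtain ⟨L1, h1⟩ := hap
  obtain ⟨L2, h2⟩ := hsh
  obtain ⟨L3, h3⟩ := hsi ε hε
  refine ⟨max L1 (max L2 L3), fun L hL => ?_⟩
  have hL1 : L1 ≤ L := (le_max_left _ _).trans hL
  have hL2 : L2 ≤ L := ((le_max_left _ _).trans (le_max_right _ _)).trans hL
  have hL3 : L3 ≤ L := ((le_max_right _ _).trans (le_max_right _ _)).trans hL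
  by_cases hex : ∃ (q₁ : ℕ) (_ : NeZero q₁) (χ₁ : DirichletCharacter ℂ q₁) (β₁ : ℝ), Exc L q₁ χ₁ β₁
  · right
    obtain ⟨q₁, i₁, χ₁, β₁, hE⟩ := hex
    refine ⟨q₁, i₁, χ₁, β₁, hE, h3 L hL3 q₁ χ₁ β₁ hE, ?_⟩
    exact h2 L hL2 _ (fun q a n => p21_thE hE.hi q a n) ((h1 L hL1).2 q₁ χ₁ β₁ hE)
  · left
    exact ⟨hex, h2 L hL2 _ (fun _ _ _ => by simp) ((h1 L hL1).1 hex)⟩

end Pool.Agent.MP8a4e59.P
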