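import Mathlib
import Pool.Agent.Lib.MP_8a4e59_co.P.Stm3
import Pool.Agent.Lib.MP_0da313_nt.BV.Siegel2

/-! MP_8a4e59_co, part P, P22: the gap between an exceptional zero and 1. -/

set_option autoImplicit false

namespace Pool.Agent.MP8a4e59.P

open Complex

private lemma p22_mvt {f : ℂ → ℂ} (hf : Differentiable ℂ f) {β D : ℝ} (hβ : β ≤ 1)
    (hb : ∀ z : ℂ, β ≤ z.re → z.re ≤ 1 → z.im = 0 → ‖deriv f z‖ ≤ D) :
    ‖f 1 - f (β : ℂ)‖ ≤ D * (1 - β) := by
  have h := Convex.norm_image_sub_le_of_norm_deriv_le (𝕜 := ℂ) (f := f) (C := D)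
    (s := segment ℝ (β : ℂ) 1) (x := (β : ℂ)) (y := 1) (fun x _ => hf x) ?_
    (convex_segment _ _) (left_mem_segment _ _ _) (right_mem_segment _ _ _)
  · have e : ‖(1 : ℂ) - (β : ℂ)‖ = 1 - β := by
      rw [← Complex.ofReal_one, ← Complex.ofReal_sub, Complex.norm_real, Real.norm_eq_abs,
        abs_of_nonneg (by linarith)]
    rwa [e] at h
  · rintro z ⟨a, b, ha, hb', hab, rfl⟩
    apply hb
    · simp
      nlinarith
    · simp
      nlinarith
    · simp

/-- [8a P22] -/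
theorem p_gap (hdup : S_dup) : S_gap := by
  obtain ⟨C, hC1, hC, -⟩ := hdup
  obtain ⟨c, hc, hS⟩ := Pool.Agent.BVall.siegel (1 / 4) (by norm_num)
  have hC0 : 0 < C := by linarith
  set c2 : ℝ := c / (64 * C) with hc2
  have hc20 : 0 < c2 := by positivity
  refine ⟨max 4 (1 / c2 ^ 2), fun L hL q _ χ β hE => ?_⟩
  have hL4 : 4 ≤ L := le_trans (le_max_left _ _) hL
  have hLc : 1 / c2 ^ 2 ≤ L := le_trans (le_max_right _ _) hL
  have hL0 : 0 < L := by linarith
  have hq1 : (1 : ℝ) ≤ q := by exact_mod_cast (NeZero.one_le : 1 ≤ q)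
  have hq0 : (0 : ℝ) < q := by linarith
  -- the eighth root
  set u : ℝ := (q : ℝ) ^ (1 / 8 : ℝ) with hu
  have hu1 : 1 ≤ u := Real.one_le_rpow hq1 (by norm_num)
  have hu0 : 0 < u := by linarith
  have hu8 : u ^ 8 = q := by
    rw [hu, ← Real.rpow_natCast, ← Real.rpow_mul hq0.le]
    norm_num
  have hu2 : (q : ℝ) ^ (-(1 / 4) : ℝ) = (u ^ 2)⁻¹ := by
    rw [hu, ← Real.rpow_natCast, ← Real.rpow_mul hq0.le, ← Real.rpow_neg hq0.le]
    norm_num
  -- the level
  set L' : ℝ := Real.log (4 * q) + 2 with hL'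
  have hlog4 : Real.log 4 ≤ 2 := by
    have h1 : Real.log 4 = 2 * Real.log 2 := by
      rw [show (4 : ℝ) = 2 ^ 2 by norm_num, Real.log_pow]; norm_num
    have := Real.log_two_lt_d9
    linarith
  have hlogq : Real.log q ≤ L := by
    have := Real.log_le_log hq0 hE.qL
    rwa [Real.log_exp] at this
  have hlog : Real.log (4 * q) = Real.log 4 + Real.log q :=
    Real.log_mul (by norm_num) hq0.ne'
  have hlogq0 : 0 ≤ Real.log q := Real.log_nonneg hq1
  have hlog40 : 0 ≤ Real.log 4 := Real.log_nonneg (by norm_num)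
  have hL'2 : 2 ≤ L' := by rw [hL', hlog]; linarith
  have hL'L : L' ≤ 2 * L := by rw [hL', hlog]; linarith
  have hL'u : L' ≤ 8 * u := by
    have h1 : Real.log q = 8 * Real.log u := by
      rw [← hu8, Real.log_pow]; norm_num
    have h2 : Real.log u ≤ u - 1 := Real.log_le_sub_one_of_pos hu0
    rw [hL', hlog, h1]
    linarith
  have hexpL' : (q : ℝ) * 4 ≤ Real.exp L' := by
    rw [hL', Real.exp_add, Real.exp_log (by positivity)]
    have h1 : (2 : ℝ) + 1 ≤ Real.exp 2 := Real.add_one_le_exp 2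
    nlinarith
  have hLpow : (L ^ 6)⁻¹ ≤ (2 * L')⁻¹ := by
    apply inv_anti₀ (by positivity)
    have h2 : (4 : ℝ) ^ 5 ≤ L ^ 5 := pow_le_pow_left₀ (by norm_num) hL4 5
    have h3 : L ^ 6 = L ^ 5 * L := by ring
    nlinarith
  have hdiff : Differentiable ℂ χ.LFunction := DirichletCharacter.differentiable_LFunction hE.ne
  have hmv : ‖χ.LFunction 1 - χ.LFunction (β : ℂ)‖ ≤ (C * L' ^ 2) * (1 - β) := by
    apply p22_mvt hdiff hE.hi.le
    intro z h1 h2 h3
    apply hC q χ L' z hE.ne hL'2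
    · have := hE.lo
      linarith
    · linarith
    · rw [h3, abs_zero, zero_add]
      exact hexpL'
  rw [hE.zero, sub_zero] at hmv
  have h5 := hS q χ hE.prim hE.ne hE.quad
  have h6 : (χ.LFunction 1).re ≤ ‖χ.LFunction 1‖ := Complex.re_le_norm _
  have hβ0 : 0 < 1 - β := by linarith [hE.hi]
  have h7 : c * (u ^ 2)⁻¹ ≤ C * (64 * u ^ 2) * (1 - β) := by
    rw [← hu2]
    refine h5.trans (h6.trans (hmv.trans ?_))
    apply mul_le_mul_of_nonneg_right _ hβ0.le
    apply mul_le_mul_of_nonneg_left _ hC0.le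
    nlinarith
  have h8 : c2 ≤ u ^ 4 * (1 - β) := by
    rw [hc2, div_le_iff₀ (by positivity)]
    have h9 : c ≤ C * (64 * u ^ 2) * (1 - β) * u ^ 2 := by
      have h10 := mul_le_mul_of_nonneg_right h7 (by positivity : (0 : ℝ) ≤ u ^ 2)
      rwa [mul_assoc, inv_mul_cancel₀ (by positivity), mul_one] at h10
    calc c ≤ _ := h9
      _ = _ := by ring
  rw [← hu8, div_le_iff₀ (by positivity)]
  by_cases h11 : 1 ≤ c2 * u ^ 4
  · calc 1 ≤ c2 * u ^ 4 := h11
      _ ≤ (u ^ 4 * (1 - β)) * u ^ 4 := mul_le_mul_of_nonneg_right h8 (by positivity)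
      _ = (1 - β) * u ^ 8 := by ring
  · exfalso
    push Not at h11
    have h12 : 1 - β ≤ c2 ^ 2 := by
      have h13 : 1 - β ≤ (L ^ 6)⁻¹ := by linarith [hE.lo]
      have h14 : (L ^ 6)⁻¹ ≤ L⁻¹ := by
        apply inv_anti₀ hL0
        have h2 : (1 : ℝ) ≤ L ^ 5 := one_le_pow₀ (by linarith)
        nlinarith
      have h15 : L⁻¹ ≤ c2 ^ 2 := by
        rw [div_le_iff₀ (by positivity)] at hLc
        rw [inv_le_iff_one_le_mul₀ hL0]
        linarith
      linarith
    have h16 : c2 ≤ (c2 * u ^ 4) * c2 := by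
      calc c2 ≤ u ^ 4 * (1 - β) := h8
        _ ≤ u ^ 4 * c2 ^ 2 := mul_le_mul_of_nonneg_left h12 (by positivity)
        _ = _ := by ring
    nlinarith

end Pool.Agent.MP8a4e59.P
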