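/-
MP_8a4e59_co, [8a P24]: the interface statement `APP.S_P1` from `P.S_main`, `S_gap`, `S_pow`.
-/
import Pool.Agent.Lib.MP_8a4e59_co.P.Stm3

set_option autoImplicit false

open Complex Filter
open ArithmeticFunction (vonMangoldt)

namespace Pool.Agent.MP8a4e59.P

private theorem p24_ev (c : ℕ) (L0 : ℝ) : ∃ N₀ : ℕ, ∀ N : ℕ, N₀ ≤ N →
    1 ≤ Real.log (Real.log N) ∧ L0 ≤ 100 * Real.log (Real.log N) ^ (c + 1) ∧
      (100 * Real.log (Real.log N) ^ (c + 1)) ^ 44 ≤ Real.exp (Real.log (Real.log N)) := by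
  have h1 : Tendsto (fun N : ℕ => Real.log (Real.log (N : ℝ))) atTop atTop :=
    Real.tendsto_log_atTop.comp (Real.tendsto_log_atTop.comp tendsto_natCast_atTop_atTop)
  have h2 : ∀ᶠ x : ℝ in atTop, 1 ≤ x ∧ L0 ≤ 100 * x ^ (c + 1) ∧
      (100 * x ^ (c + 1)) ^ 44 ≤ Real.exp x := by
    have h3 : ∀ᶠ x : ℝ in atTop, ‖x ^ ((c + 1) * 44)‖ ≤ ((100 : ℝ) ^ 44)⁻¹ * ‖Real.exp x‖ :=
      (Real.isLittleO_pow_exp_atTop (n := (c + 1) * 44)).bound (by positivity)
    filter_upwards [h3, eventually_ge_atTop 1, eventually_ge_atTop L0] with x hx hx1 hx0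
    refine ⟨hx1, ?_, ?_⟩
    · have h4 : x ≤ x ^ (c + 1) := le_self_pow₀ hx1 (by omega)
      nlinarith
    · rw [Real.norm_of_nonneg (by positivity), Real.norm_of_nonneg (Real.exp_pos x).le,
        inv_mul_eq_div, le_div_iff₀ (by positivity)] at hx
      rw [mul_pow, ← pow_mul]
      linarith
  exact eventually_atTop.1 (h1.eventually h2)

private theorem p24_sum (q b y : ℕ) :
    ∑ n ∈ (Finset.Icc 1 y).filter (fun n => n ≡ b [MOD q]), vonMangoldt n =
      ∑ n ∈ Finset.Ioc 0 y, if (n : ZMod q) = ((b : ℤ) : ZMod q) then vonMangoldt n else 0 := by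
  rw [Finset.sum_filter]
  refine Finset.sum_congr (by ext; simp [Nat.succ_le_iff]) fun n _ => ?_
  simp only [Int.cast_natCast, ZMod.natCast_eq_natCast_iff]

private theorem p24_copr {b q : ℕ} (h : b.Coprime q) : IsCoprime (b : ℤ) (q : ℤ) :=
  Nat.isCoprime_iff_coprime.2 h

/-- consequences of the choice of `L` -/
private theorem p24_par (c N : ℕ) (L : ℝ) (hL : L = 100 * Real.log (Real.log N) ^ (c + 1))
    (h1 : 1 ≤ Real.log (Real.log N))
    (h3 : L ^ 44 ≤ Real.exp (Real.log (Real.log N))) :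
    L ^ 44 ≤ Real.log N ∧ Real.log N ≤ Real.exp (L / 100) ∧ APP.XX c N ≤ Real.exp L ∧
      (N : ℝ) * Real.exp (-(L / 40)) + 2 ≤ N / APP.XX c N ∧ 100 ≤ L := by
  set x := Real.log (Real.log N) with hx
  have hlog : 0 < Real.log N := by
    have h0 : 0 ≤ Real.log N := Real.log_natCast_nonneg N
    rcases h0.lt_or_eq with h | h
    · exact h
    · exfalso
      rw [hx, ← h, Real.log_zero] at h1
      linarith
  have hexp : Real.exp x = Real.log N := Real.exp_log hlog
  have hN : (0 : ℝ) < N := by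
    rcases Nat.eq_zero_or_pos N with h | h
    · rw [h] at hlog
      simp at hlog
    · exact_mod_cast h
  have hxc : 1 ≤ x ^ c := one_le_pow₀ h1
  have hxc1 : x ^ c ≤ x ^ (c + 1) := pow_le_pow_right₀ h1 (by omega)
  have hL100 : 100 ≤ L := by
    rw [hL]
    linarith
  refine ⟨by rw [← hexp]; exact h3, ?_, ?_, ?_, hL100⟩
  · rw [← hexp]
    apply Real.exp_le_exp.2
    rw [hL]
    have : x ≤ x ^ (c + 1) := le_self_pow₀ h1 (by omega)
    linarith
  · unfold APP.XX
    apply Real.exp_le_exp.2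
    rw [← hx, hL]
    linarith
  · have hXX : APP.XX c N = Real.exp (x ^ c) := rfl
    rw [hXX, div_eq_mul_inv (N : ℝ) (Real.exp (x ^ c)), ← Real.exp_neg]
    have e1 : Real.exp (-(L / 40)) ≤ 1 / 2 * Real.exp (-x ^ c) := by
      have e2 : Real.exp (-(L / 40)) ≤ Real.exp (-1 + -x ^ c) := by
        apply Real.exp_le_exp.2
        rw [hL]
        linarith
      refine e2.trans ?_
      rw [Real.exp_add]
      refine mul_le_mul_of_nonneg_right ?_ (Real.exp_pos _).le
      rw [Real.exp_neg, ← one_div]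
      apply one_div_le_one_div_of_le (by norm_num)
      have := Real.add_one_le_exp (1 : ℝ)
      linarith
    have e3 : 4 ≤ (N : ℝ) * Real.exp (-x ^ c) := by
      have e4 : x ^ c + 3 ≤ Real.log N := by
        rw [← hexp]
        refine le_trans ?_ h3
        have e5 : L ≤ L ^ 44 := le_self_pow₀ (by linarith) (by norm_num)
        linarith
      have e6 : Real.exp (x ^ c + 3) ≤ N := by
        rw [← Real.exp_log hN]
        exact Real.exp_le_exp.2 e4
      have e7 : 4 ≤ Real.exp 3 := by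
        have := Real.add_one_le_exp (3 : ℝ)
        linarith
      have e8 : Real.exp (x ^ c + 3) * Real.exp (-x ^ c) ≤ N * Real.exp (-x ^ c) :=
        mul_le_mul_of_nonneg_right e6 (Real.exp_pos _).le
      have e9 : Real.exp (x ^ c + 3) * Real.exp (-x ^ c) = Real.exp 3 := by
        rw [← Real.exp_add]
        congr 1
        ring
      linarith
    have e10 := mul_le_mul_of_nonneg_left e1 hN.le
    linarith

private theorem p24_main0 {L : ℝ} {th : ℕ → ℤ → ℕ → ℝ} (h : ApS L th) {c N : ℕ}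
    (hL44 : L ^ 44 ≤ Real.log N) (hLe : Real.log N ≤ Real.exp (L / 100))
    (hX : APP.XX c N ≤ Real.exp L) (herr : (N : ℝ) * Real.exp (-(L / 40)) + 2 ≤ N / APP.XX c N)
    (q b y : ℕ) (hq : 1 ≤ q) (hqX : (q : ℝ) ≤ APP.XX c N) (hb : b.Coprime q) (hy : y ≤ N)
    (hth : ∀ n, th q b n = 0) :
    |∑ n ∈ (Finset.Icc 1 y).filter (fun n => n ≡ b [MOD q]), vonMangoldt n - y / q.totient| ≤
      N / APP.XX c N := by
  have : NeZero q := ⟨by omega⟩
  have h1 := h N q b 0 y hL44 hLe (hqX.trans hX) (p24_copr hb) (Nat.zero_le y) hy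
  rw [p24_sum]
  have h2 : (1 / (Nat.totient q : ℝ)) * ∑ n ∈ Finset.Ioc 0 y, (1 - th q b n) =
      y / q.totient := by
    simp only [hth, sub_zero, Finset.sum_const, Nat.card_Ioc, nsmul_eq_mul, mul_one, tsub_zero]
    ring
  rw [h2] at h1
  linarith

private theorem p24_quad {q : ℕ} {χ : DirichletCharacter ℂ q} (h : χ ^ 2 = 1) (x : ZMod q) :
    (¬ IsUnit x ∧ χ x = 0) ∨ (IsUnit x ∧ (χ x = 1 ∨ χ x = -1)) := by
  by_cases hx : IsUnit x
  · right
    refine ⟨hx, ?_⟩
    have h1 : χ x ^ 2 = 1 := by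
      rw [← MulChar.pow_apply' χ (by norm_num), h, MulChar.one_apply hx]
    rw [sq] at h1
    exact mul_self_eq_one_iff.1 h1
  · left
    exact ⟨hx, χ.map_nonunit hx⟩

private theorem p24_main1 {L : ℝ} {q₁ : ℕ} {χ₁ : DirichletCharacter ℂ q₁} {β₁ : ℝ}
    (h : ApS L (thE q₁ χ₁ β₁)) {c N : ℕ}
    (hL44 : L ^ 44 ≤ Real.log N) (hLe : Real.log N ≤ Real.exp (L / 100))
    (hX : APP.XX c N ≤ Real.exp L) (herr : (N : ℝ) * Real.exp (-(L / 40)) + 2 ≤ N / APP.XX c N)
    (q b y : ℕ) (hq : 1 ≤ q) (hqX : (q : ℝ) ≤ APP.XX c N) (hb : b.Coprime q) (hy : y ≤ N)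
    (hd : q₁ ∣ q) :
    |∑ n ∈ (Finset.Icc 1 y).filter (fun n => n ≡ b [MOD q]), vonMangoldt n -
      (∑ n ∈ Finset.Icc 1 y, (1 - (χ₁ (b : ZMod q₁)).re * (n : ℝ) ^ (β₁ - 1))) / q.totient| ≤
      N / APP.XX c N := by
  have : NeZero q := ⟨by omega⟩
  have h1 := h N q b 0 y hL44 hLe (hqX.trans hX) (p24_copr hb) (Nat.zero_le y) hy
  rw [p24_sum]
  have h2 : (1 / (q.totient : ℝ)) * ∑ n ∈ Finset.Ioc 0 y, (1 - thE q₁ χ₁ β₁ q b n) =
      (∑ n ∈ Finset.Icc 1 y, (1 - (χ₁ (b : ZMod q₁)).re * (n : ℝ) ^ (β₁ - 1))) / q.totient := by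
    rw [one_div, inv_mul_eq_div]
    congr 1
    refine Finset.sum_congr ?_ fun n _ => ?_
    · ext n
      simp only [Finset.mem_Ioc, Finset.mem_Icc]
      omega
    · rw [thE, if_pos hd, Int.cast_natCast]
  rw [h2] at h1
  linarith

theorem p_fin : S_fin := by
  intro hmain hgap _ c
  obtain ⟨L0, hL0⟩ := hmain 1 one_pos
  obtain ⟨L1, hL1⟩ := hgap
  obtain ⟨N₀, hN₀⟩ := p24_ev c (max L0 L1)
  refine ⟨N₀, fun N hN => ?_⟩
  obtain ⟨h1, h2, h3⟩ := hN₀ N hN
  obtain ⟨hL44, hLe, hX, herr, hL100⟩ :=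
    p24_par c N (100 * Real.log (Real.log N) ^ (c + 1)) rfl h1 h3
  set L := 100 * Real.log (Real.log N) ^ (c + 1) with hL
  have hL0' : L0 ≤ L := (le_max_left _ _).trans h2
  have hL1' : L1 ≤ L := (le_max_right _ _).trans h2
  rcases hL0 L hL0' with ⟨_, hA⟩ | ⟨q₁, hne, χ₁, β₁, hE, _, hA⟩
  · left
    intro q b y hq hqX hb hy
    exact p24_main0 hA hL44 hLe hX herr q b y hq hqX hb hy (fun _ => rfl)
  · have hth : ∀ q b : ℕ, ¬ q₁ ∣ q → ∀ n, thE q₁ χ₁ β₁ q b n = 0 := by
      intro q b hd n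
      rw [thE, if_neg hd]
    by_cases hq₁ : (q₁ : ℝ) ≤ APP.XX c N
    · right
      have hquad := fun x => p24_quad hE.quad x
      have hlo : 1 / 2 < β₁ := by
        have h4 := hE.lo
        have h5 : (L ^ 6)⁻¹ < 1 / 2 := by
          rw [inv_lt_comm₀ (by positivity) (by norm_num)]
          have h6 : L ≤ L ^ 6 := le_self_pow₀ (by linarith) (by norm_num)
          have h7 : ((1 : ℝ) / 2)⁻¹ = 2 := by norm_num
          rw [h7]
          linarith
        linarith
      refine ⟨q₁, β₁, fun n => (χ₁ (n : ZMod q₁)).re, ?_⟩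
      exact
        { two_le := hE.q2
          le_X := hq₁
          half_lt := hlo
          lt_one := hE.hi
          gap := hL1 L hL1' q₁ χ₁ β₁ hE
          vals := by
            intro n
            rcases hquad (n : ZMod q₁) with ⟨_, h⟩ | ⟨_, h | h⟩
            · left
              simp [h]
            · right; left
              simp [h]
            · right; right
              simp [h]
          supp := by
            intro n
            rw [← ZMod.isUnit_iff_coprime]
            rcases hquad (n : ZMod q₁) with ⟨h0, h⟩ | ⟨h0, h | h⟩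
            · simp [h, h0]
            · simp [h, h0]
            · simp [h, h0]
          mul := by
            intro m n
            have e : ((m * n : ℕ) : ZMod q₁) = (m : ZMod q₁) * (n : ZMod q₁) := by push_cast; rfl
            simp only [e, map_mul]
            rcases hquad (n : ZMod q₁) with ⟨_, h⟩ | ⟨_, h | h⟩ <;> simp [h]
          per := by
            intro m n hmn
            simp only [(ZMod.natCast_eq_natCast_iff m n q₁).2 hmn]
          main := by
            intro q b y hq hqX hb hy hd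
            exact p24_main1 hA hL44 hLe hX herr q b y hq hqX hb hy hd
          other := by
            intro q b y hq hqX hb hy hd
            exact p24_main0 hA hL44 hLe hX herr q b y hq hqX hb hy (hth q b hd) }
    · left
      intro q b y hq hqX hb hy
      have hd : ¬ q₁ ∣ q := by
        intro hd
        have h4 := Nat.le_of_dvd (by omega) hd
        have h5 : (q₁ : ℝ) ≤ q := by exact_mod_cast h4
        exact hq₁ (h5.trans hqX)
      exact p24_main0 hA hL44 hLe hX herr q b y hq hqX hb hy (hth q b hd)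

end Pool.Agent.MP8a4e59.P
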