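/-
MP_8a4e59_co, part P: assembly (helper8).
-/
import Pool.Agent.Lib.MP_8a4e59_co.P.P01
import Pool.Agent.Lib.MP_8a4e59_co.P.P02
import Pool.Agent.Lib.MP_8a4e59_co.P.P03
import Pool.Agent.Lib.MP_8a4e59_co.P.P04
import Pool.Agent.Lib.MP_8a4e59_co.P.P05
import Pool.Agent.Lib.MP_8a4e59_co.P.P06
import Pool.Agent.Lib.MP_8a4e59_co.P.P07
import Pool.Agent.Lib.MP_8a4e59_co.P.P08
import Pool.Agent.Lib.MP_8a4e59_co.P.P09
import Pool.Agent.Lib.MP_8a4e59_co.P.P10
import Pool.Agent.Lib.MP_8a4e59_co.P.P11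
import Pool.Agent.Lib.MP_8a4e59_co.P.P12
import Pool.Agent.Lib.MP_8a4e59_co.P.P13
import Pool.Agent.Lib.MP_8a4e59_co.P.P14
import Pool.Agent.Lib.MP_8a4e59_co.P.P15
import Pool.Agent.Lib.MP_8a4e59_co.P.P16
import Pool.Agent.Lib.MP_8a4e59_co.P.P17
import Pool.Agent.Lib.MP_8a4e59_co.P.P18
import Pool.Agent.Lib.MP_8a4e59_co.P.P19
import Pool.Agent.Lib.MP_8a4e59_co.P.P20
import Pool.Agent.Lib.MP_8a4e59_co.P.P21
import Pool.Agent.Lib.MP_8a4e59_co.P.P22
import Pool.Agent.Lib.MP_8a4e59_co.P.P23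
import Pool.Agent.Lib.MP_8a4e59_co.P.P24

set_option autoImplicit false

namespace Pool.Agent.MP8a4e59.P

theorem all_dup : S_dup := p_dup p_zup p_lup

theorem all_main : S_main := by
  have h1 : S_kt := p_kt
  have h2 : S_inv := p_inv h1
  have h3 : S_perron := p_perron h2
  have h4 : S_shift := p_shift h1 h3
  have h5 : S_zup := p_zup
  have h6 : S_lup := p_lup
  have h7 : S_dup := p_dup h5 h6
  have h8 : S_341 := p_p341
  have h9 : S_cplx := p_cplx h6 h7 h8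
  have h10 : S_realt := p_realt h7 h8
  have h11 : S_real := p_real h7 h10
  have h12 : S_exc := p_exc h6 h10
  have h13 : S_rep := p_rep h6 h7 h12
  have h14 : S_zeta := p_zeta h5 h7 h8
  have h15 : S_siegel := p_siegelE h7
  have h16 : S_psichi := p_psichi h4 h9 h11
  have h17 : S_psione := p_psione h4 h14 h5
  have h18 : S_psiexc := p_psiexc h4 h12 h5
  have h19 : S_ap := p_ap h16 h17 h18 h13
  exact p_main h19 p_sharp h15

/-- (P1) -/
theorem all_P1 : Pool.Agent.APP.S_P1 := p_fin all_main (p_gap all_dup) p_pow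

end Pool.Agent.MP8a4e59.P
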