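/-
MP_8a4e59_co, part P: Bonferroni's inequalities (helper80).
-/
import Pool.Agent.Lib.MP_8a4e59_co.P.StmQ

set_option autoImplicit false

open Finset ArithmeticFunction

namespace Pool.Agent.APP.Q

private noncomputable def q01_e (x : ℕ → ℝ) (k : ℕ) (P : Finset ℕ) : ℝ :=
  ∑ S ∈ P.powersetCard k, ∏ p ∈ S, x p

private noncomputable def q01_T (x : ℕ → ℝ) (k : ℕ) (P : Finset ℕ) : ℝ :=
  ∑ j ∈ range (k + 1), (-1 : ℝ) ^ j * q01_e x j P

private lemma q01_e_zero (x : ℕ → ℝ) (P : Finset ℕ) : q01_e x 0 P = 1 := by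
  simp [q01_e]

private lemma q01_e_empty (x : ℕ → ℝ) (k : ℕ) : q01_e x (k + 1) ∅ = 0 := by
  unfold q01_e
  rw [powersetCard_eq_empty.2 (by simp), sum_empty]

private lemma q01_e_insert (x : ℕ → ℝ) (k : ℕ) (P : Finset ℕ) (p : ℕ) (hp : p ∉ P) :
    q01_e x (k + 1) (insert p P) = q01_e x (k + 1) P + x p * q01_e x k P := by
  unfold q01_e
  rw [powersetCard_succ_insert hp, sum_union, sum_image, mul_sum]
  · congr 1
    refine sum_congr rfl fun S hS => ?_
    rw [prod_insert]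
    exact fun h => hp ((mem_powersetCard.1 hS).1 h)
  · intro S hS S' hS' h
    have h1 : p ∉ S := fun h => hp ((mem_powersetCard.1 hS).1 h)
    have h2 : p ∉ S' := fun h => hp ((mem_powersetCard.1 hS').1 h)
    rw [← erase_insert h1, ← erase_insert h2, h]
  · rw [disjoint_left]
    intro S hS hS'
    obtain ⟨S', _, rfl⟩ := mem_image.1 hS'
    exact hp ((mem_powersetCard.1 hS).1 (mem_insert_self p S'))

private lemma q01_T_zero (x : ℕ → ℝ) (P : Finset ℕ) : q01_T x 0 P = 1 := by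
  simp [q01_T, q01_e_zero]

private lemma q01_T_insert (x : ℕ → ℝ) (k : ℕ) (P : Finset ℕ) (p : ℕ) (hp : p ∉ P) :
    q01_T x (k + 1) (insert p P) = q01_T x (k + 1) P - x p * q01_T x k P := by
  unfold q01_T
  rw [sum_range_succ' _ (k + 1), sum_range_succ' _ (k + 1)]
  simp only [q01_e_insert x _ P p hp, q01_e_zero, mul_sum]
  have : ∀ j, (-1 : ℝ) ^ (j + 1) * (q01_e x (j + 1) P + x p * q01_e x j P) =
      (-1) ^ (j + 1) * q01_e x (j + 1) P - x p * ((-1) ^ j * q01_e x j P) := by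
    intro j; ring
  simp only [this, sum_sub_distrib]
  ring

private lemma q01_sum (x : ℕ → ℝ) (k : ℕ) (P : Finset ℕ) :
    ∑ S ∈ P.powerset.filter (fun S => S.card ≤ k), (-1 : ℝ) ^ S.card * ∏ p ∈ S, x p =
      q01_T x k P := by
  unfold q01_T q01_e
  rw [← sum_fiberwise_of_maps_to (t := range (k + 1)) (g := fun S : Finset ℕ => S.card)
    (fun S hS => mem_range.2 (Nat.lt_succ_of_le (mem_filter.1 hS).2))]
  refine sum_congr rfl fun j hj => ?_
  have hjk : j ≤ k := Nat.lt_succ_iff.1 (mem_range.1 hj)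
  have h : (P.powerset.filter (fun S => S.card ≤ k)).filter (fun S => S.card = j) =
      P.powersetCard j := by
    ext S
    simp only [mem_filter, mem_powerset, mem_powersetCard]
    constructor
    · rintro ⟨⟨h1, _⟩, h3⟩; exact ⟨h1, h3⟩
    · rintro ⟨h1, h3⟩; exact ⟨⟨h1, h3 ▸ hjk⟩, h3⟩
  rw [h, mul_sum]
  refine sum_congr rfl fun S hS => ?_
  rw [(mem_powersetCard.1 hS).2]

private lemma q01_main (x : ℕ → ℝ) (P : Finset ℕ) (hx : ∀ p ∈ P, 0 ≤ x p ∧ x p ≤ 1) :
    ∀ k, 0 ≤ (-1 : ℝ) ^ (k + 1) * (∏ p ∈ P, (1 - x p) - q01_T x k P) ∧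
      (-1 : ℝ) ^ (k + 1) * (∏ p ∈ P, (1 - x p) - q01_T x k P) ≤ q01_e x (k + 1) P := by
  induction P using Finset.induction_on with
  | empty =>
    intro k
    have hT : q01_T x k ∅ = 1 := by
      induction k with
      | zero => exact q01_T_zero x ∅
      | succ k ih =>
        unfold q01_T at ih ⊢
        rw [sum_range_succ, ih, q01_e_empty]
        simp
    rw [hT, q01_e_empty]
    simp
  | insert p P hp ih =>
    have hxp := hx p (mem_insert_self p P)
    have hxP : ∀ q ∈ P, 0 ≤ x q ∧ x q ≤ 1 := fun q hq => hx q (mem_insert_of_mem hq)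
    have hprod0 : 0 ≤ ∏ q ∈ P, (1 - x q) :=
      prod_nonneg fun q hq => sub_nonneg.2 (hxP q hq).2
    have hprod1 : ∏ q ∈ P, (1 - x q) ≤ 1 :=
      prod_le_one (fun q hq => sub_nonneg.2 (hxP q hq).2) fun q hq => by
        linarith [(hxP q hq).1]
    have ih' := ih hxP
    intro k
    rw [prod_insert hp, q01_e_insert x k P p hp]
    cases k with
    | zero =>
      obtain ⟨h1, h2⟩ := ih' 0
      rw [q01_T_zero] at h1 h2 ⊢
      rw [q01_e_zero]
      have h3 : x p * ∏ q ∈ P, (1 - x q) ≤ x p * 1 := mul_le_mul_of_nonneg_left hprod1 hxp.1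
      have h4 : 0 ≤ x p * ∏ q ∈ P, (1 - x q) := mul_nonneg hxp.1 hprod0
      simp only [zero_add, pow_one, neg_mul, one_mul] at h1 h2 ⊢
      constructor <;> nlinarith
    | succ k =>
      obtain ⟨h1, h2⟩ := ih' (k + 1)
      obtain ⟨h3, h4⟩ := ih' k
      rw [q01_T_insert x k P p hp]
      have key : (-1 : ℝ) ^ (k + 1 + 1) * ((1 - x p) * ∏ q ∈ P, (1 - x q) -
          (q01_T x (k + 1) P - x p * q01_T x k P)) =
          (-1 : ℝ) ^ (k + 1 + 1) * (∏ q ∈ P, (1 - x q) - q01_T x (k + 1) P) +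
          x p * ((-1 : ℝ) ^ (k + 1) * (∏ q ∈ P, (1 - x q) - q01_T x k P)) := by
        rw [pow_succ (-1 : ℝ) (k + 1)]; ring
      rw [key]
      have h5 : 0 ≤ x p * ((-1 : ℝ) ^ (k + 1) * (∏ q ∈ P, (1 - x q) - q01_T x k P)) :=
        mul_nonneg hxp.1 h3
      have h6 : x p * ((-1 : ℝ) ^ (k + 1) * (∏ q ∈ P, (1 - x q) - q01_T x k P)) ≤
          x p * q01_e x (k + 1) P := mul_le_mul_of_nonneg_left h4 hxp.1
      constructor <;> linarith

theorem q_bon : S_bon := by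
  intro P x k hx
  obtain ⟨h1, h2⟩ := q01_main x P hx k
  rw [q01_sum]
  have h3 : |∏ p ∈ P, (1 - x p) - q01_T x k P| =
      |(-1 : ℝ) ^ (k + 1) * (∏ p ∈ P, (1 - x p) - q01_T x k P)| := by
    rw [abs_mul, abs_pow, abs_neg, abs_one, one_pow, one_mul]
  rw [h3, abs_of_nonneg h1]
  exact h2

end Pool.Agent.APP.Q
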