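import Pool.Agent.Lib.MP_8a4e59_co.P.StmQ

/-!
[8a Q03] Rough numbers in progressions, with a monotone weight.
-/

set_option autoImplicit false

open Finset ArithmeticFunction

namespace Pool.Agent.APP.Q

/-- sums over two classes differ by at most one -/
private theorem q03_two (f : ℕ → ℝ) (u v m c c' : ℕ) (hm : 1 ≤ m)
    (hmono : ∀ i j, 1 ≤ i → i ≤ j → f j ≤ f i) (h01 : ∀ n, 1 ≤ n → 0 ≤ f n ∧ f n ≤ 1) :
    ∑ n ∈ (Ioc u v).filter (fun n => n ≡ c [MOD m]), f n ≤
      ∑ n ∈ (Ioc u v).filter (fun n => n ≡ c' [MOD m]), f n + 1 := by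
  classical
  set d := (c + (m - c' % m)) % m with hd
  have hdm : d < m := Nat.mod_lt _ hm
  have hcd : c' + d ≡ c [MOD m] := by
    have h1 : d ≡ c + (m - c' % m) [MOD m] := Nat.mod_modEq _ _
    have h2 : c' + d ≡ c' + (c + (m - c' % m)) [MOD m] := Nat.ModEq.add_left _ h1
    have h3 : c' + (c + (m - c' % m)) = c + m * (1 + c' / m) := by
      have e1 := Nat.div_add_mod c' m
      have e2 := Nat.mod_lt c' hm
      rw [mul_add, mul_one]
      omega
    rw [h3] at h2
    refine h2.trans ?_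
    simp [Nat.ModEq]
  -- split
  rw [← sum_filter_add_sum_filter_not ((Ioc u v).filter (fun n => n ≡ c [MOD m]))
    (fun n => u + d < n)]
  have hB : ∑ n ∈ ((Ioc u v).filter (fun n => n ≡ c [MOD m])).filter (fun n => ¬ (u + d < n)),
      f n ≤ 1 := by
    set B := ((Ioc u v).filter (fun n => n ≡ c [MOD m])).filter (fun n => ¬ (u + d < n)) with hBdef
    have hcard : B.card ≤ 1 := by
      rw [card_le_one]
      have key : ∀ x ∈ B, ∀ y ∈ B, x ≤ y → x = y := by
        intro x hx y hy hxy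
        rw [hBdef, mem_filter, mem_filter, mem_Ioc] at hx hy
        have hmod : x ≡ y [MOD m] := hx.1.2.trans hy.1.2.symm
        have hdvd : m ∣ y - x := (Nat.modEq_iff_dvd' hxy).1 hmod
        have : y - x < m := by omega
        have := Nat.eq_zero_of_dvd_of_lt hdvd this
        omega
      intro x hx y hy
      rcases le_total x y with h | h
      · exact key x hx y hy h
      · exact (key y hy x hx h).symm
    calc ∑ n ∈ B, f n ≤ ∑ n ∈ B, (1 : ℝ) := by
          refine sum_le_sum fun n hn => ?_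
          rw [hBdef, mem_filter, mem_filter, mem_Ioc] at hn
          exact (h01 n (by omega)).2
      _ = (B.card : ℝ) := by simp
      _ ≤ 1 := by exact_mod_cast hcard
  have hA : ∑ n ∈ ((Ioc u v).filter (fun n => n ≡ c [MOD m])).filter (fun n => u + d < n), f n ≤
      ∑ n ∈ (Ioc u v).filter (fun n => n ≡ c' [MOD m]), f n := by
    set A := ((Ioc u v).filter (fun n => n ≡ c [MOD m])).filter (fun n => u + d < n) with hAdef
    have hmem : ∀ n ∈ A, u + d < n ∧ n ≤ v ∧ n ≡ c [MOD m] := by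
      intro n hn
      rw [hAdef, mem_filter, mem_filter, mem_Ioc] at hn
      exact ⟨hn.2, hn.1.1.2, hn.1.2⟩
    calc ∑ n ∈ A, f n ≤ ∑ n ∈ A, f (n - d) := by
          refine sum_le_sum fun n hn => ?_
          obtain ⟨h1, h2, h3⟩ := hmem n hn
          exact hmono (n - d) n (by omega) (by omega)
      _ = ∑ n ∈ A.image (fun n => n - d), f n := by
          rw [sum_image]
          intro x hx y hy hxy
          have hx' := hmem x hx
          have hy' := hmem y hy
          simp only at hxy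
          omega
      _ ≤ _ := by
          refine sum_le_sum_of_subset_of_nonneg ?_ ?_
          · intro y hy
            obtain ⟨n, hn, rfl⟩ := mem_image.1 hy
            obtain ⟨h1, h2, h3⟩ := hmem n hn
            rw [mem_filter, mem_Ioc]
            refine ⟨⟨by omega, by omega⟩, ?_⟩
            have h4 : n - d + d ≡ c' + d [MOD m] := by
              rw [Nat.sub_add_cancel (by omega)]
              exact h3.trans hcd.symm
            exact Nat.ModEq.add_right_cancel' d h4
          · intro n hn _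
            rw [mem_filter, mem_Ioc] at hn
            exact (h01 n (by omega)).1
  linarith

/-- equidistribution of a monotone weight in one class -/
private theorem q03_class (f : ℕ → ℝ) (u v m c : ℕ) (hm : 1 ≤ m)
    (hmono : ∀ i j, 1 ≤ i → i ≤ j → f j ≤ f i) (h01 : ∀ n, 1 ≤ n → 0 ≤ f n ∧ f n ≤ 1) :
    |∑ n ∈ (Ioc u v).filter (fun n => n ≡ c [MOD m]), f n - (∑ n ∈ Ioc u v, f n) / m| ≤ 1 := by
  classical
  have hm0 : (0 : ℝ) < m := by exact_mod_cast hm
  set G : ℕ → ℝ := fun c => ∑ n ∈ (Ioc u v).filter (fun n => n ≡ c [MOD m]), f n with hG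
  have hF : ∑ n ∈ Ioc u v, f n = ∑ c' ∈ range m, G c' := by
    rw [← sum_fiberwise_of_maps_to (s := Ioc u v) (t := range m) (g := fun n => n % m)
      (fun n _ => mem_range.2 (Nat.mod_lt _ hm))]
    refine sum_congr rfl fun c' hc' => ?_
    rw [hG]
    refine sum_congr ?_ fun _ _ => rfl
    refine filter_congr fun n _ => ?_
    rw [Nat.ModEq, Nat.mod_eq_of_lt (mem_range.1 hc')]
  have h1 : (m : ℝ) * G c ≤ ∑ n ∈ Ioc u v, f n + m := by
    rw [hF]
    calc (m : ℝ) * G c = ∑ _c' ∈ range m, G c := by simp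
      _ ≤ ∑ c' ∈ range m, (G c' + 1) := sum_le_sum fun c' _ => q03_two f u v m c c' hm hmono h01
      _ = _ := by rw [sum_add_distrib]; simp
  have h2 : ∑ n ∈ Ioc u v, f n ≤ (m : ℝ) * G c + m := by
    rw [hF]
    calc ∑ c' ∈ range m, G c' ≤ ∑ c' ∈ range m, (G c + 1) :=
          sum_le_sum fun c' _ => q03_two f u v m c' c hm hmono h01
      _ = _ := by rw [sum_const, card_range, nsmul_eq_mul]; ring
  change |G c - (∑ n ∈ Ioc u v, f n) / m| ≤ 1
  rw [abs_le]
  constructor
  · rw [neg_le_sub_iff_le_add, div_le_iff₀ hm0]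
    nlinarith
  · rw [sub_le_iff_le_add, ← sub_le_iff_le_add', le_div_iff₀ hm0]
    nlinarith

/-- two conditions with coprime moduli are one class -/
private theorem q03_crt (q e b : ℕ) (h : q.Coprime e) :
    ∃ c, ∀ n, (n ≡ b [MOD q] ∧ e ∣ n) ↔ n ≡ c [MOD (q * e)] := by
  obtain ⟨c, hc1, hc2⟩ := Nat.chineseRemainder h b 0
  refine ⟨c, fun n => ?_⟩
  rw [← Nat.modEq_and_modEq_iff_modEq_mul h]
  constructor
  · rintro ⟨h1, h2⟩
    exact ⟨h1.trans hc1.symm, ((Nat.modEq_zero_iff_dvd).2 h2).trans hc2.symm⟩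
  · rintro ⟨h1, h2⟩
    exact ⟨h1.trans hc1, (Nat.modEq_zero_iff_dvd).1 (h2.trans hc2)⟩

private theorem q03_dvd (S : Finset ℕ) (hS : ∀ p ∈ S, p.Prime) (n : ℕ) :
    (∏ p ∈ S, p) ∣ n ↔ ∀ p ∈ S, p ∣ n := by
  constructor
  · intro h p hp
    exact (dvd_prod_of_mem _ hp).trans h
  · intro h
    exact Finset.prod_primes_dvd n (fun p hp => (hS p hp).prime) h

private theorem q03_ind (S : Finset ℕ) (hS : ∀ p ∈ S, p.Prime) (n : ℕ) :
    ∏ p ∈ S, (if p ∣ n then (1 : ℝ) else 0) = if (∏ p ∈ S, p) ∣ n then 1 else 0 := by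
  classical
  by_cases h : ∀ p ∈ S, p ∣ n
  · rw [if_pos ((q03_dvd S hS n).2 h)]
    exact prod_eq_one fun p hp => if_pos (h p hp)
  · rw [if_neg (fun h' => h ((q03_dvd S hS n).1 h'))]
    push Not at h
    obtain ⟨p, hp, hpn⟩ := h
    exact prod_eq_zero hp (if_neg hpn)

theorem q_fund (h1 : S_bon) (h2 : S_tru) : S_fund := by
  classical
  intro f Q q b k u v hQ hq hb _huv hk hmono h01
  have hq0 : (0 : ℝ) < q := by exact_mod_cast hq
  set P : Finset ℕ := (prQ Q).filter (fun p => ¬ p ∣ q) with hP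
  have hPp : ∀ p ∈ P, p.Prime := fun p hp => by
    rw [hP, prQ, mem_filter, mem_filter] at hp
    exact hp.1.2
  have hPsub : P ⊆ prQ Q := filter_subset _ _
  set F : ℝ := ∑ n ∈ Ioc u v, f n with hF
  have hF0 : 0 ≤ F := sum_nonneg fun n hn => by
    rw [mem_Ioc] at hn
    exact (h01 n (by omega)).1
  set A : Finset ℕ := (Ioc u v).filter (fun n => n ≡ b [MOD q]) with hA
  have hApos : ∀ n ∈ A, 0 ≤ f n := fun n hn => by
    rw [hA, mem_filter, mem_Ioc] at hn
    exact (h01 n (by omega)).1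
  set g : Finset ℕ → ℝ := fun S => ∑ n ∈ A, f n * ∏ p ∈ S, (if p ∣ n then (1 : ℝ) else 0) with hg
  -- each `g S`
  have hgS : ∀ S ⊆ P, |g S - F / q * ∏ p ∈ S, (1 / (p : ℝ))| ≤ 1 := by
    intro S hS
    have hSp : ∀ p ∈ S, p.Prime := fun p hp => hPp p (hS hp)
    have hcop : q.Coprime (∏ p ∈ S, p) := by
      refine Nat.Coprime.prod_right fun p hp => ?_
      have hpq : ¬ p ∣ q := (mem_filter.1 (hS hp)).2
      exact ((hSp p hp).coprime_iff_not_dvd.2 hpq).symm
    obtain ⟨c, hc⟩ := q03_crt q (∏ p ∈ S, p) b hcop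
    have e1 : g S = ∑ n ∈ (Ioc u v).filter (fun n => n ≡ c [MOD (q * ∏ p ∈ S, p)]), f n := by
      rw [hg]
      simp only
      have : ∀ n ∈ A, f n * ∏ p ∈ S, (if p ∣ n then (1 : ℝ) else 0) =
          if (∏ p ∈ S, p) ∣ n then f n else 0 := by
        intro n _
        rw [q03_ind S hSp n, mul_ite, mul_one, mul_zero]
      rw [sum_congr rfl this, ← sum_filter, hA, filter_filter]
      refine sum_congr ?_ fun _ _ => rfl
      exact filter_congr fun n _ => hc n
    have hpos : 1 ≤ ∏ p ∈ S, p := Nat.one_le_iff_ne_zero.2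
      (prod_ne_zero_iff.2 fun p hp => (hSp p hp).ne_zero)
    have e2 := q03_class f u v (q * ∏ p ∈ S, p) c (Nat.mul_pos hq hpos) hmono h01
    rw [← e1] at e2
    have e3 : F / q * ∏ p ∈ S, (1 / (p : ℝ)) = (∑ n ∈ Ioc u v, f n) / ((q * ∏ p ∈ S, p : ℕ) : ℝ) := by
      rw [prod_div_distrib, prod_const_one, ← hF]
      push_cast
      rw [div_mul_div_comm, mul_one]
    rw [e3]
    exact e2
  -- the left sum
  set L : ℝ := ∑ n ∈ (Ioc u v).filter (fun n => n ≡ b [MOD q] ∧ rough Q n), f n with hL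
  have hLP : L = ∑ n ∈ A, f n * ∏ p ∈ P, (1 - (if p ∣ n then (1 : ℝ) else 0)) := by
    rw [hL, ← filter_filter, sum_filter]
    refine sum_congr rfl fun n hn => ?_
    have hnb : n ≡ b [MOD q] := (mem_filter.1 hn).2
    by_cases hr : rough Q n
    · rw [if_pos hr, prod_eq_one, mul_one]
      intro p hp
      have hp' := hPsub hp
      rw [prQ, mem_filter, mem_Icc] at hp'
      have hpQ : (p : ℝ) ≤ Q := (Nat.le_floor_iff (by linarith)).1 hp'.1.2
      have : ¬ p ∣ n := fun h => hr p hp'.2 hpQ (Int.natCast_dvd_natCast.2 h)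
      rw [if_neg this, sub_zero]
    · rw [if_neg hr]
      unfold rough at hr
      push Not at hr
      obtain ⟨p, hp, hpQ, hpn⟩ := hr
      have hpn' : p ∣ n := Int.natCast_dvd_natCast.1 hpn
      have hpq : ¬ p ∣ q := by
        intro h
        have hpb : p ∣ b := by
          have := hnb.of_dvd h
          exact (Nat.modEq_zero_iff_dvd).1 (this.symm.trans ((Nat.modEq_zero_iff_dvd).2 hpn'))
        have := Nat.dvd_gcd hpb h
        rw [Nat.Coprime.gcd_eq_one hb] at this
        exact hp.one_lt.ne' (Nat.dvd_one.1 this)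
      have hpP : p ∈ P := by
        rw [hP, prQ, mem_filter, mem_filter, mem_Icc]
        exact ⟨⟨⟨hp.one_lt.le, (Nat.le_floor_iff (by linarith)).2 hpQ⟩, hp⟩, hpq⟩
      rw [prod_eq_zero hpP, mul_zero]
      rw [if_pos hpn', sub_self]
  set small : Finset (Finset ℕ) := P.powerset.filter (fun S => S.card ≤ k) with hsmall
  set top : Finset (Finset ℕ) := P.powersetCard (k + 1) with htop
  have hst : ∀ S ∈ small, S ⊆ P := fun S hS => mem_powerset.1 (mem_filter.1 hS).1
  have htt : ∀ S ∈ top, S ⊆ P := fun S hS => (mem_powersetCard.1 hS).1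
  -- step 1
  have hs1 : |L - ∑ S ∈ small, (-1 : ℝ) ^ S.card * g S| ≤ ∑ S ∈ top, g S := by
    have e1 : L - ∑ S ∈ small, (-1 : ℝ) ^ S.card * g S =
        ∑ n ∈ A, f n * (∏ p ∈ P, (1 - (if p ∣ n then (1 : ℝ) else 0)) -
          ∑ S ∈ small, (-1 : ℝ) ^ S.card * ∏ p ∈ S, (if p ∣ n then (1 : ℝ) else 0)) := by
      simp only [mul_sub, sum_sub_distrib]
      rw [← hLP]
      congr 1
      simp only [hg, mul_sum]
      rw [sum_comm]
      refine sum_congr rfl fun n _ => sum_congr rfl fun S _ => ?_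
      ring
    have e2 : ∑ S ∈ top, g S =
        ∑ n ∈ A, f n * ∑ S ∈ top, ∏ p ∈ S, (if p ∣ n then (1 : ℝ) else 0) := by
      simp only [hg, mul_sum]
      rw [sum_comm]
    rw [e1, e2]
    refine (abs_sum_le_sum_abs _ _).trans (sum_le_sum fun n hn => ?_)
    rw [abs_mul, abs_of_nonneg (hApos n hn)]
    refine mul_le_mul_of_nonneg_left ?_ (hApos n hn)
    exact h1 P (fun p => if p ∣ n then (1 : ℝ) else 0) k (fun p _ => by
      split_ifs <;> norm_num)
  -- step 2
  have hs2 : |∏ p ∈ P, (1 - 1 / (p : ℝ)) - ∑ S ∈ small, (-1 : ℝ) ^ S.card * ∏ p ∈ S, (1 / (p : ℝ))| ≤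
      ∑ S ∈ top, ∏ p ∈ S, (1 / (p : ℝ)) := by
    refine h1 P (fun p => 1 / (p : ℝ)) k fun p hp => ⟨by positivity, ?_⟩
    have : (1 : ℝ) ≤ p := by exact_mod_cast (hPp p hp).one_lt.le
    rw [div_le_one (by linarith)]
    exact this
  have hs3 : |∑ S ∈ small, (-1 : ℝ) ^ S.card * g S -
      F / q * ∑ S ∈ small, (-1 : ℝ) ^ S.card * ∏ p ∈ S, (1 / (p : ℝ))| ≤ small.card := by
    rw [mul_sum, ← sum_sub_distrib]
    refine (abs_sum_le_sum_abs _ _).trans ?_
    calc ∑ S ∈ small, |(-1 : ℝ) ^ S.card * g S - F / q * ((-1 : ℝ) ^ S.card * ∏ p ∈ S, (1 / (p : ℝ)))|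
        ≤ ∑ S ∈ small, (1 : ℝ) := by
          refine sum_le_sum fun S hS => ?_
          have e : (-1 : ℝ) ^ S.card * g S - F / q * ((-1 : ℝ) ^ S.card * ∏ p ∈ S, (1 / (p : ℝ))) =
              (-1 : ℝ) ^ S.card * (g S - F / q * ∏ p ∈ S, (1 / (p : ℝ))) := by ring
          rw [e, abs_mul, abs_pow, abs_neg, abs_one, one_pow, one_mul]
          exact hgS S (hst S hS)
      _ = small.card := by simp
  have hs4 : ∑ S ∈ top, g S ≤ F / q * ∑ S ∈ top, ∏ p ∈ S, (1 / (p : ℝ)) + top.card := by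
    rw [mul_sum]
    calc ∑ S ∈ top, g S ≤ ∑ S ∈ top, (F / q * ∏ p ∈ S, (1 / (p : ℝ)) + 1) := by
          refine sum_le_sum fun S hS => ?_
          have := (abs_le.1 (hgS S (htt S hS))).2
          linarith
      _ = _ := by rw [sum_add_distrib]; simp
  -- the truncation
  obtain ⟨t1, t2, -, -⟩ := h2 Q k hQ
  have ht1 := t1 hk
  have htopsub : top ⊆ (prQ Q).powersetCard (k + 1) := powersetCard_mono hPsub
  have he : ∑ S ∈ top, ∏ p ∈ S, (1 / (p : ℝ)) ≤ Real.exp (-k) := by
    refine le_trans (sum_le_sum_of_subset_of_nonneg htopsub fun S _ _ => ?_) ht1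
    exact prod_nonneg fun p _ => by positivity
  have hcard : (small.card : ℝ) + top.card ≤ Q ^ (k + 1) := by
    refine le_trans ?_ t2
    have hdisj : Disjoint small top := by
      rw [Finset.disjoint_left]
      intro S h h'
      have a1 := (mem_filter.1 h).2
      have a2 := (mem_powersetCard.1 h').2
      omega
    have hsub : small ∪ top ⊆ (prQ Q).powerset.filter (fun S => S.card ≤ k + 1) := by
      intro S hS
      rw [mem_union] at hS
      rw [mem_filter, mem_powerset]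
      rcases hS with h | h
      · exact ⟨(hst S h).trans hPsub, by have := (mem_filter.1 h).2; omega⟩
      · exact ⟨(htt S h).trans hPsub, by have := (mem_powersetCard.1 h).2; omega⟩
    have := card_le_card hsub
    rw [card_union_of_disjoint hdisj] at this
    exact_mod_cast this
  have hVq : Vq Q q = ∏ p ∈ P, (1 - 1 / (p : ℝ)) := rfl
  have hFq : 0 ≤ F / q := by positivity
  rw [hVq]
  set V : ℝ := ∏ p ∈ P, (1 - 1 / (p : ℝ)) with hV
  set E : ℝ := ∑ S ∈ top, ∏ p ∈ S, (1 / (p : ℝ)) with hE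
  set M : ℝ := ∑ S ∈ small, (-1 : ℝ) ^ S.card * g S with hM
  set R : ℝ := ∑ S ∈ small, (-1 : ℝ) ^ S.card * ∏ p ∈ S, (1 / (p : ℝ)) with hR
  have hfin : |L - F / q * V| ≤ 2 * (F / q) * E + (small.card + top.card) := by
    have e : L - F / q * V = (L - M) + (M - F / q * R) + F / q * (R - V) := by ring
    rw [e]
    refine (abs_add_three _ _ _).trans ?_
    have h3 : |F / q * (R - V)| ≤ F / q * E := by
      rw [abs_mul, abs_of_nonneg hFq, abs_sub_comm]
      exact mul_le_mul_of_nonneg_left hs2 hFq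
    linarith
  have hQk : 0 ≤ Q ^ (k + 1) := by positivity
  have hEle : 2 * (F / q) * E ≤ 2 * (F / q) * Real.exp (-k) :=
    mul_le_mul_of_nonneg_left he (by positivity)
  linarith

end Pool.Agent.APP.Q
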