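import Pool.Agent.Lib.MP_8a4e59_co.P.StmQ

set_option autoImplicit false

open Finset ArithmeticFunction

namespace Pool.Agent.APP.Q

private theorem q05_one (δ : ℝ) (N q₀ : ℕ) (X V A B Cf e epsr : ℝ) (g : ℤ → ℂ)
    (h : DecT δ N q₀ X V A B Cf e g) (hA : A ≤ 1 / δ) (hB : B ≤ 1 / δ) (hC : Cf ≤ 1 / δ)
    (he : e ≤ epsr) : Dec δ N q₀ X V epsr g := by
  obtain ⟨ι, κ, _, _, m, lam, w, M, mu, a, b, err, h1, h2, h3, h4, h5, h6, h7⟩ := h
  refine ⟨Fintype.card ι, Fintype.card κ, fun i => m ((Fintype.equivFin ι).symm i),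
    fun i => lam ((Fintype.equivFin ι).symm i), fun i => w ((Fintype.equivFin ι).symm i),
    fun j => M ((Fintype.equivFin κ).symm j), fun j => mu ((Fintype.equivFin κ).symm j),
    fun j => a ((Fintype.equivFin κ).symm j),
    fun j => b ((Fintype.equivFin κ).symm j), err, fun i => h1 _, ?_, fun j => h3 _, ?_,
    ?_, ?_, ?_⟩
  · have := Equiv.sum_comp (Fintype.equivFin ι).symm (fun i => lam i / (m i : ℝ))
    rw [this]
    exact h2.trans hA
  · have := Equiv.sum_comp (Fintype.equivFin κ).symm (fun j => mu j)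
    rw [this]
    exact h4.trans hB
  · intro j
    obtain ⟨c1, c2, c3, c4⟩ := h5 ((Fintype.equivFin κ).symm j)
    exact ⟨c1, c2, fun k => (c3 k).trans hC, fun k => (c4 k).trans hC⟩
  · exact h6.trans (mul_le_mul_of_nonneg_right he (Nat.cast_nonneg N))
  · intro n hn
    rw [h7 n hn]
    have e1 := Equiv.sum_comp (Fintype.equivFin ι).symm (fun i => (lam i : ℂ) * w i n)
    have e2 := Equiv.sum_comp (Fintype.equivFin κ).symm
      (fun j => (mu j : ℂ) * typeII (M j) (a j) (b j) n)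
    rw [e1, e2]

private theorem q05_two (δ : ℝ) (N q₀ : ℕ) (X X' X'' V V' V'' A A' B B' Cf e e' : ℝ)
    (g g' h : ℤ → ℂ) (hg : DecT δ N q₀ X V A B Cf e g) (hg' : DecT δ N q₀ X' V' A' B' Cf e' g')
    (hh : ∀ n, h n = g n + g' n) (hX : X ≤ X'') (hX' : X' ≤ X'') (hV : V'' ≤ V) (hV' : V'' ≤ V') :
    DecT δ N q₀ X'' V'' (A + A') (B + B') Cf (e + e') h := by
  obtain ⟨ι, κ, _, _, m, lam, w, M, mu, a, b, err, h1, h2, h3, h4, h5, h6, h7⟩ := hg
  obtain ⟨ι', κ', _, _, m', lam', w', M', mu', a', b', err', h1', h2', h3', h4', h5', h6',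
    h7'⟩ := hg'
  refine ⟨ι ⊕ ι', κ ⊕ κ', inferInstance, inferInstance, Sum.elim m m', Sum.elim lam lam',
    Sum.elim w w', Sum.elim M M', Sum.elim mu mu', Sum.elim a a', Sum.elim b b',
    fun n => err n + err' n, ?_, ?_, ?_, ?_, ?_, ?_, ?_⟩
  · rintro (i | i)
    · obtain ⟨c1, c2, c3, c4⟩ := h1 i
      exact ⟨c1, c2.trans hX, c3, c4⟩
    · obtain ⟨c1, c2, c3, c4⟩ := h1' i
      exact ⟨c1, c2.trans hX', c3, c4⟩
  · rw [Fintype.sum_sum_type]
    simp only [Sum.elim_inl, Sum.elim_inr]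
    exact add_le_add h2 h2'
  · rintro (j | j)
    · exact h3 j
    · exact h3' j
  · rw [Fintype.sum_sum_type]
    simp only [Sum.elim_inl, Sum.elim_inr]
    exact add_le_add h4 h4'
  · rintro (j | j)
    · obtain ⟨c1, c2⟩ := h5 j
      exact ⟨hV.trans c1, c2⟩
    · obtain ⟨c1, c2⟩ := h5' j
      exact ⟨hV'.trans c1, c2⟩
  · have : ∑ n ∈ Finset.Icc (1 : ℤ) N, ‖err n + err' n‖ ≤
        ∑ n ∈ Finset.Icc (1 : ℤ) N, ‖err n‖ + ∑ n ∈ Finset.Icc (1 : ℤ) N, ‖err' n‖ := by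
      rw [← Finset.sum_add_distrib]
      exact Finset.sum_le_sum fun n _ => norm_add_le _ _
    refine this.trans ?_
    rw [add_mul]
    exact add_le_add h6 h6'
  · intro n hn
    rw [hh n, h7 n hn, h7' n hn, Fintype.sum_sum_type, Fintype.sum_sum_type]
    simp only [Sum.elim_inl, Sum.elim_inr]
    split_ifs <;> ring

theorem q_dec : S_dec := ⟨q05_one, q05_two⟩

end Pool.Agent.APP.Q
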