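/-
MP_8a4e59_co, part P2-P5, piece Q06: decomposition of the von Mangoldt function.
-/
import Pool.Agent.Lib.MP_8a4e59_co.P.StmQ

set_option autoImplicit false

open Finset ArithmeticFunction

namespace Pool.Agent.APP.Q

theorem q_vau (h1 : S_vid) (h2 : S_vI) (h3 : S_vII) (h4 : S_dec) : S_vau := by
  intro N q₀ δ V hN hq hδ hδ1 hV hVN hV2
  obtain ⟨hvid, -⟩ := h1 V hV
  have hI := h2 N q₀ δ V hN hq hδ hδ1 hV hV2
  have hII := h3 N q₀ δ V hN hq hδ hδ1 hV hV2
  have hsum : ∀ n : ℤ, gL δ N n = rst δ N (vI V) n + rst δ N (vII V) n := by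
    intro n
    unfold gL rst
    by_cases h : 1 ≤ n ∧ δ * N ≤ n ∧ n ≤ N
    · rw [if_pos h, if_pos h, if_pos h]
      have hn : ((n.toNat : ℕ) : ℝ) = (n : ℝ) := by
        have h5 : ((n.toNat : ℕ) : ℤ) = n := Int.toNat_of_nonneg (by omega)
        exact_mod_cast h5
      have hlt : V < ((n.toNat : ℕ) : ℝ) := by
        rw [hn]
        exact hVN.trans_le h.2.1
      rw [hvid n.toNat hlt, ← Complex.ofReal_add, add_div]
    · rw [if_neg h, if_neg h, if_neg h, add_zero]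
  have h5 := h4.2 δ N q₀ (V ^ 2) (V ^ 2) (V ^ 2) V V V 4 0 0 4 1 0 0 _ _ (gL δ N)
    hI hII hsum le_rfl le_rfl le_rfl le_rfl
  rw [add_zero, zero_add, add_zero] at h5
  exact h5

end Pool.Agent.APP.Q
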