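import Pool.Agent.Lib.MP_8a4e59_co.P.StmQ

/-!
MP_8a4e59_co, piece Q06a: Vaughan's identity.
-/

set_option autoImplicit false

open Finset ArithmeticFunction

namespace Pool.Agent.APP.Q

/-- truncation of an arithmetic function to `n ≤ V` -/
private noncomputable def q06a_T (V : ℝ) (f : ArithmeticFunction ℝ) : ArithmeticFunction ℝ :=
  ⟨fun n => if (n : ℝ) ≤ V then f n else 0, by simp⟩

private lemma q06a_T_apply (V : ℝ) (f : ArithmeticFunction ℝ) (n : ℕ) :
    q06a_T V f n = if (n : ℝ) ≤ V then f n else 0 := rfl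

private lemma q06a_sub (f g : ArithmeticFunction ℝ) (n : ℕ) : (f - g) n = f n - g n := by
  rw [sub_eq_add_neg, ArithmeticFunction.add_apply, ArithmeticFunction.neg_apply, sub_eq_add_neg]

private lemma q06a_id (V : ℝ) : (vonMangoldt : ArithmeticFunction ℝ) =
    q06a_T V vonMangoldt + q06a_T V (moebius : ArithmeticFunction ℝ) * log
      - (q06a_T V (moebius : ArithmeticFunction ℝ) * q06a_T V vonMangoldt) *
          (zeta : ArithmeticFunction ℝ)
      + ((moebius : ArithmeticFunction ℝ) - q06a_T V (moebius : ArithmeticFunction ℝ)) *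
        ((vonMangoldt - q06a_T V vonMangoldt) * (zeta : ArithmeticFunction ℝ)) := by
  have h1 : (moebius : ArithmeticFunction ℝ) * (zeta : ArithmeticFunction ℝ) = 1 :=
    coe_moebius_mul_coe_zeta
  rw [← vonMangoldt_mul_zeta]
  set M := q06a_T V (moebius : ArithmeticFunction ℝ)
  set L1 := q06a_T V vonMangoldt
  linear_combination (-(vonMangoldt - L1)) * h1

private lemma q06a_c (V : ℝ) (m : ℕ) :
    (q06a_T V (moebius : ArithmeticFunction ℝ) * q06a_T V vonMangoldt) m = cV V m := by
  rw [mul_apply, cV]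
  refine Finset.sum_congr rfl fun x _ => ?_
  rw [q06a_T_apply, q06a_T_apply]
  by_cases h1 : (x.1 : ℝ) ≤ V
  · by_cases h2 : (x.2 : ℝ) ≤ V
    · simp [h1, h2]
    · simp [h1, h2]
  · simp [h1]

private lemma q06a_h (V : ℝ) (k : ℕ) :
    ((vonMangoldt - q06a_T V vonMangoldt) * (zeta : ArithmeticFunction ℝ)) k = hV V k := by
  rw [coe_mul_zeta_apply, hV]
  refine Finset.sum_congr rfl fun c _ => ?_
  rw [q06a_sub, q06a_T_apply]
  by_cases h : (c : ℝ) ≤ V
  · simp [h, not_lt.mpr h]
  · simp [h, not_le.mp h]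

private lemma q06a_main (V : ℝ) (n : ℕ) (hn : V < n) :
    vonMangoldt n = vI V n + vII V n := by
  have h := congrArg (fun f : ArithmeticFunction ℝ => f n) (q06a_id V)
  simp only [ArithmeticFunction.add_apply, q06a_sub] at h
  rw [h, q06a_T_apply, if_neg (not_le.mpr hn), zero_add, vI, vII]
  congr 1
  · congr 1
    · rw [mul_apply, Nat.sum_divisorsAntidiagonal
        (fun i j => q06a_T V (moebius : ArithmeticFunction ℝ) i * log j)]
      refine Finset.sum_congr rfl fun b hb => ?_
      have hbn : b ∣ n := Nat.dvd_of_mem_divisors hb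
      have hb0 : (b : ℝ) ≠ 0 := by
        have := Nat.pos_of_mem_divisors hb
        positivity
      rw [q06a_T_apply, log_apply, Nat.cast_div hbn hb0]
      by_cases h1 : (b : ℝ) ≤ V
      · simp [h1]
      · simp [h1]
    · rw [coe_mul_zeta_apply]
      exact Finset.sum_congr rfl fun m _ => q06a_c V m
  · rw [mul_apply, Nat.sum_divisorsAntidiagonal
        (fun i j => ((moebius : ArithmeticFunction ℝ) - q06a_T V (moebius : ArithmeticFunction ℝ)) i
          * ((vonMangoldt - q06a_T V vonMangoldt) * (zeta : ArithmeticFunction ℝ)) j)]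
    refine Finset.sum_congr rfl fun b _ => ?_
    rw [q06a_h, q06a_sub, q06a_T_apply]
    by_cases h1 : (b : ℝ) ≤ V
    · simp [h1, not_lt.mpr h1]
    · simp [h1, not_le.mp h1]

private lemma q06a_cbound (V : ℝ) (m : ℕ) : |cV V m| ≤ Real.log m := by
  rw [cV]
  refine (Finset.abs_sum_le_sum_abs _ _).trans ?_
  have h1 : ∀ x ∈ m.divisorsAntidiagonal, |if (x.1 : ℝ) ≤ V ∧ (x.2 : ℝ) ≤ V then
      (moebius x.1 : ℝ) * vonMangoldt x.2 else 0| ≤ vonMangoldt x.2 := by
    intro x _
    have hL : 0 ≤ vonMangoldt x.2 := vonMangoldt_nonneg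
    split_ifs
    · rw [abs_mul, abs_of_nonneg hL]
      have hmu : |(moebius x.1 : ℝ)| ≤ 1 := by
        have := abs_moebius_le_one (n := x.1)
        exact_mod_cast this
      calc |(moebius x.1 : ℝ)| * vonMangoldt x.2 ≤ 1 * vonMangoldt x.2 :=
            mul_le_mul_of_nonneg_right hmu hL
        _ = vonMangoldt x.2 := one_mul _
    · rw [abs_zero]; exact hL
  refine (Finset.sum_le_sum h1).trans ?_
  rw [Nat.sum_divisorsAntidiagonal' (fun _ j => vonMangoldt j), vonMangoldt_sum]

theorem q_vid : S_vid := by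
  intro V hV1
  refine ⟨fun n hn => q06a_main V n hn, fun m _ => q06a_cbound V m, ?_, ?_, ?_⟩
  · intro m hm
    rw [cV]
    refine Finset.sum_eq_zero fun x hx => ?_
    rw [if_neg]
    rintro ⟨h1, h2⟩
    have h3 : x.1 * x.2 = m := (Nat.mem_divisorsAntidiagonal.mp hx).1
    have h4 : (m : ℝ) = x.1 * x.2 := by rw [← h3]; push_cast; ring
    have h5 : (x.1 : ℝ) * x.2 ≤ V * V :=
      mul_le_mul h1 h2 (Nat.cast_nonneg _) (by linarith)
    nlinarith
  · intro k hk
    rw [hV]
    constructor
    · refine Finset.sum_nonneg fun c _ => ?_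
      split_ifs
      · exact vonMangoldt_nonneg
      · exact le_rfl
    · rw [← vonMangoldt_sum]
      refine Finset.sum_le_sum fun c _ => ?_
      split_ifs
      · exact le_rfl
      · exact vonMangoldt_nonneg
  · intro k hk
    rw [hV]
    refine Finset.sum_eq_zero fun c hc => ?_
    rw [if_neg]
    rw [not_lt]
    have h1 : c ≤ k := Nat.divisor_le hc
    have h2 : (c : ℝ) ≤ k := by exact_mod_cast h1
    linarith

end Pool.Agent.APP.Q
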