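import Pool.Agent.Lib.MP_8a4e59_co.P.StmQ

set_option autoImplicit false

open Finset ArithmeticFunction

namespace Pool.Agent.APP.Q

private theorem q06b_logN (N : ℕ) (hN : 3 ≤ N) : 1 ≤ Real.log N := by
  rw [Real.le_log_iff_exp_le (by positivity)]
  have h1 := Real.exp_one_lt_d9
  have h2 : (3 : ℝ) ≤ N := by exact_mod_cast hN
  linarith

open Classical in
private noncomputable def q06b_w1 (δ : ℝ) (N b : ℕ) (x : ℤ) : ℂ :=
  if (1 ≤ x ∧ δ * N ≤ x ∧ x ≤ N) ∧ (b : ℤ) ∣ x then
    (((moebius b : ℝ) * Real.log ((x : ℝ) / b) / Real.log N : ℝ) : ℂ) else 0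

open Classical in
private noncomputable def q06b_w2 (δ : ℝ) (N m : ℕ) (c : ℝ) (x : ℤ) : ℂ :=
  if (1 ≤ x ∧ δ * N ≤ x ∧ x ≤ N) ∧ (m : ℤ) ∣ x then ((-(c / Real.log N) : ℝ) : ℂ) else 0

private theorem q06b_log_diff (x y L : ℝ) (hL : 0 < L) (hx : L ≤ x) (hy : L ≤ y) :
    |Real.log x - Real.log y| ≤ |x - y| / L := by
  have hx0 : 0 < x := by linarith
  have hy0 : 0 < y := by linarith
  have key : ∀ x y : ℝ, L ≤ x → L ≤ y → Real.log x - Real.log y ≤ |x - y| / L := by
    intro x y hx hy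
    have hx0 : 0 < x := by linarith
    have hy0 : 0 < y := by linarith
    rw [← Real.log_div hx0.ne' hy0.ne']
    have h1 := Real.log_le_sub_one_of_pos (div_pos hx0 hy0)
    have h2 : x / y - 1 = (x - y) / y := by field_simp
    rw [h2] at h1
    refine h1.trans ?_
    refine (div_le_div_of_nonneg_right (le_abs_self _) hy0.le).trans ?_
    exact div_le_div_of_nonneg_left (abs_nonneg _) hL hy
  rw [abs_le]
  constructor
  · have := key y x hy hx
    rw [abs_sub_comm] at this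
    linarith
  · exact key x y hx hy

private theorem q06b_t1 (N q₀ b : ℕ) (δ : ℝ) (hN : 3 ≤ N) (hδ : 0 < δ)
    (hb : 1 ≤ b) : TypeI δ N q₀ b (q06b_w1 δ N b) := by
  have hlog := q06b_logN N hN
  have hN0 : (0 : ℝ) < N := by
    have : 0 < N := by omega
    exact_mod_cast this
  have hb0 : (0 : ℝ) < b := by exact_mod_cast hb
  have hmu : |(moebius b : ℝ)| ≤ 1 := by
    have := abs_moebius_le_one (n := b)
    exact_mod_cast this
  refine ⟨?_, ?_, ?_⟩
  · intro x
    unfold q06b_w1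
    split_ifs with h
    · obtain ⟨⟨h1, h2, h3⟩, h4⟩ := h
      rw [Complex.norm_real, Real.norm_eq_abs, abs_div, abs_mul, abs_of_pos (by linarith : 0 < Real.log N)]
      have hbx : (b : ℤ) ≤ x := Int.le_of_dvd (by omega) h4
      have hbx' : (b : ℝ) ≤ x := by exact_mod_cast hbx
      have hx0 : (0 : ℝ) < x := by linarith
      have hxN : (x : ℝ) ≤ N := by exact_mod_cast h3
      have h5 : 0 ≤ Real.log ((x : ℝ) / b) := Real.log_nonneg (by rw [le_div_iff₀ hb0]; linarith)
      have h6 : Real.log ((x : ℝ) / b) ≤ Real.log N := by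
        apply Real.log_le_log (div_pos hx0 hb0)
        refine (div_le_self hx0.le (by exact_mod_cast hb)).trans hxN
      rw [abs_of_nonneg h5, div_le_one (by linarith)]
      calc |(moebius b : ℝ)| * Real.log ((x : ℝ) / b) ≤ 1 * Real.log ((x : ℝ) / b) :=
            mul_le_mul_of_nonneg_right hmu h5
        _ ≤ Real.log N := by linarith
    · simp
  · intro x hx
    unfold q06b_w1 at hx
    split_ifs at hx with h
    · exact ⟨h.1.2.1, by exact_mod_cast h.1.2.2, h.2⟩
    · exact absurd rfl hx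
  · intro x y hx1 hx2 hy1 hy2 hd hdd
    have hδN : 0 < δ * N := mul_pos hδ hN0
    have hx0 : (0 : ℝ) < x := by linarith
    have hy0 : (0 : ℝ) < y := by linarith
    have hx1' : 1 ≤ x := by
      have : (0 : ℤ) < x := by exact_mod_cast hx0
      omega
    have hy1' : 1 ≤ y := by
      have : (0 : ℤ) < y := by exact_mod_cast hy0
      omega
    have hdy : (b : ℤ) ∣ y := by
      have h1 : (b : ℤ) ∣ x - y := by
        refine dvd_trans ?_ hdd
        push_cast
        exact dvd_mul_right _ _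
      have h2 := dvd_sub hd h1
      rwa [sub_sub_cancel] at h2
    unfold q06b_w1
    rw [if_pos ⟨⟨hx1', hx1, by exact_mod_cast hx2⟩, hd⟩, if_pos ⟨⟨hy1', hy1, by exact_mod_cast hy2⟩, hdy⟩,
      ← Complex.ofReal_sub, Complex.norm_real, Real.norm_eq_abs, Real.log_div hx0.ne' hb0.ne',
      Real.log_div hy0.ne' hb0.ne']
    have h3 : (moebius b : ℝ) * (Real.log x - Real.log b) / Real.log N -
        (moebius b : ℝ) * (Real.log y - Real.log b) / Real.log N =
        (moebius b : ℝ) * (Real.log x - Real.log y) / Real.log N := by ring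
    rw [h3, abs_div, abs_mul, abs_of_pos (by linarith : 0 < Real.log N)]
    have h4 := q06b_log_diff x y (δ * N) hδN hx1 hy1
    have h5 : |(moebius b : ℝ)| * |Real.log x - Real.log y| ≤ |(x : ℝ) - y| / (δ * N) := by
      calc |(moebius b : ℝ)| * |Real.log x - Real.log y| ≤ 1 * |Real.log x - Real.log y| :=
            mul_le_mul_of_nonneg_right hmu (abs_nonneg _)
        _ ≤ |(x : ℝ) - y| / (δ * N) := by rw [one_mul]; exact h4
    refine le_trans ?_ h5
    exact div_le_self (by positivity) hlog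

private theorem q06b_t2 (N q₀ m : ℕ) (δ c : ℝ) (hN : 3 ≤ N) (hδ : 0 < δ)
    (hc : |c| ≤ Real.log N) : TypeI δ N q₀ m (q06b_w2 δ N m c) := by
  have hlog := q06b_logN N hN
  have hN0 : (0 : ℝ) < N := by
    have : 0 < N := by omega
    exact_mod_cast this
  refine ⟨?_, ?_, ?_⟩
  · intro x
    unfold q06b_w2
    split_ifs with h
    · rw [Complex.norm_real, Real.norm_eq_abs, abs_neg, abs_div,
        abs_of_pos (by linarith : 0 < Real.log N), div_le_one (by linarith)]
      exact hc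
    · simp
  · intro x hx
    unfold q06b_w2 at hx
    split_ifs at hx with h
    · exact ⟨h.1.2.1, by exact_mod_cast h.1.2.2, h.2⟩
    · exact absurd rfl hx
  · intro x y hx1 hx2 hy1 hy2 hd hdd
    have hδN : 0 < δ * N := mul_pos hδ hN0
    have hx0 : (0 : ℝ) < x := by linarith
    have hy0 : (0 : ℝ) < y := by linarith
    have hx1' : 1 ≤ x := by
      have : (0 : ℤ) < x := by exact_mod_cast hx0
      omega
    have hy1' : 1 ≤ y := by
      have : (0 : ℤ) < y := by exact_mod_cast hy0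
      omega
    have hdy : (m : ℤ) ∣ y := by
      have h1 : (m : ℤ) ∣ x - y := by
        refine dvd_trans ?_ hdd
        push_cast
        exact dvd_mul_right _ _
      have h2 := dvd_sub hd h1
      rwa [sub_sub_cancel] at h2
    unfold q06b_w2
    rw [if_pos ⟨⟨hx1', hx1, by exact_mod_cast hx2⟩, hd⟩, if_pos ⟨⟨hy1', hy1, by exact_mod_cast hy2⟩, hdy⟩,
      sub_self, norm_zero]
    positivity

private theorem q06b_harm (y : ℝ) (hy : 1 ≤ y) :
    ∑ i : {b // b ∈ Finset.Icc 1 ⌊y⌋₊}, (1 / ((i : ℕ) : ℝ)) ≤ 1 + Real.log y := by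
  have h1 := harmonic_floor_le_one_add_log y hy
  have h2 : ∑ i : {b // b ∈ Finset.Icc 1 ⌊y⌋₊}, (1 / ((i : ℕ) : ℝ)) =
      ∑ i ∈ Finset.Icc 1 ⌊y⌋₊, (1 / (i : ℝ)) :=
    (Finset.sum_coe_sort (Finset.Icc 1 ⌊y⌋₊) (fun i : ℕ => (1 / (i : ℝ))))
  rw [h2]
  refine le_trans (le_of_eq ?_) h1
  rw [harmonic_eq_sum_Icc]
  push_cast
  exact Finset.sum_congr rfl fun i _ => by rw [one_div]

theorem q_vI (h1 : S_vid) (_h2 : S_dec) : S_vI := by
  intro N q₀ δ V hN hq hδ hδ1 hV hVN
  obtain ⟨-, hcV, hcV0, -, -⟩ := h1 V hV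
  have hlog := q06b_logN N hN
  have hN0 : (0 : ℝ) < N := by
    have : 0 < N := by omega
    exact_mod_cast this
  have hV2 : 1 ≤ V ^ 2 := one_le_pow₀ hV
  have hVV : V ≤ V ^ 2 := by nlinarith
  refine ⟨{b // b ∈ Finset.Icc 1 ⌊V⌋₊} ⊕ {b // b ∈ Finset.Icc 1 ⌊V ^ 2⌋₊}, Empty, by infer_instance,
    by infer_instance, Sum.elim (fun b => (b : ℕ)) (fun b => (b : ℕ)), fun _ => 1 / Real.log N,
    Sum.elim (fun b => q06b_w1 δ N b) (fun m => q06b_w2 δ N m (cV V m)), fun j => j.elim,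
    fun j => j.elim, fun j => j.elim, fun j => j.elim, fun _ => 0, ?_, ?_, fun j => j.elim,
    ?_, ?_, ?_, ?_⟩
  · have hl : 0 ≤ 1 / Real.log N := by positivity
    rintro (⟨b, hb⟩ | ⟨m, hm⟩)
    · rw [Finset.mem_Icc] at hb
      refine ⟨hb.1, ?_, hl, q06b_t1 N q₀ b δ hN hδ hb.1⟩
      have h3 : (b : ℝ) ≤ V := (Nat.le_floor_iff (by linarith)).1 hb.2
      exact h3.trans hVV
    · rw [Finset.mem_Icc] at hm
      have h3 : (m : ℝ) ≤ V ^ 2 := (Nat.le_floor_iff (by linarith)).1 hm.2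
      refine ⟨hm.1, h3, hl, q06b_t2 N q₀ m δ _ hN hδ ?_⟩
      refine (hcV m hm.1).trans ?_
      apply Real.log_le_log
      · exact_mod_cast hm.1
      · exact h3.trans hVN
  · rw [Fintype.sum_sum_type]
    have e1 := q06b_harm V hV
    have e2 := q06b_harm (V ^ 2) hV2
    have h3 : Real.log V ≤ Real.log N / 2 := by
      have : Real.log (V ^ 2) ≤ Real.log N := Real.log_le_log (by positivity) hVN
      rw [Real.log_pow] at this
      push_cast at this
      linarith
    have h4 : Real.log (V ^ 2) ≤ Real.log N := Real.log_le_log (by positivity) hVN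
    have e3 : ∑ i : {b // b ∈ Finset.Icc 1 ⌊V⌋₊}, 1 / Real.log N / ((i : ℕ) : ℝ) ≤
        (1 + Real.log V) / Real.log N := by
      have : ∑ i : {b // b ∈ Finset.Icc 1 ⌊V⌋₊}, 1 / Real.log N / ((i : ℕ) : ℝ) =
          (∑ i : {b // b ∈ Finset.Icc 1 ⌊V⌋₊}, (1 / ((i : ℕ) : ℝ))) / Real.log N := by
        rw [Finset.sum_div]
        exact Finset.sum_congr rfl fun i _ => by rw [div_right_comm]
      rw [this]
      exact div_le_div_of_nonneg_right e1 (by linarith)
    have e4 : ∑ i : {b // b ∈ Finset.Icc 1 ⌊V ^ 2⌋₊}, 1 / Real.log N / ((i : ℕ) : ℝ) ≤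
        (1 + Real.log (V ^ 2)) / Real.log N := by
      have : ∑ i : {b // b ∈ Finset.Icc 1 ⌊V ^ 2⌋₊}, 1 / Real.log N / ((i : ℕ) : ℝ) =
          (∑ i : {b // b ∈ Finset.Icc 1 ⌊V ^ 2⌋₊}, (1 / ((i : ℕ) : ℝ))) / Real.log N := by
        rw [Finset.sum_div]
        exact Finset.sum_congr rfl fun i _ => by rw [div_right_comm]
      rw [this]
      exact div_le_div_of_nonneg_right e2 (by linarith)
    have e5 : (1 + Real.log V) / Real.log N + (1 + Real.log (V ^ 2)) / Real.log N ≤ 4 := by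
      rw [← add_div, div_le_iff₀ (by linarith)]
      linarith
    exact (add_le_add e3 e4).trans e5
  · simp
  · intro j; exact j.elim
  · simp
  · intro n hn
    rw [Finset.mem_Icc] at hn
    obtain ⟨hn1, hn2⟩ := hn
    simp only [Finset.univ_eq_empty, Finset.sum_empty, ite_self, add_zero]
    rw [Fintype.sum_sum_type]
    simp only [Sum.elim_inl, Sum.elim_inr]
    have s1 : ∑ i : {b // b ∈ Finset.Icc 1 ⌊V⌋₊}, ((1 / Real.log N : ℝ) : ℂ) * q06b_w1 δ N i n =
        ∑ b ∈ Finset.Icc 1 ⌊V⌋₊, ((1 / Real.log N : ℝ) : ℂ) * q06b_w1 δ N b n :=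
      Finset.sum_coe_sort (Finset.Icc 1 ⌊V⌋₊)
        (fun b : ℕ => ((1 / Real.log N : ℝ) : ℂ) * q06b_w1 δ N b n)
    have s2 : ∑ i : {b // b ∈ Finset.Icc 1 ⌊V ^ 2⌋₊}, ((1 / Real.log N : ℝ) : ℂ) *
        q06b_w2 δ N i (cV V i) n =
        ∑ b ∈ Finset.Icc 1 ⌊V ^ 2⌋₊, ((1 / Real.log N : ℝ) : ℂ) * q06b_w2 δ N b (cV V b) n :=
      Finset.sum_coe_sort (Finset.Icc 1 ⌊V ^ 2⌋₊)
        (fun b : ℕ => ((1 / Real.log N : ℝ) : ℂ) * q06b_w2 δ N b (cV V b) n)
    rw [s1, s2]
    unfold rst q06b_w1 q06b_w2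
    by_cases hδn : δ * N ≤ n
    · have hcond : 1 ≤ n ∧ δ * N ≤ (n : ℝ) ∧ n ≤ N := ⟨hn1, hδn, hn2⟩
      rw [if_pos hcond]
      obtain ⟨k, rfl⟩ : ∃ k : ℕ, n = (k : ℤ) := ⟨n.toNat, by omega⟩
      have hk1 : 1 ≤ k := by exact_mod_cast hn1
      have hδn' : δ * N ≤ (k : ℝ) := by simpa using hδn
      simp only [hcond, true_and, and_true, hδn', Int.toNat_natCast, Int.natCast_dvd_natCast,
        Int.cast_natCast]
      unfold vI
      have d1 : ∑ b ∈ k.divisors, (if (b : ℝ) ≤ V then (moebius b : ℝ) * Real.log ((k : ℝ) / b) else 0) =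
          ∑ b ∈ Finset.Icc 1 ⌊V⌋₊, (if b ∣ k then (moebius b : ℝ) * Real.log ((k : ℝ) / b) else 0) := by
        rw [← Finset.sum_filter, ← Finset.sum_filter]
        apply Finset.sum_congr _ fun _ _ => rfl
        ext b
        simp only [Finset.mem_filter, Nat.mem_divisors, Finset.mem_Icc]
        constructor
        · rintro ⟨⟨hb1, _⟩, hb2⟩
          exact ⟨⟨Nat.pos_of_dvd_of_pos hb1 hk1, (Nat.le_floor_iff (by linarith)).2 hb2⟩, hb1⟩
        · rintro ⟨⟨_, hb2⟩, hb1⟩
          exact ⟨⟨hb1, by omega⟩, (Nat.le_floor_iff (by linarith)).1 hb2⟩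
      have d2 : ∑ m ∈ k.divisors, cV V m =
          ∑ m ∈ Finset.Icc 1 ⌊V ^ 2⌋₊, (if m ∣ k then cV V m else 0) := by
        rw [← Finset.sum_filter]
        symm
        apply Finset.sum_subset_zero_on_sdiff
        · intro m hm
          simp only [Finset.mem_filter, Finset.mem_Icc] at hm
          exact Nat.mem_divisors.2 ⟨hm.2, by omega⟩
        · intro m hm
          simp only [Finset.mem_sdiff, Nat.mem_divisors, Finset.mem_filter, Finset.mem_Icc] at hm
          apply hcV0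
          by_contra hcon
          rw [not_lt] at hcon
          exact hm.2 ⟨⟨Nat.pos_of_dvd_of_pos hm.1.1 hk1, (Nat.le_floor_iff (by linarith)).2 hcon⟩,
            hm.1.1⟩
        · intro m _; rfl
      rw [d1, d2]
      have e1 : ∀ b : ℕ, ((1 / Real.log N : ℝ) : ℂ) * (if b ∣ k then
          (((moebius b : ℝ) * Real.log ((k : ℝ) / b) / Real.log N : ℝ) : ℂ) else 0) =
          (((if b ∣ k then (moebius b : ℝ) * Real.log ((k : ℝ) / b) else 0) / (Real.log N) ^ 2 : ℝ) : ℂ) := by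
        intro b
        split_ifs
        · rw [← Complex.ofReal_mul]; congr 1; ring
        · simp
      have e2 : ∀ m : ℕ, ((1 / Real.log N : ℝ) : ℂ) * (if m ∣ k then
          ((-(cV V m / Real.log N) : ℝ) : ℂ) else 0) =
          ((-((if m ∣ k then cV V m else 0) / (Real.log N) ^ 2) : ℝ) : ℂ) := by
        intro m
        split_ifs
        · rw [← Complex.ofReal_mul]; congr 1; ring
        · simp
      simp only [e1, e2]
      rw [← Complex.ofReal_sum, ← Complex.ofReal_sum, ← Complex.ofReal_add]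
      congr 1
      rw [Finset.sum_neg_distrib, ← Finset.sum_div, ← Finset.sum_div, sub_div]
      ring
    · rw [if_neg (fun h => hδn h.2.1)]
      symm
      rw [Finset.sum_eq_zero, Finset.sum_eq_zero, add_zero]
      · intro m _
        rw [if_neg (fun h => hδn h.1.2.1), mul_zero]
      · intro m _
        rw [if_neg (fun h => hδn h.1.2.1), mul_zero]

end Pool.Agent.APP.Q
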