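/-
MP_8a4e59_co, piece Q06c: the type II pieces of Vaughan's identity (helper54).
-/
import Pool.Agent.Lib.MP_8a4e59_co.P.StmQ

set_option autoImplicit false

open Finset ArithmeticFunction

namespace Pool.Agent.APP.Q

/-- dyadic decomposition -/
private lemma q06c_dyadic (F : ℕ → ℝ) (W R : ℕ) (hF : ∀ m, R < m → F m = 0) (hW : 1 ≤ W) :
    ∑ i ∈ (Finset.range (Nat.log 2 R + 1)).filter (fun i => 2 ^ i * W ≤ R),
      ∑ m ∈ Finset.Ico (2 ^ i * W) (2 * (2 ^ i * W)), F m = ∑ m ∈ Finset.Icc W R, F m := by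
  have h1 : ∀ J : ℕ, ∑ i ∈ Finset.range J, ∑ m ∈ Finset.Ico (2 ^ i * W) (2 * (2 ^ i * W)), F m =
      ∑ m ∈ Finset.Ico W (2 ^ J * W), F m := by
    intro J
    induction J with
    | zero => simp
    | succ J ih =>
      rw [Finset.sum_range_succ, ih]
      have h2 : 2 * (2 ^ J * W) = 2 ^ (J + 1) * W := by ring
      rw [h2]
      apply Finset.sum_Ico_consecutive
      · exact Nat.le_mul_of_pos_left _ (by positivity)
      · apply Nat.mul_le_mul_right
        exact Nat.pow_le_pow_right (by norm_num) (by omega)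
  rw [Finset.sum_filter]
  have h3 : ∀ i ∈ Finset.range (Nat.log 2 R + 1),
      (if 2 ^ i * W ≤ R then ∑ m ∈ Finset.Ico (2 ^ i * W) (2 * (2 ^ i * W)), F m else 0) =
        ∑ m ∈ Finset.Ico (2 ^ i * W) (2 * (2 ^ i * W)), F m := by
    intro i _
    split_ifs with h
    · rfl
    · symm
      apply Finset.sum_eq_zero
      intro m hm
      rw [Finset.mem_Ico] at hm
      exact hF m (by omega)
  rw [Finset.sum_congr rfl h3, h1]
  have h4 : R < 2 ^ (Nat.log 2 R + 1) := Nat.lt_pow_succ_log_self (by norm_num) R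
  symm
  apply Finset.sum_subset
  · intro m hm
    rw [Finset.mem_Icc] at hm
    rw [Finset.mem_Ico]
    refine ⟨hm.1, ?_⟩
    calc m ≤ R := hm.2
      _ < 2 ^ (Nat.log 2 R + 1) := h4
      _ ≤ 2 ^ (Nat.log 2 R + 1) * W := Nat.le_mul_of_pos_right _ (by omega)
  · intro m hm hm'
    rw [Finset.mem_Ico] at hm
    rw [Finset.mem_Icc] at hm'
    apply hF
    by_contra hcon
    exact hm' ⟨hm.1, by omega⟩

private lemma q06c_div (G : ℕ → ℝ) (W R n : ℕ) (hn : 1 ≤ n) :
    ∑ m ∈ Finset.Icc W R, (if m ∣ n then G m else 0) =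
      ∑ m ∈ n.divisors, (if W ≤ m ∧ m ≤ R then G m else 0) := by
  rw [← Finset.sum_filter, ← Finset.sum_filter]
  apply Finset.sum_congr _ (fun _ _ => rfl)
  ext m
  simp only [Finset.mem_filter, Finset.mem_Icc, Nat.mem_divisors]
  constructor
  · rintro ⟨h1, h2⟩
    exact ⟨⟨h2, by omega⟩, h1⟩
  · rintro ⟨⟨h1, _⟩, h2⟩
    exact ⟨h2, h1⟩

private lemma q06c_id (V : ℝ) (hV1 : 1 ≤ V) (hv : ∀ k : ℕ, (k : ℝ) ≤ V → hV V k = 0) (n N : ℕ)
    (hn : 1 ≤ n) (hnN : n ≤ N) (hVN : V ^ 2 ≤ N) :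
    vII V n = ∑ m ∈ Finset.Icc (⌊V⌋₊ + 1) (Nat.sqrt N),
        (if m ∣ n then (moebius m : ℝ) * hV V (n / m) else 0) +
      ∑ m ∈ Finset.Icc (⌊V⌋₊ + 1) (Nat.sqrt N),
        (if m ∣ n then hV V m * (if Nat.sqrt N < n / m then (moebius (n / m) : ℝ) else 0) else 0) := by
  have hV0 : 0 ≤ V := by linarith
  set R := Nat.sqrt N with hR
  have hRN : N < (R + 1) * (R + 1) := by
    have := Nat.lt_succ_sqrt N
    simpa using this
  have hVlt : ∀ b : ℕ, V < b ↔ ⌊V⌋₊ + 1 ≤ b := by
    intro b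
    rw [Nat.succ_le_iff, Nat.floor_lt hV0]
  have hVR : ∀ b : ℕ, R < b → V < b := by
    intro b hb
    have h1 : N < b * b := lt_of_lt_of_le hRN (Nat.mul_le_mul hb hb)
    have h2 : (N : ℝ) < (b : ℝ) * b := by exact_mod_cast h1
    have h3 : (0 : ℝ) ≤ b := Nat.cast_nonneg b
    by_contra hcon
    push Not at hcon
    have : (b : ℝ) * b ≤ V * V := mul_le_mul hcon hcon h3 hV0
    nlinarith
  rw [q06c_div _ _ _ _ hn, q06c_div _ _ _ _ hn]
  unfold vII
  have hsplit : ∀ b ∈ n.divisors, (if V < (b : ℝ) then (moebius b : ℝ) * hV V (n / b) else 0) =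
      (if ⌊V⌋₊ + 1 ≤ b ∧ b ≤ R then (moebius b : ℝ) * hV V (n / b) else 0) +
      (if R < b then (moebius b : ℝ) * hV V (n / b) else 0) := by
    intro b _
    by_cases h1 : R < b
    · rw [if_pos (hVR b h1), if_pos h1, if_neg (by omega), zero_add]
    · rw [if_neg h1, add_zero]
      by_cases h2 : V < (b : ℝ)
      · rw [if_pos h2, if_pos ⟨(hVlt b).1 h2, by omega⟩]
      · rw [if_neg h2, if_neg (fun h => h2 ((hVlt b).2 h.1))]
  rw [Finset.sum_congr rfl hsplit, Finset.sum_add_distrib]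
  congr 1
  rw [← Nat.sum_div_divisors n (fun b => if R < b then (moebius b : ℝ) * hV V (n / b) else 0)]
  apply Finset.sum_congr rfl
  intro d hd
  rw [Nat.mem_divisors] at hd
  obtain ⟨hdn, hn0⟩ := hd
  have hdd : n / (n / d) = d := Nat.div_div_self hdn hn0
  rw [hdd]
  by_cases h1 : R < n / d
  · rw [if_pos h1]
    have hdR : d ≤ R := by
      by_contra hcon
      push Not at hcon
      have h2 : d * (n / d) = n := Nat.mul_div_cancel' hdn
      have h3 : (R + 1) * (R + 1) ≤ d * (n / d) := Nat.mul_le_mul hcon h1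
      omega
    by_cases h2 : ⌊V⌋₊ + 1 ≤ d
    · rw [if_pos ⟨h2, hdR⟩, if_pos h1]
      ring
    · rw [if_neg (fun h => h2 h.1)]
      have h3 : hV V d = 0 := by
        apply hv
        by_contra hcon
        push Not at hcon
        exact h2 ((hVlt d).1 hcon)
      rw [h3, mul_zero]
  · rw [if_neg h1, if_neg h1, mul_zero]
    simp

private lemma q06c_typeII (A B : ℕ → ℝ) (M n : ℕ) :
    typeII M (fun k => ((A k : ℝ) : ℂ)) (fun k => ((B k : ℝ) : ℂ)) (n : ℤ) =
      ((∑ m ∈ Finset.Ico M (2 * M), (if m ∣ n then A m * B (n / m) else 0) : ℝ) : ℂ) := by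
  unfold typeII
  rw [Complex.ofReal_sum]
  apply Finset.sum_congr rfl
  intro m _
  have h1 : ((m : ℤ) ∣ (n : ℤ)) ↔ m ∣ n := Int.natCast_dvd_natCast
  have h2 : ((n : ℤ) / (m : ℤ)).toNat = n / m := by
    rw [← Int.natCast_div, Int.toNat_natCast]
  by_cases h : m ∣ n
  · rw [if_pos (h1.2 h), if_pos h, h2]
    push_cast
    rfl
  · rw [if_neg (fun h' => h (h1.1 h')), if_neg h]
    simp

private lemma q06c_scaleA (l : ℝ) (A B : ℕ → ℝ) (M : ℕ) (n : ℤ) :
    typeII M (fun k => ((l * A k : ℝ) : ℂ)) (fun k => ((B k : ℝ) : ℂ)) n =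
      (l : ℂ) * typeII M (fun k => ((A k : ℝ) : ℂ)) (fun k => ((B k : ℝ) : ℂ)) n := by
  unfold typeII
  rw [Finset.mul_sum]
  apply Finset.sum_congr rfl
  intro m _
  split_ifs
  · push_cast; ring
  · simp

private lemma q06c_scaleB (l : ℝ) (A B : ℕ → ℝ) (M : ℕ) (n : ℤ) :
    typeII M (fun k => ((A k : ℝ) : ℂ)) (fun k => ((l * B k : ℝ) : ℂ)) n =
      (l : ℂ) * typeII M (fun k => ((A k : ℝ) : ℂ)) (fun k => ((B k : ℝ) : ℂ)) n := by
  unfold typeII
  rw [Finset.mul_sum]
  apply Finset.sum_congr rfl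
  intro m _
  split_ifs
  · push_cast; ring
  · simp

private lemma q06c_card (N : ℕ) (hN : 3 ≤ N) :
    (((Nat.log 2 (Nat.sqrt N) + 1) * 2 : ℕ) : ℝ) ≤ 4 * Real.log N := by
  have hl : 1 ≤ Real.log N := by
    rw [Real.le_log_iff_exp_le (by positivity)]
    have h1 : Real.exp 1 < 3 := by
      have := Real.exp_one_lt_d9
      linarith
    have h2 : (3 : ℝ) ≤ N := by exact_mod_cast hN
    linarith
  set R := Nat.sqrt N with hR
  have hR0 : R ≠ 0 := by
    intro h
    have h1 := Nat.lt_succ_sqrt N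
    rw [← hR, h] at h1
    simp at h1
    omega
  have h1 : 2 ^ Nat.log 2 R ≤ R := Nat.pow_log_le_self 2 hR0
  have h2 : (2 ^ Nat.log 2 R) ^ 2 ≤ N := by
    calc (2 ^ Nat.log 2 R) ^ 2 ≤ R ^ 2 := Nat.pow_le_pow_left h1 2
      _ ≤ N := Nat.sqrt_le' N
  have h3 : ((2 : ℝ) ^ (Nat.log 2 R * 2)) ≤ N := by
    rw [pow_mul]
    exact_mod_cast h2
  have h4 : ((Nat.log 2 R * 2 : ℕ) : ℝ) * Real.log 2 ≤ Real.log N := by
    rw [← Real.log_pow]
    exact Real.log_le_log (by positivity) h3
  have h5 := Real.log_two_gt_d9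
  push_cast at h4 ⊢
  have h6 : (0 : ℝ) ≤ (Nat.log 2 R : ℝ) := Nat.cast_nonneg _
  nlinarith

theorem q_vII (h1 : S_vid) (_h2 : S_dec) : S_vII := by
  intro N q₀ δ V hN hq hδ hδ1 hV1 hVN
  obtain ⟨-, -, -, hhb, hh0⟩ := h1 V hV1
  have hV0 : 0 ≤ V := by linarith
  set l : ℝ := Real.log N with hl_def
  have hl : 1 ≤ l := by
    rw [hl_def, Real.le_log_iff_exp_le (by positivity)]
    have h1 : Real.exp 1 < 3 := by
      have := Real.exp_one_lt_d9
      linarith
    have h2 : (3 : ℝ) ≤ N := by exact_mod_cast hN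
    linarith
  have hl0 : 0 < l := by linarith
  set R := Nat.sqrt N with hR
  have hRN : R ^ 2 ≤ N := Nat.sqrt_le' N
  have hRleN : R ≤ N := Nat.sqrt_le_self N
  set W := ⌊V⌋₊ + 1 with hW
  set s := (Finset.range (Nat.log 2 R + 1)).filter (fun i => 2 ^ i * W ≤ R) with hs
  set A1 : ℕ → ℝ := fun k => if k ≤ R then (moebius k : ℝ) / l else 0 with hA1
  set B1 : ℕ → ℝ := fun k => if 1 ≤ k ∧ k ≤ N then hV V k / l else 0 with hB1
  set A2 : ℕ → ℝ := fun k => if 1 ≤ k ∧ k ≤ R then hV V k / l else 0 with hA2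
  set B2 : ℕ → ℝ := fun k => if R < k then (moebius k : ℝ) / l else 0 with hB2
  have hmu : ∀ k : ℕ, |l * ((moebius k : ℝ) / l)| ≤ 1 := by
    intro k
    have h1 : |(moebius k : ℝ)| ≤ 1 := by
      exact_mod_cast ArithmeticFunction.abs_moebius_le_one
    rwa [mul_div_cancel₀ _ hl0.ne']
  have hh : ∀ k : ℕ, 1 ≤ k → k ≤ N → |hV V k / l| ≤ 1 := by
    intro k hk hkN
    obtain ⟨h1, h2⟩ := hhb k hk
    have h3 : Real.log k ≤ l := by
      apply Real.log_le_log
      · exact_mod_cast hk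
      · exact_mod_cast hkN
    rw [abs_div, abs_of_pos hl0, div_le_one hl0, abs_of_nonneg h1]
    linarith
  have hA1b : ∀ k, |l * A1 k| ≤ 1 := by
    intro k
    simp only [hA1]
    split_ifs
    · exact hmu k
    · simp
  have hA2b : ∀ k, |A2 k| ≤ 1 := by
    intro k
    simp only [hA2]
    split_ifs with h
    · exact hh k h.1 (by omega)
    · simp
  have hB1b : ∀ k, |B1 k| ≤ 1 := by
    intro k
    simp only [hB1]
    split_ifs with h
    · exact hh k h.1 h.2
    · simp
  have hB2b : ∀ k, |l * B2 k| ≤ 1 := by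
    intro k
    simp only [hB2]
    split_ifs
    · exact hmu k
    · simp
  refine ⟨Empty, ↥s × Bool, inferInstance, inferInstance, fun _ => 1, fun _ => 0, fun _ _ => 0,
    fun j => 2 ^ (j.1 : ℕ) * W, fun _ => 1 / l,
    fun j k => (((if j.2 = true then l * A1 k else A2 k) : ℝ) : ℂ),
    fun j k => (((if j.2 = true then B1 k else l * B2 k) : ℝ) : ℂ),
    fun _ => 0, fun i => i.elim, ?_, fun _ => by positivity, ?_, ?_, ?_, ?_⟩
  · simp
  · rw [Finset.sum_const, Finset.card_univ, nsmul_eq_mul, mul_one_div, div_le_iff₀ hl0]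
    have h3 : Fintype.card (↥s × Bool) ≤ (Nat.log 2 R + 1) * 2 := by
      rw [Fintype.card_prod, Fintype.card_coe, Fintype.card_bool]
      apply Nat.mul_le_mul_right
      calc s.card ≤ (Finset.range (Nat.log 2 R + 1)).card := Finset.card_filter_le _ _
        _ = _ := Finset.card_range _
    calc (Fintype.card (↥s × Bool) : ℝ) ≤ (((Nat.log 2 R + 1) * 2 : ℕ) : ℝ) := by exact_mod_cast h3
      _ ≤ 4 * l := q06c_card N hN
  · rintro ⟨⟨i, hi⟩, c⟩
    rw [hs, Finset.mem_filter] at hi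
    have hi2 : 2 ^ i * W ≤ R := hi.2
    refine ⟨?_, ?_, ?_, ?_⟩
    · have h3 : V ≤ (W : ℝ) := by
        rw [hW]
        push_cast
        exact (Nat.lt_floor_add_one V).le
      have h4 : W ≤ 2 ^ i * W := Nat.le_mul_of_pos_left _ (by positivity)
      have h5 : (W : ℝ) ≤ ((2 ^ i * W : ℕ) : ℝ) := by exact_mod_cast h4
      exact h3.trans h5
    · calc (2 ^ i * W) ^ 2 ≤ R ^ 2 := Nat.pow_le_pow_left hi2 2
        _ ≤ N := hRN
        _ ≤ 4 * N := by omega
    · intro k
      simp only [Complex.norm_real, Real.norm_eq_abs]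
      cases c
      · simpa using hA2b k
      · simpa using hA1b k
    · intro k
      simp only [Complex.norm_real, Real.norm_eq_abs]
      cases c
      · simpa using hB2b k
      · simpa using hB1b k
  · simp
  · intro n hn
    rw [Finset.mem_Icc] at hn
    obtain ⟨n', rfl⟩ : ∃ n' : ℕ, n = (n' : ℤ) := ⟨n.toNat, by omega⟩
    have hn1 : 1 ≤ n' := by exact_mod_cast hn.1
    have hnN : n' ≤ N := by exact_mod_cast hn.2
    simp only [Finset.univ_eq_empty, Finset.sum_empty, zero_add, add_zero]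
    unfold rst
    by_cases hδn : δ * N ≤ ((n' : ℤ) : ℝ)
    · rw [if_pos hδn, if_pos ⟨hn.1, hδn, by exact_mod_cast hnN⟩, Fintype.sum_prod_type]
      have hsum : ∀ i : ↥s, ∑ c : Bool, ((1 / l : ℝ) : ℂ) * typeII (2 ^ ((i, c).1 : ℕ) * W)
          (fun k => (((if (i, c).2 = true then l * A1 k else A2 k) : ℝ) : ℂ))
          (fun k => (((if (i, c).2 = true then B1 k else l * B2 k) : ℝ) : ℂ)) (n' : ℤ) =
          ((∑ m ∈ Finset.Ico (2 ^ (i : ℕ) * W) (2 * (2 ^ (i : ℕ) * W)),
            ((if m ∣ n' then A1 m * B1 (n' / m) else 0) +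
              (if m ∣ n' then A2 m * B2 (n' / m) else 0)) : ℝ) : ℂ) := by
        intro i
        rw [Fintype.sum_bool, Finset.sum_add_distrib]
        simp only [if_true, Bool.false_eq_true, if_false]
        have hlc : ((1 / l : ℝ) : ℂ) * (l : ℂ) = 1 := by
          rw [← Complex.ofReal_mul, one_div, inv_mul_cancel₀ hl0.ne', Complex.ofReal_one]
        rw [q06c_scaleA l A1 B1, q06c_scaleB l A2 B2, ← mul_assoc, ← mul_assoc, hlc, one_mul, one_mul]
        rw [q06c_typeII A1 B1, q06c_typeII A2 B2]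
        push_cast
        rfl
      rw [Finset.sum_congr rfl (fun i _ => hsum i)]
      rw [Finset.sum_coe_sort s (fun i => ((∑ m ∈ Finset.Ico (2 ^ i * W) (2 * (2 ^ i * W)),
            ((if m ∣ n' then A1 m * B1 (n' / m) else 0) +
              (if m ∣ n' then A2 m * B2 (n' / m) else 0)) : ℝ) : ℂ))]
      rw [← Complex.ofReal_sum, hs, q06c_dyadic]
      · congr 1
        rw [Int.toNat_natCast, q06c_id V hV1 hh0 n' N hn1 hnN hVN, Finset.sum_add_distrib, add_div,
          Finset.sum_div, Finset.sum_div]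
        congr 1
        · apply Finset.sum_congr rfl
          intro m hm
          rw [Finset.mem_Icc] at hm
          by_cases hmn : m ∣ n'
          · have h3 : 1 ≤ n' / m := Nat.div_pos (Nat.le_of_dvd hn1 hmn) (by omega)
            have h4 : n' / m ≤ N := (Nat.div_le_self _ _).trans hnN
            have h6 : A1 m = (moebius m : ℝ) / l := if_pos hm.2
            have h7 : B1 (n' / m) = hV V (n' / m) / l := if_pos ⟨h3, h4⟩
            rw [if_pos hmn, if_pos hmn, h6, h7]
            ring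
          · rw [if_neg hmn, if_neg hmn, zero_div]
        · apply Finset.sum_congr rfl
          intro m hm
          rw [Finset.mem_Icc] at hm
          by_cases hmn : m ∣ n'
          · have h6 : A2 m = hV V m / l := if_pos ⟨by omega, hm.2⟩
            rw [if_pos hmn, if_pos hmn, h6]
            by_cases h5 : R < n' / m
            · have h7 : B2 (n' / m) = (moebius (n' / m) : ℝ) / l := if_pos h5
              rw [if_pos h5, h7]
              ring
            · have h7 : B2 (n' / m) = 0 := if_neg h5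
              rw [if_neg h5, h7]
              ring
          · rw [if_neg hmn, if_neg hmn, zero_div]
      · intro m hm
        have h3 : A1 m = 0 := by
          simp only [hA1]
          rw [if_neg (by omega)]
        have h4 : A2 m = 0 := by
          simp only [hA2]
          rw [if_neg (by omega)]
        rw [h3, h4]
        simp
      · omega
    · rw [if_neg hδn, if_neg (fun h => hδn h.2.1)]

end Pool.Agent.APP.Q
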