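import Pool.Agent.Lib.MP_8a4e59_co.P.StmQ

set_option autoImplicit false

/-!
MP_8a4e59_co, piece [8a Q08]: mass on the non coprime classes (helper42).
-/

open Finset ArithmeticFunction

namespace Pool.Agent.APP.Q

private lemma q08_card (m : ℕ) (hm : 1 ≤ m) (S : Finset ℤ) (u : ℤ) (H : ℕ)
    (hS : ∀ x ∈ S, u < x ∧ x ≤ u + H) (hd : ∀ x ∈ S, ∀ y ∈ S, (m : ℤ) ∣ x - y) :
    (S.card : ℝ) ≤ H / m + 1 := by
  rcases S.eq_empty_or_nonempty with h0 | h0
  · have h1 : (0 : ℝ) ≤ (H : ℝ) / m := by positivity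
    rw [h0, Finset.card_empty, Nat.cast_zero]
    linarith
  · obtain ⟨lo, hlo, hmin⟩ : ∃ lo ∈ S, ∀ x ∈ S, lo ≤ x :=
      ⟨S.min' h0, S.min'_mem h0, fun x hx => S.min'_le x hx⟩
    have hm0 : (0 : ℤ) < m := by exact_mod_cast hm
    have hcard : S.card ≤ (Finset.range (H / m + 1)).card := by
      apply Finset.card_le_card_of_injOn (fun x => ((x - lo) / m).toNat)
      · intro x hx
        have hx' : x ∈ S := hx
        rw [Finset.coe_range, Set.mem_Iio]
        change ((x - lo) / m).toNat < H / m + 1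
        have h1 : (x - lo) / m ≤ ((H / m : ℕ) : ℤ) := by
          rw [Int.natCast_div]
          apply Int.ediv_le_ediv hm0
          have := (hS x hx').2
          have := (hS lo hlo).1
          omega
        have h2 : 0 ≤ (x - lo) / m := Int.ediv_nonneg (by have := hmin x hx'; omega) hm0.le
        omega
      · intro x hx y hy hxy
        have hx' : x ∈ S := hx
        have hy' : y ∈ S := hy
        have hx2 : 0 ≤ (x - lo) / m := Int.ediv_nonneg (by have := hmin x hx'; omega) hm0.le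
        have hy2 : 0 ≤ (y - lo) / m := Int.ediv_nonneg (by have := hmin y hy'; omega) hm0.le
        have h3 : (x - lo) / m = (y - lo) / m := by
          have : ((x - lo) / m).toNat = ((y - lo) / m).toNat := hxy
          omega
        have h4 := Int.ediv_mul_cancel (hd x hx' lo hlo)
        have h5 := Int.ediv_mul_cancel (hd y hy' lo hlo)
        rw [h3, h5] at h4
        omega
    rw [Finset.card_range] at hcard
    have h6 : ((H / m : ℕ) : ℝ) ≤ (H : ℝ) / m := Nat.cast_div_le
    have h7 : (S.card : ℝ) ≤ ((H / m + 1 : ℕ) : ℝ) := by exact_mod_cast hcard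
    push_cast at h7
    linarith

private lemma q08_omega (n : ℕ) (hn : 1 ≤ n) :
    (n.primeFactors.card : ℝ) ≤ 2 * Real.log n := by
  have h1 : 2 ^ n.primeFactors.card ≤ n := by
    calc 2 ^ n.primeFactors.card = ∏ _p ∈ n.primeFactors, 2 := by rw [Finset.prod_const]
      _ ≤ ∏ p ∈ n.primeFactors, p :=
          Finset.prod_le_prod' fun p hp => (Nat.prime_of_mem_primeFactors hp).two_le
      _ ≤ n := Nat.le_of_dvd (by omega) (Nat.prod_primeFactors_dvd n)
  have h2 : Real.log ((2 : ℝ) ^ n.primeFactors.card) ≤ Real.log n := by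
    apply Real.log_le_log (by positivity)
    exact_mod_cast h1
  rw [Real.log_pow] at h2
  have h3 : (0.6931471803 : ℝ) < Real.log 2 := Real.log_two_gt_d9
  have h4 : (0 : ℝ) ≤ n.primeFactors.card := Nat.cast_nonneg _
  nlinarith

private lemma q08_CQ_nonneg (Q : ℝ) : 0 ≤ CQ Q := by
  unfold CQ
  refine Finset.prod_nonneg fun p hp => ?_
  rw [Finset.mem_filter] at hp
  have h1 : (1 : ℝ) ≤ p := by exact_mod_cast hp.2.one_lt.le
  have h2 : 1 / (p : ℝ) ≤ 1 := by
    rw [div_le_one (by linarith)]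
    exact h1
  exact inv_nonneg.2 (by linarith)

private lemma q08_gg (δ Q : ℝ) (N : ℕ) (om : ℕ → ℝ) (hlog : 1 ≤ Real.log N)
    (hCQ : CQ Q ≤ Real.log N) (hom : ∀ n, |om n| ≤ 1) (x : ℤ) :
    |gg δ Q N om x| ≤ (if 1 ≤ x ∧ x ≤ N then vonMangoldt x.toNat / (Real.log N) ^ 2 else 0) +
      (open Classical in if rough Q x then 2 else 0) := by
  classical
  have hC0 := q08_CQ_nonneg Q
  unfold gg
  by_cases h : 1 ≤ x ∧ δ * N ≤ x ∧ x ≤ N
  · have hA : (if 1 ≤ x ∧ x ≤ N then vonMangoldt x.toNat / (Real.log N) ^ 2 else 0) =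
        vonMangoldt x.toNat / (Real.log N) ^ 2 := if_pos ⟨h.1, h.2.2⟩
    rw [if_pos h, hA, abs_div, abs_of_nonneg (sq_nonneg (Real.log N))]
    have hL : (0 : ℝ) < Real.log N ^ 2 := by positivity
    have hΛ : 0 ≤ vonMangoldt x.toNat := vonMangoldt_nonneg
    by_cases hr : rough Q x
    · rw [if_pos hr, if_pos hr, div_add' _ _ _ hL.ne', div_le_div_iff_of_pos_right hL]
      have h1 : |1 - om x.toNat| ≤ 2 := by
        have := abs_sub (1 : ℝ) (om x.toNat)
        have := hom x.toNat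
        rw [abs_one] at *
        linarith
      calc |vonMangoldt x.toNat - CQ Q * 1 * (1 - om x.toNat)|
          ≤ |vonMangoldt x.toNat| + |CQ Q * 1 * (1 - om x.toNat)| := abs_sub _ _
        _ = vonMangoldt x.toNat + CQ Q * |1 - om x.toNat| := by
            rw [abs_of_nonneg hΛ, mul_one, abs_mul, abs_of_nonneg hC0]
        _ ≤ vonMangoldt x.toNat + Real.log N * 2 := by
            have := mul_le_mul hCQ h1 (abs_nonneg _) (by linarith)
            linarith
        _ ≤ vonMangoldt x.toNat + 2 * Real.log N ^ 2 := by nlinarith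
    · rw [if_neg hr, if_neg hr, mul_zero, zero_mul, sub_zero, add_zero, abs_of_nonneg hΛ]
  · rw [if_neg h, abs_zero]
    have h1 : (0 : ℝ) ≤ (if 1 ≤ x ∧ x ≤ N then vonMangoldt x.toNat / (Real.log N) ^ 2 else 0) := by
      split_ifs
      · exact div_nonneg vonMangoldt_nonneg (sq_nonneg _)
      · exact le_rfl
    have h2 : (0 : ℝ) ≤ (if rough Q x then 2 else 0) := by
      split_ifs <;> norm_num
    linarith

/-- the von Mangoldt part -/
private lemma q08_part1 (N q₂ : ℕ) (hN : 1 ≤ N) (hq₂ : 1 ≤ q₂) (F : Finset ℤ)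
    (hF : ∀ x ∈ F, 1 ≤ x ∧ x ≤ N ∧ 1 < Int.gcd x q₂) :
    ∑ x ∈ F, vonMangoldt x.toNat ≤ q₂.primeFactors.card * Real.log N := by
  classical
  let M : ℕ := ∏ p ∈ q₂.primeFactors, p ^ (Nat.log p N)
  have hM0 : M ≠ 0 := by
    apply Finset.prod_ne_zero_iff.2
    intro p hp
    exact pow_ne_zero _ (Nat.prime_of_mem_primeFactors hp).ne_zero
  have h1 : ∑ x ∈ F, vonMangoldt x.toNat ≤ ∑ d ∈ M.divisors, vonMangoldt d := by
    have h2 : ∑ x ∈ F, vonMangoldt x.toNat =
        ∑ x ∈ F.filter (fun x => vonMangoldt x.toNat ≠ 0), vonMangoldt x.toNat :=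
      (Finset.sum_filter_ne_zero F).symm
    have h3 : ∑ x ∈ F.filter (fun x => vonMangoldt x.toNat ≠ 0), vonMangoldt x.toNat =
        ∑ n ∈ (F.filter (fun x => vonMangoldt x.toNat ≠ 0)).image Int.toNat, vonMangoldt n := by
      rw [Finset.sum_image]
      intro x hx y hy hxy
      have hx1 := (hF x (Finset.mem_filter.1 hx).1).1
      have hy1 := (hF y (Finset.mem_filter.1 hy).1).1
      omega
    rw [h2, h3]
    refine Finset.sum_le_sum_of_subset_of_nonneg ?_ fun _ _ _ => vonMangoldt_nonneg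
    intro n hn
    rw [Finset.mem_image] at hn
    obtain ⟨x, hx, rfl⟩ := hn
    rw [Finset.mem_filter] at hx
    obtain ⟨hxF, hx0⟩ := hx
    obtain ⟨hx1, hxN, hg⟩ := hF x hxF
    rw [Nat.mem_divisors]
    refine ⟨?_, hM0⟩
    rw [vonMangoldt_ne_zero_iff, isPrimePow_nat_iff] at hx0
    obtain ⟨p, k, hp, hk, hpk⟩ := hx0
    have hxe : x = ((p ^ k : ℕ) : ℤ) := by rw [hpk]; omega
    have hg' : 1 < Nat.gcd (p ^ k) q₂ := by
      rw [hxe] at hg
      exact hg
    have hpq : p ∣ q₂ := by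
      by_contra hnd
      have : Nat.Coprime (p ^ k) q₂ := Nat.Coprime.pow_left k ((Nat.Prime.coprime_iff_not_dvd hp).2 hnd)
      rw [Nat.Coprime] at this
      omega
    have hpm : p ∈ q₂.primeFactors := Nat.mem_primeFactors.2 ⟨hp, hpq, by omega⟩
    have hkN : k ≤ Nat.log p N := by
      apply Nat.le_log_of_pow_le hp.one_lt
      rw [hpk]
      omega
    rw [← hpk]
    exact (pow_dvd_pow p hkN).trans (Finset.dvd_prod_of_mem _ hpm)
  refine h1.trans ?_
  rw [vonMangoldt_sum]
  have h4 : Real.log (M : ℝ) = ∑ p ∈ q₂.primeFactors, Real.log ((p : ℝ) ^ (Nat.log p N)) := by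
    have : (M : ℝ) = ∏ p ∈ q₂.primeFactors, (p : ℝ) ^ (Nat.log p N) := by
      simp [M]
    rw [this, Real.log_prod]
    intro p hp
    have := (Nat.prime_of_mem_primeFactors hp).pos
    positivity
  rw [h4, ← nsmul_eq_mul]
  apply Finset.sum_le_card_nsmul
  intro p hp
  have hpp := Nat.prime_of_mem_primeFactors hp
  have := hpp.pos
  apply Real.log_le_log (by positivity)
  exact_mod_cast Nat.pow_log_le_self p (by omega)

theorem q_zz1 : S_zz1 := by
  intro N q q₂ H δ Q Y om a u hN hδ hQ hCQ hom hq hq₂ hq₂Y hgcd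
  classical
  have hlog : 1 ≤ Real.log N := by
    rw [Real.le_log_iff_exp_le (by positivity)]
    have h1 := Real.exp_one_lt_d9
    have h2 : (3 : ℝ) ≤ N := by exact_mod_cast hN
    linarith
  have hq₂1 : (1 : ℝ) ≤ q₂ := by exact_mod_cast hq₂
  have hY : 0 ≤ Real.log Y := Real.log_nonneg (by linarith)
  have hω : (q₂.primeFactors.card : ℝ) ≤ 2 * Real.log Y := by
    refine (q08_omega q₂ hq₂).trans ?_
    have := Real.log_le_log (by linarith) hq₂Y
    linarith
  let F : Finset ℤ := (Finset.Ioc u (u + H)).filter (fun x => (q : ℤ) ∣ x - a ∧ 1 < Int.gcd x q₂)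
  have hsum : ∑ x ∈ F, |gg δ Q N om x| ≤
      ∑ x ∈ F, (if 1 ≤ x ∧ x ≤ N then vonMangoldt x.toNat / (Real.log N) ^ 2 else 0) +
      ∑ x ∈ F, (if rough Q x then 2 else 0) := by
    rw [← Finset.sum_add_distrib]
    exact Finset.sum_le_sum fun x _ => q08_gg δ Q N om hlog hCQ hom x
  -- first part
  have hp1 : ∑ x ∈ F, (if 1 ≤ x ∧ x ≤ N then vonMangoldt x.toNat / (Real.log N) ^ 2 else 0) ≤
      2 * Real.log Y := by
    rw [← Finset.sum_filter, ← Finset.sum_div, div_le_iff₀ (by positivity)]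
    have h1 := q08_part1 N q₂ (by omega) hq₂ (F.filter (fun x => 1 ≤ x ∧ x ≤ N)) (by
      intro x hx
      rw [Finset.mem_filter, Finset.mem_filter] at hx
      exact ⟨hx.2.1, hx.2.2, hx.1.2.2⟩)
    refine h1.trans ?_
    have h2 : (q₂.primeFactors.card : ℝ) * Real.log N ≤ 2 * Real.log Y * Real.log N :=
      mul_le_mul_of_nonneg_right hω (by linarith)
    refine h2.trans ?_
    have h3 : Real.log N ≤ Real.log N ^ 2 := by nlinarith
    exact mul_le_mul_of_nonneg_left h3 (by linarith)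
  -- second part
  have hq0 : (0 : ℝ) < q := by exact_mod_cast hq
  have hB : (0 : ℝ) ≤ (H : ℝ) / (q * Q) + 1 := by positivity
  have hcard : ((F.filter (fun x => rough Q x)).card : ℝ) ≤
      q₂.primeFactors.card * ((H : ℝ) / (q * Q) + 1) := by
    let P : Finset ℕ := q₂.primeFactors.filter (fun p => Q < (p : ℝ) ∧ ¬ p ∣ q)
    let G : ℕ → Finset ℤ := fun p =>
      (Finset.Ioc u (u + H)).filter (fun x => (q : ℤ) ∣ x - a ∧ (p : ℤ) ∣ x)
    have hsub : F.filter (fun x => rough Q x) ⊆ P.biUnion G := by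
      intro x hx
      rw [Finset.mem_filter, Finset.mem_filter] at hx
      obtain ⟨⟨hxI, hxq, hxg⟩, hxr⟩ := hx
      obtain ⟨p, hp, hpd⟩ := Nat.exists_prime_and_dvd (n := Int.gcd x q₂) (by omega)
      have hpx : (p : ℤ) ∣ x := (Int.natCast_dvd_natCast.2 hpd).trans (Int.gcd_dvd_left _ _)
      have hpq₂ : p ∣ q₂ := by
        have : (p : ℤ) ∣ (q₂ : ℤ) := (Int.natCast_dvd_natCast.2 hpd).trans (Int.gcd_dvd_right _ _)
        exact_mod_cast this
      rw [Finset.mem_biUnion]
      refine ⟨p, ?_, ?_⟩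
      · rw [Finset.mem_filter, Nat.mem_primeFactors]
        refine ⟨⟨hp, hpq₂, by omega⟩, ?_, ?_⟩
        · by_contra hle
          rw [not_lt] at hle
          exact hxr p hp hle hpx
        · intro hpq
          have h5 : (p : ℤ) ∣ (q : ℤ) := by exact_mod_cast hpq
          have h6 : (p : ℤ) ∣ a := by
            have h7 : (p : ℤ) ∣ x - a := h5.trans hxq
            have h8 := dvd_sub hpx h7
            rwa [sub_sub_cancel] at h8
          have h9 : p ∣ Int.gcd a q := by
            have := Int.dvd_coe_gcd h6 h5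
            exact_mod_cast this
          rw [hgcd] at h9
          exact hp.one_lt.ne' (Nat.dvd_one.1 h9)
      · rw [Finset.mem_filter]
        exact ⟨hxI, hxq, hpx⟩
    have hG : ∀ p ∈ P, ((G p).card : ℝ) ≤ (H : ℝ) / (q * Q) + 1 := by
      intro p hp
      rw [Finset.mem_filter] at hp
      obtain ⟨hpm, hpQ, hpq⟩ := hp
      have hpp := Nat.prime_of_mem_primeFactors hpm
      have h10 := q08_card (q * p) (Nat.mul_pos (by omega) hpp.pos) (G p) u H (by
        intro x hx
        rw [Finset.mem_filter, Finset.mem_Ioc] at hx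
        exact hx.1) (by
        intro x hx y hy
        rw [Finset.mem_filter] at hx hy
        have hcop : IsCoprime (q : ℤ) (p : ℤ) := by
          rw [Nat.isCoprime_iff_coprime]
          exact ((Nat.Prime.coprime_iff_not_dvd hpp).2 hpq).symm
        have h11 : (q : ℤ) ∣ x - y := by
          have := dvd_sub hx.2.1 hy.2.1
          rwa [sub_sub_sub_cancel_right] at this
        push_cast
        exact hcop.mul_dvd h11 (dvd_sub hx.2.2 hy.2.2))
      refine h10.trans ?_
      have h12 : (H : ℝ) / ((q * p : ℕ) : ℝ) ≤ (H : ℝ) / (q * Q) := by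
        push_cast
        apply div_le_div_of_nonneg_left (Nat.cast_nonneg H) (by positivity)
        exact mul_le_mul_of_nonneg_left hpQ.le hq0.le
      linarith
    calc ((F.filter (fun x => rough Q x)).card : ℝ) ≤ ((P.biUnion G).card : ℝ) := by
          exact_mod_cast Finset.card_le_card hsub
      _ ≤ ∑ p ∈ P, ((G p).card : ℝ) := by exact_mod_cast Finset.card_biUnion_le
      _ ≤ ∑ p ∈ P, ((H : ℝ) / (q * Q) + 1) := Finset.sum_le_sum hG
      _ = P.card * ((H : ℝ) / (q * Q) + 1) := by rw [Finset.sum_const, nsmul_eq_mul]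
      _ ≤ q₂.primeFactors.card * ((H : ℝ) / (q * Q) + 1) := by
          refine mul_le_mul_of_nonneg_right ?_ hB
          exact_mod_cast Finset.card_filter_le _ _
  have hp2 : ∑ x ∈ F, (if rough Q x then (2 : ℝ) else 0) ≤
      2 * (2 * Real.log Y * ((H : ℝ) / (q * Q) + 1)) := by
    rw [← Finset.sum_filter, Finset.sum_const, nsmul_eq_mul, mul_comm]
    have h13 := mul_le_mul_of_nonneg_right hω hB
    linarith
  change ∑ x ∈ F, |gg δ Q N om x| ≤ _
  have h14 : (1 : ℝ) ≤ (H : ℝ) / (q * Q) + 1 := by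
    have : (0 : ℝ) ≤ (H : ℝ) / (q * Q) := by positivity
    linarith
  nlinarith

end Pool.Agent.APP.Q
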