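import Pool.Agent.Lib.MP_8a4e59_co.P.StmQ

set_option autoImplicit false

/-!
MP_8a4e59_co, piece [8a Q09]: averages of `gg` for `q₁ ∣ q` (helper42).
-/

open Finset ArithmeticFunction

namespace Pool.Agent.APP.Q

private lemma q09_real (T1 T2 M1 M2 C V φ q L Nx H Q' e K R : ℝ)
    (hT1 : |T1 - M1 / φ| ≤ 2 * Nx) (hT2 : |T2 - M2 / q * V| ≤ 4 * (H / q) * e + 4 * K)
    (hM : |M1 - M2| ≤ 4) (hM2 : |M2| ≤ 2 * H)
    (htot : |1 / φ - C * V / q| ≤ 4 * R / (q * Q')) (hφ : 1 ≤ φ) (hq : 0 < q) (hC0 : 0 ≤ C)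
    (hCL : C ≤ L) (hL : 1 ≤ L) (hK : 2 ≤ K) (he : 0 ≤ e) (hH : 0 ≤ H) (hQ : 0 < Q')
    (hR : 0 ≤ R) :
    |(T1 - C * T2) / L ^ 2| ≤ 2 * Nx + 10 * (H / q) * (R / Q' + e) + 10 * K := by
  have hφ0 : 0 < φ := by linarith
  have e1 : T1 - C * T2 = (T1 - M1 / φ) + (M1 - M2) / φ + M2 * (1 / φ - C * V / q) -
      C * (T2 - M2 / q * V) := by
    field_simp
    ring
  have h1 : |(M1 - M2) / φ| ≤ 4 := by
    rw [abs_div, abs_of_pos hφ0, div_le_iff₀ hφ0]
    nlinarith
  have h2 : |M2 * (1 / φ - C * V / q)| ≤ 2 * H * (4 * R / (q * Q')) := by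
    rw [abs_mul]
    exact mul_le_mul hM2 htot (abs_nonneg _) (by positivity)
  have h3 : |C * (T2 - M2 / q * V)| ≤ C * (4 * (H / q) * e + 4 * K) := by
    rw [abs_mul, abs_of_nonneg hC0]
    exact mul_le_mul_of_nonneg_left hT2 hC0
  have hNx : 0 ≤ Nx := by
    have := abs_nonneg (T1 - M1 / φ)
    linarith
  have h4 : |T1 - C * T2| ≤ 2 * Nx + 4 + 2 * H * (4 * R / (q * Q')) +
      C * (4 * (H / q) * e + 4 * K) := by
    rw [e1]
    have a1 := abs_sub ((T1 - M1 / φ) + (M1 - M2) / φ + M2 * (1 / φ - C * V / q))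
      (C * (T2 - M2 / q * V))
    have a2 := abs_add_le ((T1 - M1 / φ) + (M1 - M2) / φ) (M2 * (1 / φ - C * V / q))
    have a3 := abs_add_le (T1 - M1 / φ) ((M1 - M2) / φ)
    linarith
  have hW : 0 ≤ 4 * (H / q) * e + 4 * K := by positivity
  have hU : 0 ≤ 2 * Nx + 4 + 2 * H * (4 * R / (q * Q')) := by positivity
  have hL2 : L ≤ L ^ 2 := by nlinarith
  have hL3 : 1 ≤ L ^ 2 := by nlinarith
  have h5 : |T1 - C * T2| ≤ (2 * Nx + 4 + 2 * H * (4 * R / (q * Q')) +
      (4 * (H / q) * e + 4 * K)) * L ^ 2 := by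
    have h6 := mul_le_mul_of_nonneg_right (hCL.trans hL2) hW
    nlinarith
  rw [abs_div, abs_of_nonneg (sq_nonneg L), div_le_iff₀ (by positivity)]
  refine h5.trans (mul_le_mul_of_nonneg_right ?_ (by positivity))
  have e2 : 2 * H * (4 * R / (q * Q')) = 8 * (H / q) * (R / Q') := by
    field_simp
    ring
  have h7 : 0 ≤ (H / q) * (R / Q') := by positivity
  have h8 : 0 ≤ (H / q) * e := by positivity
  rw [e2]
  nlinarith

private lemma q09_psi (f : ℕ → ℝ) (q b u v : ℕ) (huv : u ≤ v) :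
    ∑ n ∈ (Finset.Ioc u v).filter (fun n => n ≡ b [MOD q]), f n =
      ∑ n ∈ (Finset.Icc 1 v).filter (fun n => n ≡ b [MOD q]), f n -
        ∑ n ∈ (Finset.Icc 1 u).filter (fun n => n ≡ b [MOD q]), f n := by
  have h : ∀ y : ℕ, Finset.Icc 1 y = Finset.Ioc 0 y := by
    intro y
    ext n
    rw [Finset.mem_Icc, Finset.mem_Ioc]
    omega
  rw [h, h, Finset.sum_filter, Finset.sum_filter, Finset.sum_filter]
  have := Finset.sum_Ioc_consecutive (fun n => if n ≡ b [MOD q] then f n else 0)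
    (Nat.zero_le u) huv
  linarith

/-- change of variables -/
private lemma q09_nat (N H q b u₀ u' : ℕ) (δ Q : ℝ) (om : ℕ → ℝ) (a : ℤ)
    (hδ : 0 < δ) (hN : 3 ≤ N) (hu' : u' = max u₀ (⌈δ * N⌉₊ - 1)) (huH : u₀ + H ≤ N)
    (hb : (q : ℤ) ∣ (b : ℤ) - a) :
    ∑ x ∈ (Finset.Ioc (u₀ : ℤ) (u₀ + H)).filter (fun x => (q : ℤ) ∣ x - a), gg δ Q N om x =
      (∑ n ∈ (Finset.Ioc u' (u₀ + H)).filter (fun n => n ≡ b [MOD q]), vonMangoldt n -
        CQ Q * (open Classical in
          ∑ n ∈ (Finset.Ioc u' (u₀ + H)).filter (fun n => n ≡ b [MOD q] ∧ rough Q n),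
            (1 - om n))) / (Real.log N) ^ 2 := by
  classical
  have hN0 : (0 : ℝ) < N := by exact_mod_cast (show 0 < N by omega)
  have hc : 1 ≤ ⌈δ * N⌉₊ := Nat.one_le_iff_ne_zero.2 (by
    rw [Ne, Nat.ceil_eq_zero, not_le]
    positivity)
  have hmod : ∀ n : ℕ, n ≡ b [MOD q] ↔ (q : ℤ) ∣ (n : ℤ) - a := by
    intro n
    rw [Nat.modEq_iff_dvd]
    constructor
    · intro h
      have := dvd_sub hb h
      rwa [show ((b : ℤ) - a) - ((b : ℤ) - n) = n - a from by ring] at this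
    · intro h
      have := dvd_sub hb h
      rwa [show ((b : ℤ) - a) - ((n : ℤ) - a) = b - n from by ring] at this
  have h1 : ∑ x ∈ (Finset.Ioc (u₀ : ℤ) (u₀ + H)).filter (fun x => (q : ℤ) ∣ x - a),
      gg δ Q N om x =
      ∑ x ∈ ((Finset.Ioc u' (u₀ + H)).filter (fun n => n ≡ b [MOD q])).image
        (fun n : ℕ => (n : ℤ)), gg δ Q N om x := by
    symm
    apply Finset.sum_subset
    · intro x hx
      rw [Finset.mem_image] at hx
      obtain ⟨n, hn, rfl⟩ := hx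
      rw [Finset.mem_filter, Finset.mem_Ioc] at hn
      rw [Finset.mem_filter, Finset.mem_Ioc]
      refine ⟨⟨?_, ?_⟩, (hmod n).1 hn.2⟩
      · have := hn.1.1
        have h3 : u₀ ≤ u' := hu' ▸ le_max_left _ _
        omega
      · have := hn.1.2
        omega
    · intro x hx hx2
      by_contra hne
      apply hx2
      have h4 : 1 ≤ x ∧ δ * N ≤ x ∧ x ≤ N := by
        by_contra h5
        apply hne
        unfold gg
        rw [if_neg h5]
      rw [Finset.mem_filter, Finset.mem_Ioc] at hx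
      rw [Finset.mem_image]
      refine ⟨x.toNat, ?_, by omega⟩
      rw [Finset.mem_filter, Finset.mem_Ioc]
      have h6 : ((x.toNat : ℕ) : ℤ) = x := by omega
      have h7 : ⌈δ * N⌉₊ ≤ x.toNat := by
        apply Nat.ceil_le.2
        have : ((x.toNat : ℕ) : ℝ) = (x : ℝ) := by exact_mod_cast congrArg (Int.cast (R := ℝ)) h6
        rw [this]
        exact h4.2.1
      refine ⟨⟨?_, ?_⟩, ?_⟩
      · rw [hu', max_lt_iff]
        constructor <;> omega
      · omega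
      · rw [hmod, h6]
        exact hx.2
  rw [h1, Finset.sum_image (fun _ _ _ _ h => by exact_mod_cast h)]
  have h8 : ∀ n ∈ (Finset.Ioc u' (u₀ + H)).filter (fun n => n ≡ b [MOD q]),
      gg δ Q N om (n : ℤ) = (vonMangoldt n - CQ Q * (if rough Q n then (1 - om n) else 0)) /
        (Real.log N) ^ 2 := by
    intro n hn
    rw [Finset.mem_filter, Finset.mem_Ioc] at hn
    have h9 : u₀ ≤ u' := hu' ▸ le_max_left _ _
    have h10 : ⌈δ * N⌉₊ - 1 ≤ u' := hu' ▸ le_max_right _ _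
    have h11 : δ * N ≤ n := by
      refine (Nat.le_ceil _).trans ?_
      have : ⌈δ * N⌉₊ ≤ n := by omega
      exact_mod_cast this
    unfold gg
    have h12 : (1 : ℤ) ≤ n ∧ δ * N ≤ ((n : ℤ) : ℝ) ∧ (n : ℤ) ≤ N := by
      refine ⟨by omega, ?_, by omega⟩
      rw [Int.cast_natCast]
      exact h11
    rw [if_pos h12, Int.toNat_natCast]
    congr 1
    by_cases hr : rough Q n
    · rw [if_pos hr, if_pos hr]; ring
    · rw [if_neg hr, if_neg hr]; ring
  rw [Finset.sum_congr rfl h8, ← Finset.sum_div, Finset.sum_sub_distrib, ← Finset.mul_sum,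
    ← Finset.sum_filter, Finset.filter_filter]

theorem q_avg1 (h1 : S_fund) (h2 : S_tot) : S_avg1 := by
  intro N q₁ q H k δ Q X β χ a u hN hδ hQ hCQ hk hChi hHyp hq hqX hq₁ hu huH hgcd
  classical
  obtain ⟨u₀, rfl⟩ := Int.eq_ofNat_of_zero_le hu
  have huH' : u₀ + H ≤ N := by omega
  have hN0 : (0 : ℝ) < N := by exact_mod_cast (show 0 < N by omega)
  have hq0 : (0 : ℝ) < q := by exact_mod_cast hq
  have hq1 : (1 : ℝ) ≤ q := by exact_mod_cast hq
  have hX0 : 0 < X := by linarith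
  have hlog : 1 ≤ Real.log N := by
    rw [Real.le_log_iff_exp_le (by positivity)]
    have h1 := Real.exp_one_lt_d9
    have h2 : (3 : ℝ) ≤ N := by exact_mod_cast hN
    linarith
  have hC0 : 0 ≤ CQ Q := by
    unfold CQ
    refine Finset.prod_nonneg fun p hp => ?_
    rw [Finset.mem_filter] at hp
    have h1 : (1 : ℝ) ≤ p := by exact_mod_cast hp.2.one_lt.le
    have h2 : 1 / (p : ℝ) ≤ 1 := by
      rw [div_le_one (by linarith)]
      exact h1
    exact inv_nonneg.2 (by linarith)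
  have hK : (2 : ℝ) ≤ Q ^ (k + 1) := by
    calc (2 : ℝ) ≤ Q := hQ
      _ = Q ^ 1 := (pow_one Q).symm
      _ ≤ Q ^ (k + 1) := pow_le_pow_right₀ (by linarith) (by omega)
  have hlogq : 0 ≤ Real.log q := Real.log_nonneg hq1
  -- the residue class
  obtain ⟨b, hb⟩ : ∃ b : ℕ, (q : ℤ) ∣ (b : ℤ) - a := by
    refine ⟨(a % q).toNat, ?_⟩
    have h4 : 0 ≤ a % q := Int.emod_nonneg a (by omega)
    rw [Int.toNat_of_nonneg h4]
    exact ⟨-(a / q), by have := Int.emod_add_mul_ediv a q; linarith⟩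
  have hbq : b.Coprime q := by
    have h5 : Int.gcd (b : ℤ) q = Int.gcd a q := by
      obtain ⟨c, hc⟩ := hb
      have : (b : ℤ) = a + c * q := by linarith [mul_comm (q : ℤ) c]
      rw [this, Int.gcd_add_mul_right_left]
    rw [hgcd] at h5
    exact h5
  have hχ : ∀ n : ℕ, n ≡ b [MOD q] → χ n = χ b := fun n hn => hChi.per n b (hn.of_dvd hq₁)
  set u' : ℕ := max u₀ (⌈δ * N⌉₊ - 1) with hu'
  set v' : ℕ := u₀ + H with hv'
  have hE := q09_nat N H q b u₀ u' δ Q (omf β χ) a hδ hN hu' huH' hb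
  rw [hE]
  rcases le_or_gt v' u' with hvu | huv
  · rw [Finset.Ioc_eq_empty (by omega)]
    simp only [Finset.filter_empty, Finset.sum_empty, mul_zero, sub_zero, zero_div, abs_zero]
    have : 0 < Real.exp (-k : ℝ) := Real.exp_pos _
    positivity
  · have hβ0 : 0 < β := by linarith [hChi.half_lt]
    set D : ℝ := (v' : ℝ) - u' with hD
    set F : ℝ := ∑ n ∈ Finset.Ioc u' v', (n : ℝ) ^ (β - 1) with hF
    have hfle : ∀ n : ℕ, 1 ≤ n → 0 ≤ (n : ℝ) ^ (β - 1) ∧ (n : ℝ) ^ (β - 1) ≤ 1 := by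
      intro n hn
      have hn1 : (1 : ℝ) ≤ n := by exact_mod_cast hn
      exact ⟨Real.rpow_nonneg (by linarith) _,
        Real.rpow_le_one_of_one_le_of_nonpos hn1 (by linarith [hChi.lt_one])⟩
    have hmono : ∀ m n : ℕ, 1 ≤ m → m ≤ n → (n : ℝ) ^ (β - 1) ≤ (m : ℝ) ^ (β - 1) := by
      intro m n hm hmn
      apply Real.rpow_le_rpow_of_nonpos
      · exact_mod_cast hm
      · exact_mod_cast hmn
      · linarith [hChi.lt_one]
    have hDH : D ≤ H := by
      have h6 : u₀ ≤ u' := le_max_left _ _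
      have h7 : (u₀ : ℝ) ≤ u' := by exact_mod_cast h6
      rw [hD, hv']
      push_cast
      linarith
    have hD0 : 0 ≤ D := by
      rw [hD, sub_nonneg]
      exact_mod_cast huv.le
    have hF0 : 0 ≤ F := Finset.sum_nonneg fun n hn => by
      rw [Finset.mem_Ioc] at hn
      exact (hfle n (by omega)).1
    have hcardD : ∑ _n ∈ Finset.Ioc u' v', (1 : ℝ) = D := by
      rw [Finset.sum_const, Nat.card_Ioc, nsmul_eq_mul, mul_one, Nat.cast_sub huv.le]
    have hFD : F ≤ D := by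
      rw [← hcardD]
      refine Finset.sum_le_sum fun n hn => ?_
      rw [Finset.mem_Ioc] at hn
      exact (hfle n (by omega)).2
    have hek : 0 ≤ Real.exp (-k : ℝ) := (Real.exp_pos _).le
    have hcb := hChi.abs_le b
    -- rough sums
    have g1 := h1 (fun _ => 1) Q q b k u' v' hQ hq hbq huv.le hk (fun _ _ _ _ => le_rfl)
      (fun _ _ => ⟨zero_le_one, le_rfl⟩)
    have g2 := h1 (fun n => (n : ℝ) ^ (β - 1)) Q q b k u' v' hQ hq hbq huv.le hk hmono hfle
    rw [hcardD] at g1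
    rw [← hF] at g2
    have hT2 : ∑ n ∈ (Finset.Ioc u' v').filter (fun n => n ≡ b [MOD q] ∧ rough Q n),
        (1 - omf β χ n) =
        (∑ n ∈ (Finset.Ioc u' v').filter (fun n => n ≡ b [MOD q] ∧ rough Q n), (1 : ℝ)) -
        χ b * ∑ n ∈ (Finset.Ioc u' v').filter (fun n => n ≡ b [MOD q] ∧ rough Q n),
          (n : ℝ) ^ (β - 1) := by
      rw [Finset.mul_sum, ← Finset.sum_sub_distrib]
      refine Finset.sum_congr rfl fun n hn => ?_
      rw [Finset.mem_filter] at hn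
      unfold omf
      rw [hχ n hn.2.1]
    -- main terms
    have hy1 := hHyp q b v' hq hqX hbq huH' hq₁
    have hy2 := hHyp q b u' hq hqX hbq (by omega) hq₁
    have hIcc : ∀ y : ℕ, ∑ n ∈ Finset.Icc 1 y, (1 - χ b * (n : ℝ) ^ (β - 1)) =
        y - χ b * ∑ n ∈ Finset.Ioc 0 y, (n : ℝ) ^ (β - 1) := by
      intro y
      have e : Finset.Icc 1 y = Finset.Ioc 0 y := by
        ext n
        rw [Finset.mem_Icc, Finset.mem_Ioc]
        omega
      rw [e, Finset.sum_sub_distrib, ← Finset.mul_sum, Finset.sum_const, Nat.card_Ioc,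
        Nat.sub_zero, nsmul_eq_mul, mul_one]
    rw [hIcc] at hy1 hy2
    have hFe : F = ∑ n ∈ Finset.Ioc 0 v', (n : ℝ) ^ (β - 1) -
        ∑ n ∈ Finset.Ioc 0 u', (n : ℝ) ^ (β - 1) := by
      have := Finset.sum_Ioc_consecutive (fun n : ℕ => (n : ℝ) ^ (β - 1)) (Nat.zero_le u') huv.le
      rw [hF]
      linarith
    refine q09_real _ _ (D - χ b * F) (D - χ b * F) (CQ Q) (Vq Q q) (q.totient : ℝ) q (Real.log N) (N / X) H Q
      (Real.exp (-k : ℝ)) (Q ^ (k + 1)) ((1 + Real.log q) ^ 2) ?_ ?_ ?_ ?_ (h2 Q q hQ hq) ?_ hq0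
      hC0 hCQ hlog hK hek (Nat.cast_nonneg H) (by linarith) (by positivity)
    · have e6 : (D - χ b * F) / (q.totient : ℝ) =
          (v' - χ b * ∑ n ∈ Finset.Ioc 0 v', (n : ℝ) ^ (β - 1)) / (q.totient : ℝ) -
          (u' - χ b * ∑ n ∈ Finset.Ioc 0 u', (n : ℝ) ^ (β - 1)) / (q.totient : ℝ) := by
        rw [hFe, hD]
        ring
      rw [q09_psi _ q b u' v' huv.le, e6]
      rw [abs_le] at hy1 hy2 ⊢
      constructor <;> linarith [hy1.1, hy1.2, hy2.1, hy2.2]
    · rw [hT2]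
      have e3 : (D - χ b * F) / (q : ℝ) * Vq Q q = D / q * Vq Q q - χ b * (F / q * Vq Q q) := by
        ring
      rw [e3]
      set S1 := ∑ n ∈ (Finset.Ioc u' v').filter (fun n => n ≡ b [MOD q] ∧ rough Q n), (1 : ℝ)
        with hS1
      set S2 := ∑ n ∈ (Finset.Ioc u' v').filter (fun n => n ≡ b [MOD q] ∧ rough Q n),
          (n : ℝ) ^ (β - 1) with hS2
      have e4 : S1 - χ b * S2 - (D / q * Vq Q q - χ b * (F / q * Vq Q q)) =
          (S1 - D / q * Vq Q q) - χ b * (S2 - F / q * Vq Q q) := by ring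
      rw [e4]
      have g3 : |χ b * (S2 - F / q * Vq Q q)| ≤ |S2 - F / q * Vq Q q| := by
        rw [abs_mul]
        exact mul_le_of_le_one_left (abs_nonneg _) hcb
      have g4 : D / q ≤ H / q := div_le_div_of_nonneg_right hDH hq0.le
      have g5 : F / q ≤ H / q := div_le_div_of_nonneg_right (hFD.trans hDH) hq0.le
      have g6 := mul_le_mul_of_nonneg_right g4 hek
      have g7 := mul_le_mul_of_nonneg_right g5 hek
      have g8 := abs_sub (S1 - D / q * Vq Q q) (χ b * (S2 - F / q * Vq Q q))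
      linarith
    · rw [sub_self, abs_zero]
      norm_num
    · refine (abs_sub _ _).trans ?_
      rw [abs_mul, abs_of_nonneg hD0, abs_of_nonneg hF0]
      have := mul_le_of_le_one_left hF0 hcb
      linarith
    · exact_mod_cast Nat.totient_pos.2 hq

end Pool.Agent.APP.Q
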