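/-
MP_8a4e59_co, part P2-P5, piece Q10: averages of `gg` for all moduli.
-/
import Pool.Agent.Lib.MP_8a4e59_co.P.StmQ

set_option autoImplicit false

open Finset ArithmeticFunction

namespace Pool.Agent.APP.Q

private theorem q10_omf {q₁ : ℕ} {β : ℝ} {χ : ℕ → ℝ} (h : Chi q₁ β χ) (n : ℕ) :
    |omf β χ n| ≤ 1 := by
  unfold omf
  rw [abs_mul]
  have h0 := h.lt_one
  have h1 := h.abs_le n
  have h2 : |(n : ℝ) ^ (β - 1)| ≤ 1 := by
    rw [abs_of_nonneg (Real.rpow_nonneg (Nat.cast_nonneg n) _)]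
    rcases Nat.eq_zero_or_pos n with h3 | h3
    · subst h3
      rw [Nat.cast_zero, Real.zero_rpow (by linarith : β - 1 ≠ 0)]
      exact zero_le_one
    · exact Real.rpow_le_one_of_one_le_of_nonpos (by exact_mod_cast h3) (by linarith)
  calc |χ n| * |(n : ℝ) ^ (β - 1)| ≤ 1 * 1 := mul_le_mul h1 h2 (abs_nonneg _) zero_le_one
    _ = 1 := one_mul 1

private theorem q10_split (q J : ℕ) (hq : 1 ≤ q) (hJ : 1 ≤ J) (a : ℤ) (S : Finset ℤ) (g : ℤ → ℝ) :
    ∑ x ∈ S.filter (fun x => (q : ℤ) ∣ x - a), g x =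
      ∑ j ∈ Finset.range J,
        ∑ x ∈ S.filter (fun x => ((q * J : ℕ) : ℤ) ∣ x - (a + (j : ℤ) * q)), g x := by
  classical
  have hq0 : (q : ℤ) ≠ 0 := by exact_mod_cast (by omega : q ≠ 0)
  have hmap : ∀ x ∈ S.filter (fun x => (q : ℤ) ∣ x - a),
      (((x - a) / q) % (J : ℤ)).toNat ∈ Finset.range J := by
    intro x _
    rw [Finset.mem_range]
    have h1 : 0 ≤ ((x - a) / q) % (J : ℤ) := Int.emod_nonneg _ (by omega)
    have h2 : ((x - a) / q) % (J : ℤ) < J := Int.emod_lt_of_pos _ (by omega)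
    omega
  rw [← Finset.sum_fiberwise_of_maps_to hmap]
  refine Finset.sum_congr rfl fun j hj => ?_
  refine Finset.sum_congr ?_ fun _ _ => rfl
  rw [Finset.mem_range] at hj
  ext x
  simp only [Finset.mem_filter]
  constructor
  · rintro ⟨⟨hxS, t, ht⟩, hj2⟩
    refine ⟨hxS, ?_⟩
    rw [ht, Int.mul_ediv_cancel_left _ hq0] at hj2
    have h1 : 0 ≤ t % (J : ℤ) := Int.emod_nonneg _ (by omega)
    have h3 : t % (J : ℤ) = j := by omega
    have h4 := Int.emod_add_mul_ediv t J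
    refine ⟨t / J, ?_⟩
    push_cast
    rw [h3] at h4
    linear_combination ht - (q : ℤ) * h4
  · rintro ⟨hxS, s, hs⟩
    push_cast at hs
    have ht : x - a = q * (j + J * s) := by linear_combination hs
    refine ⟨⟨hxS, ⟨_, ht⟩⟩, ?_⟩
    rw [ht, Int.mul_ediv_cancel_left _ hq0, Int.add_mul_emod_self_left,
      Int.emod_eq_of_lt (by omega) (by exact_mod_cast hj)]
    simp

private theorem q10_bad {q q₁ : ℕ} (hq₁ : 1 ≤ q₁) {a b x : ℤ} (ha : Int.gcd a q = 1)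
    (hb : (q : ℤ) ∣ b - a) (hbad : Int.gcd b (Nat.lcm q q₁ : ℕ) ≠ 1)
    (hx : ((Nat.lcm q q₁ : ℕ) : ℤ) ∣ x - b) : 1 < Int.gcd x q₁ := by
  have hp : (Nat.minFac (Int.gcd b (Nat.lcm q q₁ : ℕ))).Prime := Nat.minFac_prime hbad
  set p := Nat.minFac (Int.gcd b (Nat.lcm q q₁ : ℕ)) with hpdef
  have hpd : p ∣ Int.gcd b (Nat.lcm q q₁ : ℕ) := Nat.minFac_dvd _
  have hpb : (p : ℤ) ∣ b := (Int.natCast_dvd_natCast.mpr hpd).trans (Int.gcd_dvd_left _ _)
  have hpm' : (p : ℤ) ∣ ((Nat.lcm q q₁ : ℕ) : ℤ) :=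
    (Int.natCast_dvd_natCast.mpr hpd).trans (Int.gcd_dvd_right _ _)
  have hpm : p ∣ Nat.lcm q q₁ := Int.natCast_dvd_natCast.mp hpm'
  have hpq : ¬ p ∣ q := by
    intro h
    have h1 : (p : ℤ) ∣ (q : ℤ) := Int.natCast_dvd_natCast.mpr h
    have h2 : (p : ℤ) ∣ a := by
      have h3 : (p : ℤ) ∣ b - a := h1.trans hb
      have h4 := dvd_sub hpb h3
      simpa using h4
    have h5 : p ∣ Int.gcd a q := Int.dvd_gcd h2 h1 |> fun h => by exact_mod_cast h
    rw [ha] at h5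
    exact hp.one_lt.ne' (Nat.dvd_one.mp h5)
  have hpq₁ : p ∣ q₁ := by
    have h1 : p ∣ q * q₁ := hpm.trans (Nat.lcm_dvd_mul q q₁)
    exact (hp.dvd_mul.mp h1).resolve_left hpq
  have hpx : (p : ℤ) ∣ x := by
    have h1 : (p : ℤ) ∣ x - b := hpm'.trans hx
    have h2 := dvd_add h1 hpb
    simpa using h2
  have h6 : p ∣ Int.gcd x q₁ := by
    have h7 : (p : ℤ) ∣ (q₁ : ℤ) := Int.natCast_dvd_natCast.mpr hpq₁
    have h8 := Int.dvd_coe_gcd hpx h7
    exact_mod_cast h8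
  have h9 : 0 < Int.gcd x q₁ := Int.gcd_pos_of_ne_zero_right _ (by exact_mod_cast (by omega : q₁ ≠ 0))
  exact lt_of_lt_of_le hp.one_lt (Nat.le_of_dvd h9 h6)

theorem q_avg2 (h1 : S_avg1) (h2 : S_zz1) : S_avg2 := by
  classical
  intro N q₁ q H k δ Q X Y β χ a u hN hδ hQ hCQ hk hχ hHyp hq hqY hYX hu huN hgcd
  have hq₁ := hχ.one_le
  set m := Nat.lcm q q₁ with hmdef
  have hqm : q ∣ m := Nat.dvd_lcm_left q q₁
  have hq₁m : q₁ ∣ m := Nat.dvd_lcm_right q q₁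
  have hmpos : 0 < m := Nat.lcm_pos (by omega) (by omega)
  obtain ⟨J, hJ⟩ := hqm
  have hJ1 : 1 ≤ J := by
    rcases Nat.eq_zero_or_pos J with h | h
    · rw [h, mul_zero] at hJ; omega
    · exact h
  have hmle : m ≤ q * q₁ := Nat.le_of_dvd (Nat.mul_pos (by omega) (by omega)) (Nat.lcm_dvd_mul q q₁)
  have hJq₁ : J ≤ q₁ := by
    rw [hJ] at hmle
    exact Nat.le_of_mul_le_mul_left hmle (by omega)
  have hqR : (1 : ℝ) ≤ q := by exact_mod_cast hq
  have hq₁R : (1 : ℝ) ≤ q₁ := by exact_mod_cast hq₁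
  have hJR : (1 : ℝ) ≤ J := by exact_mod_cast hJ1
  have hmR : (1 : ℝ) ≤ m := by exact_mod_cast hmpos
  have hmY : (m : ℝ) ≤ Y := by
    have : (m : ℝ) ≤ (q : ℝ) * q₁ := by exact_mod_cast hmle
    linarith
  have hq₁Y : (q₁ : ℝ) ≤ Y := by nlinarith
  have hY1 : 1 ≤ Y := hmR.trans hmY
  have hX1 : 1 ≤ X := hY1.trans hYX
  have hlogY : 0 ≤ Real.log Y := Real.log_nonneg hY1
  have hlogm : 0 ≤ Real.log m := Real.log_nonneg hmR
  have hlogmY : Real.log m ≤ Real.log Y := Real.log_le_log (by linarith) hmY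
  have hH0 : (0 : ℝ) ≤ H := Nat.cast_nonneg H
  have hQk : (1 : ℝ) ≤ Q ^ (k + 1) := one_le_pow₀ (by linarith)
  set g : ℤ → ℝ := gg δ Q N (omf β χ) with hg
  set S := Finset.Ioc u (u + H) with hS
  set Bd : ℝ := 2 * (N / X) + 10 * (H / m) * ((1 + Real.log m) ^ 2 / Q + Real.exp (-k)) +
    10 * Q ^ (k + 1) with hBd
  have hBd0 : 0 ≤ Bd := by
    have e1 : (0 : ℝ) ≤ N / X := by positivity
    have e2 : (0 : ℝ) ≤ 10 * (H / m) * ((1 + Real.log m) ^ 2 / Q + Real.exp (-k)) := by positivity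
    rw [hBd]
    linarith
  let g' : ℤ → ℝ := fun x => if 1 < Int.gcd x q₁ then |g x| else 0
  have hg'0 : ∀ x, 0 ≤ g' x := by
    intro x
    simp only [g']
    split_ifs
    · exact abs_nonneg _
    · exact le_rfl
  -- each class
  have hcls : ∀ j ∈ Finset.range J,
      |∑ x ∈ S.filter (fun x => ((q * J : ℕ) : ℤ) ∣ x - (a + (j : ℤ) * q)), g x| ≤
        Bd + ∑ x ∈ S.filter (fun x => ((q * J : ℕ) : ℤ) ∣ x - (a + (j : ℤ) * q)), g' x := by
    intro j _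
    rw [← hJ]
    by_cases hgood : Int.gcd (a + (j : ℤ) * q) (m : ℕ) = 1
    · have h3 := h1 N q₁ m H k δ Q X β χ (a + (j : ℤ) * q) u hN hδ hQ hCQ hk hχ hHyp hmpos
        (hmY.trans hYX) hq₁m hu huN hgood
      have h4 : 0 ≤ ∑ x ∈ S.filter (fun x => (m : ℤ) ∣ x - (a + (j : ℤ) * q)), g' x :=
        Finset.sum_nonneg fun x _ => hg'0 x
      linarith
    · have h3 : ∀ x ∈ S.filter (fun x => (m : ℤ) ∣ x - (a + (j : ℤ) * q)), |g x| = g' x := by
        intro x hx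
        have hx2 := (Finset.mem_filter.mp hx).2
        have h5 : 1 < Int.gcd x q₁ := q10_bad hq₁ hgcd (by simp) hgood hx2
        simp only [g', if_pos h5]
      have h4 : |∑ x ∈ S.filter (fun x => (m : ℤ) ∣ x - (a + (j : ℤ) * q)), g x| ≤
          ∑ x ∈ S.filter (fun x => (m : ℤ) ∣ x - (a + (j : ℤ) * q)), g' x := by
        rw [← Finset.sum_congr rfl h3]
        exact Finset.abs_sum_le_sum_abs _ _
      linarith
  have hsum : |∑ x ∈ S.filter (fun x => (q : ℤ) ∣ x - a), g x| ≤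
      J * Bd + ∑ x ∈ S.filter (fun x => (q : ℤ) ∣ x - a ∧ 1 < Int.gcd x q₁), |g x| := by
    have e1 : ∑ x ∈ S.filter (fun x => (q : ℤ) ∣ x - a ∧ 1 < Int.gcd x q₁), |g x| =
        ∑ x ∈ S.filter (fun x => (q : ℤ) ∣ x - a), g' x := by
      simp only [g']
      rw [← Finset.sum_filter, Finset.filter_filter]
    rw [e1, q10_split q J hq hJ1 a S g, q10_split q J hq hJ1 a S g']
    calc _ ≤ ∑ j ∈ Finset.range J,
          |∑ x ∈ S.filter (fun x => ((q * J : ℕ) : ℤ) ∣ x - (a + (j : ℤ) * q)), g x| :=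
          Finset.abs_sum_le_sum_abs _ _
      _ ≤ ∑ j ∈ Finset.range J, (Bd +
          ∑ x ∈ S.filter (fun x => ((q * J : ℕ) : ℤ) ∣ x - (a + (j : ℤ) * q)), g' x) :=
          Finset.sum_le_sum hcls
      _ = _ := by
          rw [Finset.sum_add_distrib, Finset.sum_const, Finset.card_range, nsmul_eq_mul]
  have hz := h2 N q q₁ H δ Q Y (omf β χ) a u hN hδ hQ hCQ (q10_omf hχ) hq hq₁ hq₁Y hgcd
  -- numerics
  have hJBd : J * Bd ≤ 2 * q₁ * (N / X) +
      10 * (H / q) * ((1 + Real.log Y) ^ 2 / Q + Real.exp (-k)) + 10 * q₁ * Q ^ (k + 1) := by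
    have hmeq : (m : ℝ) = q * J := by exact_mod_cast hJ
    have e1 : (J : ℝ) * (H / m) = H / q := by
      rw [hmeq]
      field_simp
    have e2 : (0 : ℝ) ≤ N / X := by positivity
    have e3 : (J : ℝ) ≤ q₁ := by exact_mod_cast hJq₁
    have e4 : (1 + Real.log m) ^ 2 / Q ≤ (1 + Real.log Y) ^ 2 / Q := by
      apply div_le_div_of_nonneg_right _ (by linarith)
      exact pow_le_pow_left₀ (by linarith) (by linarith) 2
    have e5 : (0 : ℝ) ≤ H / q := by positivity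
    have e6 := mul_le_mul_of_nonneg_right e3 e2
    have e7 : (J : ℝ) * Q ^ (k + 1) ≤ q₁ * Q ^ (k + 1) :=
      mul_le_mul_of_nonneg_right e3 (by linarith)
    have e8 : (H : ℝ) / q * ((1 + Real.log m) ^ 2 / Q + Real.exp (-k)) ≤
        H / q * ((1 + Real.log Y) ^ 2 / Q + Real.exp (-k)) :=
      mul_le_mul_of_nonneg_left (by linarith) e5
    calc (J : ℝ) * Bd = 2 * (J * (N / X)) +
          10 * ((J * (H / m)) * ((1 + Real.log m) ^ 2 / Q + Real.exp (-k))) +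
          10 * (J * Q ^ (k + 1)) := by rw [hBd]; ring
      _ = 2 * (J * (N / X)) +
          10 * ((H / q) * ((1 + Real.log m) ^ 2 / Q + Real.exp (-k))) +
          10 * (J * Q ^ (k + 1)) := by rw [e1]
      _ ≤ 2 * (q₁ * (N / X)) +
          10 * ((H / q) * ((1 + Real.log Y) ^ 2 / Q + Real.exp (-k))) +
          10 * (q₁ * Q ^ (k + 1)) := by linarith
      _ = _ := by ring
  have hzz : 8 * (1 + Real.log Y) * (H / (q * Q) + 1) ≤
      8 * (H / q) * ((1 + Real.log Y) ^ 2 / Q) + 8 * q₁ * Q ^ (k + 1) * (1 + Real.log Y) := by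
    have e0 : (H : ℝ) / (q * Q) = H / q * (1 / Q) := by
      field_simp
    have e1 : 0 ≤ (H : ℝ) / q * (1 / Q) := by positivity
    have e2 : (1 + Real.log Y) * (H / q * (1 / Q)) ≤ (1 + Real.log Y) ^ 2 * (H / q * (1 / Q)) := by
      apply mul_le_mul_of_nonneg_right _ e1
      nlinarith
    have e3 : 1 ≤ q₁ * Q ^ (k + 1) := by nlinarith
    have e4 : (1 + Real.log Y) ≤ q₁ * Q ^ (k + 1) * (1 + Real.log Y) := by nlinarith
    calc 8 * (1 + Real.log Y) * (H / (q * Q) + 1)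
        = 8 * ((1 + Real.log Y) * (H / q * (1 / Q))) + 8 * (1 + Real.log Y) := by rw [e0]; ring
      _ ≤ 8 * ((1 + Real.log Y) ^ 2 * (H / q * (1 / Q))) +
          8 * (q₁ * Q ^ (k + 1) * (1 + Real.log Y)) := by linarith
      _ = _ := by ring
  have hT1 : 0 ≤ (H : ℝ) / q * ((1 + Real.log Y) ^ 2 / Q) := by positivity
  have hT2 : 0 ≤ (H : ℝ) / q * Real.exp (-k) := by positivity
  have hT3 : (q₁ : ℝ) * Q ^ (k + 1) ≤ q₁ * Q ^ (k + 1) * (1 + Real.log Y) := by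
    have : 0 ≤ (q₁ : ℝ) * Q ^ (k + 1) := by positivity
    nlinarith
  have hT4 : 0 ≤ (q₁ : ℝ) * Q ^ (k + 1) * (1 + Real.log Y) := by positivity
  calc |∑ x ∈ S.filter (fun x => (q : ℤ) ∣ x - a), g x|
      ≤ J * Bd + ∑ x ∈ S.filter (fun x => (q : ℤ) ∣ x - a ∧ 1 < Int.gcd x q₁), |g x| := hsum
    _ ≤ (2 * q₁ * (N / X) + 10 * (H / q) * ((1 + Real.log Y) ^ 2 / Q + Real.exp (-k)) +
          10 * q₁ * Q ^ (k + 1)) + (8 * (H / q) * ((1 + Real.log Y) ^ 2 / Q) +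
          8 * q₁ * Q ^ (k + 1) * (1 + Real.log Y)) := add_le_add hJBd (hz.trans hzz)
    _ ≤ _ := by nlinarith

end Pool.Agent.APP.Q
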