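import Pool.Agent.Lib.MP_8a4e59_co.P.StmQ

set_option autoImplicit false

/-!
MP_8a4e59_co, part P2-P5, piece Q11: the numerical inequalities. (helper34)
-/

open Finset ArithmeticFunction

namespace Pool.Agent.APP.Q

private theorem q11_pw {l c : ℝ} (hl : 1 ≤ l) (hc : c ≤ l) {a b : ℕ} (hab : a < b) :
    c * l ^ a ≤ l ^ b := by
  calc c * l ^ a ≤ l * l ^ a := mul_le_mul_of_nonneg_right hc (by positivity)
    _ = l ^ (a + 1) := by rw [pow_succ']
    _ ≤ l ^ b := pow_le_pow_right₀ hl hab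

private theorem q11_two (n : ℕ) : (2 : ℝ) ^ n ≤ Real.exp n := by
  rw [← Real.exp_one_pow]
  refine pow_le_pow_left₀ (by norm_num) ?_ n
  have := Real.add_one_le_exp (1 : ℝ)
  linarith

/-- `c * exp u ≤ exp v` if `c ≤ 2 ^ n`, `n + u ≤ v` -/
private theorem q11_exp {c u v : ℝ} (n : ℕ) (hc : c ≤ 2 ^ n) (h : n + u ≤ v) :
    c * Real.exp u ≤ Real.exp v := by
  calc c * Real.exp u ≤ Real.exp n * Real.exp u :=
        mul_le_mul_of_nonneg_right (hc.trans (q11_two n)) (Real.exp_pos u).le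
    _ = Real.exp (n + u) := by rw [Real.exp_add]
    _ ≤ Real.exp v := Real.exp_le_exp.2 h

private theorem q11_main (K s t₁ N : ℕ) (hs : 1 ≤ s) (ht : t₁ + 1 ≤ s) (hN3 : 3 ≤ N) (l : ℝ)
    (hl : l = Real.log (Real.log N)) (hlK : 5 * (K : ℝ) + 100 ≤ l)
    (hbig : (10000 + 10 * (K : ℝ)) * l ^ (6 * s + 20) ≤ Real.exp l) :
    Num K s t₁ N ⌈l ^ (s + 2)⌉₊ ⌈l ^ (2 * s + 5)⌉₊ := by
  have hK0 : (0 : ℝ) ≤ K := Nat.cast_nonneg K
  have hl1 : 1 ≤ l := by linarith
  have hl0 : 0 ≤ l := by linarith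
  have hNpos : (0 : ℝ) < N := by
    have : 0 < N := by omega
    exact_mod_cast this
  have hlogN0 : 0 < Real.log N := by
    refine Real.log_pos ?_
    have : 1 < N := by omega
    exact_mod_cast this
  have hlogN : Real.log N = Real.exp l := by
    rw [hl, Real.exp_log hlogN0]
  have hNe : (N : ℝ) = Real.exp (Real.exp l) := by
    rw [← hlogN, Real.exp_log hNpos]
  have hX : ∀ c : ℕ, XX c N = Real.exp (l ^ c) := by
    intro c
    rw [hl]
    rfl
  obtain ⟨P, hPdef⟩ : ∃ P : ℝ, P = l ^ (6 * s + 20) := ⟨_, rfl⟩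
  rw [← hPdef] at hbig
  have hP : ∀ a : ℕ, a ≤ 6 * s + 20 → l ^ a ≤ P := by
    intro a ha
    rw [hPdef]
    exact pow_le_pow_right₀ hl1 ha
  have hP1 : 1 ≤ P := by
    have := hP 0 (by omega)
    simpa using this
  have hlP : l ≤ P := by
    have := hP 1 (by omega)
    simpa using this
  have hKP0 : 0 ≤ (K : ℝ) * P := mul_nonneg hK0 (by linarith)
  have hbig' : 10000 * P + 10 * ((K : ℝ) * P) ≤ Real.exp l := by
    refine le_trans (le_of_eq ?_) hbig
    ring
  have pw : ∀ (c : ℝ) (a b : ℕ), c ≤ l → a < b → c * l ^ a ≤ l ^ b :=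
    fun c a b hc hab => q11_pw hl1 hc hab
  have pm : ∀ (a b : ℕ), a ≤ b → l ^ a ≤ l ^ b := fun a b hab => pow_le_pow_right₀ hl1 hab
  have p0 : ∀ a : ℕ, (1 : ℝ) ≤ l ^ a := fun a => one_le_pow₀ hl1
  -- `k`
  set k : ℕ := ⌈l ^ (s + 2)⌉₊ with hk
  have hk1 : l ^ (s + 2) ≤ (k : ℝ) := Nat.le_ceil _
  have hk2 : (k : ℝ) ≤ l ^ (s + 2) + 1 := (Nat.ceil_lt_add_one (by positivity)).le
  set k2 : ℕ := ⌈l ^ (2 * s + 5)⌉₊ with hk2def
  have hk3 : l ^ (2 * s + 5) ≤ (k2 : ℝ) := Nat.le_ceil _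
  have hk4 : (k2 : ℝ) ≤ l ^ (2 * s + 5) + 1 := (Nat.ceil_lt_add_one (by positivity)).le
  have hδ : (XX s N)⁻¹ ^ K = Real.exp (-((K : ℝ) * l ^ s)) := by
    rw [hX, ← Real.exp_neg, ← Real.exp_nat_mul]
    congr 1
    ring
  have hKs : (K : ℝ) * l ^ s ≤ (K : ℝ) * P := mul_le_mul_of_nonneg_left (hP s (by omega)) hK0
  have hKs0 : 0 ≤ (K : ℝ) * l ^ s := mul_nonneg hK0 (by linarith [p0 s])
  -- `l ≤ l^(s+1) - K l^s`
  have hgap : l ≤ l ^ (s + 1) - (K : ℝ) * l ^ s := by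
    have h1 := pw (K + 1) s (s + 1) (by linarith) (by omega)
    have h2 : l ≤ l ^ s := by
      have := pm 1 s (by omega)
      simpa using this
    have h3 : ((K : ℝ) + 1) * l ^ s = (K : ℝ) * l ^ s + l ^ s := by ring
    linarith
  have hgape : Real.exp l ≤ Real.exp (-((K : ℝ) * l ^ s)) * Real.exp (l ^ (s + 1)) := by
    rw [← Real.exp_add]
    exact Real.exp_le_exp.2 (by linarith)
  have ht1 : l ^ t₁ ≤ l ^ s := pm _ _ (by omega)
  have hNY : (N : ℝ) / XX (3 * s + 8) N ^ 2 = Real.exp (Real.exp l - 2 * l ^ (3 * s + 8)) := by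
    rw [hNe, hX, ← Real.exp_nat_mul, ← Real.exp_sub]
    norm_num
  refine
    { N3 := hN3
      hlog := ?_
      Q2 := ?_
      cq := ?_
      cq' := ?_
      hk := ?_
      hk' := ?_
      hek := ?_
      hek' := ?_
      QX := ?_
      QX' := ?_
      VX1 := ?_
      VX2 := ?_
      V12 := ?_
      VN := ?_
      VN2 := ?_
      c1 := ?_
      c2 := ?_
      c3 := ?_
      c4 := ?_
      c5 := ?_
      c6 := ?_
      c7 := ?_
      z1 := ?_
      z2 := ?_
      a1 := ?_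
      a2 := ?_
      a3 := ?_ }
  · -- hlog
    rw [hX]
    have h1 : l ≤ l ^ s := by
      have := pm 1 s hs
      simpa using this
    have h2 := Real.add_one_le_exp (l ^ s)
    linarith
  · -- Q2
    rw [hX]
    have h1 := q11_two 1
    have h2 : Real.exp (1 : ℕ) ≤ Real.exp (l ^ (s + 1)) := by
      refine Real.exp_le_exp.2 ?_
      push_cast
      exact p0 _
    linarith
  · -- cq
    rw [hX, Real.log_exp, hlogN]
    have := hP (s + 1) (by omega)
    linarith
  · -- cq'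
    rw [hX, Real.log_exp, hlogN]
    have := hP (s + 1) (by omega)
    nlinarith
  · -- hk
    rw [hX, Real.log_exp]
    have h1 := pw 16 (s + 1) (s + 2) (by linarith) (by omega)
    have h2 := p0 (s + 1)
    linarith
  · -- hk'
    rw [hX, Real.log_exp]
    have h1 := pw 16 (s + 1) (2 * s + 5) (by linarith) (by omega)
    have h2 := p0 (s + 1)
    linarith
  · -- hek
    rw [hδ]
    refine q11_exp 1 (by norm_num) ?_
    have h1 := pw (K + 1) s (s + 2) (by linarith) (by omega)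
    have h2 := p0 s
    have h3 : ((K : ℝ) + 1) * l ^ s = (K : ℝ) * l ^ s + l ^ s := by ring
    push_cast
    linarith
  · -- hek'
    intro q₀ hq1 hq
    rw [hX] at hq
    have hq0 : (0 : ℝ) < q₀ := by exact_mod_cast hq1
    rw [hX, hX, ← Real.exp_neg]
    have e1 : Real.exp (-(l ^ s + l ^ t₁ + l ^ (2 * s + 4))) ≤
        Real.exp (-l ^ s) / (q₀ * Real.exp (l ^ (2 * s + 4))) := by
      rw [le_div_iff₀ (by positivity)]
      calc Real.exp (-(l ^ s + l ^ t₁ + l ^ (2 * s + 4))) * (q₀ * Real.exp (l ^ (2 * s + 4)))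
          ≤ Real.exp (-(l ^ s + l ^ t₁ + l ^ (2 * s + 4))) *
            (Real.exp (l ^ t₁) * Real.exp (l ^ (2 * s + 4))) := by gcongr
        _ = Real.exp (-l ^ s) := by
          rw [← Real.exp_add, ← Real.exp_add]
          congr 1
          ring
    refine le_trans ?_ (pow_le_pow_left₀ (Real.exp_pos _).le e1 K)
    rw [← Real.exp_nat_mul]
    refine q11_exp 1 (by norm_num) ?_
    have h2 := pm t₁ (2 * s + 4) (by omega)
    have h3 := pm s (2 * s + 4) (by omega)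
    have h4 := p0 (2 * s + 4)
    have h5 := pw (3 * K + 1) (2 * s + 4) (2 * s + 5) (by linarith) (by omega)
    have h6 : (K : ℝ) * (l ^ s + l ^ t₁ + l ^ (2 * s + 4)) ≤ (K : ℝ) * (3 * l ^ (2 * s + 4)) :=
      mul_le_mul_of_nonneg_left (by linarith) hK0
    have h7 : (3 * (K : ℝ) + 1) * l ^ (2 * s + 4) =
        (K : ℝ) * (3 * l ^ (2 * s + 4)) + l ^ (2 * s + 4) := by ring
    push_cast
    linarith
  · -- QX
    rw [hX, hX, ← Real.exp_nat_mul]
    refine Real.exp_le_exp.2 ?_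
    have h1 : (k : ℝ) * l ^ (s + 1) ≤ (l ^ (s + 2) + 1) * l ^ (s + 1) :=
      mul_le_mul_of_nonneg_right hk2 (by positivity)
    have h2 : (l ^ (s + 2) + 1) * l ^ (s + 1) = l ^ (2 * s + 3) + l ^ (s + 1) := by ring
    have h3 := pm (s + 1) (2 * s + 3) (by omega)
    have h4 := pw 2 (2 * s + 3) (2 * s + 4) (by linarith) (by omega)
    linarith
  · -- QX'
    rw [hX, hX, ← Real.exp_nat_mul]
    refine Real.exp_le_exp.2 ?_
    have h1 : (k2 : ℝ) * l ^ (s + 1) ≤ (l ^ (2 * s + 5) + 1) * l ^ (s + 1) :=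
      mul_le_mul_of_nonneg_right hk4 (by positivity)
    have h2 : (l ^ (2 * s + 5) + 1) * l ^ (s + 1) = l ^ (3 * s + 6) + l ^ (s + 1) := by ring
    have h3 := pm (s + 1) (3 * s + 6) (by omega)
    have h4 := pw 2 (3 * s + 6) (3 * s + 7) (by linarith) (by omega)
    linarith
  · -- VX1
    rw [hX, hX, ← Real.exp_nat_mul]
    exact Real.exp_le_exp.2 (pw _ _ _ (by push_cast; linarith) (by omega))
  · -- VX2
    rw [hX, hX, ← Real.exp_nat_mul]
    exact Real.exp_le_exp.2 (pw _ _ _ (by push_cast; linarith) (by omega))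
  · rw [hX, hX]
    exact Real.exp_le_exp.2 (pm _ _ (by omega))
  · -- VN
    rw [hX, hX, hNe, ← Real.exp_neg, ← Real.exp_add]
    refine Real.exp_lt_exp.2 ?_
    have h1 := hP (2 * s + 5) (by omega)
    have h2 := hP s (by omega)
    linarith
  · -- VN2
    rw [hX, hNe, ← Real.exp_nat_mul]
    refine Real.exp_le_exp.2 ?_
    have h1 := hP (2 * s + 5) (by omega)
    push_cast
    linarith
  · -- c1
    rw [hX, hX, ← Real.exp_nat_mul]
    exact Real.exp_le_exp.2 (pw _ _ _ (by linarith) (by omega))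
  · -- c2
    intro q₀ hq
    rw [hX] at hq
    rw [hX, hX, hX]
    have h1 : (q₀ : ℝ) * Real.exp (l ^ (2 * s + 4)) * Real.exp (l ^ s) ≤
        Real.exp (l ^ t₁ + l ^ (2 * s + 4) + l ^ s) := by
      rw [Real.exp_add, Real.exp_add]
      gcongr
    refine (pow_le_pow_left₀ (by positivity) h1 K).trans ?_
    rw [← Real.exp_nat_mul]
    refine Real.exp_le_exp.2 ?_
    have h2 := pm t₁ (2 * s + 4) (by omega)
    have h3 := pm s (2 * s + 4) (by omega)
    calc (K : ℝ) * (l ^ t₁ + l ^ (2 * s + 4) + l ^ s) ≤ (K : ℝ) * (3 * l ^ (2 * s + 4)) :=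
          mul_le_mul_of_nonneg_left (by linarith) hK0
      _ = (3 * (K : ℝ)) * l ^ (2 * s + 4) := by ring
      _ ≤ l ^ (2 * s + 5) := pw _ _ _ (by linarith) (by omega)
  · -- c3
    intro q₀ hq
    rw [hX] at hq
    rw [hX, hX, hX, hX, hX]
    have h1 : (q₀ : ℝ) * Real.exp (l ^ (2 * s + 4)) * Real.exp (l ^ (3 * s + 7)) *
        Real.exp (l ^ (2 * s + 5)) * Real.exp (l ^ s) ≤
        Real.exp (l ^ t₁ + l ^ (2 * s + 4) + l ^ (3 * s + 7) + l ^ (2 * s + 5) + l ^ s) := by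
      rw [Real.exp_add, Real.exp_add, Real.exp_add, Real.exp_add]
      gcongr
    refine (pow_le_pow_left₀ (by positivity) h1 K).trans ?_
    rw [← Real.exp_nat_mul]
    refine Real.exp_le_exp.2 ?_
    have h2 := pm t₁ (3 * s + 7) (by omega)
    have h3 := pm s (3 * s + 7) (by omega)
    have h4 := pm (2 * s + 4) (3 * s + 7) (by omega)
    have h5 := pm (2 * s + 5) (3 * s + 7) (by omega)
    calc (K : ℝ) * (l ^ t₁ + l ^ (2 * s + 4) + l ^ (3 * s + 7) + l ^ (2 * s + 5) + l ^ s)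
        ≤ (K : ℝ) * (5 * l ^ (3 * s + 7)) :=
          mul_le_mul_of_nonneg_left (by linarith) hK0
      _ = (5 * (K : ℝ)) * l ^ (3 * s + 7) := by ring
      _ ≤ l ^ (3 * s + 8) := pw _ _ _ (by linarith) (by omega)
  · -- c4
    rw [hX, hNe, ← Real.exp_nat_mul]
    refine Real.exp_le_exp.2 ?_
    have h1 : (K : ℝ) * l ^ (3 * s + 8) ≤ (K : ℝ) * P :=
      mul_le_mul_of_nonneg_left (hP (3 * s + 8) (by omega)) hK0
    linarith
  · rw [hX, hX]
    exact Real.exp_le_exp.2 (pm _ _ (by omega))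
  · -- c6
    rw [hX, hX, hX, ← Real.exp_add]
    refine Real.exp_le_exp.2 ?_
    have h1 := pm t₁ (3 * s + 8) (by omega)
    have h2 := pw 2 (3 * s + 8) (3 * s + 9) (by linarith) (by omega)
    linarith
  · rw [hX, hX]
    exact Real.exp_le_exp.2 (pm _ _ (by omega))
  · -- z1
    rw [hδ, hX, hX, Real.log_exp, div_le_iff₀ (Real.exp_pos _)]
    have h1 := hP (3 * s + 8) (by omega)
    have h2 : Real.exp (-((K : ℝ) * l ^ s)) / 2 * Real.exp (l ^ (s + 1)) =
        (Real.exp (-((K : ℝ) * l ^ s)) * Real.exp (l ^ (s + 1))) / 2 := by ring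
    rw [h2]
    linarith
  · -- z2
    rw [hδ, hNY, hX, Real.log_exp]
    have h1 := hP (3 * s + 8) (by omega)
    have h2 : Real.exp (-((K : ℝ) * l ^ s)) / 2 * Real.exp (Real.exp l - 2 * l ^ (3 * s + 8)) =
        Real.exp (-((K : ℝ) * l ^ s) + (Real.exp l - 2 * l ^ (3 * s + 8))) / 2 := by
      rw [Real.exp_add]
      ring
    rw [h2]
    have h3 : Real.exp l ≤ Real.exp (-((K : ℝ) * l ^ s) + (Real.exp l - 2 * l ^ (3 * s + 8))) := by
      refine Real.exp_le_exp.2 ?_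
      linarith
    linarith
  · -- a1
    rw [hδ, hNY, hX, hX, hNe]
    have h1 : 2 * Real.exp (l ^ t₁) * (Real.exp (Real.exp l) / Real.exp (l ^ (3 * s + 10))) =
        (8 * Real.exp (l ^ t₁ + (Real.exp l - l ^ (3 * s + 10)))) / 4 := by
      rw [Real.exp_add, Real.exp_sub]
      ring
    have h2 : Real.exp (-((K : ℝ) * l ^ s)) / 4 * Real.exp (Real.exp l - 2 * l ^ (3 * s + 8)) =
        Real.exp (-((K : ℝ) * l ^ s) + (Real.exp l - 2 * l ^ (3 * s + 8))) / 4 := by
      rw [Real.exp_add]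
      ring
    rw [h1, h2]
    refine div_le_div_of_nonneg_right (q11_exp 3 (by norm_num) ?_) (by norm_num)
    have h3 := pw (K + 6) (3 * s + 8) (3 * s + 10) (by linarith) (by omega)
    have h4 : ((K : ℝ) + 6) * l ^ (3 * s + 8) = (K : ℝ) * l ^ (3 * s + 8) + 6 * l ^ (3 * s + 8) := by
      ring
    have h5 : (K : ℝ) * l ^ s ≤ (K : ℝ) * l ^ (3 * s + 8) :=
      mul_le_mul_of_nonneg_left (pm _ _ (by omega)) hK0
    have h6 := pm t₁ (3 * s + 8) (by omega)
    have h7 := p0 (3 * s + 8)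
    push_cast
    linarith
  · -- a2
    rw [hδ, hX, hX, Real.log_exp]
    have h1 : (1 + l ^ (3 * s + 9)) ^ 2 / Real.exp (l ^ (s + 1)) ≤
        Real.exp (-((K : ℝ) * l ^ s)) / 160 := by
      rw [div_le_iff₀ (Real.exp_pos _)]
      have h2 : Real.exp (-((K : ℝ) * l ^ s)) / 160 * Real.exp (l ^ (s + 1)) =
          (Real.exp (-((K : ℝ) * l ^ s)) * Real.exp (l ^ (s + 1))) / 160 := by ring
      rw [h2]
      have h3 : (1 + l ^ (3 * s + 9)) ^ 2 ≤ 4 * P := by
        have h4 : (l ^ (3 * s + 9)) ^ 2 ≤ P := by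
          rw [← pow_mul]
          exact hP _ (by omega)
        have h5 := p0 (3 * s + 9)
        nlinarith
      linarith
    have h2 : 160 * Real.exp (-(k : ℝ)) ≤ Real.exp (-((K : ℝ) * l ^ s)) := by
      refine q11_exp 8 (by norm_num) ?_
      have h3 := pw (K + 8) s (s + 2) (by linarith) (by omega)
      have h4 := p0 s
      have h5 : ((K : ℝ) + 8) * l ^ s = (K : ℝ) * l ^ s + 8 * l ^ s := by ring
      push_cast
      linarith
    linarith
  · -- a3
    rw [hδ, hNY, hX, hX, hX, Real.log_exp]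
    have h1 : 80 * (1 + l ^ (3 * s + 9)) ≤ Real.exp l := by
      have := hP (3 * s + 9) (by omega)
      linarith
    have h2 : Real.exp (l ^ (s + 1)) ^ (k + 1) = Real.exp (((k : ℝ) + 1) * l ^ (s + 1)) := by
      rw [← Real.exp_nat_mul]
      push_cast
      rfl
    have h3 : ((k : ℝ) + 1) * l ^ (s + 1) ≤ 3 * P := by
      have h4 : ((k : ℝ) + 1) * l ^ (s + 1) ≤ (l ^ (s + 2) + 2) * l ^ (s + 1) :=
        mul_le_mul_of_nonneg_right (by linarith) (by positivity)
      have h5 : (l ^ (s + 2) + 2) * l ^ (s + 1) = l ^ (2 * s + 3) + 2 * l ^ (s + 1) := by ring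
      have h6 := hP (2 * s + 3) (by omega)
      have h7 := hP (s + 1) (by omega)
      linarith
    have h4 := hP t₁ (by omega)
    have h5 := hP (3 * s + 8) (by omega)
    have h6 : Real.exp (l ^ t₁) * Real.exp (((k : ℝ) + 1) * l ^ (s + 1)) * Real.exp l ≤
        Real.exp (-((K : ℝ) * l ^ s)) * Real.exp (Real.exp l - 2 * l ^ (3 * s + 8)) := by
      rw [← Real.exp_add, ← Real.exp_add, ← Real.exp_add]
      refine Real.exp_le_exp.2 ?_
      linarith
    rw [h2]
    have h7 : 0 < Real.exp (l ^ t₁) * Real.exp (((k : ℝ) + 1) * l ^ (s + 1)) := by positivity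
    have h8 : Real.exp (l ^ t₁) * Real.exp (((k : ℝ) + 1) * l ^ (s + 1)) *
        (80 * (1 + l ^ (3 * s + 9))) ≤
        Real.exp (l ^ t₁) * Real.exp (((k : ℝ) + 1) * l ^ (s + 1)) * Real.exp l :=
      mul_le_mul_of_nonneg_left h1 h7.le
    have h9 : 20 * Real.exp (l ^ t₁) * Real.exp (((k : ℝ) + 1) * l ^ (s + 1)) *
        (1 + l ^ (3 * s + 9)) = (Real.exp (l ^ t₁) * Real.exp (((k : ℝ) + 1) * l ^ (s + 1)) *
        (80 * (1 + l ^ (3 * s + 9)))) / 4 := by ring
    have h10 : Real.exp (-((K : ℝ) * l ^ s)) / 4 * Real.exp (Real.exp l - 2 * l ^ (3 * s + 8)) =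
        (Real.exp (-((K : ℝ) * l ^ s)) * Real.exp (Real.exp l - 2 * l ^ (3 * s + 8))) / 4 := by
      ring
    rw [h9, h10]
    linarith

theorem q_num : S_num := by
  intro K s t₁ hs ht
  have h1 : Filter.Tendsto (fun N : ℕ => Real.log (Real.log N)) Filter.atTop Filter.atTop :=
    Real.tendsto_log_atTop.comp (Real.tendsto_log_atTop.comp tendsto_natCast_atTop_atTop)
  have h2 : ∀ᶠ l : ℝ in Filter.atTop,
      (10000 + 10 * (K : ℝ)) * l ^ (6 * s + 20) ≤ Real.exp l := by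
    filter_upwards [(Real.tendsto_exp_div_pow_atTop (6 * s + 20)).eventually_ge_atTop
      (10000 + 10 * (K : ℝ)), Filter.eventually_gt_atTop 0] with l hl hl0
    rwa [le_div_iff₀ (by positivity)] at hl
  have h3 := h1.eventually (h2.and (Filter.eventually_ge_atTop (5 * (K : ℝ) + 100)))
  obtain ⟨N₀, hN₀⟩ := Filter.eventually_atTop.1 (h3.and (Filter.eventually_ge_atTop 3))
  refine ⟨N₀, fun N hN => ?_⟩
  obtain ⟨⟨h4, h5⟩, h6⟩ := hN₀ N hN
  exact q11_main K s t₁ N hs ht h6 _ rfl h5 h4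

end Pool.Agent.APP.Q
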