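import Pool.Agent.Lib.MP_8a4e59_co.P.StmQ

set_option autoImplicit false

/-!
# MP_8a4e59_co, part P: the conclusion of part P for both cases at once
-/

open Finset ArithmeticFunction

namespace Pool.Agent.APP.Q

private theorem q12_CQ_pos (Q : ℝ) : 0 < CQ Q := by
  unfold CQ
  refine Finset.prod_pos fun p hp => ?_
  have h1 : p.Prime := (Finset.mem_filter.1 hp).2
  have h2 : (1 : ℝ) < p := by exact_mod_cast h1.one_lt
  have h3 : 1 / (p : ℝ) < 1 := by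
    rw [div_lt_one (by linarith)]
    exact h2
  exact inv_pos.2 (by linarith)

private theorem q12_om {q₁ : ℕ} {β : ℝ} {χ : ℕ → ℝ} (h : Chi q₁ β χ) (n : ℕ) :
    |omf β χ n| ≤ 1 := by
  unfold omf
  rw [abs_mul]
  have h1 := h.abs_le n
  have h2 : |(n : ℝ) ^ (β - 1)| ≤ 1 := by
    rcases Nat.eq_zero_or_pos n with rfl | hn
    · rw [Nat.cast_zero, Real.zero_rpow (by have := h.lt_one; linarith), abs_zero]
      exact zero_le_one
    · have h3 : (1 : ℝ) ≤ n := by exact_mod_cast hn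
      rw [abs_of_nonneg (by positivity)]
      exact Real.rpow_le_one_of_one_le_of_nonpos h3 (by have := h.lt_one; linarith)
  calc |χ n| * |(n : ℝ) ^ (β - 1)| ≤ 1 * 1 :=
        mul_le_mul h1 h2 (abs_nonneg _) zero_le_one
    _ = 1 := one_mul 1

private theorem q12_gg_le {δ Q : ℝ} {N : ℕ} {om : ℕ → ℝ} (hom : ∀ n, |om n| ≤ 1)
    (hlog : 0 < Real.log N) (h : Real.log N + 2 * CQ Q ≤ Real.log N ^ 2) (n : ℤ) :
    |gg δ Q N om n| ≤ 1 := by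
  classical
  unfold gg
  by_cases h1 : 1 ≤ n ∧ δ * N ≤ n ∧ n ≤ N
  · rw [if_pos h1]
    obtain ⟨h1, -, h2⟩ := h1
    obtain ⟨i, hi, hi01⟩ : ∃ i : ℝ, (if rough Q n then (1 : ℝ) else 0) = i ∧ 0 ≤ i ∧ i ≤ 1 := by
      by_cases hr : rough Q n
      · exact ⟨1, if_pos hr, by norm_num⟩
      · exact ⟨0, if_neg hr, by norm_num⟩
    rw [hi, abs_div, abs_of_pos (pow_pos hlog 2), div_le_one (pow_pos hlog 2)]
    refine le_trans ?_ h
    have e0 : 0 ≤ vonMangoldt n.toNat := vonMangoldt_nonneg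
    have e1 : vonMangoldt n.toNat ≤ Real.log N := by
      refine vonMangoldt_le_log.trans ?_
      have h3 : 0 < n.toNat := by omega
      refine Real.log_le_log (by exact_mod_cast h3) ?_
      have h4 : n.toNat ≤ N := by omega
      exact_mod_cast h4
    have e2 := abs_le.1 (hom n.toNat)
    have e3 := q12_CQ_pos Q
    have e4 : |(CQ Q * i * (1 - om n.toNat))| ≤ 2 * CQ Q := by
      rw [abs_mul, abs_mul, abs_of_pos e3, abs_of_nonneg hi01.1]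
      have e5 : |1 - om n.toNat| ≤ 2 := by
        rw [abs_le]
        constructor <;> linarith [e2.1, e2.2]
      calc CQ Q * i * |1 - om n.toNat| ≤ CQ Q * 1 * 2 := by
            refine mul_le_mul ?_ e5 (abs_nonneg _) (by linarith)
            exact mul_le_mul_of_nonneg_left hi01.2 e3.le
        _ = 2 * CQ Q := by ring
    refine (abs_sub _ _).trans ?_
    rw [abs_of_nonneg e0]
    linarith
  · rw [if_neg h1, abs_zero]
    exact zero_le_one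

private theorem q12_split (δ Q : ℝ) (N : ℕ) (om : ℕ → ℝ) (n : ℤ) :
    ((gg δ Q N om n : ℝ) : ℂ) = gL δ N n + gR δ Q N om n := by
  classical
  unfold gg gL gR
  by_cases h1 : 1 ≤ n ∧ δ * N ≤ n ∧ n ≤ N
  · rw [if_pos h1, if_pos h1, if_pos h1, ← Complex.ofReal_add]
    congr 1
    ring
  · rw [if_neg h1, if_neg h1, if_neg h1]
    simp

theorem q_PPg (h1 : S_dec) (h2 : S_vau) (h3 : S_rgh) (h4 : S_tru) (h5 : S_zz1) (h6 : S_avg2)
    (h7 : S_num) : S_PPg := by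
  classical
  intro K s t₁ hs ht
  obtain ⟨N₀, hN₀⟩ := h7 K s t₁ hs ht
  refine ⟨N₀, ?_⟩
  intro N hN q₁ β χ hq₁ hχ hHyp
  have hn := hN₀ N hN
  revert hn
  generalize ⌈Real.log (Real.log N) ^ (s + 2)⌉₊ = k₁
  generalize ⌈Real.log (Real.log N) ^ (2 * s + 5)⌉₊ = k₂
  intro hn
  have hN3 := hn.N3
  have hN3' : (3 : ℝ) ≤ N := by exact_mod_cast hN3
  have hN0 : (0 : ℝ) < N := by linarith
  have hlog1 : 1 ≤ Real.log N := by
    rw [Real.le_log_iff_exp_le hN0]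
    exact le_trans (Real.exp_one_lt_d9.le.trans (by norm_num)) hN3'
  have hl0 : 0 ≤ Real.log (Real.log N) := Real.log_nonneg hlog1
  have hXX1 : ∀ c, 1 ≤ XX c N := fun c => Real.one_le_exp (pow_nonneg hl0 c)
  have hXX0 : ∀ c, 0 < XX c N := fun c => Real.exp_pos _
  have hδ0 : 0 < (XX s N)⁻¹ := inv_pos.2 (hXX0 s)
  have hδ1 : (XX s N)⁻¹ ≤ 1 := inv_le_one_of_one_le₀ (hXX1 s)
  have hδinv : 1 / (XX s N)⁻¹ = XX s N := by rw [one_div, inv_inv]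
  have hq1 := hχ.one_le
  have hq1' : (1 : ℝ) ≤ q₁ := by exact_mod_cast hq1
  set Q : ℝ := XX (s + 1) N with hQ
  have hQ2 : 2 ≤ Q := hn.Q2
  have hCQ : CQ Q ≤ 1000 * Real.log Q := (h4 Q 0 hQ2).2.2.2
  have hCQ' : CQ Q ≤ Real.log N := hCQ.trans hn.cq
  have hom := q12_om hχ
  -- the decompositions
  have hD1 : DecT (XX s N)⁻¹ N q₁ (XX (2 * s + 4) N) Q (4 + 2) (4 + 0) 1
      (0 + 2 * Real.exp (-k₁)) (fun n => (gg (XX s N)⁻¹ Q N (omf β χ) n : ℂ)) := by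
    have hV2 : Q < (XX s N)⁻¹ * N := lt_of_le_of_lt hn.V12 hn.VN
    have hV3 : Q ^ 2 ≤ N := (pow_le_pow_left₀ (by linarith) hn.V12 2).trans hn.VN2
    exact h1.2 _ _ _ _ _ _ _ _ _ _ _ _ _ _ _ _ _ _ _
      (h2 N q₁ (XX s N)⁻¹ Q hN3 hq1 hδ0 hδ1 (by linarith) hV2 hV3)
      (h3 N q₁ k₁ (XX s N)⁻¹ Q Q β χ hN3 hδ0 hδ1 hQ2 hCQ' hn.hk hχ)
      (fun n => q12_split _ _ _ _ n) hn.VX1 hn.QX le_rfl le_rfl
  have hD2 : DecT (XX s N)⁻¹ N q₁ (XX (3 * s + 7) N) (XX (2 * s + 5) N) (4 + 2) (4 + 0) 1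
      (0 + 2 * Real.exp (-k₂)) (fun n => (gg (XX s N)⁻¹ Q N (omf β χ) n : ℂ)) :=
    h1.2 _ _ _ _ _ _ _ _ _ _ _ _ _ _ _ _ _ _ _
      (h2 N q₁ (XX s N)⁻¹ (XX (2 * s + 5) N) hN3 hq1 hδ0 hδ1 (hXX1 _) hn.VN hn.VN2)
      (h3 N q₁ k₂ (XX s N)⁻¹ Q (XX (2 * s + 5) N) β χ hN3 hδ0 hδ1 hQ2 hCQ' hn.hk' hχ)
      (fun n => q12_split _ _ _ _ n) hn.VX2 hn.QX' le_rfl le_rfl
  have h6le := hn.hlog
  have hdK : 0 < (XX s N)⁻¹ ^ K := pow_pos hδ0 K
  set Y : ℝ := XX (3 * s + 8) N with hY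
  have hY0 : 0 < Y := hXX0 _
  have hY1 : 1 ≤ Y := hXX1 _
  -- `N / Y^2 ≤ H / q`
  have hHq : ∀ (q H : ℕ), 1 ≤ q → (q : ℝ) ≤ Y → (N : ℝ) / Y ≤ H → (N : ℝ) / Y ^ 2 ≤ (H : ℝ) / q := by
    intro q H hq hqY hH
    have e1 : (0 : ℝ) < q := by exact_mod_cast hq
    calc (N : ℝ) / Y ^ 2 = (N / Y) / Y := by field_simp
      _ ≤ (H : ℝ) / Y := div_le_div_of_nonneg_right hH hY0.le
      _ ≤ (H : ℝ) / q := div_le_div_of_nonneg_left (Nat.cast_nonneg _) e1 hqY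
  refine ⟨XX (2 * s + 4) N, Q, XX (3 * s + 7) N, XX (2 * s + 5) N, Y, hXX1 _, hXX1 _, ?_, ?_, ?_,
    ?_, hn.c1, hn.c2 q₁ hq₁, hn.c3 q₁ hq₁, hn.c4, hn.c5, ?_⟩
  · intro n
    rw [Complex.norm_real, Real.norm_eq_abs]
    refine q12_gg_le hom (by linarith) ?_ n
    have := hn.cq'
    linarith
  · refine h1.1 _ _ _ _ _ _ _ _ _ _ _ hD1 ?_ ?_ ?_ ?_
    · rw [hδinv]; linarith
    · rw [hδinv]; linarith
    · rw [hδinv]; linarith
    · have := hn.hek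
      linarith
  · refine h1.1 _ _ _ _ _ _ _ _ _ _ _ hD2 ?_ ?_ ?_ ?_
    · rw [hδinv]; linarith
    · rw [hδinv]; linarith
    · rw [hδinv]; linarith
    · have := hn.hek' q₁ hq1 hq₁
      linarith
  · intro q q₂ H a u hq hqY hq₂ hq₂Y hH hga
    have e0 := h5 N q q₂ H (XX s N)⁻¹ Q Y (omf β χ) a u hN3 hδ0 hQ2 hCQ' hom hq hq₂ hq₂Y hga
    have e1 : ∑ x ∈ (Finset.Ioc u (u + H)).filter (fun x => (q : ℤ) ∣ x - a ∧ 1 < Int.gcd x q₂),
        ‖((gg (XX s N)⁻¹ Q N (omf β χ) x : ℝ) : ℂ)‖ =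
        ∑ x ∈ (Finset.Ioc u (u + H)).filter (fun x => (q : ℤ) ∣ x - a ∧ 1 < Int.gcd x q₂),
        |gg (XX s N)⁻¹ Q N (omf β χ) x| :=
      Finset.sum_congr rfl fun x _ => by rw [Complex.norm_real, Real.norm_eq_abs]
    rw [e1]
    refine e0.trans ?_
    have hq0 : (0 : ℝ) < q := by exact_mod_cast hq
    have e2 := hHq q H hq hqY hH
    have e3 : (0 : ℝ) ≤ (H : ℝ) / q := by positivity
    have e4 : 8 * (1 + Real.log Y) * ((H : ℝ) / (q * Q) + 1) =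
        8 * (1 + Real.log Y) / Q * ((H : ℝ) / q) + 8 * (1 + Real.log Y) := by
      have : Q ≠ 0 := by linarith
      field_simp
    rw [e4]
    have e5 : 8 * (1 + Real.log Y) / Q * ((H : ℝ) / q) ≤ (XX s N)⁻¹ ^ K / 2 * ((H : ℝ) / q) :=
      mul_le_mul_of_nonneg_right hn.z1 e3
    have e6 : 8 * (1 + Real.log Y) ≤ (XX s N)⁻¹ ^ K / 2 * ((H : ℝ) / q) :=
      hn.z2.trans (mul_le_mul_of_nonneg_left e2 (by linarith))
    linarith
  · intro q H a u hq hqY hH hu huN hga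
    have hq0 : (0 : ℝ) < q := by exact_mod_cast hq
    have e2 := hHq q H hq hqY hH
    have hHpos : (0 : ℝ) < (H : ℝ) / q := lt_of_lt_of_le (by positivity) e2
    have e0 := h6 N q₁ q H k₁ (XX s N)⁻¹ Q (XX (3 * s + 10) N) (XX (3 * s + 9) N) β χ a u hN3 hδ0
      hQ2 hCQ' hn.hk hχ hHyp hq
      (by
        refine le_trans ?_ hn.c6
        exact mul_le_mul hqY hq₁ (by linarith) hY0.le)
      hn.c7 hu huN hga
    refine lt_of_le_of_lt e0 ?_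
    have hXp : 0 < (N : ℝ) / XX (3 * s + 10) N := div_pos hN0 (hXX0 _)
    have hLY : 0 ≤ 1 + Real.log (XX (3 * s + 9) N) := by
      have := Real.log_nonneg (hXX1 (3 * s + 9))
      linarith
    have e3 : 2 * (q₁ : ℝ) * ((N : ℝ) / XX (3 * s + 10) N) ≤
        (XX s N)⁻¹ ^ K / 4 * ((H : ℝ) / q) := by
      calc 2 * (q₁ : ℝ) * ((N : ℝ) / XX (3 * s + 10) N)
          ≤ 2 * XX t₁ N * ((N : ℝ) / XX (3 * s + 10) N) := by
            refine mul_le_mul_of_nonneg_right ?_ hXp.le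
            linarith
        _ ≤ (XX s N)⁻¹ ^ K / 4 * (N / Y ^ 2) := hn.a1
        _ ≤ (XX s N)⁻¹ ^ K / 4 * ((H : ℝ) / q) := mul_le_mul_of_nonneg_left e2 (by linarith)
    have e4 : 20 * ((H : ℝ) / q) * ((1 + Real.log (XX (3 * s + 9) N)) ^ 2 / Q + Real.exp (-k₁)) ≤
        (XX s N)⁻¹ ^ K / 4 * ((H : ℝ) / q) := by
      calc 20 * ((H : ℝ) / q) * ((1 + Real.log (XX (3 * s + 9) N)) ^ 2 / Q + Real.exp (-k₁))
          = 20 * ((1 + Real.log (XX (3 * s + 9) N)) ^ 2 / Q + Real.exp (-k₁)) * ((H : ℝ) / q) := by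
            ring
        _ ≤ (XX s N)⁻¹ ^ K / 4 * ((H : ℝ) / q) := mul_le_mul_of_nonneg_right hn.a2 hHpos.le
    have e5 : 20 * (q₁ : ℝ) * Q ^ (k₁ + 1) * (1 + Real.log (XX (3 * s + 9) N)) ≤
        (XX s N)⁻¹ ^ K / 4 * ((H : ℝ) / q) := by
      calc 20 * (q₁ : ℝ) * Q ^ (k₁ + 1) * (1 + Real.log (XX (3 * s + 9) N))
          ≤ 20 * XX t₁ N * Q ^ (k₁ + 1) * (1 + Real.log (XX (3 * s + 9) N)) := by
            refine mul_le_mul_of_nonneg_right ?_ hLY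
            refine mul_le_mul_of_nonneg_right ?_ (pow_nonneg (by linarith) _)
            linarith
        _ ≤ (XX s N)⁻¹ ^ K / 4 * (N / Y ^ 2) := hn.a3
        _ ≤ (XX s N)⁻¹ ^ K / 4 * ((H : ℝ) / q) := mul_le_mul_of_nonneg_left e2 (by linarith)
    have e6 : 0 < (XX s N)⁻¹ ^ K * ((H : ℝ) / q) := mul_pos hdK hHpos
    linarith

end Pool.Agent.APP.Q
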