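import Pool.Agent.Lib.MP_8a4e59_co.P.StmQ

set_option autoImplicit false

open Finset ArithmeticFunction

namespace Pool.Agent.APP.Q

theorem q_fin : S_fin := by
  intro hP
  constructor
  · intro K s hs
    obtain ⟨N₀, hN₀⟩ := hP K s 0 hs (by omega)
    refine ⟨3 * s + 10, N₀, by omega, fun N hN hyp => ?_⟩
    have h := hN₀ N hN 1 (3 / 4) (fun _ => 0) (by
        have : XX 0 N = Real.exp 1 := by simp [XX]
        rw [this, Nat.cast_one]
        exact (Real.one_lt_exp_iff.2 one_pos).le)
      ⟨le_rfl, by norm_num, by norm_num, fun n => by simp, fun m n _ => rfl⟩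
      (fun q b y h1 h2 h3 h4 _ => by
        have h5 := hyp q b y h1 h2 h3 h4
        simpa using h5)
    have e : omf (3 / 4) (fun _ => 0) = fun _ => 0 := by
      funext n
      simp [omf]
    rwa [e] at h
  · intro K t₁ s ht
    obtain ⟨N₀, hN₀⟩ := hP K s t₁ (by omega) ht
    refine ⟨3 * s + 10, N₀, by omega, fun N hN q₁ β χ hq hE => ?_⟩
    have habs : ∀ n, |χ n| ≤ 1 := by
      intro n
      rcases hE.vals n with h | h | h <;> rw [h] <;> norm_num
    have hq2 := hE.two_le
    exact hN₀ N hN q₁ β χ hq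
      ⟨by omega, hE.half_lt, hE.lt_one, habs, hE.per⟩
      (fun q b y h3 h4 h5 h6 h7 => hE.main q b y h3 h4 h5 h6 h7)

end Pool.Agent.APP.Q
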