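/-
MP_8a4e59_co, part P2-P5: assembly (helper8).
-/
import Pool.Agent.Lib.MP_8a4e59_co.P.Q01
import Pool.Agent.Lib.MP_8a4e59_co.P.Q02
import Pool.Agent.Lib.MP_8a4e59_co.P.Q03
import Pool.Agent.Lib.MP_8a4e59_co.P.Q04
import Pool.Agent.Lib.MP_8a4e59_co.P.Q05
import Pool.Agent.Lib.MP_8a4e59_co.P.Q06
import Pool.Agent.Lib.MP_8a4e59_co.P.Q06a
import Pool.Agent.Lib.MP_8a4e59_co.P.Q06b
import Pool.Agent.Lib.MP_8a4e59_co.P.Q06c
import Pool.Agent.Lib.MP_8a4e59_co.P.Q07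
import Pool.Agent.Lib.MP_8a4e59_co.P.Q08
import Pool.Agent.Lib.MP_8a4e59_co.P.Q09
import Pool.Agent.Lib.MP_8a4e59_co.P.Q10
import Pool.Agent.Lib.MP_8a4e59_co.P.Q11
import Pool.Agent.Lib.MP_8a4e59_co.P.Q12
import Pool.Agent.Lib.MP_8a4e59_co.P.Q13

set_option autoImplicit false

namespace Pool.Agent.APP.Q

theorem all_PPg : S_PPg := by
  have h1 : S_bon := q_bon
  have h2 : S_tru := q_tru
  have h3 : S_fund := q_fund h1 h2
  have h4 : S_tot := q_tot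
  have h5 : S_dec := q_dec
  have h6a : S_vid := q_vid
  have h6b : S_vI := q_vI h6a h5
  have h6c : S_vII := q_vII h6a h5
  have h6 : S_vau := q_vau h6a h6b h6c h5
  have h7 : S_rgh := q_rgh h1 h2
  have h8 : S_zz1 := q_zz1
  have h9 : S_avg1 := q_avg1 h3 h4
  have h10 : S_avg2 := q_avg2 h9 h8
  have h11 : S_num := q_num
  exact q_PPg h5 h6 h7 h2 h8 h10 h11

/-- (P2)-(P5) -/
theorem all_Pa : Pool.Agent.APP.S_Pa := (q_fin all_PPg).1

/-- (P2)-(P5) -/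
theorem all_Pb : Pool.Agent.APP.S_Pb := (q_fin all_PPg).2

end Pool.Agent.APP.Q
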