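/-
MP_8a4e59_co, part P, piece P11: real characters without exceptional zero.
-/
import Pool.Agent.Lib.MP_8a4e59_co.P.Stm
import Pool.Agent.Lib.MP_0da313_nt.BV.Siegel2

set_option autoImplicit false

open Complex MeasureTheory Filter Topology

namespace Pool.Agent.MP8a4e59.P

open Pool.Agent.BVall

/-- no exceptional zero: `L(σ, χ) ≥ 0` at `σ = 1 - L^(-6)` -/
private theorem p11_nonneg {L : ℝ} (hL : 2 ≤ L) {q : ℕ} [NeZero q] {χ : DirichletCharacter ℂ q}
    (hq : (q : ℝ) ≤ Real.exp L) (hp : χ.IsPrimitive) (h2 : χ ^ 2 = 1) (hne : χ ≠ 1)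
    (hE : ¬ ∃ β : ℝ, Exc L q χ β) :
    0 ≤ (χ.LFunction ((1 - (L ^ 6)⁻¹ : ℝ) : ℂ)).re := by
  by_contra hcon
  push Not at hcon
  have hL6 : (2 : ℝ) ≤ L ^ 6 := by
    have : (2 : ℝ) ^ 6 ≤ L ^ 6 := pow_le_pow_left₀ (by norm_num) hL 6
    linarith
  have hη0 : 0 < (L ^ 6)⁻¹ := by positivity
  have hη1 : (L ^ 6)⁻¹ ≤ 1 / 2 := by
    rw [one_div]
    exact inv_anti₀ (by norm_num) hL6
  have h1 := L1_pos hp hne h2
  have hcont : Continuous fun σ : ℝ => (χ.LFunction (σ : ℂ)).re :=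
    Complex.continuous_re.comp
      ((DirichletCharacter.differentiable_LFunction hne).continuous.comp Complex.continuous_ofReal)
  have hiv := intermediate_value_Icc (show 1 - (L ^ 6)⁻¹ ≤ 1 by linarith)
    (hcont.continuousOn (s := Set.Icc (1 - (L ^ 6)⁻¹) 1))
  have hmem : (0 : ℝ) ∈ Set.Icc ((χ.LFunction ((1 - (L ^ 6)⁻¹ : ℝ) : ℂ)).re)
      ((χ.LFunction ((1 : ℝ) : ℂ)).re) := by
    refine ⟨hcon.le, ?_⟩
    rw [Complex.ofReal_one]
    exact h1.le
  obtain ⟨σ, hσ, hσ0⟩ := hiv hmem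
  simp only at hσ0
  apply hE
  refine ⟨σ, ?_, hq, hp, h2, hne, hσ.1, ?_, ?_⟩
  · have h3 := r_ne_one hne
    have h4 : q ≠ 0 := NeZero.ne q
    omega
  · rcases lt_or_eq_of_le hσ.2 with h | h
    · exact h
    · rw [h, Complex.ofReal_one] at hσ0
      linarith
  · apply Complex.ext
    · rw [hσ0, Complex.zero_re]
    · rw [LFunction_im hne h2 (by linarith [hσ.1] : 0 < σ), Complex.zero_im]

private theorem p11_one {L : ℝ} (hL : 5 ≤ L) {q : ℕ} [NeZero q] {χ : DirichletCharacter ℂ q}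
    (hq : (q : ℝ) ≤ Real.exp L) (hp : χ.IsPrimitive) (h2 : χ ^ 2 = 1) (hne : χ ≠ 1)
    (hE : ¬ ∃ β : ℝ, Exc L q χ β) :
    1 / (4 * L ^ 6) ≤ (χ.LFunction 1).re := by
  have hnn := p11_nonneg (by linarith) hq hp h2 hne hE
  have hpos := L1_pos hp hne h2
  have hL0 : 0 < L := by linarith
  have hL5 : (3125 : ℝ) ≤ L ^ 5 := by
    have : (5 : ℝ) ^ 5 ≤ L ^ 5 := pow_le_pow_left₀ (by norm_num) hL 5
    norm_num at this ⊢
    exact this
  have hL6 : (15625 : ℝ) ≤ L ^ 6 := by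
    have : (5 : ℝ) ^ 6 ≤ L ^ 6 := pow_le_pow_left₀ (by norm_num) hL 6
    norm_num at this ⊢
    exact this
  set η : ℝ := (L ^ 6)⁻¹ with hη
  have hη0 : 0 < η := by positivity
  have hη1 : η ≤ 1 / 15625 := by
    rw [hη, one_div]
    exact inv_anti₀ (by norm_num) hL6
  have hηL : L ^ 6 * η = 1 := mul_inv_cancel₀ (by positivity)
  set β : ℝ := 1 - η with hβ
  have hβη : 1 - β = η := by rw [hβ]; ring
  set y : ℕ := ⌈Real.exp (4 * L)⌉₊ with hy
  have hy1 : 1 ≤ y := Nat.one_le_ceil_iff.mpr (Real.exp_pos _)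
  set Y : ℝ := (y : ℝ) with hY
  have hYlo : Real.exp (4 * L) ≤ Y := Nat.le_ceil _
  have hYhi : Y ≤ Real.exp (5 * L) := by
    have h3 : Y < Real.exp (4 * L) + 1 := Nat.ceil_lt_add_one (Real.exp_pos _).le
    have h4 : Real.exp (5 * L) = Real.exp (4 * L) * Real.exp L := by
      rw [← Real.exp_add]; congr 1; ring
    have h5 := Real.add_one_le_exp L
    have h6 : 1 ≤ Real.exp (4 * L) := Real.one_le_exp (by positivity)
    rw [h4]
    nlinarith
  have hY0 : 0 < Y := lt_of_lt_of_le (Real.exp_pos _) hYlo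
  have hY1 : 1 ≤ Y := by rw [hY]; exact_mod_cast hy1
  set P : ℝ := Y ^ η with hP
  have hP1 : 1 ≤ P := Real.one_le_rpow hY1 hη0.le
  have hP2 : P ≤ 6 / 5 := by
    have h3 : P ≤ Real.exp (5 * L) ^ η := Real.rpow_le_rpow hY0.le hYhi hη0.le
    rw [← Real.exp_mul] at h3
    have h4 : 5 * L * η ≤ 1 / 10 := by
      have h5 : L ^ 5 * (L * η) = 1 := by
        rw [← hηL]; ring
      have h6 : 3125 * (L * η) ≤ L ^ 5 * (L * η) :=
        mul_le_mul_of_nonneg_right hL5 (by positivity)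
      linarith
    have h5 : Real.exp (5 * L * η) ≤ Real.exp (1 / 10) := Real.exp_le_exp.mpr h4
    have h6 := Real.add_one_le_exp (-(1 / 10 : ℝ))
    have h7 : Real.exp (1 / 10) * Real.exp (-(1 / 10)) = 1 := by
      rw [← Real.exp_add]; simp
    have h8 := Real.exp_pos (1 / 10)
    nlinarith
  have hm := main_ineq hne h2 (β := β) (by linarith) (by linarith) hnn (y := y) hy1
  rw [hβη] at hm
  set L1 : ℝ := (χ.LFunction 1).re with hL1
  have e1 : fI β ((y * y : ℕ) : ℝ) = P * P / η := by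
    unfold fI
    rw [hβη]
    congr 1
    push_cast
    rw [Real.mul_rpow (Nat.cast_nonneg _) (Nat.cast_nonneg _)]
  have e2 : fI β (y : ℝ) = P / η := by
    unfold fI
    rw [hβη]
  have e3 : (y : ℝ) ^ (-β) = P * Y⁻¹ := by
    rw [show -β = η + (-1) by rw [hβ]; ring, Real.rpow_add hY0, Real.rpow_neg_one]
  have e4 : (y : ℝ) ^ (1 - 2 * β) = P * P * Y⁻¹ := by
    rw [show 1 - 2 * β = η + η + (-1) by rw [hβ]; ring, Real.rpow_add hY0, Real.rpow_add hY0,
      Real.rpow_neg_one]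
  rw [e1, e2, e3, e4] at hm
  have hηi : η⁻¹ = L ^ 6 := by rw [hη, inv_inv]
  set w : ℝ := (q : ℝ) * Y⁻¹ with hw
  have hq1 : (1 : ℝ) ≤ q := by exact_mod_cast (NeZero.one_le : 1 ≤ q)
  have hYi : 0 < Y⁻¹ := inv_pos.mpr hY0
  have hw0 : 0 < w := by positivity
  have hwY : Y⁻¹ ≤ w := by rw [hw]; nlinarith
  have hwe : w ≤ Real.exp (-(3 * L)) := by
    have h3 : Y⁻¹ ≤ Real.exp (-(4 * L)) := by
      rw [Real.exp_neg]
      exact inv_anti₀ (Real.exp_pos _) hYlo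
    calc w ≤ Real.exp L * Real.exp (-(4 * L)) :=
          mul_le_mul hq h3 hYi.le (Real.exp_pos _).le
      _ = Real.exp (-(3 * L)) := by rw [← Real.exp_add]; congr 1; ring
  have hLw : L ^ 6 * w ≤ 1 / 20 := by
    have h3 := Real.pow_div_factorial_le_exp L hL0.le 6
    have h4 : ((Nat.factorial 6 : ℕ) : ℝ) = 720 := by norm_num [Nat.factorial]
    rw [h4] at h3
    have h5 : (14400 : ℝ) ≤ Real.exp (2 * L) := by
      have h6 : Real.exp 10 ≤ Real.exp (2 * L) := Real.exp_le_exp.mpr (by linarith)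
      have h7 : Real.exp 10 = Real.exp 1 ^ 10 := by rw [← Real.exp_nat_mul]; norm_num
      have h8 : (2.7 : ℝ) ^ 10 ≤ Real.exp 1 ^ 10 :=
        pow_le_pow_left₀ (by norm_num) (by linarith [Real.exp_one_gt_d9]) 10
      have h9 : (14400 : ℝ) ≤ 2.7 ^ 10 := by norm_num
      linarith
    have h6 : Real.exp (3 * L) = Real.exp L * Real.exp (2 * L) := by
      rw [← Real.exp_add]; congr 1; ring
    have h7 : 20 * L ^ 6 ≤ Real.exp (3 * L) := by
      rw [h6]
      have h8 : L ^ 6 / 720 * 14400 ≤ Real.exp L * Real.exp (2 * L) :=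
        mul_le_mul h3 h5 (by norm_num) (Real.exp_pos _).le
      linarith
    have h8 : Real.exp (3 * L) * Real.exp (-(3 * L)) = 1 := by
      rw [← Real.exp_add]; simp
    have h9 : 20 * L ^ 6 * Real.exp (-(3 * L)) ≤ 1 := by
      rw [← h8]
      exact mul_le_mul_of_nonneg_right h7 (Real.exp_pos _).le
    have h10 : L ^ 6 * w ≤ L ^ 6 * Real.exp (-(3 * L)) :=
      mul_le_mul_of_nonneg_left hwe (by positivity)
    linarith
  have hPP : P * P ≤ 2 := by nlinarith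
  have t1 : P * P / η * (L1 + w) ≤ 2 * L ^ 6 * (L1 + w) := by
    rw [div_eq_mul_inv, hηi]
    apply mul_le_mul_of_nonneg_right _ (by linarith)
    exact mul_le_mul_of_nonneg_right hPP (by positivity)
  have t2 : 1 / η * (q * (P * Y⁻¹)) ≤ 2 * (L ^ 6 * w) := by
    rw [one_div, hηi]
    have : (q : ℝ) * (P * Y⁻¹) = P * w := by rw [hw]; ring
    rw [this]
    have h3 : P * (L ^ 6 * w) ≤ 2 * (L ^ 6 * w) :=
      mul_le_mul_of_nonneg_right (by linarith) (by positivity)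
    linarith
  have t3 : 2 * (P * P * Y⁻¹) ≤ 4 * w := by
    have h3 : P * P * Y⁻¹ ≤ 2 * Y⁻¹ := mul_le_mul_of_nonneg_right hPP hYi.le
    linarith
  have t4 : P / η * (q * (P * Y⁻¹)) ≤ 2 * (L ^ 6 * w) := by
    rw [div_eq_mul_inv, hηi]
    have : P * L ^ 6 * (q * (P * Y⁻¹)) = P * P * (L ^ 6 * w) := by rw [hw]; ring
    rw [this]
    exact mul_le_mul_of_nonneg_right hPP (by positivity)
  have hw1 : w ≤ L ^ 6 * w := by nlinarith
  have hfin : 1 ≤ 2 * L ^ 6 * L1 + 10 * (L ^ 6 * w) := by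
    have e5 : 2 * L ^ 6 * (L1 + w) = 2 * L ^ 6 * L1 + 2 * (L ^ 6 * w) := by ring
    linarith
  rw [div_le_iff₀ (by positivity)]
  linarith

theorem p_real (hD : S_dup) (hT : S_realt) : S_real := by
  obtain ⟨C, hC1, hDup, -⟩ := hD
  have hC0 : 0 < C := by linarith
  obtain ⟨L1, hL1⟩ := hT (1 / (64 * C)) (by positivity)
  refine ⟨max L1 (64 * C), ?_⟩
  intro L hL q _ χ hq hp h2 hne hE s hs
  have hLL1 : L1 ≤ L := (le_max_left _ _).trans hL
  have hLC : 64 * C ≤ L := (le_max_right _ _).trans hL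
  have hL5 : 5 ≤ L := by linarith
  have hLone : 1 ≤ L := by linarith
  have hL0 : 0 < L := by linarith
  set c : ℝ := 1 / (64 * C) with hc
  have hc0 : 0 < c := by positivity
  have hcC : c * C = 1 / 64 := by rw [hc]; field_simp
  have hcL : 1 ≤ c * L := by
    have : c * (64 * C) = 1 := by linarith
    nlinarith
  by_cases him : c * (L ^ 8)⁻¹ ≤ |s.im|
  · obtain ⟨h3, h4⟩ := hL1 L hLL1 q χ hq h2 hne s hs him
    refine ⟨h3, h4.trans ?_⟩
    exact pow_le_pow_right₀ hLone (by norm_num)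
  push Not at him
  have hL8 : 0 < (L ^ 8)⁻¹ := by positivity
  set ρ : ℝ := 2 * (c * (L ^ 8)⁻¹) with hρ
  have hρ0 : 0 < ρ := by positivity
  -- smallness of the radius
  have hρ1 : ρ ≤ (2 * (2 * L))⁻¹ := by
    have h3 : c ≤ 1 / 64 := by nlinarith
    have h4 : (L ^ 8)⁻¹ ≤ L⁻¹ := by
      apply inv_anti₀ hL0
      calc L = L ^ 1 := (pow_one L).symm
        _ ≤ L ^ 8 := pow_le_pow_right₀ hLone (by norm_num)
    have h5 : c * (L ^ 8)⁻¹ ≤ 1 / 64 * L⁻¹ := mul_le_mul h3 h4 hL8.le (by norm_num)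
    have h6 : (2 * (2 * L))⁻¹ = 1 / 4 * L⁻¹ := by
      rw [← mul_assoc, mul_inv]; norm_num
    rw [h6, hρ]
    have : 0 < L⁻¹ := by positivity
    linarith
  have hρ2 : ρ ≤ 1 := by
    refine hρ1.trans ?_
    apply inv_le_one_of_one_le₀
    linarith
  have h41 : (L ^ 41)⁻¹ ≤ c * (L ^ 8)⁻¹ := by
    have h3 : L ^ 41 = L ^ 32 * (L * L ^ 8) := by ring
    have h4 : (1 : ℝ) ≤ L ^ 32 := one_le_pow₀ hLone
    rw [inv_eq_one_div, div_le_iff₀ (by positivity), h3]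
    have h5 : c * (L ^ 8)⁻¹ * (L ^ 32 * (L * L ^ 8)) = (c * L) * L ^ 32 := by
      field_simp
    rw [h5]
    nlinarith
  have hs1 : ‖s - 1‖ ≤ ρ := by
    have h3 := Complex.norm_le_abs_re_add_abs_im (s - 1)
    have h4 : |(s - 1).re| ≤ (L ^ 41)⁻¹ := by simpa using hs.1
    have h5 : |(s - 1).im| = |s.im| := by simp
    rw [h5] at h3
    rw [hρ]
    linarith
  have hdiff := DirichletCharacter.differentiable_LFunction hne
  have hbd : ∀ z ∈ Metric.closedBall (1 : ℂ) ρ, ‖deriv χ.LFunction z‖ ≤ C * (2 * L) ^ 2 := by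
    intro z hz
    rw [Metric.mem_closedBall, dist_eq_norm] at hz
    have h3 : |(z - 1).re| ≤ ρ := (Complex.abs_re_le_norm _).trans hz
    have h4 : |(z - 1).im| ≤ ρ := (Complex.abs_im_le_norm _).trans hz
    have h5 : (z - 1).re = z.re - 1 := by simp
    have h6 : (z - 1).im = z.im := by simp
    rw [h5, abs_le] at h3
    rw [h6] at h4
    apply hDup q χ (2 * L) z hne (by linarith) (by linarith) (by linarith)
    have h7 : |z.im| + 4 ≤ Real.exp L := by
      have := Real.add_one_le_exp L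
      linarith
    calc (q : ℝ) * (|z.im| + 4) ≤ Real.exp L * Real.exp L :=
          mul_le_mul hq h7 (by positivity) (Real.exp_pos _).le
      _ = Real.exp (2 * L) := by rw [← Real.exp_add]; congr 1; ring
  have hmv : ‖χ.LFunction s - χ.LFunction 1‖ ≤ C * (2 * L) ^ 2 * ‖s - 1‖ :=
    Convex.norm_image_sub_le_of_norm_deriv_le (fun z _ => hdiff z) hbd
      (convex_closedBall _ _) (Metric.mem_closedBall_self hρ0.le)
      (by rw [Metric.mem_closedBall, dist_eq_norm]; exact hs1)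
  have hone := p11_one hL5 hq hp h2 hne hE
  have hone' : 1 / (4 * L ^ 6) ≤ ‖χ.LFunction 1‖ := hone.trans (Complex.re_le_norm _)
  have hmv2 : C * (2 * L) ^ 2 * ‖s - 1‖ ≤ 1 / (8 * L ^ 6) := by
    have h3 : C * (2 * L) ^ 2 * ‖s - 1‖ ≤ C * (2 * L) ^ 2 * ρ :=
      mul_le_mul_of_nonneg_left hs1 (by positivity)
    refine h3.trans (le_of_eq ?_)
    rw [hρ]
    have h4 : C * (2 * L) ^ 2 * (2 * (c * (L ^ 8)⁻¹)) = 8 * (c * C) * (L ^ 2 * (L ^ 8)⁻¹) := by
      ring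
    rw [h4, hcC]
    field_simp
    norm_num
  have hlow : 1 / (8 * L ^ 6) ≤ ‖χ.LFunction s‖ := by
    have h3 : ‖χ.LFunction 1‖ ≤ ‖χ.LFunction s‖ + ‖χ.LFunction s - χ.LFunction 1‖ := by
      have := norm_sub_norm_le (χ.LFunction 1) (χ.LFunction s)
      rw [norm_sub_rev] at this
      linarith
    have h4 : 1 / (4 * L ^ 6) = 1 / (8 * L ^ 6) + 1 / (8 * L ^ 6) := by
      field_simp
      norm_num
    linarith
  have hlow0 : 0 < 1 / (8 * L ^ 6) := by positivity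
  have hLs : 0 < ‖χ.LFunction s‖ := lt_of_lt_of_le hlow0 hlow
  refine ⟨norm_pos_iff.mp hLs, ?_⟩
  rw [norm_div, div_le_iff₀ hLs]
  have h3 := hbd s (by rw [Metric.mem_closedBall, dist_eq_norm]; exact hs1)
  have h4 : L ^ 36 * (1 / (8 * L ^ 6)) ≤ L ^ 36 * ‖χ.LFunction s‖ :=
    mul_le_mul_of_nonneg_left hlow (by positivity)
  have h5 : L ^ 36 * (1 / (8 * L ^ 6)) = L ^ 27 * (L / 8) * L ^ 2 := by
    field_simp
  have h6 : C * (2 * L) ^ 2 = (4 * C) * L ^ 2 := by ring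
  have h7 : 4 * C ≤ L ^ 27 * (L / 8) := by
    have h8 : (1 : ℝ) ≤ L ^ 27 := one_le_pow₀ hLone
    have h9 : 1 * (L / 8) ≤ L ^ 27 * (L / 8) := mul_le_mul_of_nonneg_right h8 (by positivity)
    linarith
  have h8 : 4 * C * L ^ 2 ≤ L ^ 27 * (L / 8) * L ^ 2 :=
    mul_le_mul_of_nonneg_right h7 (by positivity)
  linarith

end Pool.Agent.MP8a4e59.P
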