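import Pool.Agent.Lib.MP_8a4e59_co.P.Stm3

set_option autoImplicit false

/-!
MP_8a4e59_co, piece [8a P23]: sums of powers (helper99).
-/

namespace Pool.Agent.MP8a4e59.P

private lemma p23_up {β x : ℝ} (hβ0 : 0 < β) (hβ1 : β < 1) (hx : 1 ≤ x) :
    β * x ^ (β - 1) ≤ x ^ β - (x - 1) ^ β := by
  have hx0 : 0 < x := by linarith
  have h1 := rpow_one_add_le_one_add_mul_self (s := -(1 / x))
    (by have : 1 / x ≤ 1 := by rw [div_le_one hx0]; exact hx
        linarith) hβ0.le hβ1.le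
  have h2 : (x - 1) ^ β = x ^ β * (1 + -(1 / x)) ^ β := by
    rw [← Real.mul_rpow hx0.le (by have : 1 / x ≤ 1 := by rw [div_le_one hx0]; exact hx
                                   linarith)]
    congr 1
    field_simp
    ring
  have h3 : x ^ (β - 1) = x ^ β / x := Real.rpow_sub_one hx0.ne' β
  have h4 : 0 < x ^ β := Real.rpow_pos_of_pos hx0 β
  rw [h2, h3]
  have h5 : x ^ β * (1 + -(1 / x)) ^ β ≤ x ^ β * (1 + β * -(1 / x)) :=
    mul_le_mul_of_nonneg_left h1 h4.le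
  have h6 : x ^ β * (1 + β * -(1 / x)) = x ^ β - β * (x ^ β / x) := by ring
  linarith

private lemma p23_lo {β x : ℝ} (hβ0 : 0 < β) (hβ1 : β < 1) (hx : 0 < x) :
    (x + 1) ^ β - x ^ β ≤ β * x ^ (β - 1) := by
  have hxi : 0 < 1 / x := by positivity
  have h1 := rpow_one_add_le_one_add_mul_self (s := 1 / x) (by linarith) hβ0.le hβ1.le
  have h2 : (x + 1) ^ β = x ^ β * (1 + 1 / x) ^ β := by
    rw [← Real.mul_rpow hx.le (by linarith)]
    congr 1
    field_simp
  have h3 : x ^ (β - 1) = x ^ β / x := Real.rpow_sub_one hx.ne' β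
  have h4 : 0 < x ^ β := Real.rpow_pos_of_pos hx β
  rw [h2, h3]
  have h5 : x ^ β * (1 + 1 / x) ^ β ≤ x ^ β * (1 + β * (1 / x)) :=
    mul_le_mul_of_nonneg_left h1 h4.le
  have h6 : x ^ β * (1 + β * (1 / x)) = x ^ β + β * (x ^ β / x) := by ring
  linarith

/-- [8a P23] Power sum. -/
theorem p_pow : S_pow := by
  intro β y hβ hβ1
  have hβ0 : 0 < β := by linarith
  have key : ((y : ℝ) + 1) ^ β - 1 ≤ β * ∑ n ∈ Finset.Ioc 0 y, (n : ℝ) ^ (β - 1) ∧
      β * ∑ n ∈ Finset.Ioc 0 y, (n : ℝ) ^ (β - 1) ≤ (y : ℝ) ^ β := by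
    induction y with
    | zero =>
      simp only [Finset.Ioc_self, Finset.sum_empty, mul_zero, Nat.cast_zero, zero_add,
        Real.one_rpow, sub_self, le_refl, true_and]
      exact (Real.zero_rpow hβ0.ne').symm.le
    | succ y ih =>
      obtain ⟨h1, h2⟩ := ih
      have hy0 : (0 : ℝ) ≤ y := Nat.cast_nonneg y
      rw [← Finset.insert_Ioc_right_eq_Ioc_add_one (Nat.zero_le y), Finset.sum_insert (by simp),
        mul_add]
      push_cast
      have a1 := p23_up hβ0 hβ1 (x := (y : ℝ) + 1) (by linarith)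
      have a2 := p23_lo hβ0 hβ1 (x := (y : ℝ) + 1) (by linarith)
      rw [add_sub_cancel_right] at a1
      constructor <;> linarith
  obtain ⟨h1, h2⟩ := key
  have hmono : (y : ℝ) ^ β ≤ ((y : ℝ) + 1) ^ β :=
    Real.rpow_le_rpow (Nat.cast_nonneg y) (by linarith) hβ0.le
  rw [abs_le]
  constructor
  · have h3 : ((y : ℝ) ^ β - 1) / β ≤ ∑ n ∈ Finset.Ioc 0 y, (n : ℝ) ^ (β - 1) := by
      rw [div_le_iff₀ hβ0]
      linarith
    have h4 : 1 / β ≤ 2 := by
      rw [div_le_iff₀ hβ0]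
      linarith
    rw [sub_div] at h3
    linarith
  · have h3 : ∑ n ∈ Finset.Ioc 0 y, (n : ℝ) ^ (β - 1) ≤ (y : ℝ) ^ β / β := by
      rw [le_div_iff₀ hβ0]
      linarith
    linarith

end Pool.Agent.MP8a4e59.P
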