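/-
MP_8a4e59_co, piece Q07 (helper81): the rough part.
-/
import Pool.Agent.Lib.MP_8a4e59_co.P.StmQ

set_option autoImplicit false

open Finset ArithmeticFunction

namespace Pool.Agent.APP.Q

private lemma q07_mem_prQ {Q : ℝ} (hQ : 0 ≤ Q) {q : ℕ} : q ∈ prQ Q ↔ q.Prime ∧ (q : ℝ) ≤ Q := by
  unfold prQ
  rw [Finset.mem_filter, Finset.mem_Icc, Nat.le_floor_iff hQ]
  constructor
  · rintro ⟨⟨_, h2⟩, h3⟩
    exact ⟨h3, h2⟩
  · rintro ⟨h3, h2⟩
    exact ⟨⟨h3.one_lt.le, h2⟩, h3⟩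

private lemma q07_count (N d : ℕ) (hd : 1 ≤ d) :
    (((Finset.Icc (1 : ℤ) N).filter (fun n => (d : ℤ) ∣ n)).card : ℝ) ≤ N / d := by
  have h1 : (Finset.Icc (1 : ℤ) N).filter (fun n => (d : ℤ) ∣ n) ⊆
      (Finset.Icc 1 (N / d)).image (fun j : ℕ => (d : ℤ) * j) := by
    intro n hn
    rw [Finset.mem_filter, Finset.mem_Icc] at hn
    obtain ⟨⟨h1, h2⟩, c, rfl⟩ := hn
    have hd' : (1 : ℤ) ≤ d := by exact_mod_cast hd
    have hc : 0 < c := by
      by_contra h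
      push Not at h
      nlinarith
    lift c to ℕ using hc.le
    rw [Finset.mem_image]
    refine ⟨c, ?_, rfl⟩
    rw [Finset.mem_Icc]
    refine ⟨by exact_mod_cast hc, ?_⟩
    rw [Nat.le_div_iff_mul_le hd]
    have h3 : ((d * c : ℕ) : ℤ) ≤ N := by push_cast; exact h2
    rw [mul_comm]
    exact_mod_cast h3
  calc (((Finset.Icc (1 : ℤ) N).filter (fun n => (d : ℤ) ∣ n)).card : ℝ)
      ≤ (((Finset.Icc 1 (N / d)).image (fun j : ℕ => (d : ℤ) * j)).card : ℝ) := by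
        exact_mod_cast Finset.card_le_card h1
    _ ≤ ((Finset.Icc 1 (N / d)).card : ℝ) := by exact_mod_cast Finset.card_image_le
    _ = ((N / d : ℕ) : ℝ) := by simp
    _ ≤ N / d := Nat.cast_div_le

private lemma q07_prod_pos {Q : ℝ} (hQ : 0 ≤ Q) {S : Finset ℕ} (hS : S ⊆ prQ Q) :
    1 ≤ ∏ p ∈ S, p := by
  refine Nat.one_le_iff_ne_zero.2 (Finset.prod_ne_zero_iff.2 fun p hp => ?_)
  exact ((q07_mem_prQ hQ).1 (hS hp)).1.ne_zero

private lemma q07_dvd {Q : ℝ} (hQ : 0 ≤ Q) {S : Finset ℕ} (hS : S ⊆ prQ Q) (n : ℤ) :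
    (∏ p ∈ S, (if (p : ℤ) ∣ n then (1 : ℝ) else 0)) =
      if ((∏ p ∈ S, p : ℕ) : ℤ) ∣ n then 1 else 0 := by
  rw [Finset.prod_ite_zero, Finset.prod_const_one]
  congr 1
  apply propext
  constructor
  · intro h
    push_cast
    refine Finset.prod_dvd_of_coprime ?_ h
    intro a ha b hb hab
    have h1 := ((q07_mem_prQ hQ).1 (hS ha)).1
    have h2 := ((q07_mem_prQ hQ).1 (hS hb)).1
    exact (Nat.isCoprime_iff_coprime).2 ((Nat.coprime_primes h1 h2).2 hab)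
  · intro h p hp
    refine dvd_trans ?_ h
    exact_mod_cast Finset.dvd_prod_of_mem (fun p : ℕ => p) hp

open Classical in
private lemma q07_rough {Q : ℝ} (hQ : 0 ≤ Q) (n : ℤ) :
    (∏ p ∈ prQ Q, (1 - (if (p : ℤ) ∣ n then (1 : ℝ) else 0))) = if rough Q n then 1 else 0 := by
  have h1 : ∀ p ∈ prQ Q, (1 - (if (p : ℤ) ∣ n then (1 : ℝ) else 0)) =
      if ¬ (p : ℤ) ∣ n then 1 else 0 := by
    intro p _
    by_cases h : (p : ℤ) ∣ n
    · rw [if_pos h, if_neg (not_not.2 h)]; norm_num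
    · rw [if_neg h, if_pos h]; norm_num
  rw [Finset.prod_congr rfl h1, Finset.prod_ite_zero, Finset.prod_const_one]
  congr 1
  apply propext
  constructor
  · intro h p hp hpQ
    exact h p ((q07_mem_prQ hQ).2 ⟨hp, hpQ⟩)
  · intro h p hp
    obtain ⟨h2, h3⟩ := (q07_mem_prQ hQ).1 hp
    exact h p h2 h3

private noncomputable def q07r (δ : ℝ) (N : ℕ) (om : ℕ → ℝ) (S : Finset ℕ) (x : ℤ) : ℝ :=
  open Classical in
  if (1 ≤ x ∧ δ * N ≤ x ∧ x ≤ N) ∧ ((∏ p ∈ S, p : ℕ) : ℤ) ∣ x then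
    -((-1) ^ S.card * ((1 - om x.toNat) / 2)) else 0

private lemma q07_om {q₁ : ℕ} {β : ℝ} {χ : ℕ → ℝ} (hχ : Chi q₁ β χ) (n : ℕ) :
    |omf β χ n| ≤ 1 := by
  unfold omf
  rw [abs_mul]
  have h1 := hχ.abs_le n
  have h2 : |(n : ℝ) ^ (β - 1)| ≤ 1 := by
    rcases Nat.eq_zero_or_pos n with h | h
    · subst h
      rw [Nat.cast_zero, Real.zero_rpow (by linarith [hχ.lt_one] : β - 1 ≠ 0)]
      simp
    · have hn : (1 : ℝ) ≤ n := by exact_mod_cast h
      rw [abs_of_nonneg (Real.rpow_nonneg (by linarith) _)]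
      exact Real.rpow_le_one_of_one_le_of_nonpos hn (by linarith [hχ.lt_one])
  calc |χ n| * |(n : ℝ) ^ (β - 1)| ≤ 1 * 1 :=
        mul_le_mul h1 h2 (abs_nonneg _) (by norm_num)
    _ = 1 := one_mul 1

private lemma q07_pow_aux {γ a b : ℝ} (hγ : -1 ≤ γ) (hγ0 : γ ≤ 0) (ha : 1 ≤ a) (hab : a ≤ b) :
    |a ^ γ - b ^ γ| ≤ (b - a) / a := by
  have ha0 : 0 < a := by linarith
  have hb0 : 0 < b := by linarith
  have h1 : b ^ γ ≤ a ^ γ := Real.rpow_le_rpow_of_nonpos ha0 hab hγ0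
  rw [abs_of_nonneg (by linarith)]
  have h2 : b ^ γ = a ^ γ * (b / a) ^ γ := by
    rw [← Real.mul_rpow ha0.le (by positivity)]
    congr 1
    field_simp
  have hr : 1 ≤ b / a := by rw [le_div_iff₀ ha0]; linarith
  have h3 : (b / a) ^ (-1 : ℝ) ≤ (b / a) ^ γ := Real.rpow_le_rpow_of_exponent_le hr hγ
  rw [Real.rpow_neg_one, inv_div] at h3
  have h4 : a ^ γ ≤ 1 := Real.rpow_le_one_of_one_le_of_nonpos ha hγ0
  have h5 : 0 ≤ a ^ γ := Real.rpow_nonneg ha0.le _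
  have h6 : (b / a) ^ γ ≤ 1 := Real.rpow_le_one_of_one_le_of_nonpos hr hγ0
  rw [h2]
  calc a ^ γ - a ^ γ * (b / a) ^ γ = a ^ γ * (1 - (b / a) ^ γ) := by ring
    _ ≤ 1 * (1 - (b / a) ^ γ) := mul_le_mul_of_nonneg_right h4 (by linarith)
    _ ≤ 1 - a / b := by linarith
    _ = (b - a) / b := by field_simp
    _ ≤ (b - a) / a := by
      apply div_le_div_of_nonneg_left (by linarith) ha0 hab

private lemma q07_pow {γ a b c : ℝ} (hγ : -1 ≤ γ) (hγ0 : γ ≤ 0) (ha : 1 ≤ a) (hb : 1 ≤ b)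
    (hc : 0 < c) (hca : c ≤ a) (hcb : c ≤ b) : |a ^ γ - b ^ γ| ≤ |a - b| / c := by
  rcases le_total a b with h | h
  · have h1 := q07_pow_aux hγ hγ0 ha h
    refine h1.trans ?_
    rw [abs_sub_comm, abs_of_nonneg (by linarith : 0 ≤ b - a)]
    exact div_le_div_of_nonneg_left (by linarith) hc hca
  · have h1 := q07_pow_aux hγ hγ0 hb h
    rw [abs_sub_comm]
    refine h1.trans ?_
    rw [abs_of_nonneg (by linarith : 0 ≤ a - b)]
    exact div_le_div_of_nonneg_left (by linarith) hc hcb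

private lemma q07_typeI {N q₁ : ℕ} {δ β : ℝ} {χ : ℕ → ℝ} (hN : 3 ≤ N) (hδ : 0 < δ)
    (hχ : Chi q₁ β χ) (S : Finset ℕ) :
    TypeI δ N q₁ (∏ p ∈ S, p) (fun x => ((q07r δ N (omf β χ) S x : ℝ) : ℂ)) := by
  have hN0 : (0 : ℝ) < N := by exact_mod_cast (by omega : 0 < N)
  have hδN : 0 < δ * N := mul_pos hδ hN0
  refine ⟨?_, ?_, ?_⟩
  · intro x
    rw [Complex.norm_real, Real.norm_eq_abs]
    unfold q07r
    split_ifs with h
    · rw [abs_neg, abs_mul, abs_pow, abs_neg, abs_one, one_pow, one_mul, abs_div]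
      have h1 := abs_le.1 (q07_om hχ x.toNat)
      rw [abs_of_nonneg (by linarith : 0 ≤ 1 - omf β χ x.toNat),
        abs_of_pos (by norm_num : (0 : ℝ) < 2)]
      linarith
    · simp
  · intro x hx
    have hx' : q07r δ N (omf β χ) S x ≠ 0 := fun h => hx (by
      simp only [h, Complex.ofReal_zero])
    unfold q07r at hx'
    split_ifs at hx' with h
    · exact ⟨h.1.2.1, h.1.2.2, h.2⟩
    · exact absurd rfl hx'
  · intro x y hx1 hx2 hy1 hy2 hmx hxy
    have hx0 : 1 ≤ x := by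
      have : (0 : ℝ) < x := lt_of_lt_of_le hδN hx1
      have : 0 < x := by exact_mod_cast this
      omega
    have hy0 : 1 ≤ y := by
      have : (0 : ℝ) < y := lt_of_lt_of_le hδN hy1
      have : 0 < y := by exact_mod_cast this
      omega
    have hm : ((∏ p ∈ S, p : ℕ) : ℤ) ∣ x - y :=
      dvd_trans (by rw [Nat.cast_mul]; exact dvd_mul_right _ _) hxy
    have hmy : ((∏ p ∈ S, p : ℕ) : ℤ) ∣ y := (dvd_sub_right hmx).1 hm
    have hq : (q₁ : ℤ) ∣ x - y :=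
      dvd_trans (by rw [Nat.cast_mul]; exact dvd_mul_left _ _) hxy
    have e1 : q07r δ N (omf β χ) S x = -((-1) ^ S.card * ((1 - omf β χ x.toNat) / 2)) := by
      unfold q07r
      rw [if_pos ⟨⟨hx0, hx1, hx2⟩, hmx⟩]
    have e2 : q07r δ N (omf β χ) S y = -((-1) ^ S.card * ((1 - omf β χ y.toNat) / 2)) := by
      unfold q07r
      rw [if_pos ⟨⟨hy0, hy1, hy2⟩, hmy⟩]
    have hper : χ x.toNat = χ y.toNat := by
      apply hχ.per
      rw [← Int.natCast_modEq_iff, Int.toNat_of_nonneg (by omega), Int.toNat_of_nonneg (by omega)]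
      exact (Int.modEq_iff_dvd.2 (by rw [← neg_sub]; exact hq.neg_right)).symm.symm
    change ‖((q07r δ N (omf β χ) S x : ℝ) : ℂ) - ((q07r δ N (omf β χ) S y : ℝ) : ℂ)‖ ≤ _
    rw [← Complex.ofReal_sub, Complex.norm_real, Real.norm_eq_abs, e1, e2]
    have e3 : -((-1) ^ S.card * ((1 - omf β χ x.toNat) / 2)) -
        -((-1) ^ S.card * ((1 - omf β χ y.toNat) / 2)) =
        (-1 : ℝ) ^ S.card * (χ y.toNat * (((x.toNat : ℕ) : ℝ) ^ (β - 1) -
          ((y.toNat : ℕ) : ℝ) ^ (β - 1)) / 2) := by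
      unfold omf
      rw [hper]; ring
    rw [e3, abs_mul, abs_pow, abs_neg, abs_one, one_pow, one_mul, abs_div, abs_mul,
      abs_of_pos (by norm_num : (0 : ℝ) < 2)]
    have hxn : ((x.toNat : ℕ) : ℝ) = x := by
      have : ((x.toNat : ℕ) : ℤ) = x := Int.toNat_of_nonneg (by omega)
      exact_mod_cast congrArg (fun t : ℤ => (t : ℝ)) this
    have hyn : ((y.toNat : ℕ) : ℝ) = y := by
      have : ((y.toNat : ℕ) : ℤ) = y := Int.toNat_of_nonneg (by omega)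
      exact_mod_cast congrArg (fun t : ℤ => (t : ℝ)) this
    rw [hxn, hyn]
    have h7 := q07_pow (γ := β - 1) (a := x) (b := y) (c := δ * N)
      (by linarith [hχ.half_lt]) (by linarith [hχ.lt_one]) (by exact_mod_cast hx0)
      (by exact_mod_cast hy0) hδN hx1 hy1
    have h8 := hχ.abs_le y.toNat
    have h9 : 0 ≤ |(x : ℝ) ^ (β - 1) - (y : ℝ) ^ (β - 1)| := abs_nonneg _
    have h10 : 0 ≤ |(x : ℝ) - y| / (δ * N) := by positivity
    have h11 : |χ y.toNat| * |(x : ℝ) ^ (β - 1) - (y : ℝ) ^ (β - 1)| ≤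
        1 * (|(x : ℝ) - y| / (δ * N)) := mul_le_mul h8 h7 h9 (by norm_num)
    linarith

open Classical in
private noncomputable def q07g (δ Q : ℝ) (N : ℕ) (om : ℕ → ℝ) (n : ℤ) : ℝ :=
  if 1 ≤ n ∧ δ * N ≤ n ∧ n ≤ N then
    -(CQ Q * (if rough Q n then 1 else 0) * (1 - om n.toNat)) / (Real.log N) ^ 2 else 0

private lemma q07_gR (δ Q : ℝ) (N : ℕ) (om : ℕ → ℝ) (n : ℤ) :
    gR δ Q N om n = ((q07g δ Q N om n : ℝ) : ℂ) := by
  classical
  unfold gR q07g
  split_ifs with h1 h2 <;> simp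

private lemma q07_err (h1 : S_bon) {N k : ℕ} {δ Q : ℝ} {om : ℕ → ℝ} (hQ : 2 ≤ Q)
    (hom : ∀ n, |om n| ≤ 1) (hCQ : 0 ≤ CQ Q) (n : ℤ) :
    |q07g δ Q N om n - ∑ S ∈ (prQ Q).powerset.filter (fun S : Finset ℕ => S.card ≤ k),
      2 * CQ Q / (Real.log N) ^ 2 * q07r δ N om S n| ≤
      2 * CQ Q / (Real.log N) ^ 2 * ∑ S ∈ (prQ Q).powersetCard (k + 1),
        (if ((∏ p ∈ S, p : ℕ) : ℤ) ∣ n then (1 : ℝ) else 0) := by
  classical
  have hQ0 : 0 ≤ Q := by linarith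
  have hlam : 0 ≤ 2 * CQ Q / (Real.log N) ^ 2 := by positivity
  have hrhs : 0 ≤ ∑ S ∈ (prQ Q).powersetCard (k + 1),
        (if ((∏ p ∈ S, p : ℕ) : ℤ) ∣ n then (1 : ℝ) else 0) :=
    Finset.sum_nonneg fun S _ => by split_ifs <;> norm_num
  by_cases hc : 1 ≤ n ∧ δ * N ≤ n ∧ n ≤ N
  · have hb := h1 (prQ Q) (fun p => if (p : ℤ) ∣ n then (1 : ℝ) else 0) k
      (fun p _ => by
        show 0 ≤ (if (p : ℤ) ∣ n then (1 : ℝ) else 0) ∧ (if (p : ℤ) ∣ n then (1 : ℝ) else 0) ≤ 1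
        split_ifs <;> norm_num)
    rw [q07_rough hQ0] at hb
    have hs1 : ∑ S ∈ (prQ Q).powerset.filter (fun S : Finset ℕ => S.card ≤ k),
        (-1 : ℝ) ^ S.card * ∏ p ∈ S, (if (p : ℤ) ∣ n then (1 : ℝ) else 0) =
        ∑ S ∈ (prQ Q).powerset.filter (fun S : Finset ℕ => S.card ≤ k),
        (-1 : ℝ) ^ S.card * (if ((∏ p ∈ S, p : ℕ) : ℤ) ∣ n then (1 : ℝ) else 0) := by
      refine Finset.sum_congr rfl fun S hS => ?_
      rw [q07_dvd hQ0 (Finset.mem_powerset.1 (Finset.mem_filter.1 hS).1)]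
    have hs2 : ∑ S ∈ (prQ Q).powersetCard (k + 1),
        ∏ p ∈ S, (if (p : ℤ) ∣ n then (1 : ℝ) else 0) =
        ∑ S ∈ (prQ Q).powersetCard (k + 1),
        (if ((∏ p ∈ S, p : ℕ) : ℤ) ∣ n then (1 : ℝ) else 0) := by
      refine Finset.sum_congr rfl fun S hS => ?_
      rw [q07_dvd hQ0 (Finset.mem_powersetCard.1 hS).1]
    rw [hs1, hs2] at hb
    have e1 : q07g δ Q N om n - ∑ S ∈ (prQ Q).powerset.filter (fun S : Finset ℕ => S.card ≤ k),
        2 * CQ Q / (Real.log N) ^ 2 * q07r δ N om S n =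
        -(CQ Q * (1 - om n.toNat) / (Real.log N) ^ 2) *
        ((if rough Q n then (1 : ℝ) else 0) -
          ∑ S ∈ (prQ Q).powerset.filter (fun S : Finset ℕ => S.card ≤ k),
          (-1 : ℝ) ^ S.card * (if ((∏ p ∈ S, p : ℕ) : ℤ) ∣ n then (1 : ℝ) else 0)) := by
      unfold q07g q07r
      rw [if_pos hc]
      conv_rhs => rw [mul_sub, Finset.mul_sum]
      congr 1
      · ring
      · refine Finset.sum_congr rfl fun S _ => ?_
        by_cases hd : ((∏ p ∈ S, p : ℕ) : ℤ) ∣ n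
        · rw [if_pos ⟨hc, hd⟩, if_pos hd]; ring
        · rw [if_neg (fun h => hd h.2), if_neg hd]; ring
    rw [e1, abs_mul]
    have h3 := abs_le.1 (hom n.toNat)
    have h4 : |-(CQ Q * (1 - om n.toNat) / (Real.log N) ^ 2)| ≤ 2 * CQ Q / (Real.log N) ^ 2 := by
      rw [abs_neg, abs_of_nonneg (by
        have : 0 ≤ 1 - om n.toNat := by linarith
        positivity)]
      apply div_le_div_of_nonneg_right _ (by positivity)
      nlinarith
    exact mul_le_mul h4 hb (abs_nonneg _) hlam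
  · have e1 : q07g δ Q N om n = 0 := by unfold q07g; rw [if_neg hc]
    have e2 : ∀ S ∈ (prQ Q).powerset.filter (fun S : Finset ℕ => S.card ≤ k),
        2 * CQ Q / (Real.log N) ^ 2 * q07r δ N om S n = 0 := by
      intro S _
      unfold q07r
      rw [if_neg (fun h => hc h.1), mul_zero]
    rw [e1, Finset.sum_eq_zero e2, sub_zero, abs_zero]
    exact mul_nonneg hlam hrhs

theorem q_rgh (h1 : S_bon) (h2 : S_tru) : S_rgh := by
  intro N q₁ k δ Q V β χ hN hδ hδ1 hQ hCQ hk hχ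
  classical
  have hQ0 : 0 ≤ Q := by linarith
  have hlog : 1 ≤ Real.log N := by
    rw [Real.le_log_iff_exp_le (by exact_mod_cast (by omega : 0 < N))]
    have h3 := Real.exp_one_lt_d9
    have h4 : (3 : ℝ) ≤ N := by exact_mod_cast hN
    linarith
  have hCQ0 : 0 ≤ CQ Q := by
    unfold CQ
    refine Finset.prod_nonneg fun p hp => inv_nonneg.2 ?_
    have h5 := (Finset.mem_filter.1 hp).2
    have h6 : (1 : ℝ) ≤ p := by exact_mod_cast h5.one_lt.le
    have h7 : 1 / (p : ℝ) ≤ 1 := by rw [div_le_one (by linarith)]; exact h6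
    linarith
  obtain ⟨t1, -, t3, -⟩ := h2 Q k hQ
  have t1 := t1 hk
  have hlam0 : 0 ≤ 2 * CQ Q / (Real.log N) ^ 2 := by positivity
  have hlam2 : 2 * CQ Q / (Real.log N) ^ 2 ≤ 2 := by
    rw [div_le_iff₀ (by positivity)]
    nlinarith
  have hmass : 2 * CQ Q / (Real.log N) ^ 2 * CQ Q ≤ 2 := by
    rw [div_mul_eq_mul_div, div_le_iff₀ (by positivity)]
    nlinarith
  refine ⟨{S // S ∈ (prQ Q).powerset.filter (fun S : Finset ℕ => S.card ≤ k)}, Empty, inferInstance,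
    inferInstance, fun S => ∏ p ∈ S.1, p, fun _ => 2 * CQ Q / (Real.log N) ^ 2,
    fun S x => ((q07r δ N (omf β χ) S.1 x : ℝ) : ℂ), fun e => e.elim, fun e => e.elim,
    fun e => e.elim, fun e => e.elim,
    fun n => (((q07g δ Q N (omf β χ) n - ∑ S ∈ (prQ Q).powerset.filter (fun S : Finset ℕ => S.card ≤ k),
      2 * CQ Q / (Real.log N) ^ 2 * q07r δ N (omf β χ) S n : ℝ)) : ℂ), ?_, ?_, fun e => e.elim,
    ?_, ?_, ?_, ?_⟩
  · rintro ⟨S, hS⟩
    rw [Finset.mem_filter, Finset.mem_powerset] at hS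
    refine ⟨q07_prod_pos hQ0 hS.1, ?_, hlam0, q07_typeI hN hδ hχ S⟩
    show (((∏ p ∈ S, p : ℕ)) : ℝ) ≤ Q ^ k
    rw [Nat.cast_prod]
    calc ∏ p ∈ S, (p : ℝ) ≤ ∏ _p ∈ S, Q :=
          Finset.prod_le_prod (fun p _ => Nat.cast_nonneg p) fun p hp =>
            ((q07_mem_prQ hQ0).1 (hS.1 hp)).2
      _ = Q ^ S.card := by rw [Finset.prod_const]
      _ ≤ Q ^ k := pow_le_pow_right₀ (by linarith) hS.2
  · rw [Finset.sum_coe_sort ((prQ Q).powerset.filter (fun S : Finset ℕ => S.card ≤ k))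
      (fun S => 2 * CQ Q / (Real.log N) ^ 2 / ((∏ p ∈ S, p : ℕ) : ℝ))]
    calc ∑ S ∈ (prQ Q).powerset.filter (fun S : Finset ℕ => S.card ≤ k),
          2 * CQ Q / (Real.log N) ^ 2 / ((∏ p ∈ S, p : ℕ) : ℝ)
        = 2 * CQ Q / (Real.log N) ^ 2 *
          ∑ S ∈ (prQ Q).powerset.filter (fun S : Finset ℕ => S.card ≤ k), ∏ p ∈ S, (1 / (p : ℝ)) := by
          rw [Finset.mul_sum]
          refine Finset.sum_congr rfl fun S _ => ?_
          rw [Nat.cast_prod, Finset.prod_div_distrib, Finset.prod_const_one]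
          ring
      _ ≤ 2 * CQ Q / (Real.log N) ^ 2 * ∑ S ∈ (prQ Q).powerset, ∏ p ∈ S, (1 / (p : ℝ)) := by
          refine mul_le_mul_of_nonneg_left ?_ hlam0
          refine Finset.sum_le_sum_of_subset_of_nonneg (Finset.filter_subset _ _) fun S _ _ => ?_
          exact Finset.prod_nonneg fun p _ => by positivity
      _ ≤ 2 * CQ Q / (Real.log N) ^ 2 * CQ Q := mul_le_mul_of_nonneg_left t3 hlam0
      _ ≤ 2 := hmass
  · simp
  · intro j; exact j.elim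
  · calc ∑ n ∈ Finset.Icc (1 : ℤ) N, ‖(((q07g δ Q N (omf β χ) n -
          ∑ S ∈ (prQ Q).powerset.filter (fun S : Finset ℕ => S.card ≤ k),
          2 * CQ Q / (Real.log N) ^ 2 * q07r δ N (omf β χ) S n : ℝ)) : ℂ)‖
        ≤ ∑ n ∈ Finset.Icc (1 : ℤ) N, 2 * ∑ S ∈ (prQ Q).powersetCard (k + 1),
          (if ((∏ p ∈ S, p : ℕ) : ℤ) ∣ n then (1 : ℝ) else 0) := by
          refine Finset.sum_le_sum fun n _ => ?_
          rw [Complex.norm_real, Real.norm_eq_abs]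
          refine (q07_err h1 hQ (q07_om hχ) hCQ0 n).trans ?_
          refine mul_le_mul_of_nonneg_right hlam2 ?_
          exact Finset.sum_nonneg fun S _ => by split_ifs <;> norm_num
      _ = 2 * ∑ S ∈ (prQ Q).powersetCard (k + 1), ∑ n ∈ Finset.Icc (1 : ℤ) N,
          (if ((∏ p ∈ S, p : ℕ) : ℤ) ∣ n then (1 : ℝ) else 0) := by
          rw [← Finset.mul_sum, Finset.sum_comm]
      _ ≤ 2 * ∑ S ∈ (prQ Q).powersetCard (k + 1), N * ∏ p ∈ S, (1 / (p : ℝ)) := by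
          refine mul_le_mul_of_nonneg_left (Finset.sum_le_sum fun S hS => ?_) (by norm_num)
          have hS1 := (Finset.mem_powersetCard.1 hS).1
          rw [Finset.sum_ite, Finset.sum_const_zero, add_zero, Finset.sum_const, nsmul_eq_mul,
            mul_one]
          refine (q07_count N _ (q07_prod_pos hQ0 hS1)).trans (le_of_eq ?_)
          rw [Nat.cast_prod, Finset.prod_div_distrib, Finset.prod_const_one]
          ring
      _ = 2 * (N * ∑ S ∈ (prQ Q).powersetCard (k + 1), ∏ p ∈ S, (1 / (p : ℝ))) := by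
          rw [← Finset.mul_sum]
      _ ≤ 2 * (N * Real.exp (-k)) := by
          refine mul_le_mul_of_nonneg_left (mul_le_mul_of_nonneg_left t1 (Nat.cast_nonneg N))
            (by norm_num)
      _ = 2 * Real.exp (-k) * N := by ring
  · intro n _
    rw [q07_gR]
    have e5 : (if δ * N ≤ (n : ℝ) then ∑ j : Empty, (((j.elim : ℝ)) : ℂ) *
        typeII (j.elim) (j.elim) (j.elim) n else 0) = (0 : ℂ) := by
      split_ifs <;> simp
    rw [e5, add_zero, Finset.sum_coe_sort ((prQ Q).powerset.filter (fun S : Finset ℕ => S.card ≤ k))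
      (fun S => ((2 * CQ Q / (Real.log N) ^ 2 : ℝ) : ℂ) * ((q07r δ N (omf β χ) S n : ℝ) : ℂ))]
    push_cast
    ring

end Pool.Agent.APP.Q
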